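import Pool.Agent.TH122.WmD

/-!
# The monodromy-weight conjecture from the absence of one weight
-/

open Module TensorProduct

universe u v

namespace Pool.Agent.TH122.Wm

namespace Theory

variable {E : Type u} [Field E] [CharZero E] [IsAlgClosed E] {𝒯 : Theory.{u, v} E}

/-- The numbers of weight `c`. -/
def Sw (E : Type u) [Field E] [CharZero E] (q : ℕ) (c : ℤ) : Set E := {α | IsWeilNumber q c α}

/-- The numbers of weight at most `c`. -/
def Sle (E : Type u) [Field E] [CharZero E] (q : ℕ) (c : ℤ) : Set E :=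
  {α | ∃ w ≤ c, IsWeilNumber q w α}

/-- **The iterates of `N` are injective.** -/
theorem inj_of_next (h : 𝒯.NextWeightMissing) (X : 𝒯.Obj) (i r : ℕ)
    (hr : 1 ≤ r) {x : 𝒯.H X i} (hx : x ∈ sp (𝒯.F X i) (Sw E (𝒯.q X) (i + r)))
    (hNx : (𝒯.N X i ^ r) x = 0) : x = 0 := by
  classical
  by_contra hx0
  obtain ⟨x₀, ⟨hx₀, hNx₀⟩, hx₀0, α, hFα⟩ := exists_eigen (𝒯.F X i)
    (sp (𝒯.F X i) (Sw E (𝒯.q X) (i + r)) ⊓ LinearMap.ker (𝒯.N X i ^ r))
    (by
      rintro y ⟨hy, hy'⟩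
      refine ⟨F_mem_sp hy, ?_⟩
      rw [SetLike.mem_coe, LinearMap.mem_ker] at hy' ⊢
      rw [N_pow_F (NF X i), hy', map_zero, smul_zero])
    ⟨x, ⟨hx, hNx⟩, hx0⟩
  rw [SetLike.mem_coe, LinearMap.mem_ker] at hNx₀
  have hα' : α ∈ Sw E (𝒯.q X) (i + r) := mem_of_eigen hFα hx₀0 hx₀
  have hα : IsWeilNumber (𝒯.q X) (i + r) α := hα'
  have hex : ∃ n, (𝒯.N X i ^ n) x₀ = 0 := ⟨r, hNx₀⟩
  have hn0 : Nat.find hex ≠ 0 := by
    intro h0
    have h1 := Nat.find_spec hex
    rw [h0, pow_zero, Module.End.one_apply] at h1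
    exact hx₀0 h1
  obtain ⟨s, hs⟩ : ∃ s, Nat.find hex = s + 1 := ⟨Nat.find hex - 1, by omega⟩
  have hs1 : (𝒯.N X i ^ (s + 1)) x₀ = 0 := by rw [← hs]; exact Nat.find_spec hex
  have hs0 : (𝒯.N X i ^ s) x₀ ≠ 0 := Nat.find_min hex (by omega)
  have hsr : s + 1 ≤ r := by rw [← hs]; exact Nat.find_min' hex hNx₀
  rcases Nat.eq_or_lt_of_le hr with rfl | hr2
  · obtain rfl : s = 0 := by omega
    rw [zero_add, pow_one] at hs1
    refine h X i α x₀ hx₀0 hs1 hFα ?_
    exact_mod_cast hα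
  · obtain ⟨k, hk⟩ : ∃ k, k = r - 1 := ⟨_, rfl⟩
    obtain ⟨T, y, hy, hy1, hy2⟩ := tate_pow (𝒯 := 𝒯) k (by omega)
    obtain ⟨Z, m, e, m', e', hm, he, hm', he', hd, hd', hφ⟩ := 𝒯.product X T
    obtain ⟨φ, hφ⟩ := hφ i k
    have he0 : (e : E) ≠ 0 := by exact_mod_cast he.ne'
    have he0' : (e' : E) ≠ 0 := by exact_mod_cast he'.ne'
    have hq : ((𝒯.q Z : ℕ) : E) = (𝒯.q X : E) ^ m := by rw [q_mul hd]; push_cast; rfl
    have hq' : ((𝒯.q Z : ℕ) : E) = (𝒯.q T : E) ^ m' := by rw [q_mul hd']; push_cast; rfl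
    obtain ⟨ξ, hξ, hNξ, hFξ⟩ := tensor_kernel (F₁ := 𝒯.F X i ^ m)
      (N₁ := (e : E) • 𝒯.N X i) (F₂ := 𝒯.F T k ^ m') (N₂ := (e' : E) • 𝒯.N T k)
      (F₃ := 𝒯.F Z (i + k)) (N₃ := 𝒯.N Z (i + k)) (Q := (𝒯.q Z : E)) (q_ne Z)
      (by
        intro x
        rw [LinearMap.smul_apply, LinearMap.smul_apply, NF_pow (NF X i), hq, map_smul,
          smul_comm])
      (by
        intro x
        rw [LinearMap.smul_apply, LinearMap.smul_apply, NF_pow (NF T k), hq', map_smul,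
          smul_comm])
      hφ.inj (fun x y => hφ.F x y) (fun x y => hφ.N x y) (x := x₀) (y := y) (α := α ^ m)
      (s := s) (k := k) (by omega) (pow_eigen hFα m)
      (by rw [smul_pow_apply]; exact smul_ne_zero (pow_ne_zero _ he0) hs0)
      (by rw [smul_pow_apply, hs1, smul_zero])
      (by rw [pow_eigen hy, hq', ← pow_mul, ← pow_mul, mul_comm])
      (by rw [smul_pow_apply]; exact smul_ne_zero (pow_ne_zero _ he0') hy1)
      (by rw [smul_pow_apply, hy2, smul_zero])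
    refine h Z (i + k) (α ^ m) ξ hξ hNξ hFξ ?_
    have h1 := hα.pow m
    rw [← q_mul hd] at h1
    have h2 : (((i + k : ℕ) : ℤ) + 1) = i + r := by
      push_cast
      omega
    rw [h2]
    exact h1

/-- **The iterates of `N` are surjective.** -/
theorem surj_of_next (hE : Nonempty (E →+* ℂ)) (h : 𝒯.NextWeightMissing) (X : 𝒯.Obj) (i r : ℕ)
    {y : 𝒯.H X i} (hy : y ∈ sp (𝒯.F X i) (Sw E (𝒯.q X) (i - r))) :
    ∃ x ∈ sp (𝒯.F X i) (Sw E (𝒯.q X) (i + r)), (𝒯.N X i ^ r) x = y := by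
  classical
  rcases Nat.eq_zero_or_pos r with rfl | hr
  · refine ⟨y, ?_, by simp⟩
    simpa using hy
  obtain ⟨b, hb⟩ := 𝒯.duality X i
  have hqX := one_lt_q X
  have hbF : ∀ x y, b (𝒯.F X i x) (𝒯.F X i y) = (𝒯.q X : E) ^ i * b x y := by
    intro x y
    rw [hb.F, ← q_cast]
  -- orthogonality
  have horth : ∀ c : ℤ, ∀ x ∈ sp (𝒯.F X i) (Sw E (𝒯.q X) (i + c)),
      (∀ y ∈ sp (𝒯.F X i) (Sw E (𝒯.q X) (i - c)), b x y = 0) → x = 0 := by
    intro c x hx hxy
    apply hb.left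
    intro y
    have h1 : y ∈ sp (𝒯.F X i) (Sw E (𝒯.q X) (i - c) ∪
        {α | ∃ w, w ≠ i - c ∧ IsWeilNumber (𝒯.q X) w α}) := by
      refine sp_mono ?_ (sp_eigenvalues (𝒯.F X i) y)
      intro α hα
      obtain ⟨w, hw⟩ := 𝒯.weights X i α hα
      by_cases hwc : w = i - c
      · left; rw [← hwc]; exact hw
      · right; exact ⟨w, hwc, hw⟩
    obtain ⟨y₁, hy₁, y₂, hy₂, rfl⟩ := sp_union h1
    rw [map_add, hxy y₁ hy₁, zero_add]
    refine ortho hbF ?_ hx hy₂
    rintro α hα β ⟨w, hw, hβ⟩ hαβ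
    have h2 := IsWeilNumber.mul hqX hα hβ
    rw [hαβ] at h2
    have h3 := h2.unique hE hqX (isWeilNumber_q (𝒯.q X) i)
    apply hw
    linarith
  set W₁ := sp (𝒯.F X i) (Sw E (𝒯.q X) (i + r)) with hW₁
  set W₂ := sp (𝒯.F X i) (Sw E (𝒯.q X) (i - r)) with hW₂
  have hdim : ∀ c : ℤ, Module.finrank E (sp (𝒯.F X i) (Sw E (𝒯.q X) (i + c))) ≤
      Module.finrank E (sp (𝒯.F X i) (Sw E (𝒯.q X) (i - c))) := by
    intro c
    set θ : sp (𝒯.F X i) (Sw E (𝒯.q X) (i + c)) →ₗ[E]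
        Module.Dual E (sp (𝒯.F X i) (Sw E (𝒯.q X) (i - c))) :=
      { toFun := fun x => b x ∘ₗ Submodule.subtype _
        map_add' := by intro x y; ext z; simp
        map_smul' := by intro c x; ext z; simp } with hθ
    have hinj : Function.Injective θ := by
      rw [← LinearMap.ker_eq_bot, LinearMap.ker_eq_bot']
      rintro ⟨x, hx⟩ h0
      apply Subtype.ext
      apply horth c x hx
      intro y hy
      exact congrArg (fun f => f ⟨y, hy⟩) h0
    have h1 := LinearMap.finrank_le_finrank_of_injective hinj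
    rwa [Subspace.dual_finrank_eq] at h1
  have hfin : Module.finrank E W₁ = Module.finrank E W₂ := by
    apply le_antisymm (hdim r)
    have := hdim (-r)
    rw [sub_neg_eq_add, ← sub_eq_add_neg] at this
    exact this
  have hpow : ∀ a : ℕ, ∀ c : ℤ, ∀ x ∈ sp (𝒯.F X i) (Sw E (𝒯.q X) c),
      (𝒯.N X i ^ a) x ∈ sp (𝒯.F X i) (Sw E (𝒯.q X) (c - 2 * a)) := by
    intro a
    induction a with
    | zero => intro c x hx; simpa using hx
    | succ a ih =>
      intro c x hx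
      rw [pow_succ', Module.End.mul_apply]
      refine N_mem_sp (q_ne X) (NF X i) ?_ (ih c x hx)
      intro α hα
      have h1 := (isWeilNumber_q (E := E) (𝒯.q X) 1).inv
      rw [pow_one] at h1
      have h2 := IsWeilNumber.mul hqX hα h1
      rw [div_eq_mul_inv]
      have h3 : (c - 2 * a + -(2 * ((1 : ℕ) : ℤ))) = c - 2 * ((a + 1 : ℕ) : ℤ) := by
        push_cast; ring
      rw [h3] at h2
      exact h2
  have hmap : ∀ x ∈ W₁, (𝒯.N X i ^ r) x ∈ W₂ := by
    intro x hx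
    have h1 := hpow r _ x hx
    have h2 : ((i : ℤ) + r - 2 * r) = i - r := by ring
    rwa [h2] at h1
  set g : W₁ →ₗ[E] W₂ := (𝒯.N X i ^ r).restrict hmap with hg
  have hinj : Function.Injective g := by
    rw [← LinearMap.ker_eq_bot, LinearMap.ker_eq_bot']
    rintro ⟨x, hx⟩ h0
    apply Subtype.ext
    exact inj_of_next h X i r hr hx (congrArg Subtype.val h0)
  obtain ⟨x, hx⟩ := (LinearMap.injective_iff_surjective_of_finrank_eq_finrank hfin).1 hinj ⟨y, hy⟩
  exact ⟨x, x.2, congrArg Subtype.val hx⟩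

/-- (3) implies (1). -/
theorem mw_of_next (hE : Nonempty (E →+* ℂ)) (h : 𝒯.NextWeightMissing) : 𝒯.MonodromyWeight := by
  classical
  intro X i
  have hqX := one_lt_q X
  set F := 𝒯.F X i with hF
  set N := 𝒯.N X i with hN
  set q := 𝒯.q X with hq
  have hle : ∀ c : ℤ, Sle E q c ⊆ Sle E q (c - 1) ∪ Sw E q c := by
    rintro c α ⟨w, hw, hα⟩
    rcases lt_or_eq_of_le hw with h1 | h1
    · left; exact ⟨w, by omega, hα⟩
    · right; rw [← h1]; exact hα
  have hdisj : ∀ c c' : ℤ, c < c' → Disjoint (Sle E q c) (Sw E q c') := by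
    intro c c' hcc
    rw [Set.disjoint_left]
    rintro α ⟨w, hw, hα⟩ hα'
    have := hα.unique hE hqX hα'
    omega
  have hmono : ∀ c c' : ℤ, c ≤ c' → Sle E q c ⊆ Sle E q c' := by
    rintro c c' hcc α ⟨w, hw, hα⟩
    exact ⟨w, hw.trans hcc, hα⟩
  have hqq : IsWeilNumber (E := E) q (-2) (q : E)⁻¹ := by
    have h1 := (isWeilNumber_q (E := E) q 1).inv
    rw [pow_one] at h1
    exact h1
  have hN1 : ∀ c : ℤ, ∀ x ∈ sp F (Sle E q c), N x ∈ sp F (Sle E q (c - 2)) := by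
    intro c x hx
    refine N_mem_sp (q_ne X) (NF X i) ?_ hx
    rintro α ⟨w, hw, hα⟩
    rw [div_eq_mul_inv]
    exact ⟨w + -2, by omega, IsWeilNumber.mul hqX hα hqq⟩
  have hN2 : ∀ a : ℕ, ∀ c : ℤ, ∀ x ∈ sp F (Sle E q c),
      (N ^ a) x ∈ sp F (Sle E q (c - 2 * a)) := by
    intro a
    induction a with
    | zero => intro c x hx; simpa using hx
    | succ a ih =>
      intro c x hx
      rw [pow_succ', Module.End.mul_apply]
      have h1 := hN1 _ _ (ih c x hx)
      have h2 : c - 2 * (a : ℤ) - 2 = c - 2 * ((a + 1 : ℕ) : ℤ) := by push_cast; ring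
      rwa [h2] at h1
  have hN3 : ∀ a : ℕ, ∀ c : ℤ, ∀ x ∈ sp F (Sw E q c),
      (N ^ a) x ∈ sp F (Sw E q (c - 2 * a)) := by
    intro a
    induction a with
    | zero => intro c x hx; simpa using hx
    | succ a ih =>
      intro c x hx
      rw [pow_succ', Module.End.mul_apply]
      refine N_mem_sp (q_ne X) (NF X i) ?_ (ih c x hx)
      intro α hα
      rw [div_eq_mul_inv]
      have h1 := IsWeilNumber.mul hqX hα hqq
      have h2 : c - 2 * (a : ℤ) + -2 = c - 2 * ((a + 1 : ℕ) : ℤ) := by push_cast; ring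
      rwa [h2] at h1
  -- the weights
  have hfinite : {α | F.HasEigenvalue α}.Finite := by
    have h1 : {α | F.HasEigenvalue α} ⊆ {α | α ∈ (minpoly E F).roots} := by
      intro α hα
      have h2 : minpoly E F ≠ 0 := minpoly.ne_zero (Algebra.IsIntegral.isIntegral F)
      exact (Polynomial.mem_roots h2).2 (Module.End.isRoot_of_hasEigenvalue hα)
    exact (Multiset.finite_toSet _).subset h1
  choose! wt hwt using 𝒯.weights X i
  have hfw : (wt '' {α | F.HasEigenvalue α}).Finite := hfinite.image _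
  obtain ⟨B, hB⟩ := hfw.bddAbove
  obtain ⟨A, hA⟩ := hfw.bddBelow
  have hev := sp_eigenvalues F
  refine ⟨fun a => sp F (Sle E q (i + a)), ⟨?_, ?_, ?_, ?_, ?_, ?_⟩, ?_, ?_⟩
  · intro a a' haa
    exact sp_mono (hmono _ _ (by omega))
  · refine ⟨A - 1 - i, ?_⟩
    rw [Submodule.eq_bot_iff]
    intro x hx
    refine sp_disjoint (S := Sle E q (i + (A - 1 - i))) (T := {α | F.HasEigenvalue α}) ?_ hx
      (hev x)
    rw [Set.disjoint_left]
    rintro α ⟨w, hw, hα⟩ hα'
    have h1 := hα.unique hE hqX (hwt α hα')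
    have h2 := hA ⟨α, hα', rfl⟩
    omega
  · refine ⟨B - i, ?_⟩
    rw [eq_top_iff]
    intro x _
    refine sp_mono ?_ (hev x)
    intro α hα
    have h2 := hB ⟨α, hα, rfl⟩
    exact ⟨wt α, by omega, hwt α hα⟩
  · intro a x hx
    have h1 := hN1 _ x hx
    have h2 : (i : ℤ) + a - 2 = i + (a - 2) := by ring
    rwa [h2] at h1
  · intro a x hx hNx
    obtain ⟨y, hy, z, hz, rfl⟩ := sp_union (sp_mono (hle _) hx)
    have hz' : (N ^ a) z ∈ sp F (Sle E q (i + (-a - 1))) := by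
      have h1 := hN2 a _ y hy
      have h2 : (i : ℤ) + a - 1 - 2 * a = i + (-a - 1) := by ring
      rw [h2] at h1
      have h3 := Submodule.sub_mem _ hNx h1
      rwa [map_add, add_sub_cancel_left] at h3
    have hz'' : (N ^ a) z ∈ sp F (Sw E q (i - a)) := by
      have h1 := hN3 a _ z hz
      have h2 : (i : ℤ) + a - 2 * a = i - a := by ring
      rwa [h2] at h1
    have h0 : (N ^ a) z = 0 := sp_disjoint (hdisj _ _ (by omega)) hz' hz''
    have hz0 : z = 0 := by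
      rcases Nat.eq_zero_or_pos a with rfl | ha
      · simpa using h0
      · exact inj_of_next h X i a ha hz h0
    rw [hz0, add_zero]
    have h2 : (i : ℤ) + a - 1 = i + (a - 1) := by ring
    rwa [h2] at hy
  · intro a y hy
    obtain ⟨y', hy', z, hz, rfl⟩ := sp_union (sp_mono (hle _) hy)
    have h2 : (i : ℤ) + -a = i - a := by ring
    rw [h2] at hz
    obtain ⟨x, hx, hxz⟩ := surj_of_next hE h X i a hz
    refine ⟨x, sp_mono ?_ hx, ?_⟩
    · intro α hα
      exact ⟨_, le_rfl, hα⟩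
    · rw [← hN] at hxz
      rw [hxz, add_sub_cancel_right]
      have h3 : (i : ℤ) + -a - 1 = i + (-a - 1) := by ring
      rwa [h3] at hy'
  · intro a x hx
    exact F_mem_sp hx
  · intro a α x hx hx' hFx
    obtain ⟨y, hy, z, hz, rfl⟩ := sp_union (sp_mono (hle _) hx)
    have e1 : (i : ℤ) + a - 1 = i + (a - 1) := by ring
    rw [e1] at hy
    have h1 : F z - α • z ∈ sp F (Sle E q (i + (a - 1))) := by
      have h2 : F z - α • z = (F (y + z) - α • (y + z)) - (F y - α • y) := by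
        rw [map_add, smul_add]; abel
      rw [h2]
      exact Submodule.sub_mem _ hFx
        (Submodule.sub_mem _ (F_mem_sp hy) (Submodule.smul_mem _ _ hy))
    have h2 : F z - α • z ∈ sp F (Sw E q (i + a)) :=
      Submodule.sub_mem _ (F_mem_sp hz) (Submodule.smul_mem _ _ hz)
    have h3 : F z - α • z = 0 := sp_disjoint (hdisj _ _ (by omega)) h1 h2
    rw [sub_eq_zero] at h3
    have hz0 : z ≠ 0 := by
      rintro rfl
      rw [add_zero] at hx'
      exact hx' hy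
    have h4 : α ∈ Sw E q (i + a) := mem_of_eigen h3 hz0 hz
    exact h4

/-- **The monodromy-weight conjecture and the Galois cohomology of `H ^ (2 j - 1) (j)`.** -/
theorem tfae_mw (𝒯 : Theory.{u, v} E) (hE : Nonempty (E →+* ℂ)) :
    [𝒯.MonodromyWeight, 𝒯.WeightsAtMost, 𝒯.NextWeightMissing, 𝒯.NoGaloisInvariants,
      𝒯.NoGaloisCohomology].TFAE := by
  tfae_have 1 → 2 := weights_of_mw hE
  tfae_have 2 → 3 := next_of_weights
  tfae_have 3 → 4 := invariants_of_next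
  tfae_have 4 → 3 := next_of_invariants
  tfae_have 4 ↔ 5 := invariants_iff
  tfae_have 3 → 1 := mw_of_next hE
  tfae_finish

end Theory

end Pool.Agent.TH122.Wm
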