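import Pool.Agent.TH122.IsoG

/-!
# Functionals which are bounded on the vectors of given length
-/

open Finset Polynomial

namespace Pool.Agent.TH122.Aniso

open Pool.Agent.H914

variable {K : Type*} [Field K] [CharZero K] {V : Type*} [AddCommGroup V] [Module K V]
  [Module.Finite K V]

/-- A rational functional which vanishes on the isotropic vectors of a semidefinite form is bounded
on the vectors of a given length. -/
theorem bounded_of_semidef (Φ : V →ₗ[K] V →ₗ[K] K) (S : Set V)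
    (hadd : ∀ a ∈ S, ∀ b ∈ S, a + b ∈ S) (h0 : (0 : V) ∈ S)
    (hsmul : ∀ q : ℚ, ∀ a ∈ S, (q : K) • a ∈ S)
    (hsymm : ∀ a ∈ S, ∀ b ∈ S, Φ a b = Φ b a)
    (hrat : ∀ a ∈ S, ∀ b ∈ S, ∃ s : ℚ, Φ a b = s)
    (hpos : ∀ a ∈ S, ∃ s : ℚ, Φ a a = s ∧ 0 ≤ s) (b : ℚ) (F : V →ₗ[K] K)
    (hFrat : ∀ a ∈ S, ∃ s : ℚ, F a = s) (hFrad : ∀ a ∈ S, Φ a a = 0 → F a = 0) :
    ∃ C : ℚ, ∀ a ∈ S, Φ a a = b → ∀ s : ℚ, F a = s → |s| ≤ C := by
  classical
  obtain ⟨N, x, hx, ho, hmax⟩ := exists_orthogonal_family Φ S hsymm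
  have hd : ∀ i, ∃ s : ℚ, Φ (x i) (x i) = s ∧ 0 < s := by
    intro i
    obtain ⟨s, hs, hs0⟩ := hpos _ (hx i).1
    refine ⟨s, hs, lt_of_le_of_ne hs0 ?_⟩
    rintro rfl
    exact (hx i).2 (by rw [hs, Rat.cast_zero])
  choose d hd1 hd2 using hd
  choose f hf using fun i => hFrat (x i) (hx i).1
  have hneg : ∀ a ∈ S, -a ∈ S := by
    intro a ha
    have := hsmul (-1) a ha
    simpa using this
  have hsum : ∀ {ι : Type} (s : Finset ι) (y : ι → V), (∀ i ∈ s, y i ∈ S) →
      ∑ i ∈ s, y i ∈ S := by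
    intro ι s y hy
    induction s using Finset.induction_on with
    | empty => simpa using h0
    | insert a s ha ih =>
      rw [Finset.sum_insert ha]
      exact hadd _ (hy a (by simp)) _ (ih (fun i hi => hy i (by simp [hi])))
  refine ⟨∑ i, (1 + b / d i) * |f i|, fun a ha hab s hs => ?_⟩
  choose σ hσ using fun i => hrat a ha (x i) (hx i).1
  have hbound : ∀ i, |σ i / d i| ≤ 1 + b / d i := by
    intro i
    have hdi : (d i : K) ≠ 0 := by exact_mod_cast (hd2 i).ne'
    obtain ⟨s', hs', hs0'⟩ := hpos (a + ((-(σ i / d i) : ℚ) : K) • x i)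
      (hadd _ ha _ (hsmul _ _ (hx i).1))
    have h1 : Φ (a + ((-(σ i / d i) : ℚ) : K) • x i) (a + ((-(σ i / d i) : ℚ) : K) • x i) =
        ((b - (σ i) ^ 2 / d i : ℚ) : K) := by
      simp only [map_add, map_smul, LinearMap.add_apply, LinearMap.smul_apply, smul_eq_mul,
        hsymm (x i) (hx i).1 a ha, hσ, hab, hd1]
      push_cast
      field_simp
      ring
    rw [h1] at hs'
    have h2 : b - (σ i) ^ 2 / d i = s' := by exact_mod_cast hs'
    have h3 : (σ i / d i) ^ 2 ≤ b / d i := by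
      rw [div_pow, pow_two (d i), ← div_div]
      exact div_le_div_of_nonneg_right (by linarith) (hd2 i).le
    have h4 : |σ i / d i| ^ 2 ≤ b / d i := by rwa [sq_abs]
    by_cases h5 : |σ i / d i| ≤ 1
    · have : 0 ≤ b / d i := le_trans (sq_nonneg _) h3
      linarith
    · push Not at h5
      have : |σ i / d i| ≤ |σ i / d i| ^ 2 := by nlinarith
      linarith
  set r := a - ∑ i, ((σ i / d i : ℚ) : K) • x i with hr
  have hrS : r ∈ S := by
    rw [hr, sub_eq_add_neg]
    exact hadd _ ha _ (hneg _ (hsum Finset.univ (fun i => ((σ i / d i : ℚ) : K) • x i)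
      (fun i _ => hsmul _ _ (hx i).1)))
  have hr0 : Φ r r = 0 := by
    apply hmax _ hrS
    intro i
    rw [hr, map_sub, LinearMap.sub_apply, map_sum, LinearMap.sum_apply, Finset.sum_eq_single i]
    · rw [map_smul, LinearMap.smul_apply, hd1, hσ, smul_eq_mul]
      have : (d i : K) ≠ 0 := by exact_mod_cast (hd2 i).ne'
      push_cast
      field_simp
      ring
    · intro j _ hj
      rw [map_smul, LinearMap.smul_apply, ho j i hj, smul_zero]
    · intro h; exact absurd (Finset.mem_univ i) h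
  have hFr := hFrad r hrS hr0
  have hFa : s = ∑ i, σ i / d i * f i := by
    have h1 : F a = ((∑ i, σ i / d i * f i : ℚ) : K) := by
      have h2 : a = r + ∑ i, ((σ i / d i : ℚ) : K) • x i := by rw [hr]; abel
      rw [h2, map_add, hFr, zero_add, map_sum]
      push_cast
      apply Finset.sum_congr rfl
      intro i _
      rw [map_smul, hf, smul_eq_mul]
    rw [hs] at h1
    exact_mod_cast h1
  rw [hFa]
  refine le_trans (Finset.abs_sum_le_sum_abs _ _) (Finset.sum_le_sum fun i _ => ?_)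
  rw [abs_mul]
  exact mul_le_mul_of_nonneg_right (hbound i) (abs_nonneg _)

end Pool.Agent.TH122.Aniso
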