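import Pool.Agent.TH122.NumF

/-!
# Integral cycles and integral isometries: definitions
-/

open CategoryTheory AlgebraicGeometry Finset

universe u v w

namespace Pool.Agent.TH122.Num

open Pool.Agent.H914 Pool.Agent.H914.VarClass Pool.Agent.H914.VarClass.Obj
  Pool.Agent.H914.WeilCohomology Pool.Agent.H281R3.HT Pool.Agent.TH122.Aniso

variable {k : Type u} [Field k] {𝒱 : VarClass k}

/-- The cycle `z` has integral coefficients. -/
def IsIntegralCycle (X : 𝒱.Obj) (z : X.Cycles) : Prop := ∀ x, ∃ n : ℤ, X.V.coeff z x = n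

/-- The operations on cycles preserve the cycles with integral coefficients. -/
structure IntegralOps (ops : CycleOps 𝒱) : Prop where
  mul : ∀ {X : 𝒱.Obj} {z w : X.Cycles}, IsIntegralCycle X z → IsIntegralCycle X w →
    IsIntegralCycle X (ops.mul z w)
  pull : ∀ {X Y : 𝒱.Obj} (f : X ⟶ Y) {z : Y.Cycles}, IsIntegralCycle Y z →
    IsIntegralCycle X (ops.pull f z)
  push : ∀ {X Y : 𝒱.Obj} (f : X ⟶ Y) {z : X.Cycles}, IsIntegralCycle X z →
    IsIntegralCycle Y (ops.push f z)

/-- The numerical isometries with integral coefficients of `X` form finitely many classes modulo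
numerical equivalence. -/
def FinitelyManyIsometries (ops : CycleOps 𝒱) (X : 𝒱.Obj) (D : X.Cycles) : Prop :=
  ∃ s : Set (X.prod X).Cycles, s.Finite ∧ ∀ u, IsNumIsometry ops X D u →
    IsIntegralCycle (X.prod X) u →
      ∃ v ∈ s, (X.prod X).IsCyc X.dim v ∧ NumTrivial ops (X.prod X) X.dim (u - v)

/-- Every numerical isometry with integral coefficients of `X` has finite order modulo numerical
equivalence. -/
def IsometriesOfFiniteOrder (ops : CycleOps 𝒱) (X : 𝒱.Obj) (D : X.Cycles) : Prop :=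
  ∀ u, IsNumIsometry ops X D u → IsIntegralCycle (X.prod X) u →
    ∃ m, 0 < m ∧ NumTrivial ops (X.prod X) X.dim (corPow ops X u m - diagonal ops X)

variable {X : 𝒱.Obj}

lemma coeff_add (z w : X.Cycles) (x : X.V.X) :
    X.V.coeff (z + w) x = X.V.coeff z x + X.V.coeff w x :=
  Finsupp.add_apply (M := ℚ) (ι := X.V.X) z w x

lemma coeff_smul (q : ℚ) (z : X.Cycles) (x : X.V.X) :
    X.V.coeff (q • z) x = q * X.V.coeff z x :=
  Finsupp.smul_apply (M := ℚ) (α := X.V.X) q z x

lemma IsIntegralCycle.add {z w : X.Cycles} (hz : IsIntegralCycle X z)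
    (hw : IsIntegralCycle X w) : IsIntegralCycle X (z + w) := by
  intro x
  obtain ⟨a, ha⟩ := hz x
  obtain ⟨b, hb⟩ := hw x
  exact ⟨a + b, by rw [coeff_add, ha, hb]; push_cast; rfl⟩

lemma IsIntegralCycle.smul {z : X.Cycles} (hz : IsIntegralCycle X z) (n : ℤ) :
    IsIntegralCycle X ((n : ℚ) • z) := by
  intro x
  obtain ⟨a, ha⟩ := hz x
  exact ⟨n * a, by rw [coeff_smul, ha]; push_cast; rfl⟩

lemma isIntegral_fund : IsIntegralCycle X X.V.fundCycle := by
  classical
  intro x
  refine ⟨if genericPoint X.V.X = x then 1 else 0, ?_⟩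
  have h1 : X.V.coeff X.V.fundCycle x = if genericPoint X.V.X = x then (1 : ℚ) else 0 :=
    Finsupp.single_apply
  rw [h1]
  split_ifs <;> simp

lemma degCycle_integral {z : X.Cycles} (hz : IsIntegralCycle X z) :
    ∃ n : ℤ, X.V.degCycle z = n := by
  classical
  choose a ha using hz
  refine ⟨∑ x ∈ (show X.V.X →₀ ℚ from z).support, a x, ?_⟩
  have h1 : X.V.degCycle z = ∑ x ∈ (show X.V.X →₀ ℚ from z).support, X.V.coeff z x := rfl
  rw [h1]
  push_cast
  exact Finset.sum_congr rfl fun x _ => ha x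

/-- Some positive multiple of a cycle is integral. -/
lemma exists_integral_smul (z : X.Cycles) :
    ∃ M : ℕ, 0 < M ∧ IsIntegralCycle X ((M : ℚ) • z) := by
  classical
  refine ⟨∏ x ∈ (show X.V.X →₀ ℚ from z).support, (X.V.coeff z x).den,
    Finset.prod_pos fun x _ => (X.V.coeff z x).den_pos, fun x => ?_⟩
  rw [coeff_smul]
  by_cases hx : X.V.coeff z x = 0
  · exact ⟨0, by rw [hx]; simp⟩
  · have hxs : x ∈ (show X.V.X →₀ ℚ from z).support := Finsupp.mem_support_iff.2 hx
    rw [← Finset.mul_prod_erase _ _ hxs]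
    refine ⟨(∏ y ∈ (show X.V.X →₀ ℚ from z).support.erase x, ((X.V.coeff z y).den : ℤ)) *
      (X.V.coeff z x).num, ?_⟩
    have h1 : ((X.V.coeff z x).den : ℚ) * X.V.coeff z x = (X.V.coeff z x).num :=
      Rat.den_mul_eq_num _
    push_cast
    rw [mul_comm ((X.V.coeff z x).den : ℚ), mul_assoc, h1]

end Pool.Agent.TH122.Num
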