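import Pool.Agent.TH122.FinA
import Pool.Agent.TH122.FinB

/-!
# Finiteness of the integral isometries from the conjecture of Hodge type
-/

open CategoryTheory AlgebraicGeometry Finset Polynomial

universe u v w

namespace Pool.Agent.TH122.Num

open Pool.Agent.H914 Pool.Agent.H914.VarClass Pool.Agent.H914.VarClass.Obj
  Pool.Agent.H914.WeilCohomology Pool.Agent.H281R3.HT Pool.Agent.TH122.Aniso Pool.Agent.H447
  Pool.Agent.W539.Sig

variable {k : Type u} [Field k] {𝒱 : VarClass k} {ops : CycleOps 𝒱}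
  {X : 𝒱.Obj}

lemma deg_cast (W : WeilCohomology.{u, v} ops) {p q : ℕ} (hpq : p + q = X.dim) {z w : X.Cycles}
    (hz : X.IsCyc p z) (hw : X.IsCyc q w) :
    (X.V.degCycle (ops.mul z w) : W.K) = W.tr X (W.cl X z * W.cl X w) := by
  have h1 := ops.mul_mem hz hw
  rw [hpq] at h1
  rw [← W.cl_mul, W.tr_cl h1]

lemma deg_sub (W : WeilCohomology.{u, v} ops) {p q : ℕ} (hpq : p + q = X.dim)
    {z z' w : X.Cycles} (hz : X.IsCyc p z) (hz' : X.IsCyc p z') (hw : X.IsCyc q w) :
    X.V.degCycle (ops.mul (z - z') w) =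
      X.V.degCycle (ops.mul z w) - X.V.degCycle (ops.mul z' w) := by
  have h1 : (X.V.degCycle (ops.mul (z - z') w) : W.K) =
      ((X.V.degCycle (ops.mul z w) - X.V.degCycle (ops.mul z' w) : ℚ) : W.K) := by
    push_cast
    rw [deg_cast W hpq (IsCyc.sub hz hz') hw, deg_cast W hpq hz hw, deg_cast W hpq hz' hw,
      map_sub, sub_mul, map_sub]
  exact_mod_cast h1

/-- Finitely many integral cycles detect numerical triviality. -/
lemma exists_tests (W : WeilCohomology.{u, v} ops) {p q : ℕ} (hpq : p + q = X.dim) :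
    ∃ t : Finset X.Cycles, (∀ w ∈ t, X.IsCyc q w ∧ IsIntegralCycle X w) ∧
      ∀ z, X.IsCyc p z → (∀ w ∈ t, X.V.degCycle (ops.mul z w) = 0) → NumTrivial ops X p z := by
  classical
  set s : Set (W.H X) := {c | ∃ w, (X.IsCyc q w ∧ IsIntegralCycle X w) ∧ W.cl X w = c} with hs
  have hfg : (Submodule.span W.K s).FG := IsNoetherian.noetherian _
  obtain ⟨t', ht', hspan⟩ := (Submodule.fg_span_iff_fg_span_finset_subset s).1 hfg
  choose! g hg1 hg2 using fun c (hc : c ∈ s) => hc
  refine ⟨t'.image g, ?_, ?_⟩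
  · intro w hw
    obtain ⟨c, hc, rfl⟩ := Finset.mem_image.1 hw
    exact hg1 c (ht' hc)
  · intro z hz h i hi y hy
    obtain rfl : i = q := by omega
    obtain ⟨M, hM, hMy⟩ := exists_integral_smul y
    have h1 : ∀ c ∈ Submodule.span W.K s, W.tr X (W.cl X z * c) = 0 := by
      intro c hc
      rw [hspan] at hc
      induction hc using Submodule.span_induction with
      | mem c hc =>
        have h2 := h (g c) (Finset.mem_image_of_mem g hc)
        have h3 := deg_cast W hpq hz (hg1 c (ht' hc)).1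
        rw [h2, Rat.cast_zero, hg2 c (ht' hc)] at h3
        exact h3.symm
      | zero => rw [mul_zero, map_zero]
      | add a b _ _ ha hb => rw [mul_add, map_add, ha, hb, add_zero]
      | smul r a _ ha => rw [mul_smul_comm, map_smul, ha, smul_zero]
    have hMc : X.IsCyc i ((M : ℚ) • y) := hy.smul _
    have h2 := h1 (W.cl X ((M : ℚ) • y)) (Submodule.subset_span ⟨_, ⟨hMc, hMy⟩, rfl⟩)
    rw [W.cl_smul, mul_smul_comm, map_smul, ← deg_cast W hpq hz hy, smul_eq_mul] at h2
    have hM0 : (((M : ℚ)) : W.K) ≠ 0 := by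
      rw [Rat.cast_natCast]; exact_mod_cast hM.ne'
    have h3 := (mul_eq_zero.1 h2).resolve_left hM0
    exact_mod_cast h3

variable {W : WeilCohomology.{u, v} ops} {D : X.Cycles}

/-- Numerical isometries in terms of operators. -/
lemma isNumIsometry_iff (hD : X.IsCyc 1 D) {u : (X.prod X).Cycles}
    (hu : (X.prod X).IsCyc X.dim u) :
    IsNumIsometry ops X D u ↔ NComm W X D (W.corr (W.cl _ u)) ∧
      NumR (W.isInternal X) (ROp W X) 0
        (tp W X (W.corr (W.cl _ u)) * W.corr (W.cl _ u) - 1) := by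
  have hm1 : (X.prod X).IsCyc (X.dim + 1)
      (ops.mul (ops.pull (fst X X) D) u - ops.mul (ops.pull (snd X X) D) u) := by
    apply IsCyc.sub
    · have := ops.mul_mem (ops.pull_mem (fst X X) hD) hu
      rwa [add_comm] at this
    · have := ops.mul_mem (ops.pull_mem (snd X X) hD) hu
      rwa [add_comm] at this
  have hm2 : (X.prod X).IsCyc X.dim (compCyc ops u (transpose ops X u) - diagonal ops X) :=
    IsCyc.sub (compCyc_mem hu (transpose_mem hu) (by omega)) (diagonal_mem X)
  have h1 := numR_iff (W := W) (d := 1) (by push_cast; ring) hm1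
  have h2 := numR_iff (W := W) (d := 0) (by ring) hm2
  rw [map_sub, corr_sub', W.cl_mul, W.cl_mul, W.cl_pull, W.cl_pull,
    corr_fst _ _ (W.cl_mem hD), corr_snd _ _ (W.cl_mem hD)] at h1
  rw [map_sub, corr_sub', corr_compCyc W (transpose_mem hu), corr_diagonal,
    transpose_eq, W.cl_pull, ← tp_corr] at h2
  constructor
  · intro h
    exact ⟨⟨rop_of_cyc hu, h1.2 h.lefschetz⟩, h2.2 h.isometry⟩
  · rintro ⟨h3, h4⟩
    exact ⟨hu, h1.1 h3.2, h2.1 h4⟩

/-- The pairing with the cycle `w`, as a functional on operators. -/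
noncomputable def testFun (W : WeilCohomology.{u, v} ops) (X : 𝒱.Obj) (w : (X.prod X).Cycles) :
    Module.End W.K (W.H X) →ₗ[W.K] W.K :=
  LinearMap.trace W.K (W.H X) ∘ₗ LinearMap.mulLeft W.K (par (W.isInternal X)) ∘ₗ
    LinearMap.mulRight W.K (W.corr (W.cl _ (ops.pull (swap X X) w)))

lemma testFun_corr {z w : (X.prod X).Cycles} (hz : (X.prod X).IsCyc X.dim z)
    (hw : (X.prod X).IsCyc X.dim w) :
    testFun W X w (W.corr (W.cl _ z)) = ((X.prod X).V.degCycle (ops.mul z w) : W.K) := by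
  rw [deg_eq_str (p := X.dim) (q := X.dim) (by omega) hz hw]
  rfl

lemma testFun_numR {w : (X.prod X).Cycles} (hw : (X.prod X).IsCyc X.dim w)
    {y : Module.End W.K (W.H X)} (hy : NumR (W.isInternal X) (ROp W X) 0 y) :
    testFun W X w y = 0 :=
  hy.2 _ (rop_corr (p := X.dim) (by simp) (ops.pull_mem (swap X X) hw))

lemma tform_iso (hK : KunnethStd W X) {U : Module.End W.K (W.H X)}
    (hU : NumR (W.isInternal X) (ROp W X) 0 (tp W X U * U - 1)) :
    tform W X U U = ((Module.finrank W.K (W.H X) : ℚ) : W.K) := by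
  have h1 := numR_trace hK hU rop_opAlg.one
  rw [mul_one, map_sub, sub_eq_zero, LinearMap.trace_one] at h1
  rw [tform_apply, LinearMap.trace_mul_comm, h1, Rat.cast_natCast]

/-- **The conjecture of Hodge type implies the finiteness of the integral isometries.** -/
theorem finite_of_hodge (hops : IntegralOps ops) (hD : X.IsCyc 1 D) (hK : KunnethStd W X)
    (hH : HodgeTypeNum ops (X.prod X) (boxSum ops D)) : FinitelyManyIsometries ops X D := by
  classical
  have hdim : X.dim + X.dim = (X.prod X).dim := rfl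
  obtain ⟨t, ht, htest⟩ := exists_tests W (X := X.prod X) (p := X.dim) (q := X.dim) hdim
  have hC : ∀ w ∈ t, ∃ C : ℚ, ∀ y, NComm W X D y →
      tform W X y y = ((Module.finrank W.K (W.H X) : ℚ) : W.K) →
        ∀ s : ℚ, testFun W X w y = s → |s| ≤ C := by
    intro w hw
    exact bounded_of_semidef (tform W X) {y | NComm W X D y}
      (fun a ha b hb => ha.add hb) NComm.zero (fun q a ha => ha.smul q)
      (by
        intro a ha b hb
        rw [tform_apply, tform_apply, ← trace_tp (rop_mul0 ha.1 (rop_tp hb.1)),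
          tp_mul ha.1 (rop_tp hb.1), tp_tp hb.1])
      (fun a ha b hb => exists_trace hK (rop_mul0 ha.1 (rop_tp hb.1)))
      (fun a ha => by
        obtain ⟨s, hs, hs0, _⟩ := tform_num hD hK hH ha
        exact ⟨s, hs, hs0⟩)
      _ (testFun W X w)
      (by
        intro a ha
        obtain ⟨z, hz, rfl⟩ := cyc_of_rop ha.1
        exact ⟨_, testFun_corr hz (ht w hw).1⟩)
      (by
        intro a ha ha0
        obtain ⟨s, hs, _, hs0⟩ := tform_num hD hK hH ha
        have h3 : (s : W.K) = 0 := by rw [← hs]; exact ha0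
        exact testFun_numR (ht w hw).1 (hs0 (by exact_mod_cast h3)))
  choose! C hC using hC
  set A : Set (t → ℤ) := Set.Icc (fun w => -⌈C w⌉) (fun w => ⌈C w⌉) with hA
  have hAfin : A.Finite := Set.finite_Icc _ _
  set Q : (t → ℤ) → (X.prod X).Cycles → Prop := fun c u =>
    (IsNumIsometry ops X D u ∧ IsIntegralCycle (X.prod X) u) ∧
      ∀ w : t, (X.prod X).V.degCycle (ops.mul u w) = c w with hQ
  set g : (t → ℤ) → (X.prod X).Cycles := fun c => if h : ∃ u, Q c u then h.choose else 0 with hg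
  refine ⟨g '' A, hAfin.image g, fun u hu hui => ?_⟩
  have huc := hu.codim
  have hint : ∀ w : t, ∃ n : ℤ, (X.prod X).V.degCycle (ops.mul u w) = n := fun w =>
    degCycle_integral (hops.mul hui (ht w w.2).2)
  choose c hc using hint
  have hQu : Q c u := ⟨⟨hu, hui⟩, hc⟩
  have hU := (isNumIsometry_iff (W := W) hD huc).1 hu
  have hcA : c ∈ A := by
    rw [hA, Set.mem_Icc, Pi.le_def, Pi.le_def, ← forall_and]
    intro w
    have h1 := hC w w.2 _ hU.1 (tform_iso hK hU.2) _ (testFun_corr huc (ht w w.2).1)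
    rw [hc w] at h1
    have h2 : |((c w : ℤ) : ℚ)| ≤ ⌈C w⌉ := h1.trans (Int.le_ceil _)
    rw [← Int.cast_abs] at h2
    have h3 : |c w| ≤ ⌈C w⌉ := by exact_mod_cast h2
    exact abs_le.1 h3
  have hex : ∃ u, Q c u := ⟨u, hQu⟩
  have hgc : g c = hex.choose := dif_pos hex
  have hQg : Q c (g c) := by rw [hgc]; exact hex.choose_spec
  refine ⟨g c, ⟨c, hcA, rfl⟩, hQg.1.1.codim, ?_⟩
  apply htest _ (IsCyc.sub huc hQg.1.1.codim)
  intro w hw
  rw [deg_sub W hdim huc hQg.1.1.codim (ht w hw).1, hQu.2 ⟨w, hw⟩, hQg.2 ⟨w, hw⟩, sub_self]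

end Pool.Agent.TH122.Num
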