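import Pool.Agent.TH122.FinC

/-!
# Integral isometries of finite order from finiteness
-/

open CategoryTheory AlgebraicGeometry Finset Polynomial

universe u v w

namespace Pool.Agent.TH122.Num

open Pool.Agent.H914 Pool.Agent.H914.VarClass Pool.Agent.H914.VarClass.Obj
  Pool.Agent.H914.WeilCohomology Pool.Agent.H281R3.HT Pool.Agent.TH122.Aniso Pool.Agent.H447
  Pool.Agent.W539.Sig

variable {k : Type u} [Field k] {𝒱 : VarClass k} {ops : CycleOps 𝒱}
  {X : 𝒱.Obj} {W : WeilCohomology.{u, v} ops} {D : X.Cycles}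

lemma integral_diagonal (hops : IntegralOps ops) (X : 𝒱.Obj) :
    IsIntegralCycle (X.prod X) (diagonal ops X) := hops.push _ isIntegral_fund

lemma integral_compCyc (hops : IntegralOps ops) {X Y Z : 𝒱.Obj} {z : (X.prod Y).Cycles}
    {w : (Y.prod Z).Cycles} (hz : IsIntegralCycle (X.prod Y) z)
    (hw : IsIntegralCycle (Y.prod Z) w) : IsIntegralCycle (X.prod Z) (compCyc ops z w) :=
  hops.push _ (hops.mul (hops.pull _ hz) (hops.pull _ hw))

lemma integral_corPow (hops : IntegralOps ops) {u : (X.prod X).Cycles}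
    (hu : IsIntegralCycle (X.prod X) u) (m : ℕ) :
    IsIntegralCycle (X.prod X) (corPow ops X u m) := by
  induction m with
  | zero => exact integral_diagonal hops X
  | succ m ih => exact integral_compCyc hops ih hu

lemma rop_pow0 {U : Module.End W.K (W.H X)} (hU : ROp W X 0 U) (m : ℕ) : ROp W X 0 (U ^ m) := by
  induction m with
  | zero => rw [pow_zero]; exact rop_opAlg.one
  | succ m ih => rw [pow_succ]; exact rop_mul0 ih hU

lemma tp_pow_iso {U : Module.End W.K (W.H X)} (hUr : ROp W X 0 U)
    (hU : NumR (W.isInternal X) (ROp W X) 0 (tp W X U * U - 1)) (m : ℕ) :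
    NumR (W.isInternal X) (ROp W X) 0 (tp W X (U ^ m) * U ^ m - 1) := by
  induction m with
  | zero =>
    rw [pow_zero, tp_one, mul_one, sub_self]
    exact NumR.zero rop_opAlg 0
  | succ m ih =>
    have e : tp W X (U ^ (m + 1)) * U ^ (m + 1) - 1 =
        tp W X U * (tp W X (U ^ m) * U ^ m - 1) * U + (tp W X U * U - 1) := by
      rw [pow_succ, tp_mul (rop_pow0 hUr m) hUr]
      simp only [mul_sub, sub_mul, mul_one, mul_assoc]
      abel
    rw [e]
    refine NumR.add rop_opAlg ?_ hU
    exact (NumR.mul_right rop_opAlg (NumR.mul_left rop_opAlg (rop_tp hUr) ih) hUr).cast (by ring)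

lemma corPow_isometry (hD : X.IsCyc 1 D) {u : (X.prod X).Cycles} (W : WeilCohomology.{u, v} ops)
    (hu : IsNumIsometry ops X D u) (m : ℕ) : IsNumIsometry ops X D (corPow ops X u m) := by
  have h1 := (isNumIsometry_iff (W := W) hD hu.codim).1 hu
  rw [isNumIsometry_iff (W := W) hD (corPow_mem hu.codim m), corr_corPow hu.codim]
  exact ⟨h1.1.pow m, tp_pow_iso h1.1.1 h1.2 m⟩

lemma cancel_pow {U : Module.End W.K (W.H X)} (hUr : ROp W X 0 U)
    (hU : NumR (W.isInternal X) (ROp W X) 0 (tp W X U * U - 1)) {i m : ℕ}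
    (h : NumR (W.isInternal X) (ROp W X) 0 (U ^ i - U ^ (i + m))) :
    NumR (W.isInternal X) (ROp W X) 0 (U ^ m - 1) := by
  have h1 := tp_pow_iso hUr hU i
  have e : U ^ m - 1 = (tp W X (U ^ i) * U ^ i - 1) * (1 - U ^ m) +
      -(tp W X (U ^ i) * (U ^ i - U ^ (i + m))) := by
    rw [pow_add]
    simp only [mul_sub, sub_mul, mul_one, one_mul, mul_assoc]
    abel
  rw [e]
  refine NumR.add rop_opAlg ?_ (NumR.neg rop_opAlg ?_)
  · exact (NumR.mul_right rop_opAlg h1 (rop_opAlg.sub rop_opAlg.one (rop_pow0 hUr m))).cast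
      (by ring)
  · exact (NumR.mul_left rop_opAlg (rop_tp (rop_pow0 hUr i)) h).cast (by ring)

/-- **Finiteness implies finite order.** -/
theorem torsion_of_finite (hops : IntegralOps ops) (W : WeilCohomology.{u, v} ops)
    (hD : X.IsCyc 1 D) (h : FinitelyManyIsometries ops X D) :
    IsometriesOfFiniteOrder ops X D := by
  intro u hu hui
  obtain ⟨s, hs, hsu⟩ := h
  have hiso := corPow_isometry hD W hu
  have hint := integral_corPow hops hui
  choose f hfs hfc hf using fun m => hsu _ (hiso m) (hint m)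
  have hsf : Finite s := hs
  obtain ⟨i, j, hij, hfij⟩ := Finite.exists_ne_map_eq_of_infinite (fun m => (⟨f m, hfs m⟩ : s))
  have hfij' : f i = f j := congrArg Subtype.val hfij
  have hU := (isNumIsometry_iff (W := W) hD hu.codim).1 hu
  have key : ∀ i j, i < j → f i = f j →
      ∃ m, 0 < m ∧ NumTrivial ops (X.prod X) X.dim (corPow ops X u m - diagonal ops X) := by
    intro i j hlt hfe
    refine ⟨j - i, by omega, ?_⟩
    have e0 : NumTrivial ops (X.prod X) X.dim (corPow ops X u i - corPow ops X u j) := by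
      have hdim : X.dim + X.dim = (X.prod X).dim := rfl
      have h1 := hf i
      have h2 := hf j
      rw [← hfe] at h2
      intro r hr y hy
      have h3 := h1 r hr y hy
      have h4 := h2 r hr y hy
      have h5 : ((X.prod X).V.degCycle (ops.mul (corPow ops X u i - corPow ops X u j) y) : W.K) =
          0 := by
        rw [deg_cast W hr (IsCyc.sub (corPow_mem hu.codim i) (corPow_mem hu.codim j)) hy]
        have h6 : ∀ m, (X.prod X).V.degCycle (ops.mul (corPow ops X u m - f i) y) = 0 →
            W.tr _ (W.cl _ (corPow ops X u m) * W.cl _ y) = W.tr _ (W.cl _ (f i) * W.cl _ y) := by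
          intro m hm
          have h7 := deg_cast W hr (IsCyc.sub (corPow_mem (ops := ops) hu.codim m) (hfc i)) hy
          rw [hm, Rat.cast_zero, map_sub, sub_mul, map_sub] at h7
          exact (sub_eq_zero.1 h7.symm)
        rw [map_sub, sub_mul, map_sub, h6 i h3, h6 j h4, sub_self]
      exact_mod_cast h5
    have hm : (X.prod X).IsCyc X.dim (corPow ops X u i - corPow ops X u j) :=
      IsCyc.sub (corPow_mem hu.codim i) (corPow_mem hu.codim j)
    have h1 := (numR_iff (W := W) (d := 0) (by ring) hm).2 e0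
    rw [map_sub, corr_sub', corr_corPow hu.codim, corr_corPow hu.codim,
      show j = i + (j - i) by omega] at h1
    have h2 := cancel_pow hU.1.1 hU.2 h1
    have hm2 : (X.prod X).IsCyc X.dim (corPow ops X u (j - i) - diagonal ops X) :=
      IsCyc.sub (corPow_mem hu.codim _) (diagonal_mem X)
    rw [← numR_iff (W := W) (d := 0) (by ring) hm2, map_sub, corr_sub', corr_corPow hu.codim,
      corr_diagonal]
    exact h2
  rcases lt_or_gt_of_ne hij with h1 | h1
  · exact key i j h1 hfij'
  · exact key j i h1 hfij'.symm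

end Pool.Agent.TH122.Num
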