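import Pool.Agent.TH122.FinD

/-!
# Isotropic planes give integral isometries of infinite order
-/

open CategoryTheory AlgebraicGeometry Finset Polynomial

universe u v w

namespace Pool.Agent.TH122.Num

open Pool.Agent.H914 Pool.Agent.H914.VarClass Pool.Agent.H914.VarClass.Obj
  Pool.Agent.H914.WeilCohomology Pool.Agent.H281R3.HT Pool.Agent.TH122.Aniso Pool.Agent.H447

variable {k : Type u} [Field k] {𝒱 : VarClass k} {ops : CycleOps 𝒱}
  {W : WeilCohomology.{u, v} ops} {X : 𝒱.Obj} {P : Polarized 𝒱}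
  {𝒬 : Polarized 𝒱 → Prop}

/-- The commutator of the correspondences of an external product with the divisor. -/
lemma nz_comm_ext {D : X.Cycles} (hD : X.IsCyc 1 D) {N : ℕ} {A B : W.H X}
    (hA : A ∈ algClasses W X N) (hB : B ∈ algClasses W X N)
    (hA1 : Nz W (W.cl X D * A)) (hB1 : Nz W (W.cl X D * B)) :
    Nz W (W.map (fst X X) (W.cl X D) * (W.map (fst X X) A * W.map (snd X X) B) -
      W.map (snd X X) (W.cl X D) * (W.map (fst X X) A * W.map (snd X X) B)) := by
  have hξ : W.cl X D ∈ algClasses W X 1 := ⟨D, hD, rfl⟩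
  have hξA := alg_mul hξ hA
  have hξB := alg_mul hξ hB
  have e2 : Nz W (W.map (fst X X) (W.cl X D) * (W.map (fst X X) A * W.map (snd X X) B)) := by
    rw [← mul_assoc, ← map_mul]
    exact nz_ext_left hξA hB hA1
  have e4 : Nz W (W.map (snd X X) (W.cl X D) * (W.map (fst X X) A * W.map (snd X X) B)) := by
    rw [← mul_assoc, alg_comm (alg_map (snd X X) hξ), mul_assoc, ← map_mul]
    exact nz_ext_right hA hξB hB1
  exact e2.sub e4

/-- **An isotropic plane of middle primitive classes gives an integral isometry of infinite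
order.** -/
theorem not_torsion (hops : IntegralOps ops) {D : X.Cycles} (hD : X.IsCyc 1 D) {N : ℕ}
    (hN : X.dim = 2 * N) {E C E' C' : W.H X} (hE : E ∈ algClasses W X N)
    (hC : C ∈ algClasses W X N) (hE' : E' ∈ algClasses W X N) (hC' : C' ∈ algClasses W X N)
    (hE1 : Nz W (W.cl X D * E)) (hC1 : Nz W (W.cl X D * C))
    (hEE : W.tr X (E * E) = 0) (hCC : W.tr X (C * C) = 0) (hEC : W.tr X (E * C) = 0)
    (hEE' : W.tr X (E * E') ≠ 0) (hCC' : W.tr X (C * C') ≠ 0)
    (hEC' : W.tr X (E * C') = 0) :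
    ¬ IsometriesOfFiniteOrder ops X D := by
  intro hno
  set c₀ : W.H (X.prod X) := W.push (diag X) (1 : W.H X) with hc₀
  set c₁ : W.H (X.prod X) := W.map (fst X X) E * W.map (snd X X) C with hc₁
  set c₂ : W.H (X.prod X) := W.map (fst X X) C * W.map (snd X X) E with hc₂
  have hNN : N + N = X.dim := by omega
  have h1 : c₁ ∈ algClasses W (X.prod X) X.dim := by
    rw [← hNN]; exact alg_mul (alg_map _ hE) (alg_map _ hC)
  have h2 : c₂ ∈ algClasses W (X.prod X) X.dim := by
    rw [← hNN]; exact alg_mul (alg_map _ hC) (alg_map _ hE)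
  have h4 : c₁ + ((-1 : ℚ) : W.K) • c₂ ∈ algClasses W (X.prod X) X.dim :=
    alg_add h1 (alg_smul (-1) h2)
  obtain ⟨z, hz, hzc⟩ := h4
  obtain ⟨M, hM, hMz⟩ := exists_integral_smul z
  have hMK : ((M : ℚ) : W.K) ≠ 0 := by
    rw [Rat.cast_natCast]; exact_mod_cast hM.ne'
  set u : (X.prod X).Cycles := diagonal ops X + (M : ℚ) • z with hu
  have hum : (X.prod X).IsCyc X.dim u := SmVar.IsCyc.add (diagonal_mem X) (hz.smul _)
  have hui : IsIntegralCycle (X.prod X) u := (integral_diagonal hops X).add hMz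
  have huc : W.cl _ u = c₀ + ((M : ℚ) : W.K) • (c₁ + ((-1 : ℚ) : W.K) • c₂) := by
    rw [hu, map_add, W.cl_smul, hzc, cl_diagonal]
  have hn : ∀ c, W.corr (c₁ + ((-1 : ℚ) : W.K) • c₂) c =
      W.tr X (E * c) • C - W.tr X (C * c) • E := by
    intro c
    rw [corr_add, corr_smul, LinearMap.add_apply, LinearMap.smul_apply, hc₁, hc₂,
      corr_ext E hC, corr_ext C hE]
    push_cast
    module
  have hU : ∀ c, W.corr (W.cl _ u) c = c + ((M : ℚ) : W.K) •
      (W.tr X (E * c) • C - W.tr X (C * c) • E) := by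
    intro c
    rw [huc, corr_add, corr_smul, LinearMap.add_apply, LinearMap.smul_apply, hn,
      hc₀, corr_diag, one_mul]
  have hCE : W.tr X (C * E) = 0 := by rw [alg_comm hC, hEC]
  have hpair : ∀ a b, W.tr X (W.corr (W.cl _ u) a * W.corr (W.cl _ u) b) = W.tr X (a * b) := by
    intro a b
    have e1 : ∀ c, W.tr X (c * E) = W.tr X (E * c) := fun c => by rw [alg_comm hE]
    have e2 : ∀ c, W.tr X (c * C) = W.tr X (C * c) := fun c => by rw [alg_comm hC]
    rw [hU, hU]
    simp only [add_mul, sub_mul, mul_add, mul_sub, smul_mul_assoc, mul_smul_comm, map_add,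
      map_sub, map_smul, smul_eq_mul, hEE, hCC, hEC, hCE, e1, e2, mul_zero]
    ring
  have hiso : IsNumIsometry ops X D u := by
    refine ⟨hum, ?_, ?_⟩
    · have hm1 : (X.prod X).IsCyc (X.dim + 1)
          (ops.mul (ops.pull (fst X X) D) u - ops.mul (ops.pull (snd X X) D) u) := by
        apply IsCyc.sub
        · have := ops.mul_mem (ops.pull_mem (fst X X) hD) hum
          rwa [add_comm] at this
        · have := ops.mul_mem (ops.pull_mem (snd X X) hD) hum
          rwa [add_comm] at this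
      rw [← nz_cl (W := W) hm1, map_sub, W.cl_mul, W.cl_mul, W.cl_pull, W.cl_pull, huc]
      have e0 : W.map (fst X X) (W.cl X D) * c₀ = W.map (snd X X) (W.cl X D) * c₀ := by
        rw [← sub_eq_zero]
        apply corr_inj
        rw [corr_sub', corr_fst _ _ (W.cl_mem hD), corr_snd _ _ (W.cl_mem hD), hc₀,
          ← cl_diagonal, corr_diagonal, one_mul, mul_one, sub_self]
      have e1 := nz_comm_ext hD hE hC hE1 hC1
      have e2 := nz_comm_ext hD hC hE hC1 hE1
      rw [← hc₁] at e1
      rw [← hc₂] at e2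
      have e3 : W.map (fst X X) (W.cl X D) * (c₀ + ((M : ℚ) : W.K) •
            (c₁ + ((-1 : ℚ) : W.K) • c₂)) -
          W.map (snd X X) (W.cl X D) * (c₀ + ((M : ℚ) : W.K) •
            (c₁ + ((-1 : ℚ) : W.K) • c₂)) =
          ((M : ℚ) : W.K) • ((W.map (fst X X) (W.cl X D) * c₁ -
            W.map (snd X X) (W.cl X D) * c₁) + ((-1 : ℚ) : W.K) •
            (W.map (fst X X) (W.cl X D) * c₂ - W.map (snd X X) (W.cl X D) * c₂)) := by
        rw [mul_add, mul_add, e0, mul_smul_comm, mul_smul_comm, mul_add, mul_add,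
          mul_smul_comm, mul_smul_comm]
        module
      rw [e3]
      exact (e1.add (e2.smul _)).smul _
    · have hm2 : (X.prod X).IsCyc X.dim
          (compCyc ops u (transpose ops X u) - diagonal ops X) :=
        IsCyc.sub (compCyc_mem hum (transpose_mem hum) (by omega)) (diagonal_mem X)
      rw [← nz_cl (W := W) hm2]
      have e0 : W.cl _ (compCyc ops u (transpose ops X u)) = W.cl _ (diagonal ops X) := by
        rw [← sub_eq_zero]
        apply corr_inj
        rw [corr_sub', sub_eq_zero, corr_compCyc W (transpose_mem hum), corr_diagonal]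
        apply LinearMap.ext
        intro b
        rw [LinearMap.comp_apply, Module.End.one_apply, ← sub_eq_zero]
        apply nondeg_right
        intro a
        rw [mul_sub, map_sub, transpose_eq, W.cl_pull, ← tr_corr_swap (W.cl_mem hum), hpair,
          sub_self]
      rw [map_sub, e0, sub_self]
      exact Nz.zero
  obtain ⟨m, hm, hR⟩ := hno u hiso hui
  have hpow : ∀ m : ℕ, ∀ c, (W.corr (W.cl _ u) ^ m) c = c + ((m : W.K) * ((M : ℚ) : W.K)) •
      (W.tr X (E * c) • C - W.tr X (C * c) • E) := by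
    intro m
    induction m with
    | zero =>
      intro c
      rw [pow_zero, Module.End.one_apply, Nat.cast_zero, zero_mul, zero_smul, add_zero]
    | succ m ih =>
      intro c
      rw [pow_succ', Module.End.mul_apply, ih, hU]
      simp only [mul_add, mul_sub, mul_smul_comm, map_add, map_sub, map_smul, smul_eq_mul,
        hEE, hCC, hEC, hCE, mul_zero, sub_zero, add_zero]
      push_cast
      module
  have h6 := (nz_cl (W := W) (IsCyc.sub (corPow_mem hum m) (diagonal_mem X))).2 hR _ _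
    (alg_mul (alg_map (fst X X) hE') (alg_map (snd X X) hC'))
  rw [tr_mul_ext, map_sub, corr_sub', corr_corPow hum, corr_diagonal, LinearMap.sub_apply,
    hpow, Module.End.one_apply, add_sub_cancel_left, smul_mul_assoc, map_smul, sub_mul,
    smul_mul_assoc, smul_mul_assoc, map_sub, map_smul, map_smul, hEC', smul_zero, sub_zero,
    smul_eq_mul, smul_eq_mul] at h6
  have hm0 : (m : W.K) ≠ 0 := by exact_mod_cast hm.ne'
  exact mul_ne_zero (mul_ne_zero hm0 hMK) (mul_ne_zero hEE' hCC') h6

/-- An isotropic class is part of a hyperbolic plane. -/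
lemma exists_partner (W : WeilCohomology.{u, v} ops) (hD : P.X.IsCyc 1 P.D)
    (hdeg : 0 < P.X.V.degCycle (divPow ops P.D P.X.dim P.X.V.fundCycle))
    (hL : LefschetzNum ops P.X P.D) {m : ℕ} {z : P.X.Cycles}
    (hz : IsNumIsotropic ops P.X P.D m z) (hz0 : ¬ NumTrivial ops P.X m z) :
    ∃ A ∈ algClasses W P.X m, ∃ B ∈ algClasses W P.X m, Nz W (xi W P * A) ∧
      Nz W (xi W P * B) ∧ W.tr P.X (A * A) = 0 ∧ W.tr P.X (B * B) = 0 ∧
      W.tr P.X (A * B) ≠ 0 := by
  rw [← nz_cl (W := W) hz.codim] at hz0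
  have hdim := hz.dim_eq
  set A := W.cl P.X z with hA
  have hAm : A ∈ algClasses W P.X m := ⟨z, hz.codim, rfl⟩
  have hAA : W.tr P.X (A * A) = 0 := by
    have h1 := ops.mul_mem hz.codim hz.codim
    rw [← two_mul, ← hdim] at h1
    have h2 := W.tr_cl h1
    rw [W.cl_mul, hz.sq, Rat.cast_zero] at h2
    exact h2
  have hξA : Nz W (xi W P * A) := by
    have h1 := ops.mul_mem hD hz.codim
    rw [add_comm] at h1
    have h2 := (nz_cl (W := W) h1).2 hz.prim
    rw [W.cl_mul] at h2
    exact h2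
  rcases Nat.eq_zero_or_pos m with rfl | hm
  · exfalso
    have hA0 : A ≠ 0 := fun h0 => hz0 (by rw [h0]; exact Nz.zero)
    obtain ⟨q, hq0, hq1⟩ := codim_zero hD hdeg hAm hA0
    rw [nf, show P.X.dim - 2 * 0 = 0 by omega, pow_zero, one_mul, hAA, zero_div] at hq1
    have : q = 0 := by exact_mod_cast hq1.symm
    exact hq0.ne' this
  · rw [Nz] at hz0
    push Not at hz0
    obtain ⟨i, w, hw, hAw⟩ := hz0
    have hi : m + i = P.X.dim := by
      by_contra hne
      exact hAw (tr_alg_zero (alg_mul hAm hw) hne)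
    obtain rfl : i = m := by omega
    have hξw : xi W P * w ∈ algClasses W P.X (P.X.dim - (i - 1)) := by
      have := alg_mul (xi_alg (W := W) hD) hw
      rwa [show 1 + i = P.X.dim - (i - 1) by omega] at this
    obtain ⟨y, hy, hwy⟩ := hL.exists_class hD (j := i - 1) (by omega) hξw
    rw [show P.X.dim - 2 * (i - 1) = 2 by omega] at hwy
    have hξy : xi W P * y ∈ algClasses W P.X i := by
      have := alg_mul (xi_alg (W := W) hD) hy
      rwa [show 1 + (i - 1) = i by omega] at this
    set B' := w + ((-1 : ℚ) : W.K) • (xi W P * y) with hB'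
    have hB'm : B' ∈ algClasses W P.X i := alg_add hw (alg_smul (-1) hξy)
    have hB'e : B' = w - xi W P * y := by
      rw [hB', Rat.cast_neg, Rat.cast_one, neg_one_smul, sub_eq_add_neg]
    have hξB' : Nz W (xi W P * B') := by
      rw [hB'e, mul_sub, ← mul_assoc, ← pow_two]
      exact hwy
    have hAB' : W.tr P.X (A * B') = W.tr P.X (A * w) := by
      have h0 : W.tr P.X (A * (xi W P * y)) = 0 := by
        rw [← mul_assoc, alg_comm hAm (xi W P), hξA _ _ hy]
      rw [hB'e, mul_sub, map_sub, h0, sub_zero]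
    obtain ⟨s, hs⟩ := tr_alg_rat (alg_mul hAm hB'm)
    obtain ⟨r, hr⟩ := tr_alg_rat (alg_mul hB'm hB'm)
    have hs0 : (s : W.K) ≠ 0 := by rw [← hs, hAB']; exact hAw
    have hB'A : W.tr P.X (B' * A) = s := by rw [alg_comm hB'm, hs]
    set B := B' + ((-(r / (2 * s)) : ℚ) : W.K) • A with hB
    have hBm : B ∈ algClasses W P.X i := alg_add hB'm (alg_smul _ hAm)
    refine ⟨A, hAm, B, hBm, hξA, ?_, hAA, ?_, ?_⟩
    · rw [hB, mul_add, mul_smul_comm]
      exact hξB'.add (hξA.smul _)
    · rw [hB]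
      simp only [add_mul, mul_add, smul_mul_assoc, mul_smul_comm, map_add, map_smul,
        smul_eq_mul, hAA, hs, hB'A, hr]
      push_cast
      field_simp
      ring
    · rw [hB, mul_add, map_add, mul_smul_comm, map_smul, hAA, smul_zero, add_zero, hs]
      exact hs0

/-- **Finite order of the integral isometries of the square excludes isotropic classes.** -/
theorem anisotropic_of_torsion (W : WeilCohomology.{u, v} ops) (hops : IntegralOps ops)
    (hD : P.X.IsCyc 1 P.D) (hDD : (pr ops P P).X.IsCyc 1 (pr ops P P).D)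
    (hdeg : 0 < P.X.V.degCycle (divPow ops P.D P.X.dim P.X.V.fundCycle))
    (hL : LefschetzNum ops P.X P.D)
    (h : IsometriesOfFiniteOrder ops (pr ops P P).X (pr ops P P).D) (m : ℕ)
    (z : P.X.Cycles) (hz : IsNumIsotropic ops P.X P.D m z) : NumTrivial ops P.X m z := by
  by_contra hz0
  have hdim := hz.dim_eq
  have hdim2 : (pr ops P P).X.dim = P.X.dim + P.X.dim := rfl
  obtain ⟨A, hA, B, hB, hξA, hξB, hAA, hBB, hAB⟩ := exists_partner W hD hdeg hL hz hz0
  have hBA : W.tr P.X (B * A) ≠ 0 := by rw [alg_comm hB]; exact hAB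
  have hpA : NPrim W P m A := ⟨hA, by omega, by
    rw [show P.X.dim - 2 * m + 1 = 1 by omega, pow_one]; exact hξA⟩
  have hpB : NPrim W P m B := ⟨hB, by omega, by
    rw [show P.X.dim - 2 * m + 1 = 1 by omega, pow_one]; exact hξB⟩
  have hprim : ∀ {c : W.H (pr ops P P).X}, NPrim W (pr ops P P) (m + m) c →
      Nz W (W.cl (pr ops P P).X (pr ops P P).D * c) := by
    intro c hc
    have h1 := hc.prim
    rw [show (pr ops P P).X.dim - 2 * (m + m) + 1 = 1 by omega, pow_one] at h1
    exact h1
  have h1 := hpA.ex hD hD hpA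
  have h2 := hpA.ex hD hD hpB
  refine not_torsion (W := W) hops hDD (N := m + m) (by omega) (E := Aniso.ex W P P A A)
    (C := Aniso.ex W P P A B) (E' := Aniso.ex W P P B B) (C' := Aniso.ex W P P B A) h1.alg h2.alg
    (ex_alg hB hB) (ex_alg hB hA) (hprim h1) (hprim h2) ?_ ?_ ?_ ?_ ?_ ?_ h
  · rw [ex_mul hA, ex_tr, hAA, zero_mul]
  · rw [ex_mul hB, ex_tr, hAA, zero_mul]
  · rw [ex_mul hA, ex_tr, hAA, zero_mul]
  · rw [ex_mul hA, ex_tr]; exact mul_ne_zero hAB hAB
  · rw [ex_mul hB, ex_tr]; exact mul_ne_zero hAB hBA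
  · rw [ex_mul hA, ex_tr, hAA, mul_zero]

end Pool.Agent.TH122.Num
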