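import Pool.Agent.TH122.FinE

/-!
# The numerical conjecture of Hodge type and integral isometries
-/

open CategoryTheory AlgebraicGeometry Finset

universe u v w

namespace Pool.Agent.TH122.Num

open Pool.Agent.H914 Pool.Agent.H914.VarClass Pool.Agent.H914.VarClass.Obj
  Pool.Agent.H914.WeilCohomology Pool.Agent.H281R3.HT Pool.Agent.TH122.Aniso

variable {k : Type u} [Field k] {𝒱 : VarClass k} {ops : CycleOps 𝒱}

theorem tfae_integral {W : WeilCohomology.{u, v} ops} (hops : IntegralOps ops)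
    {𝒬 : Polarized 𝒱 → Prop} (h : IsNumProductClass W 𝒬) :
    [∀ P, 𝒬 P → HodgeTypeNum ops P.X P.D, ∀ P, 𝒬 P → FinitelyManyIsometries ops P.X P.D,
      ∀ P, 𝒬 P → IsometriesOfFiniteOrder ops P.X P.D].TFAE := by
  have h𝒬 : PCls ops 𝒬 := ⟨h.prod, h.divisor, h.degree⟩
  tfae_have 1 → 2 := fun h' P hP =>
    finite_of_hodge hops (h.divisor P hP) (h.kunneth P hP) (h' _ (h.prod P P hP hP))
  tfae_have 2 → 3 := fun h' P hP => torsion_of_finite hops W (h.divisor P hP) (h' P hP)
  tfae_have 3 → 1 := fun h' => hodge_of_anisotropic W h𝒬 h.lefschetz fun P hP =>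
    anisotropic_of_torsion W hops (h.divisor P hP) (h.divisor _ (h.prod P P hP hP))
      (h.degree P hP) (h.lefschetz P hP) (h' _ (h.prod P P hP hP))
  tfae_finish

end Pool.Agent.TH122.Num
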