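import Pool.Agent.TH122.NorA

/-!
The converse: a definite form on a finitely generated lattice has Northcott's property.
-/

set_option autoImplicit false

namespace Pool.Agent.TH122.Nor

open Finset

variable {V : Type} [AddCommGroup V] [Module ℚ V]

theorem Q_smul {r : ℕ} (b : V →ₗ[ℚ] V →ₗ[ℚ] ℝ) (v : Fin r → V) (c : Fin r → ℝ) (k : ℝ) :
    Q b v (k • c) (k • c) = k ^ 2 * Q b v c c := by
  unfold Q
  simp only [Finset.mul_sum, Pi.smul_apply, smul_eq_mul]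
  refine Finset.sum_congr rfl fun i _ => Finset.sum_congr rfl fun j _ => ?_
  ring

theorem Q_cont {r : ℕ} (b : V →ₗ[ℚ] V →ₗ[ℚ] ℝ) (v : Fin r → V) :
    Continuous fun c : Fin r → ℝ => Q b v c c := by
  unfold Q
  fun_prop

theorem Q_lower {r : ℕ} (b : V →ₗ[ℚ] V →ₗ[ℚ] ℝ) (v : Fin r → V)
    (h : ∀ c : Fin r → ℝ, c ≠ 0 → 0 < Q b v c c) :
    ∃ μ : ℝ, 0 < μ ∧ ∀ c : Fin r → ℝ, μ * ‖c‖ ^ 2 ≤ Q b v c c := by
  have hQ0 : Q b v 0 0 = 0 := by
    unfold Q
    simp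
  by_cases hne : (Metric.sphere (0 : Fin r → ℝ) 1).Nonempty
  · obtain ⟨c0, hc0, hmin⟩ := (isCompact_sphere (0 : Fin r → ℝ) 1).exists_isMinOn hne
      (Q_cont b v).continuousOn
    have hc0' : c0 ≠ 0 := by
      rintro rfl
      simp at hc0
    refine ⟨Q b v c0 c0, h c0 hc0', fun c => ?_⟩
    by_cases hc : c = 0
    · rw [hc, norm_zero, hQ0]
      simp
    · have hn : 0 < ‖c‖ := norm_pos_iff.2 hc
      have h1 : ‖c‖⁻¹ • c ∈ Metric.sphere (0 : Fin r → ℝ) 1 := by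
        rw [mem_sphere_zero_iff_norm, norm_smul, norm_inv, norm_norm, inv_mul_cancel₀ hn.ne']
      have h2 : Q b v c0 c0 ≤ Q b v (‖c‖⁻¹ • c) (‖c‖⁻¹ • c) := hmin h1
      rw [Q_smul] at h2
      have h3 : Q b v c0 c0 * ‖c‖ ^ 2 ≤ (‖c‖⁻¹ ^ 2 * Q b v c c) * ‖c‖ ^ 2 :=
        mul_le_mul_of_nonneg_right h2 (by positivity)
      have h4 : (‖c‖⁻¹ ^ 2 * Q b v c c) * ‖c‖ ^ 2 = Q b v c c := by
        field_simp
      rwa [h4] at h3
  · refine ⟨1, one_pos, fun c => ?_⟩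
    have hc : c = 0 := by
      by_contra hc
      apply hne
      have hn : 0 < ‖c‖ := norm_pos_iff.2 hc
      exact ⟨‖c‖⁻¹ • c, by
        rw [mem_sphere_zero_iff_norm, norm_smul, norm_inv, norm_norm, inv_mul_cancel₀ hn.ne']⟩
    rw [hc, norm_zero, hQ0]
    simp

/-- a finitely generated subgroup of a rational vector space has a basis which is independent
over the rationals -/
theorem exists_basis {L : AddSubgroup V} (hL : L.FG) : ∃ (r : ℕ) (v : Fin r → V),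
    (∀ i, v i ∈ L) ∧ LinearIndependent ℚ v ∧ ∀ x ∈ L, ∃ n : Fin r → ℤ, x = ∑ i, n i • v i := by
  have hfin : Module.Finite ℤ L.toIntSubmodule := by
    rw [Module.Finite.iff_fg]
    exact (Submodule.fg_iff_addSubgroup_fg _).2 (by simpa using hL)
  have hV : IsAddTorsionFree V := .of_module_rat _
  have hV2 : Module.IsTorsionFree ℤ V := inferInstance
  have htf : Module.IsTorsionFree ℤ L.toIntSubmodule := by
    infer_instance
  obtain ⟨r, β⟩ := Module.basisOfFiniteTypeTorsionFree' (R := ℤ) (M := L.toIntSubmodule)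
  refine ⟨r, fun i => (β i : V), fun i => (β i).2, ?_, ?_⟩
  · have h1 : LinearIndependent ℤ (fun i => (β i : V)) :=
      β.linearIndependent.map' L.toIntSubmodule.subtype
        (LinearMap.ker_eq_bot.2 Subtype.val_injective)
    exact (LinearIndependent.iff_fractionRing ℤ ℚ).1 h1
  · intro x hx
    refine ⟨fun i => β.repr ⟨x, hx⟩ i, ?_⟩
    have h1 := β.sum_repr ⟨x, hx⟩
    have h2 := congrArg Subtype.val h1
    simp only [Submodule.coe_sum, Submodule.coe_smul] at h2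
    exact h2.symm

theorem northcott_of {b : V →ₗ[ℚ] V →ₗ[ℚ] ℝ} {L : AddSubgroup V} (hL : L.FG)
    (h : ∀ (r : ℕ) (v : Fin r → V), LinearIndependent ℚ v → ∀ c : Fin r → ℝ, c ≠ 0 →
      0 < Q b v c c) : Northcott b L := by
  obtain ⟨r, v, hvL, hli, hspan⟩ := exists_basis hL
  obtain ⟨μ, hμ, hlow⟩ := Q_lower b v (h r v hli)
  intro T
  obtain ⟨K, hK⟩ := exists_nat_gt (T / μ)
  have hbox : (Set.Icc (fun _ : Fin r => -((K : ℤ) + 1)) (fun _ => (K : ℤ) + 1)).Finite :=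
    Set.finite_Icc _ _
  refine (hbox.image (fun n : Fin r → ℤ => ∑ i, n i • v i)).subset ?_
  rintro x ⟨hx, hxT⟩
  obtain ⟨n, rfl⟩ := hspan x hx
  refine ⟨n, ?_, rfl⟩
  have h1 := hlow (fun i => (n i : ℝ))
  rw [Q_int] at h1
  have h2 : μ * ‖(fun i => (n i : ℝ))‖ ^ 2 ≤ T := h1.trans ((le_abs_self _).trans hxT)
  have h3 : ‖(fun i => (n i : ℝ))‖ ^ 2 < K := by
    have : ‖(fun i => (n i : ℝ))‖ ^ 2 ≤ T / μ := by
      rw [le_div_iff₀ hμ]
      linarith
    linarith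
  have h4 : ∀ i, |n i| ≤ (K : ℤ) + 1 := by
    intro i
    have h5 : |(n i : ℝ)| ≤ ‖(fun i => (n i : ℝ))‖ := norm_le_pi_norm (fun i => (n i : ℝ)) i
    have h6 : |(n i : ℝ)| ^ 2 < K := lt_of_le_of_lt (pow_le_pow_left₀ (abs_nonneg _) h5 2) h3
    have h7 : ((|n i| ^ 2 : ℤ) : ℝ) < ((K : ℤ) : ℝ) := by
      push_cast
      exact_mod_cast h6
    have h8 : |n i| ^ 2 < (K : ℤ) := by exact_mod_cast h7
    nlinarith [abs_nonneg (n i)]
  constructor
  · intro i
    have := (abs_le.1 (h4 i)).1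
    simpa using this
  · intro i
    exact (abs_le.1 (h4 i)).2

theorem weak_of {L : AddSubgroup V} (hL : L.FG) : ∃ S : Finset V, (∀ s ∈ S, s ∈ L) ∧
    ∀ x ∈ L, ∃ s ∈ S, ∃ y ∈ L, x = s + 2 • y := by
  classical
  obtain ⟨r, v, hvL, -, hspan⟩ := exists_basis hL
  refine ⟨(Finset.univ : Finset (Finset (Fin r))).image (fun U => ∑ i ∈ U, v i), ?_, ?_⟩
  · intro s hs
    obtain ⟨U, -, rfl⟩ := Finset.mem_image.1 hs
    exact L.sum_mem fun i _ => hvL i
  · intro x hx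
    obtain ⟨n, rfl⟩ := hspan x hx
    refine ⟨∑ i ∈ Finset.univ.filter (fun i => n i % 2 = 1), v i,
      Finset.mem_image.2 ⟨_, Finset.mem_univ _, rfl⟩, ∑ i, (n i / 2) • v i,
      L.sum_mem fun i _ => L.zsmul_mem (hvL i) _, ?_⟩
    rw [Finset.sum_filter, Finset.smul_sum, ← Finset.sum_add_distrib]
    refine Finset.sum_congr rfl fun i _ => ?_
    have h1 := Int.emod_add_mul_ediv (n i) 2
    have h2 : (2 : ℕ) • ((n i / 2) • v i) = (2 * (n i / 2)) • v i := by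
      rw [mul_smul]
      rw [← natCast_zsmul]
      rfl
    rw [h2]
    rcases Int.emod_two_eq_zero_or_one (n i) with h3 | h3
    · rw [if_neg (by omega), zero_add]
      congr 1
      omega
    · rw [if_pos h3]
      conv_lhs => rw [← h1, h3, add_smul, one_smul]

end Pool.Agent.TH122.Nor
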