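import Mathlib

/-!
Northcott's property of a real quadratic form on a lattice and definiteness of the form.
-/

set_option autoImplicit false

namespace Pool.Agent.TH122.Nor

open Finset

/-- An indefinite binary form takes bounded values at infinitely many integral points. -/
theorem binary_infinite (A B C : ℝ) (hA : 0 < A) (hC : C < 0) :
    ∃ M : ℝ, {p : ℤ × ℤ | |A * p.1 ^ 2 + 2 * B * p.1 * p.2 + C * p.2 ^ 2| ≤ M}.Infinite := by
  set D : ℝ := B ^ 2 - A * C with hD
  have hD0 : 0 < D := by nlinarith [sq_nonneg B, mul_pos hA (neg_pos.2 hC)]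
  set r : ℝ := Real.sqrt D with hr
  have hr2 : r ^ 2 = D := Real.sq_sqrt hD0.le
  set θ : ℝ := (-B + r) / A with hθ
  set θ' : ℝ := (-B - r) / A with hθ'
  have hA0 : A ≠ 0 := hA.ne'
  have key : ∀ s t : ℝ, A * s ^ 2 + 2 * B * s * t + C * t ^ 2 = A * (s - θ * t) * (s - θ' * t) := by
    intro s t
    rw [hθ, hθ']
    field_simp
    nlinarith [hr2]
  by_cases hirr : Irrational θ
  · refine ⟨A * (1 + |θ - θ'|), ?_⟩
    have hinf := Real.infinite_rat_abs_sub_lt_one_div_den_sq_of_irrational hirr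
    have hinj : Set.InjOn (fun q : ℚ => ((q.num, (q.den : ℤ)) : ℤ × ℤ))
        {q : ℚ | |θ - q| < 1 / (q.den : ℝ) ^ 2} := by
      intro x _ y _ hxy
      simp only [Prod.mk.injEq, Nat.cast_inj] at hxy
      exact Rat.ext hxy.1 hxy.2
    refine (hinf.image hinj).mono ?_
    rintro _ ⟨q, hq, rfl⟩
    have hq' : |θ - q| < 1 / (q.den : ℝ) ^ 2 := hq
    simp only [Set.mem_ofPred_eq]
    have hden : (1 : ℝ) ≤ q.den := by exact_mod_cast q.pos
    have hden0 : (0 : ℝ) < q.den := by linarith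
    have hqd : (q : ℝ) = q.num / q.den := by exact_mod_cast (Rat.num_div_den q).symm
    have e1 : |(q.num : ℝ) - θ * q.den| ≤ 1 / q.den := by
      have e2 : (q.num : ℝ) - θ * q.den = -(θ - q) * q.den := by
        rw [hqd]
        field_simp
        ring
      rw [e2, abs_mul, abs_neg, abs_of_pos hden0]
      calc |θ - q| * q.den ≤ 1 / (q.den : ℝ) ^ 2 * q.den :=
            mul_le_mul_of_nonneg_right hq'.le hden0.le
        _ = 1 / q.den := by field_simp
    have e3 : |(q.num : ℝ) - θ' * q.den| ≤ 1 / q.den + |θ - θ'| * q.den := by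
      have e4 : (q.num : ℝ) - θ' * q.den = ((q.num : ℝ) - θ * q.den) + (θ - θ') * q.den := by ring
      rw [e4]
      refine (abs_add_le _ _).trans ?_
      rw [abs_mul (θ - θ'), abs_of_pos hden0]
      linarith
    have e5 : A * (q.num : ℝ) ^ 2 + 2 * B * q.num * ((q.den : ℤ) : ℝ) + C * ((q.den : ℤ) : ℝ) ^ 2
        = A * ((q.num : ℝ) - θ * q.den) * ((q.num : ℝ) - θ' * q.den) := by
      rw [Int.cast_natCast]
      exact key _ _
    rw [e5, abs_mul, abs_mul, abs_of_pos hA, mul_assoc]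
    refine mul_le_mul_of_nonneg_left ?_ hA.le
    calc |(q.num : ℝ) - θ * q.den| * |(q.num : ℝ) - θ' * q.den|
        ≤ (1 / q.den) * (1 / q.den + |θ - θ'| * q.den) :=
          mul_le_mul e1 e3 (abs_nonneg _) (by positivity)
      _ = (1 / q.den) * (1 / q.den) + |θ - θ'| := by field_simp
      _ ≤ 1 + |θ - θ'| := by
          have h1 : (1 : ℝ) / q.den ≤ 1 := by rw [div_le_one hden0]; exact hden
          have h2 : (0 : ℝ) ≤ 1 / q.den := by positivity
          nlinarith
  · rw [Irrational, not_not] at hirr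
    obtain ⟨q, hq⟩ := hirr
    refine ⟨0, ?_⟩
    have hinj : Function.Injective (fun k : ℕ => (((k : ℤ) * q.num, (k : ℤ) * (q.den : ℤ)) : ℤ × ℤ)) := by
      intro x y hxy
      simp only [Prod.mk.injEq] at hxy
      have h1 := hxy.2
      have h2 : (q.den : ℤ) ≠ 0 := by exact_mod_cast q.den_nz
      have h3 := mul_right_cancel₀ h2 h1
      exact_mod_cast h3
    refine (Set.infinite_range_of_injective hinj).mono ?_
    rintro _ ⟨k, rfl⟩
    simp only [Set.mem_ofPred_eq]
    have hden0 : (0 : ℝ) < q.den := by exact_mod_cast q.pos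
    have hqd : θ = q.num / q.den := by
      rw [← hq]
      exact_mod_cast (Rat.num_div_den q).symm
    have e5 : A * (((k : ℤ) * q.num : ℤ) : ℝ) ^ 2 + 2 * B * (((k : ℤ) * q.num : ℤ) : ℝ) *
        (((k : ℤ) * (q.den : ℤ) : ℤ) : ℝ) + C * (((k : ℤ) * (q.den : ℤ) : ℤ) : ℝ) ^ 2 = 0 := by
      rw [key, hqd]
      push_cast
      have : (k : ℝ) * q.num - q.num / q.den * (k * q.den) = 0 := by
        field_simp
        ring
      rw [this]
      ring
    rw [e5, abs_zero]

variable {V : Type} [AddCommGroup V] [Module ℚ V]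

/-- the finiteness property of the values at the elements of `L` -/
def Northcott (b : V →ₗ[ℚ] V →ₗ[ℚ] ℝ) (L : AddSubgroup V) : Prop :=
  ∀ T : ℝ, {x : V | x ∈ L ∧ |b x x| ≤ T}.Finite

theorem b_zsmul (b : V →ₗ[ℚ] V →ₗ[ℚ] ℝ) (m n : ℤ) (x y : V) :
    b (m • x) (n • y) = m * n * b x y := by
  rw [map_zsmul, map_zsmul, LinearMap.smul_apply]
  simp only [zsmul_eq_mul]
  ring

theorem nor_ne_zero {b : V →ₗ[ℚ] V →ₗ[ℚ] ℝ} {L : AddSubgroup V} (hN : Northcott b L)
    {x : V} (hx : x ∈ L) (hx0 : x ≠ 0) : b x x ≠ 0 := by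
  intro h
  have hinj : Function.Injective (fun k : ℕ => k • x) := by
    intro k l hkl
    have h1 : ((k : ℚ) - l) • x = 0 := by
      rw [sub_smul, Nat.cast_smul_eq_nsmul ℚ, Nat.cast_smul_eq_nsmul ℚ]
      exact sub_eq_zero.2 hkl
    rcases smul_eq_zero.1 h1 with h2 | h2
    · exact_mod_cast sub_eq_zero.1 h2
    · exact absurd h2 hx0
  refine Set.infinite_range_of_injective hinj ((hN 0).subset ?_)
  rintro _ ⟨k, rfl⟩
  refine ⟨L.nsmul_mem hx k, ?_⟩
  have := b_zsmul b k k x x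
  simp only [natCast_zsmul] at this
  simp only [this, h, mul_zero, abs_zero, le_refl]

theorem nor_sign {b : V →ₗ[ℚ] V →ₗ[ℚ] ℝ} (hs : ∀ x y, b x y = b y x) {L : AddSubgroup V}
    (hN : Northcott b L) {x y : V} (hx : x ∈ L) (hy : y ∈ L) (h1 : 0 < b x x) (h2 : b y y < 0) :
    False := by
  obtain ⟨M, hM⟩ := binary_infinite (b x x) (b x y) (b y y) h1 h2
  have hval : ∀ s t : ℤ, b (s • x + t • y) (s • x + t • y) =
      b x x * s ^ 2 + 2 * b x y * s * t + b y y * t ^ 2 := by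
    intro s t
    simp only [map_add, LinearMap.add_apply, b_zsmul, hs y x]
    ring
  have hinj : Function.Injective (fun p : ℤ × ℤ => p.1 • x + p.2 • y) := by
    rintro ⟨s, t⟩ ⟨s', t'⟩ hst
    simp only at hst
    have h3 : (s - s') • x = (t' - t) • y := by
      rw [sub_smul, sub_smul]
      have : s • x + t • y - (s' • x + t' • y) = 0 := sub_eq_zero.2 hst
      rw [← sub_eq_zero, ← this]
      abel
    have h4 : ((s - s' : ℤ) : ℝ) ^ 2 * b x x = ((t' - t : ℤ) : ℝ) ^ 2 * b y y := by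
      have e1 := b_zsmul b (s - s') (s - s') x x
      have e2 := b_zsmul b (t' - t) (t' - t) y y
      rw [h3] at e1
      rw [e1] at e2
      rw [pow_two, pow_two]
      exact e2
    have h5 : ((s - s' : ℤ) : ℝ) ^ 2 = 0 := by
      by_contra hne
      have h6 : 0 < ((s - s' : ℤ) : ℝ) ^ 2 := lt_of_le_of_ne (sq_nonneg _) (Ne.symm hne)
      nlinarith [mul_pos h6 h1, sq_nonneg ((t' - t : ℤ) : ℝ)]
    have h7 : ((t' - t : ℤ) : ℝ) ^ 2 = 0 := by
      rw [h5, zero_mul] at h4
      exact (mul_eq_zero.1 h4.symm).resolve_right h2.ne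
    have h8 : s - s' = 0 := by exact_mod_cast pow_eq_zero_iff (two_ne_zero) |>.1 h5
    have h9 : t' - t = 0 := by exact_mod_cast pow_eq_zero_iff (two_ne_zero) |>.1 h7
    exact Prod.ext (by simp only; omega) (by simp only; omega)
  refine (hM.image (hinj.injOn)) ((hN M).subset ?_)
  rintro _ ⟨⟨s, t⟩, hp, rfl⟩
  refine ⟨L.add_mem (L.zsmul_mem hx s) (L.zsmul_mem hy t), ?_⟩
  have hp' : |b x x * s ^ 2 + 2 * b x y * s * t + b y y * t ^ 2| ≤ M := hp
  simp only [hval]
  exact hp'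

/-- every vector has a nonzero multiple in `L` -/
def Spans (L : AddSubgroup V) : Prop := ∀ v : V, ∃ n : ℕ, n ≠ 0 ∧ n • v ∈ L

theorem nsmul_ne {n : ℕ} (hn : n ≠ 0) {v : V} (hv : v ≠ 0) : n • v ≠ 0 := by
  intro h
  rw [← Nat.cast_smul_eq_nsmul ℚ] at h
  rcases smul_eq_zero.1 h with h1 | h1
  · exact hn (by exact_mod_cast h1)
  · exact hv h1

theorem b_nsmul_self (b : V →ₗ[ℚ] V →ₗ[ℚ] ℝ) (n : ℕ) (x : V) :
    b (n • x) (n • x) = (n : ℝ) ^ 2 * b x x := by
  have := b_zsmul b n n x x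
  simp only [natCast_zsmul] at this
  rw [this]
  push_cast
  ring

/-- the sign of the form -/
theorem nor_pos_or_neg {b : V →ₗ[ℚ] V →ₗ[ℚ] ℝ} (hs : ∀ x y, b x y = b y x) {L : AddSubgroup V}
    (hN : Northcott b L) (hL : Spans L) :
    (∀ v : V, v ≠ 0 → 0 < b v v) ∨ (∀ v : V, v ≠ 0 → b v v < 0) := by
  by_cases hneg : ∃ x ∈ L, b x x < 0
  · right
    obtain ⟨x, hx, hx1⟩ := hneg
    intro v hv
    obtain ⟨n, hn, hnv⟩ := hL v
    have h1 := nor_ne_zero hN hnv (nsmul_ne hn hv)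
    have h2 : ¬ 0 < b (n • v) (n • v) := fun h => nor_sign hs hN hnv hx h hx1
    have h3 : b (n • v) (n • v) < 0 := lt_of_le_of_ne (not_lt.1 h2) h1
    rw [b_nsmul_self] at h3
    have h4 : (0 : ℝ) < (n : ℝ) ^ 2 := by positivity
    by_contra h5
    have := mul_nonneg h4.le (not_lt.1 h5)
    linarith
  · left
    push Not at hneg
    intro v hv
    obtain ⟨n, hn, hnv⟩ := hL v
    have h1 := nor_ne_zero hN hnv (nsmul_ne hn hv)
    have h3 : 0 < b (n • v) (n • v) := lt_of_le_of_ne (hneg _ hnv) (Ne.symm h1)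
    rw [b_nsmul_self] at h3
    have h4 : (0 : ℝ) < (n : ℝ) ^ 2 := by positivity
    by_contra h5
    have := mul_nonneg h4.le (neg_nonneg.2 (not_lt.1 h5))
    linarith

/-- the form over the reals -/
noncomputable def Q {r : ℕ} (b : V →ₗ[ℚ] V →ₗ[ℚ] ℝ) (v : Fin r → V) (c d : Fin r → ℝ) : ℝ :=
  ∑ i, ∑ j, c i * d j * b (v i) (v j)

theorem Q_add {r : ℕ} (b : V →ₗ[ℚ] V →ₗ[ℚ] ℝ) (hs : ∀ x y, b x y = b y x) (v : Fin r → V)
    (c d : Fin r → ℝ) (k : ℝ) :
    Q b v (fun i => k * c i + d i) (fun i => k * c i + d i) =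
      k ^ 2 * Q b v c c + 2 * k * Q b v c d + Q b v d d := by
  have h1 : Q b v d c = Q b v c d := by
    unfold Q
    rw [Finset.sum_comm]
    refine Finset.sum_congr rfl fun i _ => Finset.sum_congr rfl fun j _ => ?_
    rw [hs (v j) (v i)]
    ring
  have h2 : Q b v (fun i => k * c i + d i) (fun i => k * c i + d i) =
      k ^ 2 * Q b v c c + k * Q b v c d + k * Q b v d c + Q b v d d := by
    unfold Q
    simp only [Finset.mul_sum, ← Finset.sum_add_distrib]
    refine Finset.sum_congr rfl fun i _ => Finset.sum_congr rfl fun j _ => ?_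
    ring
  rw [h2, h1]
  ring

theorem Q_int {r : ℕ} (b : V →ₗ[ℚ] V →ₗ[ℚ] ℝ) (v : Fin r → V) (n : Fin r → ℤ) :
    Q b v (fun i => (n i : ℝ)) (fun i => (n i : ℝ)) = b (∑ i, n i • v i) (∑ i, n i • v i) := by
  unfold Q
  rw [map_sum b, LinearMap.sum_apply]
  refine Finset.sum_congr rfl fun i _ => ?_
  rw [map_sum]
  refine Finset.sum_congr rfl fun j _ => ?_
  rw [b_zsmul]

theorem Q_bound {r : ℕ} (b : V →ₗ[ℚ] V →ₗ[ℚ] ℝ) (v : Fin r → V) (c d : Fin r → ℝ)
    (hd : ∀ i, |d i| ≤ 1) : |Q b v c d| ≤ ∑ i, ∑ j, |c i| * |b (v i) (v j)| := by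
  unfold Q
  refine (Finset.abs_sum_le_sum_abs _ _).trans (Finset.sum_le_sum fun i _ => ?_)
  refine (Finset.abs_sum_le_sum_abs _ _).trans (Finset.sum_le_sum fun j _ => ?_)
  rw [abs_mul, abs_mul]
  have h1 : |c i| * |d j| ≤ |c i| * 1 := mul_le_mul_of_nonneg_left (hd j) (abs_nonneg _)
  rw [mul_one] at h1
  exact mul_le_mul_of_nonneg_right h1 (abs_nonneg _)

theorem Q_bound2 {r : ℕ} (b : V →ₗ[ℚ] V →ₗ[ℚ] ℝ) (v : Fin r → V) (c d : Fin r → ℝ)
    (hc : ∀ i, |c i| ≤ 1) (hd : ∀ i, |d i| ≤ 1) :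
    |Q b v c d| ≤ ∑ i, ∑ j, |b (v i) (v j)| := by
  refine (Q_bound b v c d hd).trans (Finset.sum_le_sum fun i _ => Finset.sum_le_sum fun j _ => ?_)
  calc |c i| * |b (v i) (v j)| ≤ 1 * |b (v i) (v j)| :=
        mul_le_mul_of_nonneg_right (hc i) (abs_nonneg _)
    _ = _ := one_mul _

/-- rounding -/
theorem round_split {r : ℕ} (c : Fin r → ℝ) (k : ℝ) : ∃ (n : Fin r → ℤ) (d : Fin r → ℝ),
    (∀ i, |d i| ≤ 1) ∧ (∀ i, (n i : ℝ) = k * c i + d i) ∧ ∀ i, n i = round (k * c i) := by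
  refine ⟨fun i => round (k * c i), fun i => round (k * c i) - k * c i, fun i => ?_,
    fun i => by ring, fun i => rfl⟩
  have h := abs_sub_round (k * c i)
  rw [abs_sub_comm] at h
  linarith

theorem Q_nonneg {r : ℕ} {b : V →ₗ[ℚ] V →ₗ[ℚ] ℝ} (hs : ∀ x y, b x y = b y x)
    (hpos : ∀ v : V, v ≠ 0 → 0 < b v v) (v : Fin r → V) (c : Fin r → ℝ) : 0 ≤ Q b v c c := by
  by_contra hlt
  push Not at hlt
  set S1 : ℝ := ∑ i, ∑ j, |c i| * |b (v i) (v j)| with hS1
  set S2 : ℝ := ∑ i, ∑ j, |b (v i) (v j)| with hS2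
  have hS1' : 0 ≤ S1 := by positivity
  have hS2' : 0 ≤ S2 := by positivity
  set a : ℝ := -Q b v c c with ha
  have ha0 : 0 < a := by linarith
  set k : ℝ := (2 * S1 + S2 + 1) / a + 1 with hk
  have hk1 : 1 ≤ k := by
    have : 0 ≤ (2 * S1 + S2 + 1) / a := by positivity
    linarith
  obtain ⟨n, d, hd, hn, -⟩ := round_split c k
  have h1 := Q_int b v n
  have h2 : (fun i => (n i : ℝ)) = fun i => k * c i + d i := funext hn
  rw [h2, Q_add b hs] at h1
  have h3 : 0 ≤ b (∑ i, n i • v i) (∑ i, n i • v i) := by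
    by_cases h0 : ∑ i, n i • v i = 0
    · rw [h0]
      simp
    · exact (hpos _ h0).le
  rw [← h1] at h3
  have h4 := (abs_le.1 (Q_bound b v c d hd)).2
  have h5 := (abs_le.1 (Q_bound2 b v d d hd hd)).2
  have h6 : a * k = 2 * S1 + S2 + 1 + a := by
    rw [hk]
    field_simp
  have h7 : k ^ 2 * Q b v c c = -(a * k) * k := by
    rw [ha]
    ring
  rw [h7, h6] at h3
  have h8 : 2 * k * Q b v c d ≤ 2 * k * S1 := mul_le_mul_of_nonneg_left h4 (by linarith)
  have h9 : Q b v d d ≤ k * S2 := by nlinarith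
  nlinarith

theorem Q_radical {r : ℕ} {b : V →ₗ[ℚ] V →ₗ[ℚ] ℝ} (hs : ∀ x y, b x y = b y x)
    (hpos : ∀ v : V, v ≠ 0 → 0 < b v v) (v : Fin r → V) (c d : Fin r → ℝ) (h : Q b v c c = 0) :
    Q b v c d = 0 := by
  have h1 : ∀ k : ℝ, 0 ≤ 2 * k * Q b v c d + Q b v d d := by
    intro k
    have h2 := Q_nonneg hs hpos v (fun i => k * c i + d i)
    rw [Q_add b hs, h] at h2
    linarith
  by_contra hne
  have h3 := h1 (-(Q b v d d + 1) / (2 * Q b v c d))
  have h4 : 2 * (-(Q b v d d + 1) / (2 * Q b v c d)) * Q b v c d = -(Q b v d d + 1) := by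
    field_simp
  rw [h4] at h3
  linarith

/-- positivity over the reals, for vectors of `L` -/
theorem Q_pos_aux {r : ℕ} {b : V →ₗ[ℚ] V →ₗ[ℚ] ℝ} (hs : ∀ x y, b x y = b y x)
    (hpos : ∀ v : V, v ≠ 0 → 0 < b v v) {L : AddSubgroup V} (hN : Northcott b L)
    (v : Fin r → V) (hvL : ∀ i, v i ∈ L) (hv : LinearIndependent ℚ v) (c : Fin r → ℝ)
    (hc : c ≠ 0) : 0 < Q b v c c := by
  refine lt_of_le_of_ne (Q_nonneg hs hpos v c) ?_
  intro h0
  obtain ⟨i, hi⟩ := Function.ne_iff.1 hc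
  have hi' : 0 < |c i| := abs_pos.2 hi
  obtain ⟨K, hK⟩ := exists_nat_gt (1 / |c i|)
  have hK1 : 1 < K * |c i| := by
    rwa [div_lt_iff₀ hi'] at hK
  choose n d hd hn hround using fun k : ℕ => round_split c ((k : ℝ) * K)
  set x : ℕ → V := fun k => ∑ j, n k j • v j with hx
  have hinj : Function.Injective x := by
    intro k l hkl
    have h1 : ∑ j, ((n k j - n l j : ℤ) : ℚ) • v j = 0 := by
      have h2 : x k - x l = 0 := sub_eq_zero.2 hkl
      rw [hx] at h2
      simp only at h2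
      rw [← Finset.sum_sub_distrib] at h2
      rw [← h2]
      refine Finset.sum_congr rfl fun j _ => ?_
      rw [Int.cast_smul_eq_zsmul ℚ, sub_smul]
    have h3 := Fintype.linearIndependent_iff.1 hv _ h1 i
    have h4 : n k i = n l i := by
      have : n k i - n l i = 0 := by exact_mod_cast h3
      omega
    rw [hround k i, hround l i] at h4
    by_contra hne
    have e1 := abs_sub_round ((k : ℝ) * K * c i)
    have e2 := abs_sub_round ((l : ℝ) * K * c i)
    rw [h4] at e1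
    have e3 : |((k : ℝ) - l) * (K * c i)| ≤ 1 := by
      have e4 : ((k : ℝ) - l) * (K * c i) = ((k : ℝ) * K * c i - round ((l : ℝ) * K * c i)) -
          ((l : ℝ) * K * c i - round ((l : ℝ) * K * c i)) := by ring
      rw [e4]
      refine (abs_sub _ _).trans ?_
      linarith
    rw [abs_mul, abs_mul (K : ℝ), abs_of_nonneg (Nat.cast_nonneg K : (0 : ℝ) ≤ K)] at e3
    have e5 : (1 : ℝ) ≤ |(k : ℝ) - l| := by
      have e6 : ((k : ℤ) - l) ≠ 0 := by
        intro h
        apply hne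
        omega
      have e7 := Int.one_le_abs e6
      have e8 : ((1 : ℤ) : ℝ) ≤ ((|(k : ℤ) - l| : ℤ) : ℝ) := by exact_mod_cast e7
      push_cast at e8
      exact e8
    nlinarith
  refine Set.infinite_range_of_injective hinj
    ((hN (∑ i, ∑ j, |b (v i) (v j)|)).subset ?_)
  rintro _ ⟨k, rfl⟩
  refine ⟨L.sum_mem fun j _ => L.zsmul_mem (hvL j) _, ?_⟩
  have h1 := Q_int b v (n k)
  have h2 : (fun i => (n k i : ℝ)) = fun i => ((k : ℝ) * K) * c i + d k i := funext (hn k)
  rw [h2, Q_add b hs, ← h0, Q_radical hs hpos v c (d k) h0.symm] at h1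
  have h3 : b (x k) (x k) = Q b v (d k) (d k) := by
    rw [hx]
    simp only
    rw [← h1]
    ring
  rw [h3]
  exact Q_bound2 b v _ _ (hd k) (hd k)

/-- positivity over the reals -/
theorem Q_pos {r : ℕ} {b : V →ₗ[ℚ] V →ₗ[ℚ] ℝ} (hs : ∀ x y, b x y = b y x)
    (hpos : ∀ v : V, v ≠ 0 → 0 < b v v) {L : AddSubgroup V} (hN : Northcott b L)
    (hL : Spans L) (v : Fin r → V) (hv : LinearIndependent ℚ v) (c : Fin r → ℝ)
    (hc : c ≠ 0) : 0 < Q b v c c := by
  choose m hm0 hm using fun i => hL (v i)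
  have hm0' : ∀ i, (m i : ℚ) ≠ 0 := fun i => by exact_mod_cast hm0 i
  have hm0r : ∀ i, (m i : ℝ) ≠ 0 := fun i => by exact_mod_cast hm0 i
  have hli : LinearIndependent ℚ (fun i => m i • v i) := by
    have h1 := hv.units_smul (fun i => Units.mk0 (m i : ℚ) (hm0' i))
    have h2 : ((fun i => Units.mk0 (m i : ℚ) (hm0' i)) • v) = fun i => m i • v i := by
      funext i
      simp only [Pi.smul_apply', Units.smul_def, Units.val_mk0, Nat.cast_smul_eq_nsmul]
    rwa [h2] at h1
  have h3 := Q_pos_aux hs hpos hN (fun i => m i • v i) hm hli (fun i => c i / m i) (by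
    intro h
    apply hc
    funext i
    have h4 := congrFun h i
    simp only [Pi.zero_apply] at h4 ⊢
    rcases div_eq_zero_iff.1 h4 with h5 | h5
    · exact h5
    · exact absurd h5 (hm0r i))
  have h6 : Q b (fun i => m i • v i) (fun i => c i / m i) (fun i => c i / m i) = Q b v c c := by
    unfold Q
    refine Finset.sum_congr rfl fun i _ => Finset.sum_congr rfl fun j _ => ?_
    have h7 : b (m i • v i) (m j • v j) = m i * m j * b (v i) (v j) := by
      have := b_zsmul b (m i) (m j) (v i) (v j)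
      simp only [natCast_zsmul] at this
      rw [this]
      push_cast
      ring
    simp only [h7]
    have h8 := hm0r i
    have h9 := hm0r j
    field_simp
  rwa [h6] at h3

/-- descent -/
theorem fg_of {b : V →ₗ[ℚ] V →ₗ[ℚ] ℝ} (hs : ∀ x y, b x y = b y x)
    (hpos : ∀ v : V, v ≠ 0 → 0 < b v v) {L : AddSubgroup V} (hN : Northcott b L)
    {N : ℕ} (hN2 : 2 ≤ N) {S : Finset V} (hSL : ∀ s ∈ S, s ∈ L)
    (hS : ∀ x ∈ L, ∃ s ∈ S, ∃ y ∈ L, x = s + N • y) : L.FG := by
  classical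
  have hnn : ∀ v : V, 0 ≤ b v v := by
    intro v
    by_cases h0 : v = 0
    · rw [h0]; simp
    · exact (hpos v h0).le
  set T : ℝ := ∑ s ∈ S, b s s with hT
  have hTs : ∀ s ∈ S, b s s ≤ T := fun s hs' =>
    Finset.single_le_sum (f := fun s => b s s) (fun i _ => hnn i) hs'
  set F : Finset V := S ∪ (hN T).toFinset with hF
  refine ⟨F, ?_⟩
  apply le_antisymm
  · rw [AddSubgroup.closure_le]
    intro x hx
    rw [hF, Finset.coe_union] at hx
    rcases hx with hx | hx
    · exact hSL x hx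
    · exact ((hN T).mem_toFinset.1 hx).1
  · by_contra hnot
    obtain ⟨x0, hx0, hx0G⟩ := Set.not_subset.1 hnot
    set E : Set V := {x | x ∈ L ∧ |b x x| ≤ b x0 x0 ∧ x ∉ AddSubgroup.closure (F : Set V)} with hE
    have hEfin : E.Finite := (hN (b x0 x0)).subset fun x hx => ⟨hx.1, hx.2.1⟩
    have hEne : E.Nonempty := ⟨x0, hx0, by rw [abs_of_nonneg (hnn x0)], hx0G⟩
    obtain ⟨x, hxE, hmin⟩ := Set.exists_min_image E (fun x => b x x) hEfin hEne
    obtain ⟨s, hs', y, hy, hxy⟩ := hS x hxE.1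
    have hxT : T < b x x := by
      by_contra hle
      push Not at hle
      apply hxE.2.2
      apply AddSubgroup.subset_closure
      rw [hF, Finset.coe_union]
      right
      refine (hN T).mem_toFinset.2 ⟨hxE.1, ?_⟩
      rw [abs_of_nonneg (hnn x)]
      exact hle
    have h1 : (N : ℝ) ^ 2 * b y y = b x x - 2 * b x s + b s s := by
      rw [← b_nsmul_self]
      have : N • y = x - s := by rw [hxy]; abel
      rw [this]
      simp only [map_sub, LinearMap.sub_apply, hs s x]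
      ring
    have h2 : 0 ≤ b x x + 2 * b x s + b s s := by
      have := hnn (x + s)
      simp only [map_add, LinearMap.add_apply, hs s x] at this
      linarith
    have h3 := hTs s hs'
    have hN4 : (4 : ℝ) ≤ (N : ℝ) ^ 2 := by
      have : (2 : ℝ) ≤ N := by exact_mod_cast hN2
      nlinarith
    have hyx : b y y < b x x := by
      have h4 := hnn y
      nlinarith
    have hyG : y ∈ AddSubgroup.closure (F : Set V) := by
      by_contra hyG
      have hyE : y ∈ E := by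
        refine ⟨hy, ?_, hyG⟩
        rw [abs_of_nonneg (hnn y)]
        have h5 := hxE.2.1
        rw [abs_of_nonneg (hnn x)] at h5
        linarith
      have := hmin y hyE
      linarith
    apply hxE.2.2
    rw [hxy]
    refine AddSubgroup.add_mem _ (AddSubgroup.subset_closure ?_) (AddSubgroup.nsmul_mem _ hyG N)
    rw [hF, Finset.coe_union]
    exact Or.inl hs'

end Pool.Agent.TH122.Nor
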