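import Pool.Agent.TH122.PrimD

/-!
# Unipotent algebraic isometries from isotropic classes
-/

open CategoryTheory AlgebraicGeometry Finset Polynomial

universe u v w

namespace Pool.Agent.TH122.Aniso

open Pool.Agent.H914 Pool.Agent.H914.VarClass Pool.Agent.H914.VarClass.Obj
  Pool.Agent.H914.WeilCohomology Pool.Agent.H281R3.HT

variable {k : Type u} [Field k] {𝒱 : VarClass k} {ops : CycleOps 𝒱}

section Alg

variable {K : Type*} [Field K] {A : Type*} [Ring A] [Algebra K A] {V : Type*} [AddCommGroup V]
  [Module K V]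

/-- The operator `T` commutes with the multiplication by `ξ` and preserves the pairing
`tr (a b)`. -/
structure IsLefschetzIsometry (tr : A →ₗ[K] K) (ξ : A) (T : Module.End K A) : Prop where
  lefschetz : ∀ a, T (ξ * a) = ξ * T a
  pairing : ∀ a b, tr (T a * T b) = tr (a * b)

/-- The operator `T` is unipotent. -/
def IsUnipotentOperator (T : Module.End K V) : Prop := ∃ m : ℕ, (T - 1) ^ m = 0

/-- The operator `T` is the identity. -/
def IsIdentity (T : Module.End K V) : Prop := ∀ a, T a = a

/-- The operator `T` is annihilated by a squarefree polynomial with rational coefficients, all of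
whose complex roots have absolute value one. -/
def IsSemisimpleUnitary [CharZero K] (T : Module.End K V) : Prop :=
  ∃ Q : ℚ[X], Squarefree Q ∧ aeval T (Q.map (algebraMap ℚ K)) = 0 ∧
    ∀ z : ℂ, aeval z Q = 0 → ‖z‖ = 1

end Alg

/-- The algebraic correspondence `u` of degree zero on `X` acts on the cohomology of `X` by an
operator which commutes with the multiplication by the class of the divisor `D` and preserves the
Poincare pairing. -/
structure IsIsometry (W : WeilCohomology.{u, v} ops) (X : 𝒱.Obj) (D : X.Cycles)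
    (u : (X.prod X).Cycles) : Prop where
  codim : (X.prod X).IsCyc X.dim u
  isometry : IsLefschetzIsometry (W.tr X) (W.cl X D) (W.corr (W.cl (X.prod X) u))

/-- All unipotent algebraic isometries of `X` are trivial. -/
def NoUnipotentIsometries (W : WeilCohomology.{u, v} ops) (X : 𝒱.Obj) (D : X.Cycles) : Prop :=
  ∀ u, IsIsometry W X D u → IsUnipotentOperator (W.corr (W.cl (X.prod X) u)) →
    IsIdentity (W.corr (W.cl (X.prod X) u))

/-- All algebraic isometries of `X` are semisimple, with eigenvalues of absolute value one. -/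
def SemisimpleIsometries (W : WeilCohomology.{u, v} ops) (X : 𝒱.Obj) (D : X.Cycles) : Prop :=
  ∀ u, IsIsometry W X D u → IsSemisimpleUnitary (W.corr (W.cl (X.prod X) u))

variable {W : WeilCohomology.{u, v} ops} {P Q : Polarized 𝒱}

lemma corr_ext {X : 𝒱.Obj} {j : ℕ} (a : W.H X) {b : W.H X} (hb : b ∈ algClasses W X j)
    (c : W.H X) :
    W.corr (W.map (fst X X) a * W.map (snd X X) b) c = W.tr X (a * c) • b := by
  have h1 : W.map (snd X X) b * W.map (fst X X) c = W.map (fst X X) c * W.map (snd X X) b :=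
    alg_comm (alg_map _ hb) _
  rw [corr_apply, mul_assoc, h1, ← mul_assoc, ← map_mul, push_snd]

lemma diag_alg (X : 𝒱.Obj) :
    W.push (diag X) (1 : W.H X) ∈ algClasses W (X.prod X) X.dim :=
  alg_push (diag X) (one_alg W X) (by simp)

/-- **Two orthogonal middle primitive classes, one of them isotropic, give a unipotent
isometry.** -/
theorem not_noUnipotent {X : 𝒱.Obj} {D : X.Cycles} {N : ℕ} (hN : X.dim = 2 * N)
    {A w : W.H X} (hA : A ∈ algClasses W X N) (hw : w ∈ algClasses W X N)
    (hA1 : W.cl X D * A = 0) (hw1 : W.cl X D * w = 0) (hD : X.IsCyc 1 D) (hA0 : A ≠ 0)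
    (hAA : W.tr X (A * A) = 0) (hAw : W.tr X (A * w) = 0) (hww : W.tr X (w * w) ≠ 0) :
    ¬ NoUnipotentIsometries W X D := by
  intro hno
  obtain ⟨t, ht⟩ := tr_alg_rat (alg_mul hw hw)
  have hwA : W.tr X (w * A) = 0 := by rw [alg_comm hw, hAw]
  set c₀ : W.H (X.prod X) := W.push (diag X) (1 : W.H X) with hc₀
  set c₁ : W.H (X.prod X) := W.map (fst X X) A * W.map (snd X X) w with hc₁
  set c₂ : W.H (X.prod X) := W.map (fst X X) w * W.map (snd X X) A with hc₂
  set c₃ : W.H (X.prod X) := W.map (fst X X) A * W.map (snd X X) A with hc₃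
  have h0 : c₀ ∈ algClasses W (X.prod X) X.dim := diag_alg X
  have hNN : N + N = X.dim := by omega
  have h1 : c₁ ∈ algClasses W (X.prod X) X.dim := by
    rw [← hNN]; exact alg_mul (alg_map _ hA) (alg_map _ hw)
  have h2 : c₂ ∈ algClasses W (X.prod X) X.dim := by
    rw [← hNN]; exact alg_mul (alg_map _ hw) (alg_map _ hA)
  have h3 : c₃ ∈ algClasses W (X.prod X) X.dim := by
    rw [← hNN]; exact alg_mul (alg_map _ hA) (alg_map _ hA)
  have h4 : c₀ + c₁ + ((-1 : ℚ) : W.K) • c₂ + ((-(t / 2) : ℚ) : W.K) • c₃ ∈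
      algClasses W (X.prod X) X.dim :=
    alg_add (alg_add (alg_add h0 h1) (alg_smul (-1) h2)) (alg_smul (-(t / 2)) h3)
  obtain ⟨u, hu, huc⟩ := h4
  have hU : ∀ c, W.corr (W.cl _ u) c = c + W.tr X (A * c) • w - W.tr X (w * c) • A -
      ((t : W.K) / 2 * W.tr X (A * c)) • A := by
    intro c
    rw [huc, corr_add, corr_add, corr_add, corr_smul, corr_smul, LinearMap.add_apply,
      LinearMap.add_apply, LinearMap.add_apply, LinearMap.smul_apply, LinearMap.smul_apply,
      hc₀, corr_diag, one_mul, hc₁, hc₂, hc₃, corr_ext A hw, corr_ext w hA, corr_ext A hA,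
      smul_smul]
    push_cast
    module
  have hAξ : ∀ c, W.tr X (A * (W.cl X D * c)) = 0 := fun c => by
    rw [← mul_assoc, alg_comm hA, hA1, zero_mul, map_zero]
  have hwξ : ∀ c, W.tr X (w * (W.cl X D * c)) = 0 := fun c => by
    rw [← mul_assoc, alg_comm hw, hw1, zero_mul, map_zero]
  have hiso : IsIsometry W X D u := by
    refine ⟨hu, ?_, ?_⟩
    · intro a
      rw [hU, hU, hAξ, hwξ, mul_zero, zero_smul, zero_smul, mul_sub, mul_sub, mul_add,
        mul_smul_comm, mul_smul_comm, mul_smul_comm, hA1, hw1, smul_zero, smul_zero, smul_zero]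
    · intro a b
      have e1 : ∀ c, W.tr X (c * A) = W.tr X (A * c) := fun c => by rw [alg_comm hA]
      have e2 : ∀ c, W.tr X (c * w) = W.tr X (w * c) := fun c => by rw [alg_comm hw]
      rw [hU, hU]
      simp only [add_mul, sub_mul, mul_add, mul_sub, smul_mul_assoc, mul_smul_comm, map_add,
        map_sub, map_smul, smul_eq_mul, hAA, hAw, hwA, ht, e1, e2, mul_zero]
      ring
  have hUA : W.corr (W.cl _ u) A = A := by
    rw [hU, hAA, hwA]
    simp
  have hsub : ∀ c, (W.corr (W.cl _ u) - 1) c = W.tr X (A * c) • w - W.tr X (w * c) • A -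
      ((t : W.K) / 2 * W.tr X (A * c)) • A := by
    intro c
    rw [LinearMap.sub_apply, Module.End.one_apply, hU]
    abel
  have hsA : (W.corr (W.cl _ u) - 1) A = 0 := by
    rw [LinearMap.sub_apply, Module.End.one_apply, hUA, sub_self]
  have hsw : (W.corr (W.cl _ u) - 1) w = -(t : W.K) • A := by
    rw [hsub, hAw, ht]
    simp
  have huni : (W.corr (W.cl _ u) - 1) ^ 3 = 0 := by
    apply LinearMap.ext
    intro c
    rw [pow_succ, pow_two, Module.End.mul_apply, Module.End.mul_apply, hsub c]
    simp only [map_sub, map_smul, hsA, hsw, smul_zero, sub_zero, LinearMap.zero_apply]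
  have h1U := hno u hiso ⟨3, huni⟩
  apply hA0
  apply W.nondeg
  intro c
  have h5 := hsub c
  rw [LinearMap.sub_apply, Module.End.one_apply, h1U, sub_self] at h5
  have h6 := congrArg (fun x => W.tr X (w * x)) h5
  simp only [mul_zero, map_zero, mul_sub, mul_smul_comm, map_sub, map_smul, smul_eq_mul, hwA,
    sub_zero] at h6
  exact (mul_eq_zero.1 h6.symm).resolve_right hww

end Pool.Agent.TH122.Aniso
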