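import Pool.Agent.TH122.IsoA

/-!
# Unipotent algebraic isometries from violations of the conjecture of Hodge type
-/

open CategoryTheory AlgebraicGeometry Finset Polynomial

universe u v w

namespace Pool.Agent.TH122.Aniso

open Pool.Agent.H914 Pool.Agent.H914.VarClass Pool.Agent.H914.VarClass.Obj
  Pool.Agent.H914.WeilCohomology Pool.Agent.H281R3.HT

variable {k : Type u} [Field k] {𝒱 : VarClass k} {ops : CycleOps 𝒱}
  {W : WeilCohomology.{u, v} ops} {P Q : Polarized 𝒱}

lemma xi_ex (hP : P.X.IsCyc 1 P.D) (hQ : Q.X.IsCyc 1 Q.D) (a : W.H P.X) (b : W.H Q.X) :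
    xi W (pr ops P Q) * ex W P Q a b = ex W P Q (xi W P * a) b + ex W P Q a (xi W Q * b) := by
  have h1 := xi_pow_ex (W := W) hP hQ 1 a b
  rw [pow_one] at h1
  rw [h1, Finset.sum_range_succ, Finset.sum_range_one]
  simp [add_comm]

/-- The invariant class. -/
noncomputable def inv (W : WeilCohomology.{u, v} ops) (P : Polarized 𝒱) :
    W.H (pr ops P P).X :=
  ∑ i ∈ range (P.X.dim + 1), (((-1) ^ i : ℚ) : W.K) •
    ex W P P (xi W P ^ i) (xi W P ^ (P.X.dim - i))

lemma inv_alg (hD : P.X.IsCyc 1 P.D) : inv W P ∈ algClasses W (pr ops P P).X P.X.dim := by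
  apply alg_sum
  intro i hi
  have h1 := ex_alg (W := W) (xi_pow_alg (W := W) hD i) (xi_pow_alg (W := W) hD (P.X.dim - i))
  have h2 := Finset.mem_range.1 hi
  rwa [show i + (P.X.dim - i) = P.X.dim by omega] at h1

lemma inv_prim (hD : P.X.IsCyc 1 P.D) : xi W (pr ops P P) * inv W P = 0 := by
  set M := P.X.dim with hM
  set f : ℕ → W.H (pr ops P P).X := fun i => ex W P P (xi W P ^ i) (xi W P ^ (M + 1 - i)) with hf
  have hvan : xi W P ^ (M + 1) = 0 := xi_pow_zero hD (by omega)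
  rw [inv, Finset.mul_sum]
  have h1 : ∀ i ∈ range (M + 1), xi W (pr ops P P) * ((((-1) ^ i : ℚ) : W.K) •
      ex W P P (xi W P ^ i) (xi W P ^ (M - i))) =
      (((-1) ^ i : ℚ) : W.K) • f i - (((-1) ^ (i + 1) : ℚ) : W.K) • f (i + 1) := by
    intro i hi
    have h2 := Finset.mem_range.1 hi
    rw [mul_smul_comm, xi_ex hD hD, ← pow_succ', ← pow_succ', hf]
    beta_reduce
    rw [show M - i + 1 = M + 1 - i by omega, show M + 1 - (i + 1) = M - i by omega]
    rw [smul_add, pow_succ (-1 : ℚ) i]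
    push_cast
    rw [mul_neg_one, neg_smul, sub_neg_eq_add, add_comm]
  rw [Finset.sum_congr rfl h1, Finset.sum_range_sub']
  have h3 : f 0 = 0 := by
    rw [hf]; beta_reduce
    rw [Nat.sub_zero, hvan, ex_zero_right]
  have h4 : f (M + 1) = 0 := by
    rw [hf]; beta_reduce
    rw [hvan, ex_zero_left]
  rw [h3, h4, smul_zero, smul_zero, sub_zero]

lemma inv_sq (hD : P.X.IsCyc 1 P.D)
    (hdeg : 0 < P.X.V.degCycle (divPow ops P.D P.X.dim P.X.V.fundCycle)) :
    W.tr (pr ops P P).X (inv W P * inv W P) ≠ 0 := by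
  set M := P.X.dim with hM
  set d : ℚ := P.X.V.degCycle (divPow ops P.D P.X.dim P.X.V.fundCycle) with hd
  have htop : W.tr P.X (xi W P ^ M) = (d : W.K) := tr_top hD
  have h0 : ∀ i, i ≠ M → W.tr P.X (xi W P ^ i) = 0 := fun i hi =>
    tr_alg_zero (xi_pow_alg (W := W) hD i) hi
  have h1 : ∀ i ∈ range (M + 1), W.tr (pr ops P P).X ((((-1) ^ i : ℚ) : W.K) •
      ex W P P (xi W P ^ i) (xi W P ^ (M - i)) * inv W P) = (-1 : W.K) ^ M * (d * d) := by
    intro i hi
    have hi' := Finset.mem_range.1 hi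
    rw [inv, ← hM, Finset.mul_sum, map_sum, Finset.sum_eq_single (M - i)]
    · rw [smul_mul_assoc, mul_smul_comm, map_smul, map_smul,
        ex_mul (xi_pow_alg (W := W) hD (M - i)), ex_tr, ← pow_add, ← pow_add,
        show i + (M - i) = M by omega, show M - i + (M - (M - i)) = M by omega, htop,
        smul_eq_mul, smul_eq_mul]
      have h2 : (-1 : W.K) ^ M = (-1) ^ i * (-1) ^ (M - i) := by
        rw [← pow_add]; congr 1; omega
      rw [h2]
      push_cast
      ring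
    · intro l _ hl
      rw [smul_mul_assoc, mul_smul_comm, map_smul, map_smul,
        ex_mul (xi_pow_alg (W := W) hD (M - i)), ex_tr, ← pow_add, h0 (i + l) (by omega),
        zero_mul, smul_zero, smul_zero]
    · intro h
      exact absurd (Finset.mem_range.2 (by omega)) h
  have h2 : W.tr (pr ops P P).X (inv W P * inv W P) =
      ((M + 1 : ℕ) : W.K) * ((-1 : W.K) ^ M * (d * d)) := by
    have h3 : inv W P * inv W P = ∑ i ∈ range (M + 1), (((-1) ^ i : ℚ) : W.K) •
      ex W P P (xi W P ^ i) (xi W P ^ (M - i)) * inv W P := by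
      rw [← Finset.sum_mul]; rfl
    rw [h3, map_sum, Finset.sum_congr rfl h1, Finset.sum_const, Finset.card_range, nsmul_eq_mul]
  rw [h2]
  have hd0 : (d : W.K) ≠ 0 := by exact_mod_cast hdeg.ne'
  refine mul_ne_zero (by exact_mod_cast Nat.succ_ne_zero M) (mul_ne_zero ?_ (mul_ne_zero hd0 hd0))
  exact pow_ne_zero _ (neg_ne_zero.2 one_ne_zero)

variable {𝒬 : Polarized 𝒱 → Prop}

theorem exists_unipotent (h𝒬 : Cls W 𝒬) (hP : 𝒬 P) {m : ℕ} (hm : 1 ≤ m)
    (hdim : P.X.dim = 2 * m) {a : W.H P.X} (ha : a ∈ algClasses W P.X m)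
    (ha1 : xi W P * a = 0) (ha0 : a ≠ 0) (haa : W.tr P.X (a * a) = 0) :
    ¬ NoUnipotentIsometries W (pr ops P P).X (pr ops P P).D := by
  have hD := h𝒬.div P hP
  have hpow : ∀ i, 1 ≤ i → xi W P ^ i * a = 0 := by
    intro i hi
    rw [← Nat.sub_add_cancel hi, pow_succ, mul_assoc, ha1, mul_zero]
  refine not_noUnipotent (N := P.X.dim) (A := ex W P P a a) (w := inv W P) (two_mul _).symm
    ?_ (inv_alg hD) ?_ (inv_prim hD) (h𝒬.div _ (h𝒬.prod P P hP hP)) ?_ ?_ ?_
    (inv_sq hD (h𝒬.deg P hP))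
  · have h1 := ex_alg (W := W) ha ha
    rwa [show m + m = P.X.dim by omega] at h1
  · change xi W (pr ops P P) * ex W P P a a = 0
    rw [xi_ex hD hD, ha1, ex_zero_left, ex_zero_right, add_zero]
  · intro h0
    apply ha0
    apply W.nondeg
    intro c
    have h1 : W.tr (pr ops P P).X (ex W P P a a * ex W P P c c) = 0 := by
      rw [h0, zero_mul, map_zero]
    rw [ex_mul ha, ex_tr] at h1
    exact mul_self_eq_zero.1 h1
  · rw [ex_mul ha, ex_tr, haa, zero_mul]
  · rw [inv, Finset.mul_sum, map_sum]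
    apply Finset.sum_eq_zero
    intro i _
    rw [mul_smul_comm, map_smul, ex_mul ha, ex_tr, alg_comm ha (xi W P ^ i),
      alg_comm ha (xi W P ^ (P.X.dim - i))]
    rcases Nat.eq_zero_or_pos i with rfl | hi
    · rw [hpow (P.X.dim - 0) (by omega), map_zero, mul_zero, smul_zero]
    · rw [hpow i hi, map_zero, zero_mul, smul_zero]

/-- **The conjecture of Hodge type from the triviality of unipotent isometries.** -/
theorem hodge_of_noUnipotent (h𝒬 : Cls W 𝒬)
    (h : ∀ P, 𝒬 P → NoUnipotentIsometries W P.X P.D) : ∀ P, 𝒬 P → HodgeType W P.X P.D := by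
  intro P hP j hj z hz hprim hz0
  by_contra hneg
  obtain ⟨hj1, Z, hZ, y, hy, hy0, hyy⟩ := violating h𝒬 hP hj hz hprim hz0 hneg
  obtain ⟨Ω, h0, h1, h2, h3⟩ := exists_middle h𝒬 hZ hy hy0 hyy
  have hle := hy.le
  have hZZ := h𝒬.prod Z Z hZ hZ
  exact exists_unipotent (P := pr ops Z Z) h𝒬 hZZ (m := Z.X.dim) (by omega) (two_mul _).symm
    h0 h1 h2 h3 (h _ (h𝒬.prod _ _ hZZ hZZ))

end Pool.Agent.TH122.Aniso
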