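import Pool.Agent.TH122.IsoB
import Pool.Agent.W539.Sig.Geo2

/-!
# Algebraic isometries are semisimple under the conjecture of Hodge type
-/

open CategoryTheory AlgebraicGeometry Finset Polynomial

universe u v w

namespace Pool.Agent.TH122.Aniso

open Pool.Agent.H914 Pool.Agent.H914.VarClass Pool.Agent.H914.VarClass.Obj
  Pool.Agent.H914.WeilCohomology Pool.Agent.H281R3.HT Pool.Agent.W539.Sig

variable {k : Type u} [Field k] {𝒱 : VarClass k} {ops : CycleOps 𝒱}
  {W : WeilCohomology.{u, v} ops} {X : 𝒱.Obj}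

/-- The form on the operators. -/
noncomputable def tform (W : WeilCohomology.{u, v} ops) (X : 𝒱.Obj) :
    Module.End W.K (W.H X) →ₗ[W.K] Module.End W.K (W.H X) →ₗ[W.K] W.K :=
  ((LinearMap.mul W.K (Module.End W.K (W.H X))).compr₂ (LinearMap.trace W.K (W.H X))).compl₂
    (tp W X)

lemma tform_apply (a b : Module.End W.K (W.H X)) :
    tform W X a b = LinearMap.trace W.K (W.H X) (a * tp W X b) := rfl

/-- Positivity. -/
lemma tform_pos {D : X.Cycles} (hD : X.IsCyc 1 D) (hK : KunnethStd W X)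
    (hH : HodgeType W (X.prod X) (boxSum ops D)) {y : Module.End W.K (W.H X)}
    (hy : y ∈ opRing W X D) (hy0 : y ≠ 0) : ∃ s : ℚ, tform W X y y = s ∧ 0 < s := by
  set E : Module.End W.K (W.H X) := sgn W X with hE
  have hEL := sgn_L (W := W) (X := X) hD
  obtain ⟨hy1, hy2⟩ := mem_opRing.1 hy
  obtain ⟨z, hz, hzy⟩ := cyc_of_rop (rop_mul0 (rop_sgn hK) hy1)
  have hyz : y = sgn W X * W.corr (W.cl _ z) := by
    rw [hzy, ← mul_assoc, sgn_sq, one_mul]
  have h1 := form_eq hK hz hz
  rw [← hyz] at h1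
  refine ⟨_, h1.symm, ?_⟩
  have hanti : LinearMap.mulLeft W.K (W.cl X D) * W.corr (W.cl _ z) =
      -(W.corr (W.cl _ z) * LinearMap.mulLeft W.K (W.cl X D)) := by
    rw [hzy]
    exact ring_anti hEL hy2
  have hprim : W.cl _ (ops.mul (boxSum ops D) z) = 0 := by
    have h2 := corr_boxSum (W := W) hD (W.cl _ z)
    rw [← W.cl_mul, dbl_apply] at h2
    apply corr_inj
    rw [h2, hanti]
    exact neg_add_cancel _
  have hcl0 : W.cl _ z ≠ 0 := by
    intro h0
    apply hy0
    rw [hyz, h0, corr_zero, mul_zero]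
  have h2 := hH X.dim (by rw [dim_prod]; omega) z hz (by
    rw [dim_prod, show X.dim + X.dim - 2 * X.dim + 1 = 1 by omega]
    exact hprim) hcl0
  rw [dim_prod, show X.dim + X.dim - 2 * X.dim = 0 by omega] at h2
  exact h2

/-- An isometry as an element of the ring of operators. -/
lemma iso_mem {D : X.Cycles} {u : (X.prod X).Cycles} (hu : IsIsometry W X D u) :
    W.corr (W.cl _ u) ∈ opRing W X D := by
  refine mem_opRing.2 ⟨rop_of_cyc hu.codim, ?_⟩
  apply LinearMap.ext
  intro a
  exact hu.isometry.lefschetz a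

lemma tp_iso {D : X.Cycles} {u : (X.prod X).Cycles} (hu : IsIsometry W X D u) :
    tp W X (W.corr (W.cl _ u)) * W.corr (W.cl _ u) = 1 := by
  apply LinearMap.ext
  intro b
  rw [← sub_eq_zero]
  apply nondeg_right
  intro a
  rw [mul_sub, map_sub, Module.End.mul_apply, ← tp_adj (rop_of_cyc hu.codim), hu.isometry.pairing,
    Module.End.one_apply, sub_self]

lemma tp_one : tp W X (1 : Module.End W.K (W.H X)) = 1 :=
  tp_unique rop_opAlg.one (fun _ _ => rfl)

lemma ev_mem {D : X.Cycles} {y : Module.End W.K (W.H X)} (hy : y ∈ opRing W X D) (p : ℚ[X]) :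
    ev y p ∈ opRing W X D := by
  obtain ⟨h1, h2⟩ := mem_opRing.1 hy
  refine mem_opRing.2 ⟨rop_ev h1 p, ?_⟩
  exact (ev_comm h2.symm p).symm

lemma ev_ev_comm (y : Module.End W.K (W.H X)) (p q : ℚ[X]) :
    ev y p * ev y q = ev y q * ev y p := by
  rw [← map_mul, ← map_mul, mul_comm]

/-- **Algebraic isometries are semisimple, with eigenvalues of absolute value one.** -/
theorem semisimple_of_hodge {D : X.Cycles} (hD : X.IsCyc 1 D) (hK : KunnethStd W X)
    (hH : HodgeType W (X.prod X) (boxSum ops D)) {u : (X.prod X).Cycles}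
    (hu : IsIsometry W X D u) :
    IsSemisimpleUnitary (W.corr (W.cl (X.prod X) u)) := by
  classical
  rw [IsSemisimpleUnitary]
  set U := W.corr (W.cl (X.prod X) u) with hU
  have hUm : U ∈ opRing W X D := iso_mem hu
  have hUtp : tp W X U * U = 1 := tp_iso hu
  have hUtp' : U * tp W X U = 1 := mul_eq_one_comm.1 hUtp
  have hrop : ∀ p, ROp W X 0 (ev U p) := fun p => (mem_opRing.1 (ev_mem hUm p)).1
  have hUr : ROp W X 0 U := (mem_opRing.1 hUm).1
  -- a polynomial
  obtain ⟨P, hP0, hPS, hPz⟩ := weights_of_pos (tform W X) {T | ∃ p : ℚ[X], T = ev U p}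
    ⟨0, by rw [map_zero]⟩
    (by
      rintro _ ⟨p, rfl⟩ _ ⟨q, rfl⟩
      exact ⟨p + q, by rw [map_add]⟩)
    (by
      rintro q _ ⟨p, rfl⟩
      refine ⟨C q * p, ?_⟩
      rw [map_mul, ev_C, smul_mul_assoc, one_mul])
    U
    (by
      rintro _ ⟨p, rfl⟩
      exact ⟨Polynomial.X * p, by rw [map_mul, ev_X]⟩)
    (by
      rintro _ ⟨p, rfl⟩ _ ⟨q, rfl⟩
      rw [tform_apply, tform_apply, ← trace_tp (rop_mul0 (hrop p) (rop_tp (hrop q))),
        tp_mul (hrop p) (rop_tp (hrop q)), tp_tp (hrop q)])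
    (by
      rintro _ ⟨p, rfl⟩ _ ⟨q, rfl⟩
      exact exists_trace hK (rop_mul0 (hrop p) (rop_tp (hrop q))))
    (by
      rintro _ ⟨p, rfl⟩ h0
      exact tform_pos hD hK hH (ev_mem hUm p) h0)
    1
    (by
      rintro _ ⟨p, rfl⟩ _ ⟨q, rfl⟩
      rw [tform_apply, tform_apply, tp_mul hUr (hrop q), Rat.cast_one, one_mul,
        show U * ev U p * (tp W X (ev U q) * tp W X U) =
          U * (ev U p * tp W X (ev U q)) * tp W X U by simp only [mul_assoc],
        LinearMap.trace_mul_comm, ← mul_assoc, hUtp, one_mul])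
  have hPU : ev U P = 0 := by
    have h1 := hPS 1 ⟨1, by rw [map_one]⟩
    rw [mul_one] at h1
    exact h1
  -- the minimal polynomial
  set I : Ideal ℚ[X] := RingHom.ker (ev U) with hI
  obtain ⟨Q, hQ⟩ := (inferInstance : I.IsPrincipal).principal
  have hQ' : I = Ideal.span {Q} := hQ
  have hmem : ∀ p, ev U p = 0 ↔ Q ∣ p := by
    intro p
    rw [← Ideal.mem_span_singleton, ← hQ', hI, RingHom.mem_ker]
  have hQP : Q ∣ P := (hmem P).1 hPU
  have hQ0 : Q ≠ 0 := by
    rintro rfl
    exact hP0 (zero_dvd_iff.1 hQP)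
  refine ⟨Q, ?_, (hmem Q).2 dvd_rfl, ?_⟩
  · intro g hg
    obtain ⟨h, rfl⟩ := hg
    set N := ev U (g * h) with hN
    have hNN : N * N = 0 := by
      rw [hN, ← map_mul, show g * h * (g * h) = (g * g * h) * h by ring, map_mul,
        (hmem _).2 dvd_rfl, zero_mul]
    have hNr : ROp W X 0 N := hrop _
    have hNm : N ∈ opRing W X D := ev_mem hUm _
    -- the adjoint commutes
    have hcomm : U * tp W X N = tp W X N * U := by
      have h1 : N * U = U * N := by
        have := ev_ev_comm U (g * h) Polynomial.X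
        rwa [ev_X] at this
      have h2 := congrArg (tp W X) h1
      rw [tp_mul hNr hUr, tp_mul hUr hNr] at h2
      calc U * tp W X N = U * (tp W X N * (tp W X U * U)) := by rw [hUtp, mul_one]
        _ = U * (tp W X N * tp W X U) * U := by simp only [mul_assoc]
        _ = U * (tp W X U * tp W X N) * U := by rw [← h2]
        _ = (U * tp W X U) * tp W X N * U := by simp only [mul_assoc]
        _ = tp W X N * U := by rw [hUtp', one_mul]
    have hcomm2 : tp W X N * N = N * tp W X N := by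
      rw [hN]
      exact ev_comm hcomm.symm (g * h)
    by_cases hN0 : N = 0
    · have h1 := (hmem _).1 hN0
      obtain ⟨c, hc⟩ := h1
      have hgh : g * h ≠ 0 := by
        intro h0
        apply hQ0
        rw [mul_assoc, h0, mul_zero]
      have h2 : g * h * 1 = g * h * (g * c) := by
        rw [mul_one]
        calc g * h = g * g * h * c := hc
          _ = g * h * (g * c) := by ring
      exact IsUnit.of_mul_eq_one c (mul_left_cancel₀ hgh h2).symm
    · exfalso
      obtain ⟨s, hs, hs0⟩ := tform_pos hD hK hH hNm hN0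
      have hM0 : N * tp W X N ≠ 0 := by
        intro h0
        rw [tform_apply, h0, map_zero] at hs
        have : s = 0 := by exact_mod_cast hs.symm
        exact hs0.ne' this
      have hMm : N * tp W X N ∈ opRing W X D := (opRing W X D).mul_mem hNm (tp_mem hD hNm)
      obtain ⟨s', hs', hs0'⟩ := tform_pos hD hK hH hMm hM0
      have h1 : N * tp W X N * tp W X (N * tp W X N) = 0 := by
        rw [tp_mul hNr (rop_tp hNr), tp_tp hNr]
        calc N * tp W X N * (N * tp W X N) = N * (tp W X N * N) * tp W X N := by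
              simp only [mul_assoc]
          _ = (N * N) * tp W X N * tp W X N := by rw [hcomm2]; simp only [mul_assoc]
          _ = 0 := by rw [hNN, zero_mul, zero_mul]
      rw [tform_apply, h1, map_zero] at hs'
      have : s' = 0 := by exact_mod_cast hs'.symm
      exact hs0'.ne' this
  · intro z hz
    have h1 := hPz z (by
      obtain ⟨c, rfl⟩ := hQP
      rw [map_mul, hz, zero_mul])
    rw [Rat.cast_one] at h1
    exact (pow_eq_one_iff_of_nonneg (norm_nonneg z) two_ne_zero).1 h1

/-- Semisimple unipotent operators are trivial. -/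
lemma unipotent_semisimple {U : Module.End W.K (W.H X)} {Q : ℚ[X]} (hQ : Squarefree Q)
    (hQU : aeval U (Q.map (algebraMap ℚ W.K)) = 0) {m : ℕ} (hm : (U - 1) ^ m = 0) : U = 1 := by
  set I : Ideal ℚ[X] := RingHom.ker (ev U) with hI
  obtain ⟨R, hR⟩ := (inferInstance : I.IsPrincipal).principal
  have hR' : I = Ideal.span {R} := hR
  have hmem : ∀ p, ev U p = 0 ↔ R ∣ p := by
    intro p
    rw [← Ideal.mem_span_singleton, ← hR', hI, RingHom.mem_ker]
  have h1 : R ∣ Q := (hmem Q).1 hQU
  have hsub : ev U (Polynomial.X - 1) = U - 1 := by rw [map_sub, ev_X, map_one]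
  have h2 : R ∣ (Polynomial.X - 1) ^ (m + 1) := by
    rw [← hmem, map_pow, hsub, pow_succ, hm, zero_mul]
  have h3 : R ∣ Polynomial.X - 1 :=
    ((hQ.squarefree_of_dvd h1).dvd_pow_iff_dvd (by omega)).1 h2
  rw [← hmem, hsub, sub_eq_zero] at h3
  exact h3

end Pool.Agent.TH122.Aniso
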