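import Pool.Agent.TH122.IsoC

/-!
# The conjecture of Hodge type and the semisimplicity of algebraic isometries
-/

open CategoryTheory AlgebraicGeometry Finset Polynomial

universe u v w

namespace Pool.Agent.TH122.Aniso

open Pool.Agent.H914 Pool.Agent.H914.VarClass Pool.Agent.H914.VarClass.Obj
  Pool.Agent.H914.WeilCohomology Pool.Agent.H281R3.HT

variable {k : Type u} [Field k] {𝒱 : VarClass k} {ops : CycleOps 𝒱}

/-- A class of varieties with divisors `D` which is closed under products, and whose members have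
positive degree `D ^ n`, satisfy hard Lefschetz and have algebraic Kunneth projectors. -/
structure IsProductClass (W : WeilCohomology.{u, v} ops) (𝒬 : Polarized 𝒱 → Prop) : Prop where
  prod : ∀ P Q, 𝒬 P → 𝒬 Q → 𝒬 (P.prod ops Q)
  divisor : ∀ P, 𝒬 P → P.X.IsCyc 1 P.D
  degree : ∀ P, 𝒬 P → 0 < P.X.V.degCycle (divPow ops P.D P.X.dim P.X.V.fundCycle)
  lefschetz : ∀ P, 𝒬 P → HardLefschetz W P.X P.D
  kunneth : ∀ P, 𝒬 P → KunnethStd W P.X

theorem tfae {W : WeilCohomology.{u, v} ops} {𝒬 : Polarized 𝒱 → Prop}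
    (h : IsProductClass W 𝒬) :
    [∀ P, 𝒬 P → HodgeType W P.X P.D, ∀ P, 𝒬 P → SemisimpleIsometries W P.X P.D,
      ∀ P, 𝒬 P → NoUnipotentIsometries W P.X P.D].TFAE := by
  have h𝒬 : Cls W 𝒬 := ⟨h.prod, h.divisor, h.degree, h.lefschetz⟩
  tfae_have 1 → 2 := by
    intro h' P hP u hu
    exact semisimple_of_hodge (h𝒬.div P hP) (h.kunneth P hP) (h' _ (h𝒬.prod P P hP hP)) hu
  tfae_have 2 → 3 := by
    rintro h' P hP u hu ⟨m, hm⟩
    obtain ⟨Q, hQ, hQU, _⟩ := h' P hP u hu
    intro a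
    rw [unipotent_semisimple hQ hQU hm, Module.End.one_apply]
  tfae_have 3 → 1 := hodge_of_noUnipotent h𝒬
  tfae_finish

end Pool.Agent.TH122.Aniso
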