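import Pool.Agent.TH122.IsoC

/-!
# Algebraic isometries with large eigenvalues from violations of semidefiniteness
-/

open CategoryTheory AlgebraicGeometry Finset Polynomial

universe u v w

namespace Pool.Agent.TH122.Aniso

open Pool.Agent.H914 Pool.Agent.H914.VarClass Pool.Agent.H914.VarClass.Obj
  Pool.Agent.H914.WeilCohomology Pool.Agent.H281R3.HT

section Alg

variable {K : Type*} [Field K] [CharZero K] {V : Type*} [AddCommGroup V] [Module K V]

/-- The operator `T` is annihilated by a nonzero polynomial with rational coefficients, all of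
whose complex roots have absolute value one. -/
def HasUnitaryEigenvalues (T : Module.End K V) : Prop :=
  ∃ Q : ℚ[X], Q ≠ 0 ∧ aeval T (Q.map (algebraMap ℚ K)) = 0 ∧ ∀ z : ℂ, aeval z Q = 0 → ‖z‖ = 1

lemma not_unitary_two {T : Module.End K V} {a : V} (ha : a ≠ 0) (hT : T a = (2 : K) • a) :
    ¬ HasUnitaryEigenvalues T := by
  rintro ⟨Q, _, hQT, hz⟩
  have h1 : Module.End.HasEigenvector T (2 : K) a := by
    rw [Module.End.hasEigenvector_iff, Module.End.mem_eigenspace_iff]
    exact ⟨hT, ha⟩
  have h2 := Module.End.aeval_apply_of_hasEigenvector (p := Q.map (algebraMap ℚ K)) h1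
  rw [hQT, LinearMap.zero_apply] at h2
  have h3 : (Q.map (algebraMap ℚ K)).eval 2 = 0 :=
    (smul_eq_zero.1 h2.symm).resolve_right ha
  have h4 : Q.eval 2 = 0 := by
    have h5 : (Q.map (algebraMap ℚ K)).eval ((algebraMap ℚ K) 2) =
        (algebraMap ℚ K) (Q.eval 2) := by
      rw [Polynomial.eval_map, Polynomial.eval₂_at_apply]
    rw [map_ofNat, h3] at h5
    exact (map_eq_zero _).1 h5.symm
  have h6 : aeval (2 : ℂ) Q = 0 := by
    have h7 := Polynomial.aeval_algebraMap_apply ℂ (2 : ℚ) Q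
    rw [map_ofNat, Polynomial.coe_aeval_eq_eval, h4, map_zero] at h7
    exact h7
  have h8 := hz 2 h6
  norm_num at h8

end Alg

variable {k : Type u} [Field k] {𝒱 : VarClass k} {ops : CycleOps 𝒱}

/-- The Riemann hypothesis for the algebraic isometries of `X`: all their eigenvalues are
algebraic numbers, and all conjugates of these numbers have absolute value one. -/
def RiemannHypothesisForIsometries (W : WeilCohomology.{u, v} ops) (X : 𝒱.Obj) (D : X.Cycles) :
    Prop :=
  ∀ u, IsIsometry W X D u → HasUnitaryEigenvalues (W.corr (W.cl (X.prod X) u))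

/-- The forms of the standard conjecture of Hodge type for `X` and `D` are positive semidefinite on
the primitive algebraic classes. -/
def HodgeTypeSemidefinite (W : WeilCohomology.{u, v} ops) (X : 𝒱.Obj) (D : X.Cycles) : Prop :=
  ∀ j, 2 * j ≤ X.dim → ∀ z, X.IsCyc j z → W.cl X (divPow ops D (X.dim - 2 * j + 1) z) = 0 →
    0 ≤ (-1 : ℚ) ^ j * X.V.degCycle (ops.mul z (divPow ops D (X.dim - 2 * j) z))

variable {W : WeilCohomology.{u, v} ops} {P Q : Polarized 𝒱}

/-- **A hyperbolic pair of middle primitive classes gives an isometry with the eigenvalue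
two.** -/
theorem not_rh {X : 𝒱.Obj} {D : X.Cycles} {N : ℕ} (hN : X.dim = 2 * N)
    {A B : W.H X} (hA : A ∈ algClasses W X N) (hB : B ∈ algClasses W X N)
    (hA1 : W.cl X D * A = 0) (hB1 : W.cl X D * B = 0)
    (hAA : W.tr X (A * A) = 0) (hBB : W.tr X (B * B) = 0) (hAB : W.tr X (A * B) ≠ 0) :
    ¬ RiemannHypothesisForIsometries W X D := by
  intro hno
  obtain ⟨t, ht⟩ := tr_alg_rat (alg_mul hA hB)
  have hBA : W.tr X (B * A) = t := by rw [alg_comm hB, ht]
  have ht0 : (t : W.K) ≠ 0 := by rw [← ht]; exact hAB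
  set c₀ : W.H (X.prod X) := W.push (diag X) (1 : W.H X) with hc₀
  set c₁ : W.H (X.prod X) := W.map (fst X X) B * W.map (snd X X) A with hc₁
  set c₂ : W.H (X.prod X) := W.map (fst X X) A * W.map (snd X X) B with hc₂
  have h0 : c₀ ∈ algClasses W (X.prod X) X.dim := diag_alg X
  have hNN : N + N = X.dim := by omega
  have h1 : c₁ ∈ algClasses W (X.prod X) X.dim := by
    rw [← hNN]; exact alg_mul (alg_map _ hB) (alg_map _ hA)
  have h2 : c₂ ∈ algClasses W (X.prod X) X.dim := by
    rw [← hNN]; exact alg_mul (alg_map _ hA) (alg_map _ hB)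
  have h4 : c₀ + ((t⁻¹ : ℚ) : W.K) • c₁ + ((-(t⁻¹ / 2) : ℚ) : W.K) • c₂ ∈
      algClasses W (X.prod X) X.dim :=
    alg_add (alg_add h0 (alg_smul t⁻¹ h1)) (alg_smul (-(t⁻¹ / 2)) h2)
  obtain ⟨u, hu, huc⟩ := h4
  have hU : ∀ c, W.corr (W.cl _ u) c = c + ((t : W.K)⁻¹ * W.tr X (B * c)) • A -
      ((t : W.K)⁻¹ / 2 * W.tr X (A * c)) • B := by
    intro c
    rw [huc, corr_add, corr_add, corr_smul, corr_smul, LinearMap.add_apply,
      LinearMap.add_apply, LinearMap.smul_apply, LinearMap.smul_apply,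
      hc₀, corr_diag, one_mul, hc₁, hc₂, corr_ext B hA, corr_ext A hB]
    push_cast
    module
  have hAξ : ∀ c, W.tr X (A * (W.cl X D * c)) = 0 := fun c => by
    rw [← mul_assoc, alg_comm hA, hA1, zero_mul, map_zero]
  have hBξ : ∀ c, W.tr X (B * (W.cl X D * c)) = 0 := fun c => by
    rw [← mul_assoc, alg_comm hB, hB1, zero_mul, map_zero]
  have hiso : IsIsometry W X D u := by
    refine ⟨hu, ?_, ?_⟩
    · intro a
      rw [hU, hU, hAξ, hBξ, mul_zero, mul_zero, zero_smul, zero_smul, mul_sub, mul_add,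
        mul_smul_comm, mul_smul_comm, hA1, hB1, smul_zero, smul_zero]
    · intro a b
      have e1 : ∀ c, W.tr X (c * A) = W.tr X (A * c) := fun c => by rw [alg_comm hA]
      have e2 : ∀ c, W.tr X (c * B) = W.tr X (B * c) := fun c => by rw [alg_comm hB]
      rw [hU, hU]
      simp only [add_mul, sub_mul, mul_add, mul_sub, smul_mul_assoc, mul_smul_comm, map_add,
        map_sub, map_smul, smul_eq_mul, hAA, hBB, ht, hBA, e1, e2, mul_zero]
      field_simp
      ring
  have hUA : W.corr (W.cl _ u) A = (2 : W.K) • A := by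
    rw [hU, hAA, hBA, mul_zero, zero_smul, sub_zero, inv_mul_cancel₀ ht0, two_smul, one_smul]
  have hA0 : A ≠ 0 := by
    rintro rfl
    rw [zero_mul, map_zero] at hAB
    exact hAB rfl
  exact not_unitary_two hA0 hUA (hno u hiso)

end Pool.Agent.TH122.Aniso
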