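import Pool.Agent.TH122.IsoE

/-!
# Semidefiniteness from the Riemann hypothesis for algebraic isometries
-/

open CategoryTheory AlgebraicGeometry Finset Polynomial

universe u v w

namespace Pool.Agent.TH122.Aniso

open Pool.Agent.H914 Pool.Agent.H914.VarClass Pool.Agent.H914.VarClass.Obj
  Pool.Agent.H914.WeilCohomology Pool.Agent.H281R3.HT

variable {k : Type u} [Field k] {𝒱 : VarClass k} {ops : CycleOps 𝒱}
  {W : WeilCohomology.{u, v} ops} {P Q : Polarized 𝒱}

lemma nf_rat (hD : P.X.IsCyc 1 P.D) {j : ℕ} {a b : W.H P.X} (ha : a ∈ algClasses W P.X j)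
    (hb : b ∈ algClasses W P.X j) : ∃ s : ℚ, nf W P j a b = s := by
  obtain ⟨s, hs⟩ := tr_alg_rat (alg_mul (xi_pow_alg (W := W) hD (P.X.dim - 2 * j)) (alg_mul ha hb))
  refine ⟨s / ((P.X.dim - 2 * j).factorial : ℚ), ?_⟩
  rw [nf, hs]
  push_cast
  rfl

/-- The class of middle codimension on the square attached to a primitive class. -/
noncomputable def om (W : WeilCohomology.{u, v} ops) (P : Polarized 𝒱) (j : ℕ) (z : W.H P.X) :
    W.H (pr ops P P).X :=
  ∑ i ∈ range (P.X.dim - 2 * j + 1), (((-1) ^ i : ℚ) : W.K) •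
    ex W P P (xi W P ^ i * z) (xi W P ^ (P.X.dim - 2 * j - i) * z)

lemma om_alg (hD : P.X.IsCyc 1 P.D) {j : ℕ} {z : W.H P.X} (hz : Prim W P j z) :
    om W P j z ∈ algClasses W (pr ops P P).X P.X.dim := by
  have hle := hz.le
  apply alg_sum
  intro i hi
  have hi' := Finset.mem_range.1 hi
  have h1 := ex_alg (W := W) (alg_mul (xi_pow_alg hD i) hz.alg)
    (alg_mul (xi_pow_alg hD (P.X.dim - 2 * j - i)) hz.alg)
  rwa [show i + j + (P.X.dim - 2 * j - i + j) = P.X.dim by omega] at h1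

lemma om_prim (hD : P.X.IsCyc 1 P.D) {j : ℕ} {z : W.H P.X} (hz : Prim W P j z) :
    xi W (pr ops P P) * om W P j z = 0 := by
  have hvan := hz.prim
  rw [om]
  set M := P.X.dim - 2 * j with hM
  set f : ℕ → W.H (pr ops P P).X := fun i => ex W P P (xi W P ^ i * z)
    (xi W P ^ (M + 1 - i) * z) with hf
  rw [Finset.mul_sum]
  have h1 : ∀ i ∈ range (M + 1), xi W (pr ops P P) * ((((-1) ^ i : ℚ) : W.K) •
      ex W P P (xi W P ^ i * z) (xi W P ^ (M - i) * z)) =
      (((-1) ^ i : ℚ) : W.K) • f i - (((-1) ^ (i + 1) : ℚ) : W.K) • f (i + 1) := by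
    intro i hi
    have h2 := Finset.mem_range.1 hi
    rw [mul_smul_comm, xi_ex hD hD, ← mul_assoc, ← mul_assoc, ← pow_succ', ← pow_succ', hf]
    beta_reduce
    rw [show M - i + 1 = M + 1 - i by omega, show M + 1 - (i + 1) = M - i by omega]
    rw [smul_add, pow_succ (-1 : ℚ) i]
    push_cast
    rw [mul_neg_one, neg_smul, sub_neg_eq_add, add_comm]
  rw [Finset.sum_congr rfl h1, Finset.sum_range_sub']
  have h3 : f 0 = 0 := by
    rw [hf]; beta_reduce
    rw [Nat.sub_zero, hvan, ex_zero_right]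
  have h4 : f (M + 1) = 0 := by
    rw [hf]; beta_reduce
    rw [hvan, ex_zero_left]
  rw [h3, h4, smul_zero, smul_zero, sub_zero]

lemma om_pair (hD : P.X.IsCyc 1 P.D) {j : ℕ} {z y : W.H P.X} (hz : Prim W P j z)
    (hy : Prim W P j y) :
    W.tr (pr ops P P).X (om W P j z * om W P j y) =
      ((P.X.dim - 2 * j + 1 : ℕ) : W.K) * ((-1 : W.K) ^ (P.X.dim - 2 * j) *
        (W.tr P.X (xi W P ^ (P.X.dim - 2 * j) * (z * y))) ^ 2) := by
  have hle := hz.le
  set M := P.X.dim - 2 * j with hM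
  have hprod : ∀ i l, xi W P ^ i * z * (xi W P ^ l * y) = xi W P ^ (i + l) * (z * y) := by
    intro i l
    rw [pow_add, mul_assoc, ← mul_assoc z, alg_comm hz.alg (xi W P ^ l)]
    simp only [mul_assoc]
  have htr : ∀ i, i ≠ M → W.tr P.X (xi W P ^ i * (z * y)) = 0 := fun i hi =>
    tr_alg_zero (alg_mul (xi_pow_alg hD i) (alg_mul hz.alg hy.alg)) (by omega)
  set τ := W.tr P.X (xi W P ^ M * (z * y)) with hτ
  have hpow : ∀ i, xi W P ^ i * z ∈ algClasses W P.X (i + j) := fun i =>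
    alg_mul (xi_pow_alg hD i) hz.alg
  have h1 : ∀ i ∈ range (M + 1), W.tr (pr ops P P).X (((((-1) ^ i : ℚ) : W.K) •
      ex W P P (xi W P ^ i * z) (xi W P ^ (M - i) * z)) * om W P j y) =
      (-1 : W.K) ^ M * τ ^ 2 := by
    intro i hi
    have hi' := Finset.mem_range.1 hi
    rw [om, ← hM, Finset.mul_sum, map_sum, Finset.sum_eq_single (M - i)]
    · rw [smul_mul_assoc, mul_smul_comm, map_smul, map_smul, ex_mul (hpow (M - i)), ex_tr,
        hprod, hprod, show i + (M - i) = M by omega, show M - i + (M - (M - i)) = M by omega,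
        ← hτ, smul_eq_mul, smul_eq_mul]
      have h2 : (-1 : W.K) ^ M = (-1) ^ i * (-1) ^ (M - i) := by
        rw [← pow_add]; congr 1; omega
      rw [h2]
      push_cast
      ring
    · intro l _ hl
      rw [smul_mul_assoc, mul_smul_comm, map_smul, map_smul, ex_mul (hpow (M - i)), ex_tr,
        hprod, htr (i + l) (by omega), zero_mul, smul_zero, smul_zero]
    · intro h
      exact absurd (Finset.mem_range.2 (by omega)) h
  have h3 : om W P j z * om W P j y = ∑ i ∈ range (M + 1), ((((-1) ^ i : ℚ) : W.K) •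
      ex W P P (xi W P ^ i * z) (xi W P ^ (M - i) * z)) * om W P j y := by
    rw [← Finset.sum_mul]; rfl
  rw [h3, map_sum, Finset.sum_congr rfl h1, Finset.sum_const, Finset.card_range, nsmul_eq_mul]

variable {𝒬 : Polarized 𝒱 → Prop}

/-- **The Riemann hypothesis for algebraic isometries implies semidefiniteness.** -/
theorem semidefinite_of_rh (h𝒬 : Cls W 𝒬)
    (h : ∀ P, 𝒬 P → RiemannHypothesisForIsometries W P.X P.D) :
    ∀ P, 𝒬 P → HodgeTypeSemidefinite W P.X P.D := by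
  intro P hP j hj z hz hprim
  by_contra hneg
  push Not at hneg
  have hD := h𝒬.div P hP
  set x := W.cl P.X z with hx
  have halg : x ∈ algClasses W P.X j := ⟨z, hz, rfl⟩
  have hxP : Prim W P j x := by
    refine ⟨halg, hj, ?_⟩
    rw [cl_divPow, mulLeft_pow_apply] at hprim
    exact hprim
  set t := P.X.V.degCycle (ops.mul z (divPow ops P.D (P.X.dim - 2 * j) z)) with ht
  have hfac : (0 : ℚ) < ((P.X.dim - 2 * j).factorial : ℚ) := by
    exact_mod_cast (P.X.dim - 2 * j).factorial_pos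
  have hnf : nf W P j x x = (((-1) ^ j * ((-1) ^ j * t /
      ((P.X.dim - 2 * j).factorial : ℚ)) : ℚ) : W.K) := by
    rw [hx, nf_cycle hD hj hz]
    congr 1
    rw [mul_div_assoc, ← mul_assoc, ← mul_pow, neg_one_mul, neg_neg, one_pow, one_mul]
  have hq : (-1) ^ j * t / ((P.X.dim - 2 * j).factorial : ℚ) < 0 :=
    div_neg_of_neg_of_pos hneg hfac
  have hx0 : x ≠ 0 := by
    intro h0
    rw [h0, nf, zero_mul, mul_zero, map_zero, zero_div] at hnf
    have h1 : (-1 : ℚ) ^ j * ((-1) ^ j * t / ((P.X.dim - 2 * j).factorial : ℚ)) = 0 := by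
      exact_mod_cast hnf.symm
    rcases mul_eq_zero.1 h1 with h2 | h2
    · exact absurd h2 (pow_ne_zero _ (by norm_num))
    · exact hq.ne h2
  rcases Nat.eq_zero_or_pos j with rfl | hj1
  · obtain ⟨q, hq0, hq1⟩ := codim_zero hD (h𝒬.deg P hP) halg hx0
    rw [hnf, pow_zero, one_mul, one_mul] at hq1
    rw [pow_zero, one_mul] at hq
    have h3 : t / ((P.X.dim - 2 * 0).factorial : ℚ) = q := by exact_mod_cast hq1
    linarith
  obtain ⟨Z, hZ, y, hy, hy0, hyy, b, hb, hyb⟩ := exists_isotropic' h𝒬 hP hj1 hxP hx0 hq.le hnf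
  have hyb' := hyb hq.ne
  have hDZ := h𝒬.div Z hZ
  obtain ⟨s, hs⟩ := nf_rat hDZ hy.alg hb.alg
  obtain ⟨r, hr⟩ := nf_rat hDZ hb.alg hb.alg
  have hs0 : (s : W.K) ≠ 0 := by rw [← hs]; exact hyb'
  have hby : nf W Z j b y = s := by rw [nf_comm _ hb.alg, hs]
  -- the second isotropic class
  set c : W.H Z.X := b + ((-(r / (2 * s)) : ℚ) : W.K) • y with hc
  have hcP : Prim W Z j c := hb.add (hy.smul _)
  have hcc : nf W Z j c c = 0 := by
    rw [hc, nf_add_left, nf_add_right, nf_add_right, nf_smul_left, nf_smul_left, nf_smul_right,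
      nf_smul_right, hyy, hby, hs, hr]
    push_cast
    field_simp
    ring
  have hyc : nf W Z j y c ≠ 0 := by
    rw [hc, nf_add_right, nf_smul_right, hyy, mul_zero, add_zero, hs]
    exact hs0
  have hfac' : ((Z.X.dim - 2 * j).factorial : W.K) ≠ 0 := by
    exact_mod_cast (Z.X.dim - 2 * j).factorial_ne_zero
  have hzero : ∀ a a' : W.H Z.X, nf W Z j a a' = 0 →
      W.tr Z.X (xi W Z ^ (Z.X.dim - 2 * j) * (a * a')) = 0 := by
    intro a a' h0
    rw [nf, div_eq_zero_iff] at h0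
    exact h0.resolve_right hfac'
  refine not_rh (N := Z.X.dim) (X := (pr ops Z Z).X) (D := (pr ops Z Z).D) (two_mul _).symm
    (om_alg hDZ hy) (om_alg hDZ hcP) (om_prim hDZ hy) (om_prim hDZ hcP) ?_ ?_ ?_
    (h _ (h𝒬.prod Z Z hZ hZ))
  · rw [om_pair hDZ hy hy, hzero _ _ hyy]
    ring
  · rw [om_pair hDZ hcP hcP, hzero _ _ hcc]
    ring
  · rw [om_pair hDZ hy hcP]
    refine mul_ne_zero (Nat.cast_ne_zero.2 (Nat.succ_ne_zero _)) (mul_ne_zero
      (pow_ne_zero _ (neg_ne_zero.2 one_ne_zero)) (pow_ne_zero _ ?_))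
    intro h0
    apply hyc
    rw [nf, h0, zero_div]

end Pool.Agent.TH122.Aniso
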