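import Pool.Agent.H914R2.WPos

/-!
# Semidefinite forms and absolute values
-/

open Finset Polynomial

namespace Pool.Agent.TH122.Aniso

open Pool.Agent.H914

variable {K : Type*} [Field K] [CharZero K]

section Fam

variable {V : Type*} [AddCommGroup V] [Module K V] [Module.Finite K V]

/-- Maximal orthogonal families of nonisotropic vectors. -/
lemma exists_orthogonal_family (Φ : V →ₗ[K] V →ₗ[K] K) (S : Set V)
    (hsymm : ∀ a ∈ S, ∀ b ∈ S, Φ a b = Φ b a) :
    ∃ (N : ℕ) (x : Fin N → V), (∀ i, x i ∈ S ∧ Φ (x i) (x i) ≠ 0) ∧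
      (∀ i j, i ≠ j → Φ (x i) (x j) = 0) ∧
      ∀ c ∈ S, (∀ i, Φ c (x i) = 0) → Φ c c = 0 := by
  classical
  set P : ℕ → Prop := fun N => ∃ x : Fin N → V, (∀ i, x i ∈ S ∧ Φ (x i) (x i) ≠ 0) ∧
    (∀ i j, i ≠ j → Φ (x i) (x j) = 0) with hP
  have hbound : ∀ N, P N → N ≤ Module.finrank K V := by
    rintro N ⟨x, hx, ho⟩
    have hli : LinearIndependent K x := by
      rw [Fintype.linearIndependent_iff]
      intro g hg i
      have h1 := congrArg (fun y => Φ y (x i)) hg
      simp only [map_sum, map_smul, LinearMap.sum_apply, LinearMap.smul_apply, smul_eq_mul,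
        map_zero, LinearMap.zero_apply] at h1
      rw [Finset.sum_eq_single i] at h1
      · rcases mul_eq_zero.1 h1 with h2 | h2
        · exact h2
        · exact absurd h2 (hx i).2
      · intro j _ hj; rw [ho j i hj, mul_zero]
      · intro h; exact absurd (Finset.mem_univ i) h
    simpa using hli.fintype_card_le_finrank
  have h0 : P 0 := ⟨Fin.elim0, fun i => i.elim0, fun i => i.elim0⟩
  set N := Nat.findGreatest P (Module.finrank K V) with hN
  have hPN : P N := Nat.findGreatest_spec (Nat.zero_le _) h0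
  obtain ⟨x, hx, ho⟩ := hPN
  refine ⟨N, x, hx, ho, ?_⟩
  intro c hc hcx
  by_contra hc0
  have h1 : P (N + 1) := by
    refine ⟨Fin.cons c x, ?_, ?_⟩
    · intro i
      refine Fin.cases ?_ ?_ i
      · exact ⟨by simpa using hc, by simpa using hc0⟩
      · intro i; simpa using hx i
    · intro i j
      refine Fin.cases ?_ ?_ i
      · refine Fin.cases ?_ ?_ j
        · intro h; exact absurd rfl h
        · intro j _; simpa using hcx j
      · intro i
        refine Fin.cases ?_ ?_ j
        · intro _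
          simp only [Fin.cons_succ, Fin.cons_zero]
          rw [hsymm _ (hx i).1 _ hc]; exact hcx i
        · intro j h
          simp only [Fin.cons_succ]
          exact ho i j (fun h' => h (by rw [h']))
  have h2 := Nat.le_findGreatest (hbound _ h1) h1
  omega

end Fam

variable {E : Type*} [Ring E] [Algebra K E] [Module.Finite K E]

/-- An element which acts as an isometry for a positive semidefinite form on a rational space of
operators. -/
theorem weights_of_semidef (Φ : E →ₗ[K] E →ₗ[K] K) (S : Set E) (h0 : (0 : E) ∈ S)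
    (hadd : ∀ a ∈ S, ∀ b ∈ S, a + b ∈ S) (hsmul : ∀ q : ℚ, ∀ a ∈ S, (q : K) • a ∈ S) (F : E)
    (hFS : ∀ a ∈ S, F * a ∈ S) (hsymm : ∀ a ∈ S, ∀ b ∈ S, Φ a b = Φ b a)
    (hrat : ∀ a ∈ S, ∀ b ∈ S, ∃ s : ℚ, Φ a b = s)
    (hpos : ∀ a ∈ S, ∃ s : ℚ, Φ a a = s ∧ 0 ≤ s)
    (hF : ∀ a ∈ S, ∀ b ∈ S, Φ (F * a) (F * b) = Φ a b) :
    ∃ P : ℚ[X], P ≠ 0 ∧
      (∀ a ∈ S, ∀ b ∈ S, Φ (aeval F (P.map (algebraMap ℚ K)) * a) b = 0) ∧
      ∀ z : ℂ, aeval z P = 0 → ‖z‖ ^ 2 = 1 := by
  classical
  -- isotropic elements are in the radical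
  have hrad : ∀ a ∈ S, Φ a a = 0 → ∀ b ∈ S, Φ a b = 0 := by
    intro a ha haa b hb
    obtain ⟨r, hr⟩ := hrat a ha b hb
    obtain ⟨s, hs, _⟩ := hpos b hb
    by_contra hne
    have hr0 : r ≠ 0 := by
      rintro rfl
      rw [hr, Rat.cast_zero] at hne
      exact hne rfl
    set t : ℚ := -(s + 1) / (2 * r) with ht
    obtain ⟨s', hs', hs0'⟩ := hpos (b + (t : K) • a) (hadd _ hb _ (hsmul t _ ha))
    have h1 : Φ (b + (t : K) • a) (b + (t : K) • a) = ((-1 : ℚ) : K) := by
      have hrK : (r : K) ≠ 0 := by exact_mod_cast hr0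
      simp only [map_add, map_smul, LinearMap.add_apply, LinearMap.smul_apply, smul_eq_mul, haa,
        hsymm b hb a ha, hr, hs, ht, mul_zero, add_zero]
      push_cast
      field_simp
      ring
    rw [h1] at hs'
    have h2 : (-1 : ℚ) = s' := by exact_mod_cast hs'
    linarith
  obtain ⟨N, x, hx, ho, hmax⟩ := exists_orthogonal_family Φ S hsymm
  have hd : ∀ i, ∃ s : ℚ, Φ (x i) (x i) = s ∧ 0 < s := by
    intro i
    obtain ⟨s, hs, hs0⟩ := hpos _ (hx i).1
    refine ⟨s, hs, lt_of_le_of_ne hs0 ?_⟩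
    rintro rfl
    exact (hx i).2 (by rw [hs, Rat.cast_zero])
  choose d hd1 hd2 using hd
  have hsum : ∀ {ι : Type} (s : Finset ι) (y : ι → E), (∀ i ∈ s, y i ∈ S) →
      ∑ i ∈ s, y i ∈ S := by
    intro ι s y hy
    induction s using Finset.induction_on with
    | empty => simpa using h0
    | insert a s ha ih =>
      rw [Finset.sum_insert ha]
      exact hadd _ (hy a (by simp)) _ (ih (fun i hi => hy i (by simp [hi])))
  have hneg : ∀ a ∈ S, -a ∈ S := by
    intro a ha
    have := hsmul (-1) a ha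
    simpa using this
  -- the radical
  set Rad : Set E := {a | a ∈ S ∧ ∀ b ∈ S, Φ a b = 0} with hRad
  have hR0 : (0 : E) ∈ Rad := ⟨h0, fun b _ => by rw [map_zero, LinearMap.zero_apply]⟩
  have hRadd : ∀ a ∈ Rad, ∀ b ∈ Rad, a + b ∈ Rad := by
    rintro a ⟨ha, ha'⟩ b ⟨hb, hb'⟩
    exact ⟨hadd _ ha _ hb, fun c hc => by
      rw [map_add, LinearMap.add_apply, ha' c hc, hb' c hc, add_zero]⟩
  have hRsmul : ∀ q : ℚ, ∀ a ∈ Rad, (q : K) • a ∈ Rad := by
    rintro q a ⟨ha, ha'⟩
    exact ⟨hsmul q _ ha, fun c hc => by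
      rw [map_smul, LinearMap.smul_apply, ha' c hc, smul_zero]⟩
  have hRneg : ∀ a ∈ Rad, -a ∈ Rad := by
    intro a ha
    have := hRsmul (-1) a ha
    simpa using this
  have hRF : ∀ a ∈ Rad, F * a ∈ Rad := by
    rintro a ⟨ha, ha'⟩
    refine ⟨hFS a ha, hrad _ (hFS a ha) ?_⟩
    rw [hF a ha a ha, ha' a ha]
  have hRsum : ∀ {ι : Type} (s : Finset ι) (y : ι → E), (∀ i ∈ s, y i ∈ Rad) →
      ∑ i ∈ s, y i ∈ Rad := by
    intro ι s y hy
    induction s using Finset.induction_on with
    | empty => simpa using hR0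
    | insert a s ha ih =>
      rw [Finset.sum_insert ha]
      exact hRadd _ (hy a (by simp)) _ (ih (fun i hi => hy i (by simp [hi])))
  -- expansion in the orthogonal family
  have hexp : ∀ a ∈ S, ∃ v : Fin N → ℚ, a - ∑ i, (v i : K) • x i ∈ Rad := by
    intro a ha
    choose σ hσ using fun i => hrat a ha (x i) (hx i).1
    refine ⟨fun i => σ i / d i, ?_⟩
    have hmem : a - ∑ i, ((σ i / d i : ℚ) : K) • x i ∈ S := by
      rw [sub_eq_add_neg]
      exact hadd _ ha _ (hneg _ (hsum Finset.univ (fun i => ((σ i / d i : ℚ) : K) • x i)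
        (fun i _ => hsmul _ _ (hx i).1)))
    refine ⟨hmem, hrad _ hmem (hmax _ hmem ?_)⟩
    intro i
    rw [map_sub, LinearMap.sub_apply, map_sum, LinearMap.sum_apply, Finset.sum_eq_single i]
    · rw [map_smul, LinearMap.smul_apply, hd1, hσ, smul_eq_mul]
      have : (d i : K) ≠ 0 := by exact_mod_cast (hd2 i).ne'
      push_cast
      field_simp
      ring
    · intro j _ hj
      rw [map_smul, LinearMap.smul_apply, ho j i hj, smul_zero]
    · intro h; exact absurd (Finset.mem_univ i) h
  choose m hm using fun i => hexp (F * x i) (hFS _ (hx i).1)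
  set M : Matrix (Fin N) (Fin N) ℚ := Matrix.of m with hM
  have hMx : ∀ i, F * x i - ∑ j, (M i j : K) • x j ∈ Rad := hm
  -- the combinations
  set θ : (Fin N → ℚ) → E := fun v => ∑ i, (v i : K) • x i with hθ
  have hθS : ∀ v, θ v ∈ S := fun v => hsum _ _ (fun i _ => hsmul _ _ (hx i).1)
  have hMM : ∀ i k, ∑ j, M i j * d j * M k j = if i = k then (1 : ℚ) * d i else 0 := by
    intro i k
    have e1 := hF _ (hx i).1 _ (hx k).1
    have e0 : Φ (F * x i) (F * x k) = Φ (θ (M i)) (θ (M k)) := by
      have h1 : F * x i = θ (M i) + (F * x i - ∑ j, (M i j : K) • x j) := by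
        rw [hθ]; abel
      have h2 : F * x k = θ (M k) + (F * x k - ∑ j, (M k j : K) • x j) := by
        rw [hθ]; abel
      have h3 : Φ (F * x i) (F * x k) = Φ (θ (M i)) (F * x k) := by
        conv_lhs => rw [h1]
        rw [map_add, LinearMap.add_apply, (hMx i).2 _ (hFS _ (hx k).1), add_zero]
      rw [h3]
      conv_lhs => rw [h2]
      rw [map_add, hsymm _ (hθS _) _ (hMx k).1, (hMx k).2 _ (hθS _), add_zero]
    have e2 : Φ (θ (M i)) (θ (M k)) = ((∑ j, M i j * d j * M k j : ℚ) : K) := by
      rw [hθ]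
      beta_reduce
      rw [map_sum Φ, LinearMap.sum_apply]
      push_cast
      apply Finset.sum_congr rfl
      intro j _
      rw [map_smul, LinearMap.smul_apply, map_sum (Φ (x j)), Finset.sum_eq_single j]
      · rw [map_smul, hd1, smul_eq_mul, smul_eq_mul]
        ring
      · intro l _ hl
        rw [map_smul, ho j l (Ne.symm hl), smul_zero]
      · intro h; exact absurd (Finset.mem_univ j) h
    rw [e0, e2] at e1
    by_cases hik : i = k
    · subst hik
      rw [if_pos rfl, one_mul]
      rw [hd1] at e1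
      exact_mod_cast e1
    · rw [if_neg hik]
      rw [ho i k hik] at e1
      exact_mod_cast e1
  have hθadd : ∀ v w, θ (v + w) = θ v + θ w := by
    intro v w
    rw [hθ]
    beta_reduce
    rw [← Finset.sum_add_distrib]
    apply Finset.sum_congr rfl
    intro i _
    rw [Pi.add_apply]
    push_cast
    rw [add_smul]
  have hθsmul : ∀ (q : ℚ) v, θ (q • v) = (q : K) • θ v := by
    intro q v
    rw [hθ]
    beta_reduce
    rw [Finset.smul_sum]
    apply Finset.sum_congr rfl
    intro i _
    rw [Pi.smul_apply, smul_smul, smul_eq_mul]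
    push_cast
    rfl
  have hθF : ∀ v, F * θ v - θ (Matrix.vecMul v M) ∈ Rad := by
    intro v
    have e1 : F * θ v - θ (Matrix.vecMul v M) =
        ∑ i, (v i : K) • (F * x i - ∑ j, (M i j : K) • x j) := by
      have e2 : θ (Matrix.vecMul v M) = ∑ i, (v i : K) • ∑ j, (M i j : K) • x j := by
        rw [hθ]
        beta_reduce
        simp only [Finset.smul_sum, smul_smul]
        rw [Finset.sum_comm]
        apply Finset.sum_congr rfl
        intro j _
        rw [← Finset.sum_smul]
        congr 1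
        rw [Matrix.vecMul, dotProduct]
        push_cast
        rfl
      rw [e2, hθ]
      beta_reduce
      rw [Finset.mul_sum, ← Finset.sum_sub_distrib]
      apply Finset.sum_congr rfl
      intro i _
      rw [mul_smul_comm, smul_sub]
    rw [e1]
    exact hRsum _ _ (fun i _ => hRsmul _ _ (hMx i))
  have hRF' : ∀ (k : ℕ), ∀ a ∈ Rad, F ^ k * a ∈ Rad := by
    intro k
    induction k with
    | zero => intro a ha; rwa [pow_zero, one_mul]
    | succ k ih => intro a ha; rw [pow_succ, mul_assoc]; exact ih _ (hRF a ha)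
  have hθpow : ∀ (k : ℕ) v, F ^ k * θ v - θ (Matrix.vecMul v (M ^ k)) ∈ Rad := by
    intro k
    induction k with
    | zero => intro v; simpa using hR0
    | succ k ih =>
      intro v
      have e1 : F ^ (k + 1) * θ v - θ (Matrix.vecMul v (M ^ (k + 1))) =
          F ^ k * (F * θ v - θ (Matrix.vecMul v M)) +
            (F ^ k * θ (Matrix.vecMul v M) -
              θ (Matrix.vecMul (Matrix.vecMul v M) (M ^ k))) := by
        rw [Matrix.vecMul_vecMul, ← pow_succ', mul_sub, ← mul_assoc, ← pow_succ]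
        abel
      rw [e1]
      exact hRadd _ (hRF' k _ (hθF v)) _ (ih _)
  have hmono : ∀ (k : ℕ) (r : ℚ) (a : E),
      aeval F ((monomial k r).map (algebraMap ℚ K)) * a = (r : K) • (F ^ k * a) := by
    intro k r a
    have eK : algebraMap K E ((algebraMap ℚ K) r) * F ^ k = (r : K) • F ^ k := by
      rw [← Algebra.smul_def]
      congr 1
    rw [Polynomial.map_monomial, aeval_monomial, eK, smul_mul_assoc]
  have hθP : ∀ (P : ℚ[X]) v, aeval F (P.map (algebraMap ℚ K)) * θ v -
      θ (Matrix.vecMul v (aeval M P)) ∈ Rad := by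
    intro P v
    induction P using Polynomial.induction_on' with
    | add p q hp hq =>
      have e1 : aeval F ((p + q).map (algebraMap ℚ K)) * θ v -
          θ (Matrix.vecMul v (aeval M (p + q))) =
          (aeval F (p.map (algebraMap ℚ K)) * θ v - θ (Matrix.vecMul v (aeval M p))) +
          (aeval F (q.map (algebraMap ℚ K)) * θ v - θ (Matrix.vecMul v (aeval M q))) := by
        rw [Polynomial.map_add, map_add, add_mul, map_add, Matrix.vecMul_add, hθadd]
        abel
      rw [e1]
      exact hRadd _ hp _ hq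
    | monomial k r =>
      have eM : algebraMap ℚ (Matrix (Fin N) (Fin N) ℚ) r * M ^ k = r • M ^ k :=
        (Algebra.smul_def r _).symm
      rw [hmono, aeval_monomial, eM, Matrix.vecMul_smul, hθsmul, ← smul_sub]
      exact hRsmul _ _ (hθpow k v)
  have hRP : ∀ (P : ℚ[X]), ∀ a ∈ Rad, aeval F (P.map (algebraMap ℚ K)) * a ∈ Rad := by
    intro P a ha
    induction P using Polynomial.induction_on' with
    | add p q hp hq =>
      rw [Polynomial.map_add, map_add, add_mul]
      exact hRadd _ hp _ hq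
    | monomial k r =>
      rw [hmono]
      exact hRsmul _ _ (hRF' k a ha)
  refine ⟨M.charpoly, (Matrix.charpoly_monic M).ne_zero, ?_, ?_⟩
  · intro a ha b hb
    obtain ⟨v, hv⟩ := hexp a ha
    have h1 := hθP M.charpoly v
    rw [Matrix.aeval_self_charpoly, Matrix.vecMul_zero] at h1
    have h2 : θ 0 = 0 := by rw [hθ]; simp
    rw [h2, sub_zero] at h1
    have h3 := hRP M.charpoly _ hv
    have h4 := hRadd _ h1 _ h3
    rw [← mul_add] at h4
    have h5 : θ v + (a - ∑ i, (v i : K) • x i) = a := by rw [hθ]; abel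
    rw [h5] at h4
    exact h4.2 b hb
  · intro z hz
    have h1 := matrix_root M d hd2 hMM hz
    rw [h1, Rat.cast_one]

end Pool.Agent.TH122.Aniso
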