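import Pool.Agent.TH122.IsoF
import Pool.Agent.TH122.IsoG
import Pool.Agent.TH122.IsoD

/-!
# The Riemann hypothesis for algebraic isometries is equivalent to semidefiniteness
-/

open CategoryTheory AlgebraicGeometry Finset Polynomial

universe u v w

namespace Pool.Agent.TH122.Aniso

open Pool.Agent.H914 Pool.Agent.H914.VarClass Pool.Agent.H914.VarClass.Obj
  Pool.Agent.H914.WeilCohomology Pool.Agent.H281R3.HT Pool.Agent.W539.Sig

variable {k : Type u} [Field k] {𝒱 : VarClass k} {ops : CycleOps 𝒱}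
  {W : WeilCohomology.{u, v} ops} {X : 𝒱.Obj}

lemma smul_opRing {D : X.Cycles} (q : ℚ) {y : Module.End W.K (W.H X)} (hy : y ∈ opRing W X D) :
    (q : W.K) • y ∈ opRing W X D := by
  obtain ⟨h1, h2⟩ := mem_opRing.1 hy
  refine mem_opRing.2 ⟨rop_opAlg.smul q h1, ?_⟩
  rw [smul_mul_assoc, mul_smul_comm, h2]

/-- Semidefiniteness of the trace form. -/
lemma tform_nonneg {D : X.Cycles} (hD : X.IsCyc 1 D) (hK : KunnethStd W X)
    (hH : HodgeTypeSemidefinite W (X.prod X) (boxSum ops D)) {y : Module.End W.K (W.H X)}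
    (hy : y ∈ opRing W X D) : ∃ s : ℚ, tform W X y y = s ∧ 0 ≤ s := by
  set E : Module.End W.K (W.H X) := sgn W X with hE
  have hEL := sgn_L (W := W) (X := X) hD
  obtain ⟨hy1, hy2⟩ := mem_opRing.1 hy
  obtain ⟨z, hz, hzy⟩ := cyc_of_rop (rop_mul0 (rop_sgn hK) hy1)
  have hyz : y = sgn W X * W.corr (W.cl _ z) := by
    rw [hzy, ← mul_assoc, sgn_sq, one_mul]
  have h1 := form_eq hK hz hz
  rw [← hyz] at h1
  refine ⟨_, h1.symm, ?_⟩
  have hanti : LinearMap.mulLeft W.K (W.cl X D) * W.corr (W.cl _ z) =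
      -(W.corr (W.cl _ z) * LinearMap.mulLeft W.K (W.cl X D)) := by
    rw [hzy]
    exact ring_anti hEL hy2
  have hprim : W.cl _ (ops.mul (boxSum ops D) z) = 0 := by
    have h2 := corr_boxSum (W := W) hD (W.cl _ z)
    rw [← W.cl_mul, dbl_apply] at h2
    apply corr_inj
    rw [h2, hanti]
    exact neg_add_cancel _
  have h2 := hH X.dim (by rw [dim_prod]; omega) z hz (by
    rw [dim_prod, show X.dim + X.dim - 2 * X.dim + 1 = 1 by omega]
    exact hprim)
  rw [dim_prod, show X.dim + X.dim - 2 * X.dim = 0 by omega] at h2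
  exact h2

/-- **Semidefiniteness implies the Riemann hypothesis for algebraic isometries.** -/
theorem rh_of_semidefinite {D : X.Cycles} (hD : X.IsCyc 1 D) (hK : KunnethStd W X)
    (hH : HodgeTypeSemidefinite W (X.prod X) (boxSum ops D)) :
    RiemannHypothesisForIsometries W X D := by
  classical
  intro u hu
  set U := W.corr (W.cl (X.prod X) u) with hU
  have hUm : U ∈ opRing W X D := iso_mem hu
  have hUtp : tp W X U * U = 1 := tp_iso hu
  have hUr : ROp W X 0 U := (mem_opRing.1 hUm).1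
  have hr : ∀ {y}, y ∈ opRing W X D → ROp W X 0 y := fun hy => (mem_opRing.1 hy).1
  obtain ⟨P, hP0, hPS, hPz⟩ := weights_of_semidef (tform W X) {y | y ∈ opRing W X D}
    (opRing W X D).zero_mem
    (fun a ha b hb => (opRing W X D).add_mem ha hb)
    (fun q a ha => smul_opRing q ha)
    U
    (fun a ha => (opRing W X D).mul_mem hUm ha)
    (by
      intro a ha b hb
      rw [tform_apply, tform_apply, ← trace_tp (rop_mul0 (hr ha) (rop_tp (hr hb))),
        tp_mul (hr ha) (rop_tp (hr hb)), tp_tp (hr hb)])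
    (fun a ha b hb => exists_trace hK (rop_mul0 (hr ha) (rop_tp (hr hb))))
    (fun a ha => tform_nonneg hD hK hH ha)
    (by
      intro a ha b hb
      rw [tform_apply, tform_apply, tp_mul hUr (hr hb),
        show U * a * (tp W X b * tp W X U) = U * (a * tp W X b) * tp W X U by
          simp only [mul_assoc],
        LinearMap.trace_mul_comm, ← mul_assoc, hUtp, one_mul])
  set N := aeval U (P.map (algebraMap ℚ W.K)) with hN
  have hNm : N ∈ opRing W X D := ev_mem hUm P
  have htr : ∀ y ∈ opRing W X D, LinearMap.trace W.K (W.H X) (N * y) = 0 := by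
    intro y hy
    have h1 := hPS 1 (opRing W X D).one_mem (tp W X y) (tp_mem hD hy)
    rw [mul_one, tform_apply, tp_tp (hr hy)] at h1
    exact h1
  have hnil : IsNilpotent N := by
    apply isNilpotent_of_trace_pow
    intro r
    rw [pow_succ']
    exact htr _ ((opRing W X D).pow_mem hNm r)
  obtain ⟨m, hm⟩ := hnil
  refine ⟨P ^ m, pow_ne_zero m hP0, ?_, ?_⟩
  · rw [Polynomial.map_pow, map_pow, ← hN, hm]
  · intro z hz
    rw [map_pow] at hz
    have hz' := hPz z (eq_zero_of_pow_eq_zero hz)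
    exact (pow_eq_one_iff_of_nonneg (norm_nonneg z) two_ne_zero).1 hz'

theorem rh_iff_semidefinite {𝒬 : Polarized 𝒱 → Prop} (h : IsProductClass W 𝒬) :
    (∀ P, 𝒬 P → RiemannHypothesisForIsometries W P.X P.D) ↔
      ∀ P, 𝒬 P → HodgeTypeSemidefinite W P.X P.D := by
  have h𝒬 : Cls W 𝒬 := ⟨h.prod, h.divisor, h.degree, h.lefschetz⟩
  refine ⟨semidefinite_of_rh h𝒬, fun h' P hP => ?_⟩
  exact rh_of_semidefinite (h𝒬.div P hP) (h.kunneth P hP) (h' _ (h𝒬.prod P P hP hP))

end Pool.Agent.TH122.Aniso
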