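import Pool.Agent.W537.OneCycleB

/-!
# Operators with rational traces on a graded piece
-/

open Polynomial Finset

namespace Pool.Agent.TH122.Km

open Pool.Agent.H914

/-- The linear functional on polynomials attached to a sequence of rational numbers. -/
noncomputable def tau (q : ℕ → ℚ) : ℚ[X] →ₗ[ℚ] ℚ := Polynomial.lsum fun a => q a • LinearMap.id

lemma tau_monomial (q : ℕ → ℚ) (a : ℕ) (c : ℚ) : tau q (monomial a c) = c * q a := by
  rw [tau, Polynomial.lsum_apply, Polynomial.sum_monomial_index]
  · rw [LinearMap.smul_apply, LinearMap.id_apply, smul_eq_mul, mul_comm]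
  · rw [map_zero]

variable {K : Type*} [Field K] [CharZero K] {V : Type*} [AddCommGroup V] [Module K V]

lemma ev_monomial (T : Module.End K V) (a : ℕ) (c : ℚ) : ev T (monomial a c) = (c : K) • T ^ a := by
  rw [← C_mul_X_pow_eq_monomial, map_mul, map_pow, ev_C, ev_X, smul_mul_assoc, one_mul]

lemma trace_ev {P T : Module.End K V} {q : ℕ → ℚ}
    (h : ∀ r, LinearMap.trace K V (P * T ^ r) = (q r : K)) (p : ℚ[X]) :
    LinearMap.trace K V (P * ev T p) = (tau q p : K) := by
  induction p using Polynomial.induction_on' with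
  | add p p' hp hp' => rw [map_add, mul_add, map_add, hp, hp', map_add, Rat.cast_add]
  | monomial a c =>
    rw [ev_monomial, mul_smul_comm, map_smul, h, tau_monomial, smul_eq_mul, Rat.cast_mul]

/-- A rational linear form which is `1` at `1`. -/
lemma exists_form (K : Type*) [Field K] [CharZero K] : ∃ f : K →ₗ[ℚ] ℚ, f 1 = 1 := by
  have hinj : LinearMap.ker (LinearMap.toSpanSingleton ℚ K 1) = ⊥ := by
    rw [LinearMap.ker_eq_bot']
    intro m hm
    rw [LinearMap.toSpanSingleton_apply, smul_eq_zero] at hm
    exact hm.resolve_right one_ne_zero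
  obtain ⟨g, hg⟩ := LinearMap.exists_leftInverse_of_injective _ hinj
  refine ⟨g, ?_⟩
  have h1 := LinearMap.congr_fun hg (1 : ℚ)
  rwa [LinearMap.comp_apply, LinearMap.toSpanSingleton_apply, one_smul, LinearMap.id_apply] at h1

variable [Module.Finite K V]

/-- The traces satisfy a rational linear recurrence. -/
lemma exists_rec {P T : Module.End K V} {q : ℕ → ℚ}
    (h : ∀ r, LinearMap.trace K V (P * T ^ r) = (q r : K)) :
    ∃ p : ℚ[X], p ≠ 0 ∧ ∀ r : ℚ[X], tau q (p * r) = 0 := by
  obtain ⟨f, hf⟩ := exists_form K
  set m := minpoly K T with hm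
  have hmon : m.Monic := minpoly.monic (Algebra.IsIntegral.isIntegral T)
  set N := m.natDegree with hN
  set p : ℚ[X] := ∑ a ∈ range (N + 1), monomial a (f (m.coeff a)) with hp
  have hpc : p.coeff N = 1 := by
    rw [hp, Polynomial.finsetSum_coeff, Finset.sum_eq_single N]
    · rw [coeff_monomial, if_pos rfl, hN, hmon.coeff_natDegree, hf]
    · intro b _ hb
      rw [coeff_monomial, if_neg hb]
    · intro h0; exact absurd (Finset.mem_range.2 (Nat.lt_succ_self N)) h0
  refine ⟨p, ?_, ?_⟩
  · intro h0
    rw [h0, coeff_zero] at hpc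
    exact zero_ne_one hpc
  · intro r
    induction r using Polynomial.induction_on' with
    | add r r' hr hr' => rw [mul_add, map_add, hr, hr', add_zero]
    | monomial b c =>
      have h1 : ∑ a ∈ range (N + 1), m.coeff a * (q (a + b) : K) = 0 := by
        have h2 : LinearMap.trace K V (P * (aeval T m * T ^ b)) = 0 := by
          rw [hm, minpoly.aeval, zero_mul, mul_zero, map_zero]
        rw [Polynomial.aeval_eq_sum_range, Finset.sum_mul, Finset.mul_sum, map_sum] at h2
        rw [← h2]
        apply Finset.sum_congr rfl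
        intro a _
        rw [smul_mul_assoc, ← pow_add, mul_smul_comm, map_smul, h, smul_eq_mul]
      have h3 : ∑ a ∈ range (N + 1), f (m.coeff a) * q (a + b) = 0 := by
        have h4 := congrArg f h1
        rw [map_sum, map_zero] at h4
        rw [← h4]
        apply Finset.sum_congr rfl
        intro a _
        have h5 : m.coeff a * (q (a + b) : K) = q (a + b) • m.coeff a := by
          rw [Rat.smul_def, mul_comm]
        rw [h5, map_smul, smul_eq_mul, mul_comm]
      rw [hp, Finset.sum_mul, map_sum]
      have h6 : ∀ a ∈ range (N + 1), tau q (monomial a (f (m.coeff a)) * monomial b c) =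
          c * (f (m.coeff a) * q (a + b)) := by
        intro a _
        rw [monomial_mul_monomial, tau_monomial]
        ring
      rw [Finset.sum_congr rfl h6, ← Finset.mul_sum, h3, mul_zero]

variable {gr : ℕ → Submodule K V}

omit [CharZero K] [Module.Finite K V] in
lemma proj_pow (hg : DirectSum.IsInternal gr) (i : ℕ) (r : ℕ) :
    proj hg i ^ (r + 1) = proj hg i := by
  induction r with
  | zero => simp
  | succ r ih => rw [pow_succ, ih, proj_mul_proj]

/-- A polynomial in the radical of the trace form is nilpotent on the graded piece. -/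
lemma kill (hg : DirectSum.IsInternal gr) {i : ℕ} {T : Module.End K V}
    (hT : Commute (proj hg i) T) {q : ℕ → ℚ}
    (h : ∀ r, LinearMap.trace K V (proj hg i * T ^ r) = (q r : K)) {p : ℚ[X]}
    (hp : ∀ r, tau q (p * r) = 0) {M : ℕ} (hM : Module.finrank K (gr i) ≤ M) :
    ∀ a ∈ gr i, (ev T p ^ M) a = 0 := by
  set P := proj hg i with hP
  have hcomm : ∀ f : ℚ[X], Commute P (ev T f) := by
    intro f
    induction f using Polynomial.induction_on' with
    | add p p' hp hp' => rw [map_add]; exact hp.add_right hp'
    | monomial a c => rw [ev_monomial]; exact (hT.pow_right a).smul_right _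
  set u := P * ev T p with hu
  have hupow : ∀ r : ℕ, u ^ (r + 1) = P * ev T (p ^ (r + 1)) := by
    intro r
    rw [hu, (hcomm p).mul_pow, hP, proj_pow, map_pow]
  have hnil : IsNilpotent u := by
    apply isNilpotent_of_trace_pow
    intro r
    rw [hupow, trace_ev h, pow_succ', hp, Rat.cast_zero]
  have hmem : ∀ x ∈ gr i, u x ∈ gr i := fun x _ => proj_mem hg i _
  set ν : Module.End K (gr i) := u.restrict hmem with hν
  have hνpow : ∀ (m : ℕ) (x : gr i), ((ν ^ m) x : V) = (u ^ m) (x : V) := by
    intro m
    induction m with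
    | zero => intro x; simp
    | succ m ih =>
      intro x
      rw [pow_succ, Module.End.mul_apply, ih, pow_succ, Module.End.mul_apply]
      rfl
  have hνnil : IsNilpotent ν := by
    obtain ⟨N, hN⟩ := hnil
    refine ⟨N, ?_⟩
    apply LinearMap.ext
    intro x
    apply Subtype.ext
    rw [hνpow, hN]
    simp
  have h5 : ν ^ Module.finrank K (gr i) = 0 := by
    have h6 := LinearMap.aeval_self_charpoly ν
    rwa [IsNilpotent.charpoly_eq_X_pow_finrank hνnil, map_pow, aeval_X] at h6
  have h7 : ν ^ M = 0 := by
    rw [← Nat.sub_add_cancel hM, pow_add, h5, mul_zero]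
  intro a ha
  have h8 := hνpow M ⟨a, ha⟩
  rw [h7] at h8
  have h9 : (u ^ M) a = 0 := h8.symm
  cases M with
  | zero => simpa using h9
  | succ M =>
    rw [hupow, map_pow, ((hcomm p).pow_right (M + 1)).eq, Module.End.mul_apply, hP,
      proj_same hg ha] at h9
    exact h9

/-- The factor `X` can be removed if the operator is injective on the graded piece. -/
lemma exists_radical (hg : DirectSum.IsInternal gr) {i : ℕ} {T : Module.End K V}
    (hT : Commute (proj hg i) T) {q : ℕ → ℚ}
    (h : ∀ r, LinearMap.trace K V (proj hg i * T ^ r) = (q r : K))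
    (hinj : ∀ a ∈ gr i, T a = 0 → a = 0) :
    ∃ p : ℚ[X], p.eval 0 ≠ 0 ∧ ∀ r : ℚ[X], tau q (p * r) = 0 := by
  obtain ⟨p, hp0, hp⟩ := exists_rec h
  obtain ⟨p₁, hp₁, hnd⟩ := Polynomial.exists_eq_pow_rootMultiplicity_mul_and_not_dvd p hp0 0
  rw [C_0, sub_zero] at hp₁ hnd
  set m := p.rootMultiplicity 0 with hm
  refine ⟨p₁, ?_, ?_⟩
  · intro h0
    apply hnd
    rw [Polynomial.X_dvd_iff, Polynomial.coeff_zero_eq_eval_zero, h0]
  · set P := proj hg i with hP
    have hcomm : ∀ f : ℚ[X], Commute P (ev T f) := by
      intro f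
      induction f using Polynomial.induction_on' with
      | add p p' hp hp' => rw [map_add]; exact hp.add_right hp'
      | monomial a c => rw [ev_monomial]; exact (hT.pow_right a).smul_right _
    have hmemf : ∀ f : ℚ[X], ∀ a ∈ gr i, ev T f a ∈ gr i := by
      intro f a ha
      have h1 := LinearMap.congr_fun (hcomm f).eq a
      rw [Module.End.mul_apply, Module.End.mul_apply, hP, proj_same hg ha] at h1
      rw [← h1]
      exact proj_mem hg i _
    have hTpow : ∀ r : ℕ, ∀ a ∈ gr i, (T ^ r) a = 0 → a = 0 := by
      intro r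
      induction r with
      | zero => intro a _ h0; simpa using h0
      | succ r ih =>
        intro a ha h0
        rw [pow_succ', Module.End.mul_apply] at h0
        have h1 : (T ^ r) a ∈ gr i := by
          have := hmemf (X ^ r) a ha
          rwa [map_pow, ev_X] at this
        exact ih a ha (hinj _ h1 h0)
    set M := Module.finrank K (gr i) with hM
    have hk := kill hg hT h hp (M := M) le_rfl
    have hk1 : ∀ a ∈ gr i, (ev T p₁ ^ M) a = 0 := by
      intro a ha
      have h1 := hk a ha
      rw [hp₁, map_mul, map_pow, ev_X] at h1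
      have hc : Commute (T ^ m) (ev T p₁) := by
        have : ev T (X ^ m * p₁) = ev T (p₁ * X ^ m) := by rw [mul_comm]
        rw [map_mul, map_mul, map_pow, ev_X] at this
        exact this
      rw [hc.mul_pow, ← pow_mul, Module.End.mul_apply] at h1
      have h2 : (ev T p₁ ^ M) a ∈ gr i := by
        have := hmemf (p₁ ^ M) a ha
        rwa [map_pow] at this
      exact hTpow _ _ h2 h1
    intro r
    have h1 : LinearMap.trace K V (P * ev T (p₁ * r)) = 0 := by
      have hnil : IsNilpotent (P * ev T (p₁ * r)) := by
        refine ⟨M + 1, ?_⟩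
        rw [(hcomm _).mul_pow, hP, proj_pow, ← map_pow, ← hP, (hcomm _).eq]
        apply LinearMap.ext
        intro a
        have e : (p₁ * r) ^ (M + 1) = (r ^ (M + 1) * p₁) * p₁ ^ M := by ring
        rw [Module.End.mul_apply, e, map_mul, Module.End.mul_apply, map_pow _ p₁,
          hk1 _ (proj_mem hg i a), map_zero, LinearMap.zero_apply]
      have h2 := LinearMap.isNilpotent_trace_of_isNilpotent hnil
      exact h2.eq_zero
    rw [trace_ev h] at h1
    exact_mod_cast h1

/-- **The inverse on the graded piece is a rational polynomial.** -/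
lemma exists_inverse (p : ℚ[X]) (hp0 : p.eval 0 ≠ 0) (M : ℕ) :
    ∃ u v : ℚ[X], u * X + v * p ^ M = 1 := by
  have h1 : IsCoprime (X : ℚ[X]) (p ^ M) := by
    apply IsCoprime.pow_right
    rw [(Polynomial.irreducible_X).coprime_iff_not_dvd, Polynomial.X_dvd_iff,
      Polynomial.coeff_zero_eq_eval_zero]
    exact hp0
  exact h1

end Pool.Agent.TH122.Km
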