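import Mathlib

/-!
# Rational combinations of operators
-/

open Finset

namespace Pool.Agent.TH122.Km

/-- If some linear combination of endomorphisms is injective, so is some rational one. -/
theorem exists_rat_comb {K : Type*} [Field K] [CharZero K] {U : Type*} [AddCommGroup U]
    [Module K U] [Module.Finite K U] {r : ℕ} (g : Fin r → Module.End K U) (c : Fin r → K)
    (h : ∀ x, (∑ j, c j • g j) x = 0 → x = 0) :
    ∃ c' : Fin r → ℚ, ∀ x, (∑ j, (c' j : K) • g j) x = 0 → x = 0 := by
  classical
  set b := Module.finBasis K U with hb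
  set A : Fin r → Matrix _ _ K := fun j => LinearMap.toMatrix b b (g j) with hA
  set p : MvPolynomial (Fin r) K :=
    Matrix.det (∑ j, (MvPolynomial.X j : MvPolynomial (Fin r) K) •
      (A j).map (MvPolynomial.C (σ := Fin r))) with hp
  have heval : ∀ x : Fin r → K, MvPolynomial.eval x p = LinearMap.det (∑ j, x j • g j) := by
    intro x
    rw [hp, RingHom.map_det, ← LinearMap.det_toMatrix b]
    congr 1
    ext a a'
    rw [RingHom.mapMatrix_apply, Matrix.map_apply, Matrix.sum_apply, map_sum, map_sum,
      Matrix.sum_apply]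
    apply Finset.sum_congr rfl
    intro j _
    rw [Matrix.smul_apply, Matrix.map_apply, smul_eq_mul, map_mul, MvPolynomial.eval_X,
      MvPolynomial.eval_C, map_smul, Matrix.smul_apply, smul_eq_mul]
  have hne : MvPolynomial.eval c p ≠ 0 := by
    rw [heval]
    intro h0
    have h1 := LinearMap.bot_lt_ker_of_det_eq_zero h0
    rw [bot_lt_iff_ne_bot] at h1
    exact h1 (LinearMap.ker_eq_bot'.2 h)
  by_contra hno
  push Not at hno
  apply hne
  have hp0 : p = 0 := by
    apply MvPolynomial.funext_set (s := fun _ : Fin r => Set.range ((↑) : ℚ → K))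
      (fun _ => Set.infinite_range_of_injective Rat.cast_injective)
    intro x hx
    rw [map_zero, heval]
    have hx' : ∀ j, ∃ q : ℚ, (q : K) = x j := fun j => hx j (Set.mem_univ j)
    choose c' hc' using hx'
    obtain ⟨y, hy, hy0⟩ := hno c'
    have hsum : ∑ j, x j • g j = ∑ j, (c' j : K) • g j :=
      Finset.sum_congr rfl fun j _ => by rw [hc' j]
    rw [hsum]
    by_contra hdet
    have h2 : IsUnit (∑ j, (c' j : K) • g j) :=
      (LinearMap.isUnit_iff_isUnit_det _).2 (isUnit_iff_ne_zero.2 hdet)
    exact hy0 (LinearMap.ker_eq_bot'.1 ((LinearMap.isUnit_iff_ker_eq_bot _).1 h2) y hy)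
  rw [hp0, map_zero]

end Pool.Agent.TH122.Km
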