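import Pool.Agent.TH122.PrimB

/-!
# Numerically primitive classes on products of polarized varieties
-/

open CategoryTheory AlgebraicGeometry Finset

universe u v w

namespace Pool.Agent.TH122.Num

open Pool.Agent.H914 Pool.Agent.H914.VarClass Pool.Agent.H914.VarClass.Obj
  Pool.Agent.H914.WeilCohomology Pool.Agent.H281R3.HT Pool.Agent.TH122.Aniso

variable {k : Type u} [Field k] {𝒱 : VarClass k} {ops : CycleOps 𝒱}

/-- The cycle `z` of codimension `p` on `X` is numerically equivalent to zero: its intersection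
numbers with all cycles of complementary codimension vanish. -/
def NumTrivial (ops : CycleOps 𝒱) (X : 𝒱.Obj) (p : ℕ) (z : X.Cycles) : Prop :=
  ∀ i, p + i = X.dim → ∀ y, X.IsCyc i y → X.V.degCycle (ops.mul z y) = 0

variable {W : WeilCohomology.{u, v} ops} {X Y : 𝒱.Obj} {P Q : Polarized 𝒱}

/-- The class `a` is orthogonal to all algebraic classes. -/
def Nz (W : WeilCohomology.{u, v} ops) {X : 𝒱.Obj} (a : W.H X) : Prop :=
  ∀ i, ∀ c ∈ algClasses W X i, W.tr X (a * c) = 0

lemma Nz.zero : Nz W (0 : W.H X) := fun _ _ _ => by rw [zero_mul, map_zero]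

lemma Nz.add {a b : W.H X} (ha : Nz W a) (hb : Nz W b) : Nz W (a + b) := fun i c hc => by
  rw [add_mul, map_add, ha i c hc, hb i c hc, add_zero]

lemma Nz.smul {a : W.H X} (ha : Nz W a) (q : W.K) : Nz W (q • a) := fun i c hc => by
  rw [smul_mul_assoc, map_smul, ha i c hc, smul_zero]

lemma Nz.neg {a : W.H X} (ha : Nz W a) : Nz W (-a) := fun i c hc => by
  rw [neg_mul, map_neg, ha i c hc, neg_zero]

lemma Nz.sub {a b : W.H X} (ha : Nz W a) (hb : Nz W b) : Nz W (a - b) := by
  rw [sub_eq_add_neg]; exact ha.add hb.neg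

lemma Nz.mul_right {a c : W.H X} (ha : Nz W a) {j : ℕ} (hc : c ∈ algClasses W X j) :
    Nz W (a * c) := fun i d hd => by
  rw [mul_assoc]; exact ha _ _ (alg_mul hc hd)

lemma Nz.mul_left {a c : W.H X} (ha : Nz W a) {j : ℕ} (hc : c ∈ algClasses W X j) :
    Nz W (c * a) := by
  rw [alg_comm hc]; exact ha.mul_right hc

lemma nz_cl {p : ℕ} {z : X.Cycles} (hz : X.IsCyc p z) : Nz W (W.cl X z) ↔ NumTrivial ops X p z := by
  constructor
  · intro h i hi y hy
    have h1 := ops.mul_mem hz hy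
    rw [hi] at h1
    have h2 := h i _ ⟨y, hy, rfl⟩
    rw [← W.cl_mul, W.tr_cl h1] at h2
    exact_mod_cast h2
  · rintro h i _ ⟨y, hy, rfl⟩
    have h1 := ops.mul_mem hz hy
    by_cases hi : p + i = X.dim
    · rw [hi] at h1
      rw [← W.cl_mul, W.tr_cl h1, h i hi y hy, Rat.cast_zero]
    · rw [← W.cl_mul]
      exact tr_alg_zero ⟨_, h1, rfl⟩ hi

lemma nz_map_fst {a : W.H X} {p : ℕ} (ha : a ∈ algClasses W X p) (h : Nz W a) :
    Nz W (W.map (fst X Y) a) := by
  intro i c hc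
  have hmem := alg_mul (alg_map (fst X Y) ha) hc
  by_cases hi : p + i = X.dim + Y.dim
  · by_cases hY : Y.dim ≤ i
    · rw [alg_comm (alg_map (fst X Y) ha), ← W.tr_push]
      have h1 : W.push (fst X Y) c ∈ algClasses W X (i - Y.dim) :=
        alg_push (fst X Y) hc (by rw [dim_prod]; omega)
      rw [alg_comm h1]
      exact h _ _ h1
    · have h0 := alg_gr ha
      rw [W.gr_eq_bot X _ (by omega)] at h0
      rw [(Submodule.mem_bot _).1 h0, map_zero, zero_mul, map_zero]
  · exact tr_alg_zero hmem (by rw [dim_prod]; exact hi)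

lemma nz_map_snd {a : W.H Y} {p : ℕ} (ha : a ∈ algClasses W Y p) (h : Nz W a) :
    Nz W (W.map (snd X Y) a) := by
  intro i c hc
  have hmem := alg_mul (alg_map (snd X Y) ha) hc
  by_cases hi : p + i = X.dim + Y.dim
  · by_cases hX : X.dim ≤ i
    · rw [alg_comm (alg_map (snd X Y) ha), ← W.tr_push]
      have h1 : W.push (snd X Y) c ∈ algClasses W Y (i - X.dim) :=
        alg_push (snd X Y) hc (by rw [dim_prod]; omega)
      rw [alg_comm h1]
      exact h _ _ h1
    · have h0 := alg_gr ha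
      rw [W.gr_eq_bot Y _ (by omega)] at h0
      rw [(Submodule.mem_bot _).1 h0, map_zero, zero_mul, map_zero]
  · exact tr_alg_zero hmem (by rw [dim_prod]; exact hi)

lemma nz_ex_left {a : W.H P.X} {b : W.H Q.X} {p q : ℕ} (ha : a ∈ algClasses W P.X p)
    (hb : b ∈ algClasses W Q.X q) (h : Nz W a) : Nz W (ex W P Q a b) :=
  (nz_map_fst ha h).mul_right (alg_map _ hb)

lemma nz_ex_right {a : W.H P.X} {b : W.H Q.X} {p q : ℕ} (ha : a ∈ algClasses W P.X p)
    (hb : b ∈ algClasses W Q.X q) (h : Nz W b) : Nz W (ex W P Q a b) :=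
  (nz_map_snd hb h).mul_left (alg_map _ ha)

/-- Numerically primitive algebraic classes of codimension `j`. -/
structure NPrim (W : WeilCohomology.{u, v} ops) (P : Polarized 𝒱) (j : ℕ) (a : W.H P.X) :
    Prop where
  alg : a ∈ algClasses W P.X j
  le : 2 * j ≤ P.X.dim
  prim : Nz W (xi W P ^ (P.X.dim - 2 * j + 1) * a)

lemma NPrim.of (j : ℕ) {a : W.H P.X} (h : Prim W P j a) : NPrim W P j a :=
  ⟨h.alg, h.le, by rw [h.prim]; exact Nz.zero⟩

lemma NPrim.van (hD : P.X.IsCyc 1 P.D) {j : ℕ} {a : W.H P.X} (h : NPrim W P j a) {m : ℕ}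
    (hm : P.X.dim - 2 * j < m) : Nz W (xi W P ^ m * a) := by
  rw [← Nat.sub_add_cancel (show P.X.dim - 2 * j + 1 ≤ m from hm), pow_add, mul_assoc]
  exact h.prim.mul_left (xi_pow_alg hD _)

lemma NPrim.smul {j : ℕ} {a : W.H P.X} (h : NPrim W P j a) (q : ℚ) :
    NPrim W P j ((q : W.K) • a) :=
  ⟨alg_smul q h.alg, h.le, by rw [mul_smul_comm]; exact h.prim.smul _⟩

lemma NPrim.add {j : ℕ} {a b : W.H P.X} (h : NPrim W P j a) (h' : NPrim W P j b) :
    NPrim W P j (a + b) :=
  ⟨alg_add h.alg h'.alg, h.le, by rw [mul_add]; exact h.prim.add h'.prim⟩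

lemma nz_sum {ι : Type} {s : Finset ι} {f : ι → W.H X} (h : ∀ i ∈ s, Nz W (f i)) :
    Nz W (∑ i ∈ s, f i) := by
  classical
  induction s using Finset.induction_on with
  | empty => rw [Finset.sum_empty]; exact Nz.zero
  | insert b s hb ih =>
    rw [Finset.sum_insert hb]
    exact (h b (by simp)).add (ih fun i hi => h i (by simp [hi]))

/-- External products of primitive classes are primitive. -/
lemma NPrim.ex (hP : P.X.IsCyc 1 P.D) (hQ : Q.X.IsCyc 1 Q.D) {i j : ℕ} {a : W.H P.X}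
    {b : W.H Q.X} (ha : NPrim W P i a) (hb : NPrim W Q j b) :
    NPrim W (pr ops P Q) (i + j) (ex W P Q a b) := by
  have hi := ha.le
  have hj := hb.le
  have hdim : (pr ops P Q).X.dim = P.X.dim + Q.X.dim := rfl
  refine ⟨ex_alg ha.alg hb.alg, by omega, ?_⟩
  rw [xi_pow_ex hP hQ]
  apply nz_sum
  intro m _
  apply Nz.smul
  have h1 := alg_mul (xi_pow_alg (W := W) hP m) ha.alg
  have h2 := alg_mul (xi_pow_alg (W := W) hQ ((pr ops P Q).X.dim - 2 * (i + j) + 1 - m)) hb.alg
  by_cases hm : P.X.dim - 2 * i < m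
  · exact nz_ex_left h1 h2 (ha.van hP hm)
  · exact nz_ex_right h1 h2 (hb.van hQ (by omega))

/-- External products of primitive classes of different bidegrees are orthogonal. -/
lemma nnf_ex_orth (hP : P.X.IsCyc 1 P.D) (hQ : Q.X.IsCyc 1 Q.D) {i i' j j' J : ℕ}
    {a a' : W.H P.X} {b b' : W.H Q.X} (ha : NPrim W P i a) (ha' : NPrim W P i' a')
    (hb : NPrim W Q j b) (hb' : NPrim W Q j' b') (hJ : i + j = J) (hJ' : i' + j' = J)
    (hne : i ≠ i') :
    nf W (pr ops P Q) J (Aniso.ex W P Q a b) (Aniso.ex W P Q a' b') = 0 := by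
  have hdim : (pr ops P Q).X.dim = P.X.dim + Q.X.dim := rfl
  have h1 := ha.le
  have h2 := ha'.le
  have h3 := hb.le
  have h4 := hb'.le
  rw [nf, ex_mul hb.alg, xi_pow_ex hP hQ, map_sum, hdim, Finset.sum_eq_zero, zero_div]
  intro m _
  rw [map_smul, ex_tr]
  by_cases hm : m + (i + i') = P.X.dim
  · rcases lt_or_gt_of_ne hne with h | h
    · have e1 : W.tr P.X (xi W P ^ m * (a * a')) = 0 := by
        rw [alg_comm ha.alg, ← mul_assoc]
        exact ha'.van hP (by omega) _ _ ha.alg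
      rw [e1, zero_mul, smul_zero]
    · have e1 : W.tr P.X (xi W P ^ m * (a * a')) = 0 := by
        rw [← mul_assoc]
        exact ha.van hP (by omega) _ _ ha'.alg
      rw [e1, zero_mul, smul_zero]
  · rw [tr_alg_zero (alg_mul (xi_pow_alg hP m) (alg_mul ha.alg ha'.alg)) hm, zero_mul, smul_zero]

end Pool.Agent.TH122.Num
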