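import Pool.Agent.TH122.NumA
import Pool.Agent.TH122.IsoF

/-!
# Isotropic numerically primitive classes
-/

open CategoryTheory AlgebraicGeometry Finset

universe u v w

namespace Pool.Agent.TH122.Num

open Pool.Agent.H914 Pool.Agent.H914.VarClass Pool.Agent.H914.VarClass.Obj
  Pool.Agent.H914.WeilCohomology Pool.Agent.H281R3.HT Pool.Agent.TH122.Aniso

variable {k : Type u} [Field k] {𝒱 : VarClass k} {ops : CycleOps 𝒱}
  {W : WeilCohomology.{u, v} ops} {X Y : 𝒱.Obj} {P Q : Polarized 𝒱}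
  {𝒬 : Polarized 𝒱 → Prop}

/-- A numerically primitive class violating the conjecture gives an isotropic one. -/
theorem exists_isotropic_num (h𝒬 : PCls ops 𝒬) (hP : 𝒬 P) {j : ℕ} (hj : 1 ≤ j) {x : W.H P.X}
    (hx : NPrim W P j x) (hx0 : ¬ Nz W x) {q : ℚ} (hq : q ≤ 0)
    (hxx : nf W P j x x = (((-1) ^ j * q : ℚ) : W.K)) :
    ∃ Z, 𝒬 Z ∧ ∃ z, NPrim W Z j z ∧ ¬ Nz W z ∧ nf W Z j z z = 0 := by
  classical
  have hle := hx.le
  obtain ⟨j, rfl⟩ : ∃ j', j = j' + 1 := ⟨j - 1, by omega⟩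
  obtain ⟨T, hT, u, hu, r, hr, hr'⟩ := exists_pos (W := W) h𝒬 hP (by omega) j
  obtain ⟨δ, hδ, hδ'⟩ := nf_one (W := W) (h𝒬.div _ hT) (h𝒬.deg _ hT)
  obtain ⟨ε, hε, hε'⟩ := nf_one (W := W) (h𝒬.div _ hP) (h𝒬.deg _ hP)
  obtain ⟨R, hRm, hR1, e, he, hee, hee'⟩ := exists_four h𝒬 hT hj hu hr' hδ'
  have hdP := h𝒬.div _ hP
  have hdR := h𝒬.div _ hRm
  have h1 : Prim W P 0 (1 : W.H P.X) := prim_one hdP
  have h1' : Prim W R 0 (1 : W.H R.X) := prim_one hdR
  obtain ⟨y, hy⟩ := four_squares (-(q * δ) / (ε * r)) (by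
    apply div_nonneg
    · nlinarith
    · positivity)
  set a := ex W P R x 1 with ha
  set b : Fin 4 → W.H (pr ops P R).X := fun i => ex W P R 1 (e i) with hb
  have haP : NPrim W (pr ops P R) (j + 1) a := by
    have := hx.ex hdP hdR (NPrim.of 0 h1')
    rwa [add_zero] at this
  have hbP : ∀ i, Prim W (pr ops P R) (j + 1) (b i) := by
    intro i
    have := h1.ex hdP hdR (he i)
    rwa [zero_add] at this
  have haa : nf W (pr ops P R) (j + 1) a a =
      (((-1) ^ (j + 1) * q : ℚ) : W.K) * (δ : W.K) ^ 4 := by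
    have := nf_ex (W := W) hdP hdR (i := j + 1) (j := 0) hle (by omega) hx.alg hx.alg h1'.alg
      h1'.alg
    rwa [add_zero, hxx, hR1] at this
  have hbb : ∀ i, nf W (pr ops P R) (j + 1) (b i) (b i) =
      (ε : W.K) * ((((-1) ^ (j + 1) * r : ℚ) : W.K) * (δ : W.K) ^ 3) := by
    intro i
    have := nf_ex (W := W) hdP hdR (i := 0) (j := j + 1) (by omega) (he i).le h1.alg h1.alg
      (he i).alg (he i).alg
    rwa [zero_add, hε', hee] at this
  have hbb' : ∀ i i', i ≠ i' → nf W (pr ops P R) (j + 1) (b i) (b i') = 0 := by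
    intro i i' hii
    have := nf_ex (W := W) hdP hdR (i := 0) (j := j + 1) (by omega) (he i).le h1.alg h1.alg
      (he i).alg (he i').alg
    rwa [zero_add, hee' i i' hii, mul_zero] at this
  have hab : ∀ i, nf W (pr ops P R) (j + 1) a (b i) = 0 := fun i =>
    nnf_ex_orth hdP hdR hx (NPrim.of 0 h1) (NPrim.of 0 h1') (NPrim.of (j + 1) (he i))
      (by omega) (by omega) (by omega)
  set c : W.H (pr ops P R).X := ∑ i, ((y i : ℚ) : W.K) • b i with hc
  have hcP : Prim W (pr ops P R) (j + 1) c :=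
    Prim.sum haP.le (fun i _ => (hbP i).smul (y i))
  have nf_sum : ∀ (s : Finset (Fin 4)) (z : W.H (pr ops P R).X),
      nf W (pr ops P R) (j + 1) z (∑ i ∈ s, ((y i : ℚ) : W.K) • b i) =
        ∑ i ∈ s, ((y i : ℚ) : W.K) * nf W (pr ops P R) (j + 1) z (b i) := by
    intro s z
    induction s using Finset.induction_on with
    | empty =>
      rw [Finset.sum_empty, Finset.sum_empty, nf, mul_zero, mul_zero, map_zero, zero_div]
    | insert t s ht ih =>
      rw [Finset.sum_insert ht, Finset.sum_insert ht, nf_add_right, ih, nf_smul_right]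
  have hac : nf W (pr ops P R) (j + 1) a c = 0 := by
    rw [hc, nf_sum]
    exact Finset.sum_eq_zero (fun i _ => by rw [hab, mul_zero])
  have hca : nf W (pr ops P R) (j + 1) c a = 0 := by
    rw [nf_comm _ hcP.alg, hac]
  have hcb : ∀ i, nf W (pr ops P R) (j + 1) c (b i) = ((y i : ℚ) : W.K) *
      ((ε : W.K) * ((((-1) ^ (j + 1) * r : ℚ) : W.K) * (δ : W.K) ^ 3)) := by
    intro i
    rw [nf_comm _ hcP.alg, hc, nf_sum, Finset.sum_eq_single i]
    · rw [hbb]
    · intro i' _ hi'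
      rw [hbb' i i' (Ne.symm hi'), mul_zero]
    · intro h0; exact absurd (Finset.mem_univ i) h0
  have hcc : nf W (pr ops P R) (j + 1) c c = ((∑ i, y i ^ 2 : ℚ) : W.K) *
      ((ε : W.K) * ((((-1) ^ (j + 1) * r : ℚ) : W.K) * (δ : W.K) ^ 3)) := by
    conv_lhs => rw [hc, nf_sum]
    rw [Finset.sum_congr rfl (fun i _ => by rw [hcb i]), Rat.cast_sum, Finset.sum_mul]
    apply Finset.sum_congr rfl
    intro i _
    push_cast
    ring
  refine ⟨pr ops P R, h𝒬.prod _ _ hP hRm, a + c, haP.add (NPrim.of _ hcP), ?_, ?_⟩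
  · intro h0
    apply hx0
    intro i t ht
    have htop : W.tr R.X (xi W R ^ R.X.dim) ≠ 0 := by
      rw [tr_top hdR]
      exact_mod_cast (h𝒬.deg _ hRm).ne'
    have e1 := h0 _ _ (ex_alg (W := W) ht (xi_pow_alg (W := W) hdR R.X.dim))
    have e2 : W.tr (pr ops P R).X (c * ex W P R t (xi W R ^ R.X.dim)) = 0 := by
      rw [hc, Finset.sum_mul, map_sum]
      apply Finset.sum_eq_zero
      intro i _
      rw [smul_mul_assoc, map_smul, hb, ex_mul (he i).alg, ex_tr,
        tr_alg_zero (alg_mul (he i).alg (xi_pow_alg hdR R.X.dim)) (by omega), mul_zero, smul_zero]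
    rw [add_mul, map_add, e2, add_zero, ha, ex_mul h1'.alg, ex_tr, one_mul] at e1
    exact (mul_eq_zero.1 e1).resolve_right htop
  · rw [nf_add_left, nf_add_right, nf_add_right, hac, hca, add_zero, zero_add, haa, hcc, hy]
    have hε0 : (ε : W.K) ≠ 0 := by exact_mod_cast hε.ne'
    have hr0 : (r : W.K) ≠ 0 := by exact_mod_cast hr.ne'
    push_cast
    field_simp
    ring

lemma nom_alg (hD : P.X.IsCyc 1 P.D) {j : ℕ} {z : W.H P.X} (hz : NPrim W P j z) :
    om W P j z ∈ algClasses W (pr ops P P).X P.X.dim := by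
  have hle := hz.le
  apply alg_sum
  intro i hi
  have hi' := Finset.mem_range.1 hi
  have h1 := ex_alg (W := W) (alg_mul (xi_pow_alg hD i) hz.alg)
    (alg_mul (xi_pow_alg hD (P.X.dim - 2 * j - i)) hz.alg)
  rwa [show i + j + (P.X.dim - 2 * j - i + j) = P.X.dim by omega] at h1

lemma nom_prim (hD : P.X.IsCyc 1 P.D) {j : ℕ} {z : W.H P.X} (hz : NPrim W P j z) :
    Nz W (xi W (pr ops P P) * om W P j z) := by
  have hvan := hz.prim
  rw [om]
  set M := P.X.dim - 2 * j with hM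
  set f : ℕ → W.H (pr ops P P).X := fun i => ex W P P (xi W P ^ i * z)
    (xi W P ^ (M + 1 - i) * z) with hf
  rw [Finset.mul_sum]
  have h1 : ∀ i ∈ range (M + 1), xi W (pr ops P P) * ((((-1) ^ i : ℚ) : W.K) •
      ex W P P (xi W P ^ i * z) (xi W P ^ (M - i) * z)) =
      (((-1) ^ i : ℚ) : W.K) • f i - (((-1) ^ (i + 1) : ℚ) : W.K) • f (i + 1) := by
    intro i hi
    have h2 := Finset.mem_range.1 hi
    rw [mul_smul_comm, xi_ex hD hD, ← mul_assoc, ← mul_assoc, ← pow_succ', ← pow_succ', hf]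
    beta_reduce
    rw [show M - i + 1 = M + 1 - i by omega, show M + 1 - (i + 1) = M - i by omega]
    rw [smul_add, pow_succ (-1 : ℚ) i]
    push_cast
    rw [mul_neg_one, neg_smul, sub_neg_eq_add, add_comm]
  rw [Finset.sum_congr rfl h1, Finset.sum_range_sub']
  have hpow : ∀ i, xi W P ^ i * z ∈ algClasses W P.X (i + j) := fun i =>
    alg_mul (xi_pow_alg hD i) hz.alg
  have h3 : Nz W (f 0) := by
    rw [hf]; beta_reduce
    rw [Nat.sub_zero]
    exact nz_ex_right (hpow 0) (hpow (M + 1)) hvan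
  have h4 : Nz W (f (M + 1)) := by
    rw [hf]; beta_reduce
    exact nz_ex_left (hpow (M + 1)) (hpow (M + 1 - (M + 1))) hvan
  exact (h3.smul _).sub (h4.smul _)

lemma nom_pair (hD : P.X.IsCyc 1 P.D) {j : ℕ} {z y : W.H P.X} (hz : NPrim W P j z)
    (hy : NPrim W P j y) :
    W.tr (pr ops P P).X (om W P j z * om W P j y) =
      ((P.X.dim - 2 * j + 1 : ℕ) : W.K) * ((-1 : W.K) ^ (P.X.dim - 2 * j) *
        (W.tr P.X (xi W P ^ (P.X.dim - 2 * j) * (z * y))) ^ 2) := by
  have hle := hz.le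
  set M := P.X.dim - 2 * j with hM
  have hprod : ∀ i l, xi W P ^ i * z * (xi W P ^ l * y) = xi W P ^ (i + l) * (z * y) := by
    intro i l
    rw [pow_add, mul_assoc, ← mul_assoc z, alg_comm hz.alg (xi W P ^ l)]
    simp only [mul_assoc]
  have htr : ∀ i, i ≠ M → W.tr P.X (xi W P ^ i * (z * y)) = 0 := fun i hi =>
    tr_alg_zero (alg_mul (xi_pow_alg hD i) (alg_mul hz.alg hy.alg)) (by omega)
  set τ := W.tr P.X (xi W P ^ M * (z * y)) with hτ
  have hpow : ∀ i, xi W P ^ i * z ∈ algClasses W P.X (i + j) := fun i =>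
    alg_mul (xi_pow_alg hD i) hz.alg
  have h1 : ∀ i ∈ range (M + 1), W.tr (pr ops P P).X (((((-1) ^ i : ℚ) : W.K) •
      ex W P P (xi W P ^ i * z) (xi W P ^ (M - i) * z)) * om W P j y) =
      (-1 : W.K) ^ M * τ ^ 2 := by
    intro i hi
    have hi' := Finset.mem_range.1 hi
    rw [om, ← hM, Finset.mul_sum, map_sum, Finset.sum_eq_single (M - i)]
    · rw [smul_mul_assoc, mul_smul_comm, map_smul, map_smul, ex_mul (hpow (M - i)), ex_tr,
        hprod, hprod, show i + (M - i) = M by omega, show M - i + (M - (M - i)) = M by omega,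
        ← hτ, smul_eq_mul, smul_eq_mul]
      have h2 : (-1 : W.K) ^ M = (-1) ^ i * (-1) ^ (M - i) := by
        rw [← pow_add]; congr 1; omega
      rw [h2]
      push_cast
      ring
    · intro l _ hl
      rw [smul_mul_assoc, mul_smul_comm, map_smul, map_smul, ex_mul (hpow (M - i)), ex_tr,
        hprod, htr (i + l) (by omega), zero_mul, smul_zero, smul_zero]
    · intro h
      exact absurd (Finset.mem_range.2 (by omega)) h
  have h3 : om W P j z * om W P j y = ∑ i ∈ range (M + 1), ((((-1) ^ i : ℚ) : W.K) •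
      ex W P P (xi W P ^ i * z) (xi W P ^ (M - i) * z)) * om W P j y := by
    rw [← Finset.sum_mul]; rfl
  rw [h3, map_sum, Finset.sum_congr rfl h1, Finset.sum_const, Finset.card_range, nsmul_eq_mul]

/-- The class `om z` is not numerically trivial. -/
lemma nom_ne (hD : P.X.IsCyc 1 P.D) {j : ℕ} {z : W.H P.X} (hz : NPrim W P j z)
    (hz0 : ¬ Nz W z) (hzM : ¬ Nz W (xi W P ^ (P.X.dim - 2 * j) * z)) : ¬ Nz W (om W P j z) := by
  intro h0
  have hle := hz.le
  rw [Nz] at hz0 hzM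
  push Not at hz0 hzM
  obtain ⟨p, t, ht, ht0⟩ := hz0
  obtain ⟨q, s, hs, hs0⟩ := hzM
  have hp : j + p = P.X.dim := by
    by_contra hne
    exact ht0 (tr_alg_zero (alg_mul hz.alg ht) hne)
  have hpow : ∀ i, xi W P ^ i * z ∈ algClasses W P.X (i + j) := fun i =>
    alg_mul (xi_pow_alg hD i) hz.alg
  have h1 := h0 _ _ (ex_alg (W := W) ht hs)
  rw [om, Finset.sum_mul, map_sum, Finset.sum_eq_single 0] at h1
  · rw [pow_zero, Rat.cast_one, one_smul, ex_mul (hpow _), ex_tr, pow_zero, one_mul,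
      Nat.sub_zero] at h1
    rcases mul_eq_zero.1 h1 with h | h
    · exact ht0 h
    · exact hs0 h
  · intro i _ hi
    rw [smul_mul_assoc, map_smul, ex_mul (hpow _), ex_tr,
      tr_alg_zero (alg_mul (hpow i) ht) (by omega), zero_mul, smul_zero]
  · intro h; exact absurd (Finset.mem_range.2 (by omega)) h

end Pool.Agent.TH122.Num
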