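import Pool.Agent.TH122.NumB

/-!
# The numerical conjecture of Hodge type and isotropic classes
-/

open CategoryTheory AlgebraicGeometry Finset

universe u v w

namespace Pool.Agent.TH122.Num

open Pool.Agent.H914 Pool.Agent.H914.VarClass Pool.Agent.H914.VarClass.Obj
  Pool.Agent.H914.WeilCohomology Pool.Agent.H281R3.HT Pool.Agent.TH122.Aniso

variable {k : Type u} [Field k] {𝒱 : VarClass k} {ops : CycleOps 𝒱}

/-- The standard conjecture of Hodge type for `X` and the divisor `D`, for cycles modulo numerical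
equivalence: for `2 j ≤ n = dim X` and every cycle `z` of codimension `j` which is not numerically
equivalent to zero, but `D ^ (n - 2 j + 1) · z` is, the sign of the intersection number
`z · z · D ^ (n - 2 j)` is `(-1) ^ j`. -/
def HodgeTypeNum (ops : CycleOps 𝒱) (X : 𝒱.Obj) (D : X.Cycles) : Prop :=
  ∀ j, 2 * j ≤ X.dim → ∀ z, X.IsCyc j z →
    NumTrivial ops X (X.dim - j + 1) (divPow ops D (X.dim - 2 * j + 1) z) →
    ¬ NumTrivial ops X j z →
    0 < (-1 : ℚ) ^ j * X.V.degCycle (ops.mul z (divPow ops D (X.dim - 2 * j) z))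

/-- The cycle `z` has codimension `m` on the variety `X` of dimension `2 m`, is primitive modulo
numerical equivalence with respect to the divisor `D`, and has self-intersection number zero. -/
structure IsNumIsotropic (ops : CycleOps 𝒱) (X : 𝒱.Obj) (D : X.Cycles) (m : ℕ)
    (z : X.Cycles) : Prop where
  codim : X.IsCyc m z
  dim_eq : X.dim = 2 * m
  prim : NumTrivial ops X (m + 1) (ops.mul D z)
  sq : X.V.degCycle (ops.mul z z) = 0

/-- The numerical Lefschetz standard conjecture: for `2 j ≤ n = dim X` every cycle of codimension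
`n - j` is numerically equivalent to `D ^ (n - 2 j) · z` for a cycle `z` of codimension `j`. -/
def LefschetzNum (ops : CycleOps 𝒱) (X : 𝒱.Obj) (D : X.Cycles) : Prop :=
  ∀ j, 2 * j ≤ X.dim → ∀ w, X.IsCyc (X.dim - j) w →
    ∃ z, X.IsCyc j z ∧ NumTrivial ops X (X.dim - j) (w - divPow ops D (X.dim - 2 * j) z)

variable {W : WeilCohomology.{u, v} ops} {X Y : 𝒱.Obj} {P Q : Polarized 𝒱}
  {𝒬 : Polarized 𝒱 → Prop}

lemma cl_divPow' (D : X.Cycles) (m : ℕ) (z : X.Cycles) :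
    W.cl X (divPow ops D m z) = W.cl X D ^ m * W.cl X z := by
  rw [cl_divPow, mulLeft_pow_apply]

lemma IsCyc.sub {p : ℕ} {z w : X.Cycles} (hz : X.IsCyc p z) (hw : X.IsCyc p w) :
    X.IsCyc p (z - w) := by
  have h1 := SmVar.IsCyc.add hz (hw.smul (-1))
  rwa [neg_one_smul, ← sub_eq_add_neg] at h1

/-- Surjectivity of the Lefschetz operators, in terms of classes. -/
lemma LefschetzNum.exists_class (h : LefschetzNum ops P.X P.D) (hD : P.X.IsCyc 1 P.D) {j : ℕ}
    (hj : 2 * j ≤ P.X.dim) {w : W.H P.X} (hw : w ∈ algClasses W P.X (P.X.dim - j)) :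
    ∃ z ∈ algClasses W P.X j, Nz W (w - xi W P ^ (P.X.dim - 2 * j) * z) := by
  obtain ⟨c, hc, rfl⟩ := hw
  obtain ⟨z, hz, hcz⟩ := h j hj c hc
  refine ⟨W.cl P.X z, ⟨z, hz, rfl⟩, ?_⟩
  have h1 := divPow_mem (ops := ops) hD (P.X.dim - 2 * j) hz
  rw [show j + (P.X.dim - 2 * j) = P.X.dim - j by omega] at h1
  rw [← nz_cl (W := W) (IsCyc.sub hc h1), map_sub, cl_divPow'] at hcz
  exact hcz

/-- Injectivity of the Lefschetz operators. -/
lemma LefschetzNum.inj (h : LefschetzNum ops P.X P.D) (hD : P.X.IsCyc 1 P.D) {j : ℕ}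
    (hj : 2 * j ≤ P.X.dim) {z : W.H P.X} (hz : z ∈ algClasses W P.X j)
    (hz0 : Nz W (xi W P ^ (P.X.dim - 2 * j) * z)) : Nz W z := by
  intro i c hc
  by_cases hi : j + i = P.X.dim
  · obtain rfl : i = P.X.dim - j := by omega
    obtain ⟨y, hy, hcy⟩ := h.exists_class hD hj hc
    have h1 : c = (c - xi W P ^ (P.X.dim - 2 * j) * y) + xi W P ^ (P.X.dim - 2 * j) * y := by abel
    rw [h1, mul_add, map_add, alg_comm hz, hcy _ _ hz, zero_add, ← mul_assoc, alg_comm hz]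
    exact hz0 _ _ hy
  · exact tr_alg_zero (alg_mul hz hc) hi

lemma nprim_cl (hD : P.X.IsCyc 1 P.D) {j : ℕ} (hj : 2 * j ≤ P.X.dim) {z : P.X.Cycles}
    (hz : P.X.IsCyc j z) (h : NumTrivial ops P.X (P.X.dim - j + 1)
      (divPow ops P.D (P.X.dim - 2 * j + 1) z)) : NPrim W P j (W.cl P.X z) := by
  refine ⟨⟨z, hz, rfl⟩, hj, ?_⟩
  have h1 := divPow_mem (ops := ops) hD (P.X.dim - 2 * j + 1) hz
  rw [show j + (P.X.dim - 2 * j + 1) = P.X.dim - j + 1 by omega] at h1
  rw [← nz_cl (W := W) h1, cl_divPow'] at h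
  exact h

/-- **A violation of the conjecture gives an isotropic class.** -/
theorem isotropic_of_violation (W : WeilCohomology.{u, v} ops) (h𝒬 : PCls ops 𝒬)
    (hL : ∀ P, 𝒬 P → LefschetzNum ops P.X P.D) (hP : 𝒬 P) {j : ℕ} (hj : 2 * j ≤ P.X.dim)
    {z : P.X.Cycles} (hz : P.X.IsCyc j z)
    (hprim : NumTrivial ops P.X (P.X.dim - j + 1) (divPow ops P.D (P.X.dim - 2 * j + 1) z))
    (hz0 : ¬ NumTrivial ops P.X j z)
    (hneg : ¬ 0 < (-1 : ℚ) ^ j *
      P.X.V.degCycle (ops.mul z (divPow ops P.D (P.X.dim - 2 * j) z))) :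
    ∃ Z, 𝒬 Z ∧ ∃ ω, IsNumIsotropic ops (pr ops Z Z).X (pr ops Z Z).D Z.X.dim ω ∧
      ¬ NumTrivial ops (pr ops Z Z).X Z.X.dim ω := by
  push Not at hneg
  have hD := h𝒬.div P hP
  have hxP : NPrim W P j (W.cl P.X z) := nprim_cl hD hj hz hprim
  rw [← nz_cl (W := W) hz] at hz0
  set x := W.cl P.X z with hx
  set t := P.X.V.degCycle (ops.mul z (divPow ops P.D (P.X.dim - 2 * j) z)) with ht
  have hfac : (0 : ℚ) < ((P.X.dim - 2 * j).factorial : ℚ) := by
    exact_mod_cast (P.X.dim - 2 * j).factorial_pos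
  have hnf : nf W P j x x = (((-1) ^ j * ((-1) ^ j * t /
      ((P.X.dim - 2 * j).factorial : ℚ)) : ℚ) : W.K) := by
    rw [hx, nf_cycle hD hj hz]
    congr 1
    rw [mul_div_assoc, ← mul_assoc, ← mul_pow, neg_one_mul, neg_neg, one_pow, one_mul]
  have hq : (-1) ^ j * t / ((P.X.dim - 2 * j).factorial : ℚ) ≤ 0 :=
    div_nonpos_of_nonpos_of_nonneg hneg hfac.le
  rcases Nat.eq_zero_or_pos j with rfl | hj1
  · exfalso
    have hx0 : x ≠ 0 := fun h0 => hz0 (by rw [h0]; exact Nz.zero)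
    obtain ⟨q, hq0, hq1⟩ := codim_zero hD (h𝒬.deg P hP) hxP.alg hx0
    rw [hnf, pow_zero, one_mul, one_mul] at hq1
    rw [pow_zero, one_mul] at hq
    have h3 : t / ((P.X.dim - 2 * 0).factorial : ℚ) = q := by exact_mod_cast hq1
    linarith
  · obtain ⟨Z, hZ, y, hy, hy0, hyy⟩ := exists_isotropic_num h𝒬 hP hj1 hxP hz0 hq hnf
    have hDZ := h𝒬.div Z hZ
    have hyM : ¬ Nz W (xi W Z ^ (Z.X.dim - 2 * j) * y) := fun h0 =>
      hy0 ((hL Z hZ).inj hDZ hy.le hy.alg h0)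
    obtain ⟨ω, hω, hωo⟩ := nom_alg hDZ hy
    have hfac' : ((Z.X.dim - 2 * j).factorial : W.K) ≠ 0 := by
      exact_mod_cast (Z.X.dim - 2 * j).factorial_ne_zero
    have hzero : W.tr Z.X (xi W Z ^ (Z.X.dim - 2 * j) * (y * y)) = 0 := by
      rw [nf, div_eq_zero_iff] at hyy
      exact hyy.resolve_right hfac'
    refine ⟨Z, hZ, ω, ⟨hω, (two_mul _).symm, ?_, ?_⟩, ?_⟩
    · have h1 := ops.mul_mem (h𝒬.div _ (h𝒬.prod Z Z hZ hZ)) hω
      rw [add_comm] at h1
      rw [← nz_cl (W := W) h1, W.cl_mul, hωo]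
      exact nom_prim hDZ hy
    · have h4 := ops.mul_mem hω hω
      have h5 := W.tr_cl (X := (pr ops Z Z).X) (z := ops.mul ω ω) h4
      rw [W.cl_mul, hωo, nom_pair hDZ hy hy, hzero] at h5
      have h6 : (0 : W.K) = (((pr ops Z Z).X.V.degCycle (ops.mul ω ω) : ℚ) : W.K) := by
        rw [← h5]; ring
      exact_mod_cast h6.symm
    · rw [← nz_cl (W := W) hω, hωo]
      exact nom_ne hDZ hy hy0 hyM

/-- The absence of isotropic classes implies the conjecture. -/
theorem hodge_of_anisotropic (W : WeilCohomology.{u, v} ops) (h𝒬 : PCls ops 𝒬)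
    (hL : ∀ P, 𝒬 P → LefschetzNum ops P.X P.D)
    (h : ∀ P, 𝒬 P → ∀ m z, IsNumIsotropic ops P.X P.D m z → NumTrivial ops P.X m z) :
    ∀ P, 𝒬 P → HodgeTypeNum ops P.X P.D := by
  intro P hP j hj z hz hprim hz0
  by_contra hneg
  obtain ⟨Z, hZ, ω, hω, hω0⟩ := isotropic_of_violation W h𝒬 hL hP hj hz hprim hz0 hneg
  exact hω0 (h _ (h𝒬.prod Z Z hZ hZ) _ _ hω)

/-- The conjecture implies the absence of isotropic classes. -/
theorem anisotropic_of_hodge (h : HodgeTypeNum ops P.X P.D) (m : ℕ) (z : P.X.Cycles)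
    (hz : IsNumIsotropic ops P.X P.D m z) : NumTrivial ops P.X m z := by
  by_contra h0
  have hm := hz.dim_eq
  have h1 := h m (by omega) z hz.codim (by
    rw [show P.X.dim - m + 1 = m + 1 by omega, show P.X.dim - 2 * m + 1 = 1 by omega]
    exact hz.prim) h0
  rw [show P.X.dim - 2 * m = 0 by omega] at h1
  change 0 < (-1 : ℚ) ^ m * P.X.V.degCycle (ops.mul z z) at h1
  rw [hz.sq, mul_zero] at h1
  exact lt_irrefl _ h1

end Pool.Agent.TH122.Num
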