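import Pool.Agent.TH122.NumC
import Pool.Agent.H447R3.AoC
import Pool.Agent.H447R3.NcB

/-!
# Numerical isometries: from the Riemann hypothesis to anisotropy
-/

open CategoryTheory AlgebraicGeometry Finset Polynomial

universe u v w

namespace Pool.Agent.TH122.Num

open Pool.Agent.H914 Pool.Agent.H914.VarClass Pool.Agent.H914.VarClass.Obj
  Pool.Agent.H914.WeilCohomology Pool.Agent.H281R3.HT Pool.Agent.TH122.Aniso Pool.Agent.H447

variable {k : Type u} [Field k] {𝒱 : VarClass k} {ops : CycleOps 𝒱}

/-- The diagonal of `X × X`. -/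
noncomputable def diagonal (ops : CycleOps 𝒱) (X : 𝒱.Obj) : (X.prod X).Cycles :=
  ops.push (diag X) X.V.fundCycle

/-- The iterated compositions of the correspondence `u`. -/
noncomputable def corPow (ops : CycleOps 𝒱) (X : 𝒱.Obj) (u : (X.prod X).Cycles) :
    ℕ → (X.prod X).Cycles
  | 0 => diagonal ops X
  | m + 1 => compCyc ops (corPow ops X u m) u

/-- The value of a polynomial at a correspondence. -/
noncomputable def evalCor (ops : CycleOps 𝒱) (X : 𝒱.Obj) (Q : ℚ[X]) (u : (X.prod X).Cycles) :
    (X.prod X).Cycles :=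
  ∑ i ∈ Q.support, Q.coeff i • corPow ops X u i

/-- The transpose of a correspondence. -/
noncomputable def transpose (ops : CycleOps 𝒱) (X : 𝒱.Obj) (u : (X.prod X).Cycles) :
    (X.prod X).Cycles :=
  ops.pull (Obj.lift (snd X X) (fst X X)) u

/-- The correspondence `u` of degree zero on `X` is a numerical isometry: modulo numerical
equivalence it commutes with the intersection with the divisor `D`, and its composition with its
transpose is the diagonal. -/
structure IsNumIsometry (ops : CycleOps 𝒱) (X : 𝒱.Obj) (D : X.Cycles)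
    (u : (X.prod X).Cycles) : Prop where
  codim : (X.prod X).IsCyc X.dim u
  lefschetz : NumTrivial ops (X.prod X) (X.dim + 1)
    (ops.mul (ops.pull (fst X X) D) u - ops.mul (ops.pull (snd X X) D) u)
  isometry : NumTrivial ops (X.prod X) X.dim
    (compCyc ops u (transpose ops X u) - diagonal ops X)

/-- The Riemann hypothesis for the numerical isometries of `X`: modulo numerical equivalence each
of them is annihilated by a nonzero polynomial with rational coefficients, all of whose complex
roots have absolute value one. -/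
def RiemannHypothesisNum (ops : CycleOps 𝒱) (X : 𝒱.Obj) (D : X.Cycles) : Prop :=
  ∀ u, IsNumIsometry ops X D u → ∃ Q : ℚ[X], Q ≠ 0 ∧
    NumTrivial ops (X.prod X) X.dim (evalCor ops X Q u) ∧ ∀ z : ℂ, aeval z Q = 0 → ‖z‖ = 1

variable {W : WeilCohomology.{u, v} ops} {X Y : 𝒱.Obj} {P Q : Polarized 𝒱}
  {𝒬 : Polarized 𝒱 → Prop}

lemma diagonal_mem (X : 𝒱.Obj) : (X.prod X).IsCyc X.dim (diagonal ops X) :=
  ops.push_mem _ X.V.fundCycle_mem (by rw [dim_prod]; omega)

lemma cl_diagonal (X : 𝒱.Obj) : W.cl _ (diagonal ops X) = W.push (diag X) (1 : W.H X) := by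
  rw [diagonal, W.cl_push, W.cl_fund]

lemma corr_diagonal (X : 𝒱.Obj) : W.corr (W.cl _ (diagonal ops X)) = 1 := by
  apply LinearMap.ext
  intro a
  rw [cl_diagonal, corr_diag, one_mul, Module.End.one_apply]

lemma corPow_mem {u : (X.prod X).Cycles} (hu : (X.prod X).IsCyc X.dim u) (m : ℕ) :
    (X.prod X).IsCyc X.dim (corPow ops X u m) := by
  induction m with
  | zero => exact diagonal_mem X
  | succ m ih => exact compCyc_mem ih hu (by omega)

lemma corr_corPow {u : (X.prod X).Cycles} (hu : (X.prod X).IsCyc X.dim u) (m : ℕ) :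
    W.corr (W.cl _ (corPow ops X u m)) = W.corr (W.cl _ u) ^ m := by
  induction m with
  | zero => rw [pow_zero]; exact corr_diagonal X
  | succ m ih =>
    rw [corPow, corr_compCyc W hu, ih, pow_succ']
    rfl

lemma isCyc_sum {ι : Type} {s : Finset ι} {p : ℕ} {z : ι → X.Cycles}
    (h : ∀ i ∈ s, X.IsCyc p (z i)) : X.IsCyc p (∑ i ∈ s, z i) := by
  classical
  induction s using Finset.induction_on with
  | empty => rw [Finset.sum_empty]; exact SmVar.IsCyc.zero _ _
  | insert a s ha ih =>
    rw [Finset.sum_insert ha]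
    exact SmVar.IsCyc.add (h a (by simp)) (ih (fun i hi => h i (by simp [hi])))

lemma evalCor_mem {u : (X.prod X).Cycles} (hu : (X.prod X).IsCyc X.dim u) (R : ℚ[X]) :
    (X.prod X).IsCyc X.dim (evalCor ops X R u) :=
  isCyc_sum (fun i _ => (corPow_mem hu i).smul _)

lemma corr_sum' {ι : Type} (s : Finset ι) (c : ι → W.H (X.prod X)) :
    W.corr (∑ i ∈ s, c i) = ∑ i ∈ s, W.corr (c i) := by
  classical
  induction s using Finset.induction_on with
  | empty => rw [Finset.sum_empty, Finset.sum_empty, corr_zero]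
  | insert a s ha ih => rw [Finset.sum_insert ha, Finset.sum_insert ha, corr_add, ih]

lemma corr_evalCor {u : (X.prod X).Cycles} (hu : (X.prod X).IsCyc X.dim u) (R : ℚ[X]) :
    W.corr (W.cl _ (evalCor ops X R u)) = ev (W.corr (W.cl _ u)) R := by
  rw [evalCor, map_sum, corr_sum']
  conv_rhs => rw [R.as_sum_support, map_sum]
  apply Finset.sum_congr rfl
  intro i _
  rw [W.cl_smul, corr_smul, corr_corPow hu, ← C_mul_X_pow_eq_monomial, map_mul, map_pow, ev_C,
    ev_X, smul_mul_assoc, one_mul]

lemma transpose_eq (u : (X.prod X).Cycles) : transpose ops X u = ops.pull (swap X X) u := rfl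

lemma transpose_mem {p : ℕ} {u : (X.prod X).Cycles} (hu : (X.prod X).IsCyc p u) :
    (X.prod X).IsCyc p (transpose ops X u) := ops.pull_mem _ hu

/-- A multiple of an algebraic class by an external product. -/
lemma tr_mul_ext (c : W.H (X.prod X)) (a b : W.H X) :
    W.tr (X.prod X) (c * (W.map (fst X X) a * W.map (snd X X) b)) =
      W.tr X (W.corr c a * b) := by
  rw [corr_apply, W.tr_push, mul_assoc]

lemma nz_ext_left {a b : W.H X} {p q : ℕ} (ha : a ∈ algClasses W X p)
    (hb : b ∈ algClasses W X q) (h : Nz W a) :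
    Nz W (W.map (fst X X) a * W.map (snd X X) b) :=
  (nz_map_fst ha h).mul_right (alg_map _ hb)

lemma nz_ext_right {a b : W.H X} {p q : ℕ} (ha : a ∈ algClasses W X p)
    (hb : b ∈ algClasses W X q) (h : Nz W b) :
    Nz W (W.map (fst X X) a * W.map (snd X X) b) :=
  (nz_map_snd hb h).mul_left (alg_map _ ha)

/-- **A numerically hyperbolic pair of middle primitive classes contradicts the Riemann
hypothesis.** -/
theorem not_rhNum {D : X.Cycles} (hD : X.IsCyc 1 D) {N : ℕ} (hN : X.dim = 2 * N)
    {A B : W.H X} (hA : A ∈ algClasses W X N) (hB : B ∈ algClasses W X N)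
    (hA1 : Nz W (W.cl X D * A)) (hB1 : Nz W (W.cl X D * B))
    (hAA : W.tr X (A * A) = 0) (hBB : W.tr X (B * B) = 0) (hAB : W.tr X (A * B) ≠ 0) :
    ¬ RiemannHypothesisNum ops X D := by
  intro hno
  obtain ⟨t, ht⟩ := tr_alg_rat (alg_mul hA hB)
  have hBA : W.tr X (B * A) = t := by rw [alg_comm hB, ht]
  have ht0 : (t : W.K) ≠ 0 := by rw [← ht]; exact hAB
  set c₀ : W.H (X.prod X) := W.push (diag X) (1 : W.H X) with hc₀
  set c₁ : W.H (X.prod X) := W.map (fst X X) B * W.map (snd X X) A with hc₁
  set c₂ : W.H (X.prod X) := W.map (fst X X) A * W.map (snd X X) B with hc₂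
  have h0 : c₀ ∈ algClasses W (X.prod X) X.dim := diag_alg X
  have hNN : N + N = X.dim := by omega
  have h1 : c₁ ∈ algClasses W (X.prod X) X.dim := by
    rw [← hNN]; exact alg_mul (alg_map _ hB) (alg_map _ hA)
  have h2 : c₂ ∈ algClasses W (X.prod X) X.dim := by
    rw [← hNN]; exact alg_mul (alg_map _ hA) (alg_map _ hB)
  have h4 : c₀ + ((t⁻¹ : ℚ) : W.K) • c₁ + ((-(t⁻¹ / 2) : ℚ) : W.K) • c₂ ∈
      algClasses W (X.prod X) X.dim :=
    alg_add (alg_add h0 (alg_smul t⁻¹ h1)) (alg_smul (-(t⁻¹ / 2)) h2)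
  obtain ⟨u, hu, huc⟩ := h4
  have hU : ∀ c, W.corr (W.cl _ u) c = c + ((t : W.K)⁻¹ * W.tr X (B * c)) • A -
      ((t : W.K)⁻¹ / 2 * W.tr X (A * c)) • B := by
    intro c
    rw [huc, corr_add, corr_add, corr_smul, corr_smul, LinearMap.add_apply,
      LinearMap.add_apply, LinearMap.smul_apply, LinearMap.smul_apply,
      hc₀, corr_diag, one_mul, hc₁, hc₂, corr_ext B hA, corr_ext A hB]
    push_cast
    module
  have hpair : ∀ a b, W.tr X (W.corr (W.cl _ u) a * W.corr (W.cl _ u) b) = W.tr X (a * b) := by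
    intro a b
    have e1 : ∀ c, W.tr X (c * A) = W.tr X (A * c) := fun c => by rw [alg_comm hA]
    have e2 : ∀ c, W.tr X (c * B) = W.tr X (B * c) := fun c => by rw [alg_comm hB]
    rw [hU, hU]
    simp only [add_mul, sub_mul, mul_add, mul_sub, smul_mul_assoc, mul_smul_comm, map_add,
      map_sub, map_smul, smul_eq_mul, hAA, hBB, ht, hBA, e1, e2, mul_zero]
    field_simp
    ring
  have hξ : W.cl X D ∈ algClasses W X 1 := ⟨D, hD, rfl⟩
  have hξA := alg_mul hξ hA
  have hξB := alg_mul hξ hB
  have hiso : IsNumIsometry ops X D u := by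
    refine ⟨hu, ?_, ?_⟩
    · have hm1 : (X.prod X).IsCyc (X.dim + 1)
          (ops.mul (ops.pull (fst X X) D) u - ops.mul (ops.pull (snd X X) D) u) := by
        apply IsCyc.sub
        · have := ops.mul_mem (ops.pull_mem (fst X X) hD) hu
          rwa [add_comm] at this
        · have := ops.mul_mem (ops.pull_mem (snd X X) hD) hu
          rwa [add_comm] at this
      rw [← nz_cl (W := W) hm1, map_sub, W.cl_mul, W.cl_mul, W.cl_pull, W.cl_pull, huc]
      have e0 : W.map (fst X X) (W.cl X D) * c₀ = W.map (snd X X) (W.cl X D) * c₀ := by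
        rw [← sub_eq_zero]
        apply corr_inj
        rw [corr_sub', corr_fst _ _ (W.cl_mem hD), corr_snd _ _ (W.cl_mem hD), hc₀,
          ← cl_diagonal, corr_diagonal, one_mul, mul_one, sub_self]
      have e1 : Nz W (W.map (fst X X) (W.cl X D) * c₁) := by
        rw [hc₁, ← mul_assoc, ← map_mul]
        exact nz_ext_left hξB hA hB1
      have e2 : Nz W (W.map (fst X X) (W.cl X D) * c₂) := by
        rw [hc₂, ← mul_assoc, ← map_mul]
        exact nz_ext_left hξA hB hA1
      have e3 : Nz W (W.map (snd X X) (W.cl X D) * c₁) := by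
        rw [hc₁, ← mul_assoc, alg_comm (alg_map (snd X X) hξ), mul_assoc, ← map_mul]
        exact nz_ext_right hB hξA hA1
      have e4 : Nz W (W.map (snd X X) (W.cl X D) * c₂) := by
        rw [hc₂, ← mul_assoc, alg_comm (alg_map (snd X X) hξ), mul_assoc, ← map_mul]
        exact nz_ext_right hA hξB hB1
      rw [mul_add, mul_add, mul_add, mul_add, e0, mul_smul_comm, mul_smul_comm, mul_smul_comm,
        mul_smul_comm]
      have e5 : ∀ a b c d e : W.H (X.prod X), a + b + c - (a + d + e) = b + c - (d + e) := by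
        intro a b c d e; abel
      rw [e5]
      exact ((e1.smul _).add (e2.smul _)).sub ((e3.smul _).add (e4.smul _))
    · have hm2 : (X.prod X).IsCyc X.dim
          (compCyc ops u (transpose ops X u) - diagonal ops X) :=
        IsCyc.sub (compCyc_mem hu (transpose_mem hu) (by omega)) (diagonal_mem X)
      rw [← nz_cl (W := W) hm2]
      have e0 : W.cl _ (compCyc ops u (transpose ops X u)) = W.cl _ (diagonal ops X) := by
        rw [← sub_eq_zero]
        apply corr_inj
        rw [corr_sub', sub_eq_zero, corr_compCyc W (transpose_mem hu), corr_diagonal]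
        apply LinearMap.ext
        intro b
        rw [LinearMap.comp_apply, Module.End.one_apply, ← sub_eq_zero]
        apply nondeg_right
        intro a
        rw [mul_sub, map_sub, transpose_eq, W.cl_pull, ← tr_corr_swap (W.cl_mem hu), hpair,
          sub_self]
      rw [map_sub, e0, sub_self]
      exact Nz.zero
  obtain ⟨R, hR0, hR, hRz⟩ := hno u hiso
  have hUA : W.corr (W.cl _ u) A = (2 : W.K) • A := by
    rw [hU, hAA, hBA, mul_zero, zero_smul, sub_zero, inv_mul_cancel₀ ht0, two_smul, one_smul]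
  have hA0 : A ≠ 0 := by
    rintro rfl
    rw [zero_mul, map_zero] at hAB
    exact hAB rfl
  have hev : Module.End.HasEigenvector (W.corr (W.cl _ u)) (2 : W.K) A := by
    rw [Module.End.hasEigenvector_iff, Module.End.mem_eigenspace_iff]
    exact ⟨hUA, hA0⟩
  have h5 := Module.End.aeval_apply_of_hasEigenvector (p := R.map (algebraMap ℚ W.K)) hev
  have h6 := (nz_cl (W := W) (evalCor_mem hu R)).2 hR _ _
    (alg_mul (alg_map (fst X X) hA) (alg_map (snd X X) hB))
  rw [tr_mul_ext, corr_evalCor hu, ev_apply, h5, smul_mul_assoc, map_smul, smul_eq_mul] at h6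
  have h3 : (R.map (algebraMap ℚ W.K)).eval 2 = 0 := (mul_eq_zero.1 h6).resolve_right hAB
  have h7 : R.eval 2 = 0 := by
    have h5 : (R.map (algebraMap ℚ W.K)).eval ((algebraMap ℚ W.K) 2) =
        (algebraMap ℚ W.K) (R.eval 2) := by
      rw [Polynomial.eval_map, Polynomial.eval₂_at_apply]
    rw [map_ofNat, h3] at h5
    exact (map_eq_zero _).1 h5.symm
  have h8 : aeval (2 : ℂ) R = 0 := by
    have h9 := Polynomial.aeval_algebraMap_apply ℂ (2 : ℚ) R
    rw [map_ofNat, Polynomial.coe_aeval_eq_eval, h7, map_zero] at h9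
    exact h9
  have h10 := hRz 2 h8
  norm_num at h10

/-- The Riemann hypothesis for numerical isometries excludes isotropic classes. -/
theorem anisotropic_of_rh (W : WeilCohomology.{u, v} ops) (hD : P.X.IsCyc 1 P.D)
    (hdeg : 0 < P.X.V.degCycle (divPow ops P.D P.X.dim P.X.V.fundCycle))
    (hL : LefschetzNum ops P.X P.D) (h : RiemannHypothesisNum ops P.X P.D) (m : ℕ)
    (z : P.X.Cycles) (hz : IsNumIsotropic ops P.X P.D m z) : NumTrivial ops P.X m z := by
  by_contra hz0
  rw [← nz_cl (W := W) hz.codim] at hz0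
  have hdim := hz.dim_eq
  set A := W.cl P.X z with hA
  have hAm : A ∈ algClasses W P.X m := ⟨z, hz.codim, rfl⟩
  have hAA : W.tr P.X (A * A) = 0 := by
    have h1 := ops.mul_mem hz.codim hz.codim
    rw [← two_mul, ← hdim] at h1
    have h2 := W.tr_cl h1
    rw [W.cl_mul, hz.sq, Rat.cast_zero] at h2
    exact h2
  have hξA : Nz W (xi W P * A) := by
    have h1 := ops.mul_mem hD hz.codim
    rw [add_comm] at h1
    have h2 := (nz_cl (W := W) h1).2 hz.prim
    rw [W.cl_mul] at h2
    exact h2
  rcases Nat.eq_zero_or_pos m with rfl | hm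
  · have hA0 : A ≠ 0 := fun h0 => hz0 (by rw [h0]; exact Nz.zero)
    obtain ⟨q, hq0, hq1⟩ := codim_zero hD hdeg hAm hA0
    rw [nf, show P.X.dim - 2 * 0 = 0 by omega, pow_zero, one_mul, hAA, zero_div] at hq1
    have : q = 0 := by exact_mod_cast hq1.symm
    exact hq0.ne' this
  · rw [Nz] at hz0
    push Not at hz0
    obtain ⟨i, w, hw, hAw⟩ := hz0
    have hi : m + i = P.X.dim := by
      by_contra hne
      exact hAw (tr_alg_zero (alg_mul hAm hw) hne)
    obtain rfl : i = m := by omega
    have hξw : xi W P * w ∈ algClasses W P.X (P.X.dim - (i - 1)) := by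
      have := alg_mul (xi_alg (W := W) hD) hw
      rwa [show 1 + i = P.X.dim - (i - 1) by omega] at this
    obtain ⟨y, hy, hwy⟩ := hL.exists_class hD (j := i - 1) (by omega) hξw
    rw [show P.X.dim - 2 * (i - 1) = 2 by omega] at hwy
    have hξy : xi W P * y ∈ algClasses W P.X i := by
      have := alg_mul (xi_alg (W := W) hD) hy
      rwa [show 1 + (i - 1) = i by omega] at this
    set B' := w + ((-1 : ℚ) : W.K) • (xi W P * y) with hB'
    have hB'm : B' ∈ algClasses W P.X i := alg_add hw (alg_smul (-1) hξy)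
    have hB'e : B' = w - xi W P * y := by
      rw [hB', Rat.cast_neg, Rat.cast_one, neg_one_smul, sub_eq_add_neg]
    have hξB' : Nz W (xi W P * B') := by
      rw [hB'e, mul_sub, ← mul_assoc, ← pow_two]
      exact hwy
    have hAB' : W.tr P.X (A * B') = W.tr P.X (A * w) := by
      have h0 : W.tr P.X (A * (xi W P * y)) = 0 := by
        rw [← mul_assoc, alg_comm hAm (xi W P), hξA _ _ hy]
      rw [hB'e, mul_sub, map_sub, h0, sub_zero]
    obtain ⟨s, hs⟩ := tr_alg_rat (alg_mul hAm hB'm)
    obtain ⟨r, hr⟩ := tr_alg_rat (alg_mul hB'm hB'm)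
    have hs0 : (s : W.K) ≠ 0 := by rw [← hs, hAB']; exact hAw
    have hB'A : W.tr P.X (B' * A) = s := by rw [alg_comm hB'm, hs]
    set B := B' + ((-(r / (2 * s)) : ℚ) : W.K) • A with hB
    have hBm : B ∈ algClasses W P.X i := alg_add hB'm (alg_smul _ hAm)
    refine not_rhNum (W := W) (X := P.X) (D := P.D) (A := A) (B := B) hD hdim hAm hBm hξA ?_ hAA
      ?_ ?_ h
    · change Nz W (xi W P * B)
      rw [hB, mul_add, mul_smul_comm]
      exact hξB'.add (hξA.smul _)
    · rw [hB]
      simp only [add_mul, mul_add, smul_mul_assoc, mul_smul_comm, map_add, map_smul,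
        smul_eq_mul, hAA, hs, hB'A, hr]
      push_cast
      field_simp
      ring
    · rw [hB, mul_add, map_add, mul_smul_comm, map_smul, hAA, smul_zero, add_zero, hs]
      exact hs0

end Pool.Agent.TH122.Num
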