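import Pool.Agent.TH122.NumD
import Pool.Agent.TH122.IsoH

/-!
# Numerical isometries: from the conjecture of Hodge type to the Riemann hypothesis
-/

open CategoryTheory AlgebraicGeometry Finset Polynomial

universe u v w

namespace Pool.Agent.TH122.Num

open Pool.Agent.H914 Pool.Agent.H914.VarClass Pool.Agent.H914.VarClass.Obj
  Pool.Agent.H914.WeilCohomology Pool.Agent.H281R3.HT Pool.Agent.TH122.Aniso Pool.Agent.H447
  Pool.Agent.W539.Sig

variable {k : Type u} [Field k] {𝒱 : VarClass k} {ops : CycleOps 𝒱}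
  {W : WeilCohomology.{u, v} ops} {X : 𝒱.Obj}

/-- Numerically trivial operators come from numerically trivial correspondences. -/
lemma numR_iff {p : ℕ} {d : ℤ} (hp : (p : ℤ) = X.dim + d) {z : (X.prod X).Cycles}
    (hz : (X.prod X).IsCyc p z) :
    NumR (W.isInternal X) (ROp W X) d (W.corr (W.cl _ z)) ↔
      NumTrivial ops (X.prod X) p z := by
  constructor
  · intro h i hi y hy
    rw [dim_prod] at hi
    have h1 := h.2 _ (rop_corr (p := i) (by omega) (ops.pull_mem (swap X X) hy))
    rw [← deg_eq_str (p := p) (q := i) (by omega) hz hy] at h1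
    exact_mod_cast h1
  · intro h
    refine ⟨rop_corr hp hz, ?_⟩
    rintro y ⟨Y, ⟨q, hq, y, hy, hY⟩ | ⟨hd, hY⟩, rfl⟩
    · rw [hY, str_eq_deg (p := p) (q := q) (by omega) hz hy,
        h q (by rw [dim_prod]; omega) _ (ops.pull_mem (swap X X) hy), Rat.cast_zero]
    · rw [hY, mul_zero, mul_zero, map_zero]

lemma ring_sgn {A : Type*} [Ring A] {E L y : A} (h : E * L = -(L * E)) :
    L * (E * y) + E * y * L = E * (y * L - L * y) := by
  have h1 : L * E = -(E * L) := by rw [h, neg_neg]
  rw [← mul_assoc, h1]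
  noncomm_ring

lemma numR_smul {d : ℤ} {x : Module.End W.K (W.H X)}
    (hx : NumR (W.isInternal X) (ROp W X) d x) (q : ℚ) :
    NumR (W.isInternal X) (ROp W X) d ((q : W.K) • x) :=
  ⟨rop_opAlg.smul q hx.1, fun y hy => by
    rw [smul_mul_assoc, mul_smul_comm, map_smul, hx.2 y hy, smul_zero]⟩

lemma rop_par (hK : KunnethStd W X) : ROp W X 0 (par (W.isInternal X)) := by
  have := rop_scal hK (fun i => (-1 : ℚ) ^ i)
  have e : par (W.isInternal X) =
      scal (W.isInternal X) (fun i => (((-1 : ℚ) ^ i : ℚ) : W.K)) := by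
    rw [par]; congr 1; funext i; push_cast; rfl
  rw [e]; exact this

/-- The traces of numerically trivial operators vanish. -/
lemma numR_trace (hK : KunnethStd W X) {x y : Module.End W.K (W.H X)}
    (hx : NumR (W.isInternal X) (ROp W X) 0 x) (hy : ROp W X 0 y) :
    LinearMap.trace W.K (W.H X) (x * y) = 0 := by
  have h1 := hx.2 (y * par (W.isInternal X)) (by
    rw [neg_zero]; exact rop_mul0 hy (rop_par hK))
  rw [← mul_assoc, ← mul_assoc, LinearMap.trace_mul_comm, ← mul_assoc, ← mul_assoc,
    par_mul_par, one_mul] at h1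
  exact h1

/-- The algebraic operators of degree zero which commute with the Lefschetz operator modulo
numerical equivalence. -/
def NComm (W : WeilCohomology.{u, v} ops) (X : 𝒱.Obj) (D : X.Cycles)
    (y : Module.End W.K (W.H X)) : Prop :=
  ROp W X 0 y ∧ NumR (W.isInternal X) (ROp W X) 1
    (y * LinearMap.mulLeft W.K (W.cl X D) - LinearMap.mulLeft W.K (W.cl X D) * y)

variable {D : X.Cycles}

lemma NComm.zero : NComm W X D 0 := by
  refine ⟨rop_opAlg.zero 0, ?_⟩
  rw [zero_mul, mul_zero, sub_zero]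
  exact NumR.zero rop_opAlg 1

lemma NComm.one : NComm W X D 1 := by
  refine ⟨rop_opAlg.one, ?_⟩
  rw [one_mul, mul_one, sub_self]
  exact NumR.zero rop_opAlg 1

lemma NComm.add {a b : Module.End W.K (W.H X)} (ha : NComm W X D a) (hb : NComm W X D b) :
    NComm W X D (a + b) := by
  refine ⟨rop_opAlg.add ha.1 hb.1, ?_⟩
  have e : (a + b) * LinearMap.mulLeft W.K (W.cl X D) -
      LinearMap.mulLeft W.K (W.cl X D) * (a + b) =
      (a * LinearMap.mulLeft W.K (W.cl X D) - LinearMap.mulLeft W.K (W.cl X D) * a) +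
      (b * LinearMap.mulLeft W.K (W.cl X D) - LinearMap.mulLeft W.K (W.cl X D) * b) := by
    rw [add_mul, mul_add]; abel
  rw [e]
  exact NumR.add rop_opAlg ha.2 hb.2

lemma NComm.smul {a : Module.End W.K (W.H X)} (ha : NComm W X D a) (q : ℚ) :
    NComm W X D ((q : W.K) • a) := by
  refine ⟨rop_opAlg.smul q ha.1, ?_⟩
  have h1 := numR_smul ha.2 q
  rw [smul_sub] at h1
  rw [smul_mul_assoc, mul_smul_comm]
  exact h1

lemma NComm.mul {a b : Module.End W.K (W.H X)} (ha : NComm W X D a) (hb : NComm W X D b) :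
    NComm W X D (a * b) := by
  refine ⟨rop_mul0 ha.1 hb.1, ?_⟩
  have e : (a * b) * LinearMap.mulLeft W.K (W.cl X D) -
      LinearMap.mulLeft W.K (W.cl X D) * (a * b) =
      a * (b * LinearMap.mulLeft W.K (W.cl X D) - LinearMap.mulLeft W.K (W.cl X D) * b) +
      (a * LinearMap.mulLeft W.K (W.cl X D) - LinearMap.mulLeft W.K (W.cl X D) * a) * b := by
    rw [mul_sub, sub_mul]
    simp only [mul_assoc]
    abel
  rw [e]
  exact NumR.add rop_opAlg ((NumR.mul_left rop_opAlg ha.1 hb.2).cast (by ring))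
    ((NumR.mul_right rop_opAlg ha.2 hb.1).cast (by ring))

lemma NComm.pow {a : Module.End W.K (W.H X)} (ha : NComm W X D a) (m : ℕ) :
    NComm W X D (a ^ m) := by
  induction m with
  | zero => rw [pow_zero]; exact NComm.one
  | succ m ih => rw [pow_succ]; exact ih.mul ha

lemma NComm.ev {a : Module.End W.K (W.H X)} (ha : NComm W X D a) (p : ℚ[X]) :
    NComm W X D (Pool.Agent.H914.ev a p) := by
  induction p using Polynomial.induction_on' with
  | add p q hp hq => rw [map_add]; exact hp.add hq
  | monomial n r =>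
    rw [← C_mul_X_pow_eq_monomial, map_mul, map_pow, ev_C, ev_X, smul_mul_assoc, one_mul]
    exact (ha.pow n).smul r

/-- Positivity of the trace form modulo numerical equivalence. -/
lemma tform_num (hD : X.IsCyc 1 D) (hK : KunnethStd W X)
    (hH : HodgeTypeNum ops (X.prod X) (boxSum ops D)) {y : Module.End W.K (W.H X)}
    (hy : NComm W X D y) : ∃ s : ℚ, tform W X y y = s ∧ 0 ≤ s ∧
      (s = 0 → NumR (W.isInternal X) (ROp W X) 0 y) := by
  set E : Module.End W.K (W.H X) := sgn W X with hE
  have hEL := sgn_L (W := W) (X := X) hD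
  have hER : ROp W X 0 E := rop_sgn hK
  obtain ⟨z, hz, hzy⟩ := cyc_of_rop (rop_mul0 hER hy.1)
  have hyz : y = sgn W X * W.corr (W.cl _ z) := by
    rw [hzy, ← mul_assoc, sgn_sq, one_mul]
  have h1 := form_eq hK hz hz
  rw [← hyz] at h1
  refine ⟨_, h1.symm, ?_⟩
  have hdim : (X.prod X).dim = X.dim + X.dim := dim_prod X X
  have hm1 : (X.prod X).IsCyc (X.dim + 1) (ops.mul (boxSum ops D) z) := by
    have := ops.mul_mem (boxSum_mem (ops := ops) hD) hz
    rwa [add_comm] at this
  have hprim : NumTrivial ops (X.prod X) (X.dim + 1) (ops.mul (boxSum ops D) z) := by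
    rw [← numR_iff (W := W) (d := 1) (by push_cast; ring) hm1, W.cl_mul,
      corr_boxSum (W := W) hD (W.cl _ z), dbl_apply, hzy]
    rw [ring_sgn hEL]
    exact (NumR.mul_left rop_opAlg hER hy.2).cast (by ring)
  by_cases hz0 : NumTrivial ops (X.prod X) X.dim z
  · have h2 : (X.prod X).V.degCycle (ops.mul z z) = 0 := hz0 X.dim hdim.symm z hz
    rw [h2, mul_zero]
    refine ⟨le_rfl, fun _ => ?_⟩
    have h3 := (numR_iff (W := W) (d := 0) (by ring) hz).2 hz0
    rw [hyz]
    exact (NumR.mul_left rop_opAlg hER h3).cast (by ring)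
  · have h2 := hH X.dim (by omega) z hz (by
      rw [hdim, show X.dim + X.dim - X.dim + 1 = X.dim + 1 by omega,
        show X.dim + X.dim - 2 * X.dim + 1 = 1 by omega]
      exact hprim) hz0
    rw [hdim, show X.dim + X.dim - 2 * X.dim = 0 by omega] at h2
    exact ⟨h2.le, fun h0 => absurd h0 h2.ne'⟩

/-- **The numerical conjecture of Hodge type for the square implies the Riemann hypothesis for
numerical isometries.** -/
theorem rh_of_hodge (hD : X.IsCyc 1 D) (hK : KunnethStd W X)
    (hH : HodgeTypeNum ops (X.prod X) (boxSum ops D)) : RiemannHypothesisNum ops X D := by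
  classical
  intro u hu
  set U := W.corr (W.cl (X.prod X) u) with hU
  have hUr : ROp W X 0 U := rop_of_cyc hu.codim
  have hUm : NComm W X D U := by
    refine ⟨hUr, ?_⟩
    have hm1 : (X.prod X).IsCyc (X.dim + 1)
        (ops.mul (ops.pull (fst X X) D) u - ops.mul (ops.pull (snd X X) D) u) := by
      apply IsCyc.sub
      · have := ops.mul_mem (ops.pull_mem (fst X X) hD) hu.codim
        rwa [add_comm] at this
      · have := ops.mul_mem (ops.pull_mem (snd X X) hD) hu.codim
        rwa [add_comm] at this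
    have h1 := (numR_iff (W := W) (d := 1) (by push_cast; ring) hm1).2 hu.lefschetz
    rw [map_sub, corr_sub', W.cl_mul, W.cl_mul, W.cl_pull, W.cl_pull,
      corr_fst _ _ (W.cl_mem hD), corr_snd _ _ (W.cl_mem hD)] at h1
    exact h1
  have hUtp : NumR (W.isInternal X) (ROp W X) 0 (tp W X U * U - 1) := by
    have hm2 : (X.prod X).IsCyc X.dim (compCyc ops u (transpose ops X u) - diagonal ops X) :=
      IsCyc.sub (compCyc_mem hu.codim (transpose_mem hu.codim) (by omega)) (diagonal_mem X)
    have h1 := (numR_iff (W := W) (d := 0) (by ring) hm2).2 hu.isometry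
    rw [map_sub, corr_sub', corr_compCyc W (transpose_mem hu.codim), corr_diagonal,
      transpose_eq, W.cl_pull, ← tp_corr] at h1
    exact h1
  obtain ⟨P, hP0, hPS, hPz⟩ := weights_of_semidef (tform W X) {y | NComm W X D y}
    NComm.zero
    (fun a ha b hb => ha.add hb)
    (fun q a ha => ha.smul q)
    U
    (fun a ha => hUm.mul ha)
    (by
      intro a ha b hb
      rw [tform_apply, tform_apply, ← trace_tp (rop_mul0 ha.1 (rop_tp hb.1)),
        tp_mul ha.1 (rop_tp hb.1), tp_tp hb.1])
    (fun a ha b hb => exists_trace hK (rop_mul0 ha.1 (rop_tp hb.1)))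
    (fun a ha => by
      obtain ⟨s, hs, hs0, _⟩ := tform_num hD hK hH ha
      exact ⟨s, hs, hs0⟩)
    (by
      intro a ha b hb
      have h1 := numR_trace hK hUtp (rop_mul0 ha.1 (rop_tp hb.1))
      rw [sub_mul, one_mul, map_sub, sub_eq_zero] at h1
      rw [tform_apply, tform_apply, tp_mul hUr hb.1,
        show U * a * (tp W X b * tp W X U) = U * (a * tp W X b) * tp W X U by
          simp only [mul_assoc],
        LinearMap.trace_mul_comm, ← mul_assoc, h1])
  have hN : NComm W X D (Pool.Agent.H914.ev U P) := hUm.ev P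
  obtain ⟨s, hs, _, hs0⟩ := tform_num hD hK hH hN
  have h1 := hPS 1 NComm.one (Pool.Agent.H914.ev U P) hN
  rw [mul_one] at h1
  have h2 : s = 0 := by
    have h3 : (s : W.K) = 0 := by rw [← hs]; exact h1
    exact_mod_cast h3
  refine ⟨P, hP0, ?_, ?_⟩
  · rw [← numR_iff (W := W) (d := 0) (by ring) (evalCor_mem hu.codim P), corr_evalCor hu.codim]
    exact hs0 h2
  · intro z hz
    exact (pow_eq_one_iff_of_nonneg (norm_nonneg z) two_ne_zero).1 (hPz z hz)

end Pool.Agent.TH122.Num
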