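import Pool.Agent.TH122.NumE

/-!
# The numerical conjecture of Hodge type, isotropic classes and the Riemann hypothesis
-/

open CategoryTheory AlgebraicGeometry Finset

universe u v w

namespace Pool.Agent.TH122.Num

open Pool.Agent.H914 Pool.Agent.H914.VarClass Pool.Agent.H914.VarClass.Obj
  Pool.Agent.H914.WeilCohomology Pool.Agent.H281R3.HT Pool.Agent.TH122.Aniso

variable {k : Type u} [Field k] {𝒱 : VarClass k} {ops : CycleOps 𝒱}

/-- A class of pairs (variety `X`, divisor `D`) which is closed under products, and whose members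
have positive degree `D ^ n`, satisfy the Lefschetz standard conjecture modulo numerical
equivalence, and have algebraic Kunneth projectors. -/
structure IsNumProductClass (W : WeilCohomology.{u, v} ops) (𝒬 : Polarized 𝒱 → Prop) : Prop where
  prod : ∀ P Q, 𝒬 P → 𝒬 Q → 𝒬 (P.prod ops Q)
  divisor : ∀ P, 𝒬 P → P.X.IsCyc 1 P.D
  degree : ∀ P, 𝒬 P → 0 < P.X.V.degCycle (divPow ops P.D P.X.dim P.X.V.fundCycle)
  lefschetz : ∀ P, 𝒬 P → LefschetzNum ops P.X P.D
  kunneth : ∀ P, 𝒬 P → KunnethStd W P.X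

/-- Every numerically isotropic primitive cycle of the middle codimension is numerically
trivial. -/
def NumAnisotropic (ops : CycleOps 𝒱) (X : 𝒱.Obj) (D : X.Cycles) : Prop :=
  ∀ m z, IsNumIsotropic ops X D m z → NumTrivial ops X m z

theorem tfae {W : WeilCohomology.{u, v} ops} {𝒬 : Polarized 𝒱 → Prop}
    (h : IsNumProductClass W 𝒬) :
    [∀ P, 𝒬 P → HodgeTypeNum ops P.X P.D, ∀ P, 𝒬 P → NumAnisotropic ops P.X P.D,
      ∀ P, 𝒬 P → RiemannHypothesisNum ops P.X P.D].TFAE := by
  have h𝒬 : PCls ops 𝒬 := ⟨h.prod, h.divisor, h.degree⟩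
  tfae_have 1 → 2 := fun h' P hP => anisotropic_of_hodge (h' P hP)
  tfae_have 2 → 1 := hodge_of_anisotropic W h𝒬 h.lefschetz
  tfae_have 1 → 3 := fun h' P hP =>
    rh_of_hodge (h.divisor P hP) (h.kunneth P hP) (h' _ (h.prod P P hP hP))
  tfae_have 3 → 2 := fun h' P hP =>
    anisotropic_of_rh W (h.divisor P hP) (h.degree P hP) (h.lefschetz P hP) (h' P hP)
  tfae_finish

end Pool.Agent.TH122.Num
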