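import Pool.Agent.H281R3.HT.Frm

/-!
# Primitive algebraic classes on products of polarized varieties
-/

open CategoryTheory AlgebraicGeometry Finset

universe u v w

namespace Pool.Agent.TH122.Aniso

open Pool.Agent.H914 Pool.Agent.H914.VarClass Pool.Agent.H914.VarClass.Obj
  Pool.Agent.H914.WeilCohomology Pool.Agent.H281R3.HT

variable {k : Type u} [Field k] {𝒱 : VarClass k} {ops : CycleOps 𝒱}
  {W : WeilCohomology.{u, v} ops} {P Q : Polarized 𝒱}

/-- The product of two polarized varieties. -/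
noncomputable abbrev pr (ops : CycleOps 𝒱) (P Q : Polarized 𝒱) : Polarized 𝒱 where
  X := P.X.prod Q.X
  D := ops.pull (fst P.X Q.X) P.D + ops.pull (snd P.X Q.X) Q.D

lemma prod_eq_pr (P Q : Polarized 𝒱) : P.prod ops Q = pr ops P Q := rfl

/-- The class of the divisor of a polarized variety. -/
noncomputable def xi (W : WeilCohomology.{u, v} ops) (P : Polarized 𝒱) : W.H P.X := W.cl P.X P.D

lemma one_alg (W : WeilCohomology.{u, v} ops) (X : 𝒱.Obj) :
    (1 : W.H X) ∈ algClasses W X 0 := ⟨X.V.fundCycle, X.V.fundCycle_mem, W.cl_fund X⟩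

lemma xi_alg (hD : P.X.IsCyc 1 P.D) : xi W P ∈ algClasses W P.X 1 := ⟨P.D, hD, rfl⟩

lemma xi_pow_alg (hD : P.X.IsCyc 1 P.D) (m : ℕ) : xi W P ^ m ∈ algClasses W P.X m := by
  induction m with
  | zero => rw [pow_zero]; exact one_alg W P.X
  | succ m ih => rw [pow_succ]; exact alg_mul ih (xi_alg hD)

lemma alg_comm {X : 𝒱.Obj} {j : ℕ} {a : W.H X} (ha : a ∈ algClasses W X j) (b : W.H X) :
    a * b = b * a := W.even_comm (alg_gr ha) b

lemma tr_alg_zero {X : 𝒱.Obj} {j : ℕ} {a : W.H X} (ha : a ∈ algClasses W X j)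
    (hj : j ≠ X.dim) : W.tr X a = 0 := W.tr_eq_zero (alg_gr ha) (by omega)

/-- The trace of an algebraic class is rational. -/
lemma tr_alg_rat {X : 𝒱.Obj} {j : ℕ} {a : W.H X} (ha : a ∈ algClasses W X j) :
    ∃ s : ℚ, W.tr X a = s := by
  obtain ⟨s, hs⟩ := alg_rat ha (one_alg W X)
  refine ⟨s, ?_⟩
  rw [← hs, bil_apply, mul_one]

lemma xi_prod : xi W (pr ops P Q) =
    W.map (fst P.X Q.X) (xi W P) + W.map (snd P.X Q.X) (xi W Q) := by
  rw [xi, map_add, W.cl_pull, W.cl_pull]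
  rfl

/-- The external product of two classes. -/
noncomputable def ex (W : WeilCohomology.{u, v} ops) (P Q : Polarized 𝒱) (a : W.H P.X)
    (b : W.H Q.X) : W.H (pr ops P Q).X :=
  W.map (fst P.X Q.X) a * W.map (snd P.X Q.X) b

lemma ex_mul {a a' : W.H P.X} {b b' : W.H Q.X} {j : ℕ} (hb : b ∈ algClasses W Q.X j) :
    ex W P Q a b * ex W P Q a' b' = ex W P Q (a * a') (b * b') := by
  rw [ex, ex, ex, map_mul, map_mul]
  have h1 : W.map (snd P.X Q.X) b * W.map (fst P.X Q.X) a' =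
      W.map (fst P.X Q.X) a' * W.map (snd P.X Q.X) b :=
    alg_comm (alg_map _ hb) _
  change (W.map (fst P.X Q.X) a * W.map (snd P.X Q.X) b) *
    (W.map (fst P.X Q.X) a' * W.map (snd P.X Q.X) b') = (_ : W.H (P.X.prod Q.X))
  rw [mul_assoc, ← mul_assoc (W.map (snd P.X Q.X) b), h1]
  simp only [mul_assoc]

lemma ex_tr (a : W.H P.X) (b : W.H Q.X) :
    W.tr (pr ops P Q).X (ex W P Q a b) = W.tr P.X a * W.tr Q.X b := W.tr_prod a b

lemma ex_alg {a : W.H P.X} {b : W.H Q.X} {i j : ℕ} (ha : a ∈ algClasses W P.X i)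
    (hb : b ∈ algClasses W Q.X j) : ex W P Q a b ∈ algClasses W (pr ops P Q).X (i + j) :=
  alg_mul (alg_map _ ha) (alg_map _ hb)

lemma ex_one : ex W P Q (1 : W.H P.X) (1 : W.H Q.X) = 1 := by
  rw [ex, map_one, map_one]
  exact mul_one (1 : W.H (P.X.prod Q.X))

lemma ex_add_left (a a' : W.H P.X) (b : W.H Q.X) :
    ex W P Q (a + a') b = ex W P Q a b + ex W P Q a' b := by
  rw [ex, map_add]; exact add_mul _ _ _

lemma ex_add_right (a : W.H P.X) (b b' : W.H Q.X) :
    ex W P Q a (b + b') = ex W P Q a b + ex W P Q a b' := by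
  rw [ex, map_add]; exact mul_add _ _ _

lemma ex_smul_left (c : W.K) (a : W.H P.X) (b : W.H Q.X) :
    ex W P Q (c • a) b = c • ex W P Q a b := by
  rw [ex, map_smul]; exact smul_mul_assoc _ _ _

lemma ex_smul_right (c : W.K) (a : W.H P.X) (b : W.H Q.X) :
    ex W P Q a (c • b) = c • ex W P Q a b := by
  rw [ex, map_smul]; exact mul_smul_comm _ _ _

lemma ex_zero_left (b : W.H Q.X) : ex W P Q 0 b = 0 := by
  rw [ex, map_zero]; exact zero_mul _

lemma ex_zero_right (a : W.H P.X) : ex W P Q a 0 = 0 := by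
  rw [ex, map_zero]; exact mul_zero _

/-- The powers of the divisor of a product. -/
lemma xi_pow_ex (hP : P.X.IsCyc 1 P.D) (hQ : Q.X.IsCyc 1 Q.D) (N : ℕ) (a : W.H P.X)
    (b : W.H Q.X) :
    xi W (pr ops P Q) ^ N * ex W P Q a b =
      ∑ m ∈ range (N + 1), (N.choose m : W.K) • ex W P Q (xi W P ^ m * a)
        (xi W Q ^ (N - m) * b) := by
  have hcomm : Commute (W.map (fst P.X Q.X) (xi W P)) (W.map (snd P.X Q.X) (xi W Q)) :=
    alg_comm (alg_map _ (xi_alg hP)) _
  have h0 : xi W (pr ops P Q) ^ N = ∑ m ∈ range (N + 1),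
      (N.choose m : W.K) • ex W P Q (xi W P ^ m) (xi W Q ^ (N - m)) := by
    rw [xi_prod]
    change ((W.map (fst P.X Q.X) (xi W P) + W.map (snd P.X Q.X) (xi W Q)) ^ N :
      W.H (P.X.prod Q.X)) = _
    rw [hcomm.add_pow]
    apply Finset.sum_congr rfl
    intro m _
    rw [ex, map_pow, map_pow, Nat.cast_smul_eq_nsmul, nsmul_eq_mul']
  rw [h0]
  change (∑ m ∈ range (N + 1), (N.choose m : W.K) • ex W P Q (xi W P ^ m) (xi W Q ^ (N - m)) :
    W.H (pr ops P Q).X) * ex W P Q a b = _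
  rw [Finset.sum_mul]
  apply Finset.sum_congr rfl
  intro m _
  rw [smul_mul_assoc, ex_mul (xi_pow_alg hQ _)]

/-- Primitive algebraic classes of codimension `j`. -/
structure Prim (W : WeilCohomology.{u, v} ops) (P : Polarized 𝒱) (j : ℕ) (a : W.H P.X) :
    Prop where
  alg : a ∈ algClasses W P.X j
  le : 2 * j ≤ P.X.dim
  prim : xi W P ^ (P.X.dim - 2 * j + 1) * a = 0

lemma Prim.van {j : ℕ} {a : W.H P.X} (h : Prim W P j a) {m : ℕ} (hm : P.X.dim - 2 * j < m) :
    xi W P ^ m * a = 0 := by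
  rw [← Nat.sub_add_cancel (show P.X.dim - 2 * j + 1 ≤ m from hm), pow_add, mul_assoc, h.prim,
    mul_zero]

lemma Prim.smul {j : ℕ} {a : W.H P.X} (h : Prim W P j a) (q : ℚ) :
    Prim W P j ((q : W.K) • a) :=
  ⟨alg_smul q h.alg, h.le, by rw [mul_smul_comm, h.prim, smul_zero]⟩

lemma Prim.add {j : ℕ} {a b : W.H P.X} (h : Prim W P j a) (h' : Prim W P j b) :
    Prim W P j (a + b) :=
  ⟨alg_add h.alg h'.alg, h.le, by rw [mul_add, h.prim, h'.prim, add_zero]⟩

lemma Prim.zero {j : ℕ} (hj : 2 * j ≤ P.X.dim) : Prim W P j 0 :=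
  ⟨alg_zero j, hj, mul_zero _⟩

lemma Prim.sum {ι : Type} {s : Finset ι} {j : ℕ} (hj : 2 * j ≤ P.X.dim) {a : ι → W.H P.X}
    (h : ∀ i ∈ s, Prim W P j (a i)) : Prim W P j (∑ i ∈ s, a i) := by
  classical
  induction s using Finset.induction_on with
  | empty => rw [Finset.sum_empty]; exact Prim.zero hj
  | insert b s hb ih =>
    rw [Finset.sum_insert hb]
    exact (h b (by simp)).add (ih fun i hi => h i (by simp [hi]))

lemma prim_one (hD : P.X.IsCyc 1 P.D) : Prim W P 0 (1 : W.H P.X) := by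
  refine ⟨one_alg W P.X, Nat.zero_le _, ?_⟩
  rw [mul_one]
  have h1 := alg_gr (xi_pow_alg (W := W) hD (P.X.dim - 2 * 0 + 1))
  rw [W.gr_eq_bot P.X _ (by omega)] at h1
  exact (Submodule.mem_bot _).1 h1

/-- External products of primitive classes are primitive. -/
lemma Prim.ex (hP : P.X.IsCyc 1 P.D) (hQ : Q.X.IsCyc 1 Q.D) {i j : ℕ} {a : W.H P.X}
    {b : W.H Q.X} (ha : Prim W P i a) (hb : Prim W Q j b) :
    Prim W (pr ops P Q) (i + j) (ex W P Q a b) := by
  have hi := ha.le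
  have hj := hb.le
  have hdim : (pr ops P Q).X.dim = P.X.dim + Q.X.dim := rfl
  refine ⟨ex_alg ha.alg hb.alg, by omega, ?_⟩
  rw [xi_pow_ex hP hQ]
  apply Finset.sum_eq_zero
  intro m _
  by_cases hm : P.X.dim - 2 * i < m
  · rw [ha.van hm, ex_zero_left, smul_zero]
  · rw [hb.van (by omega), ex_zero_right, smul_zero]

/-- The normalised Lefschetz form in codimension `j`. -/
noncomputable def nf (W : WeilCohomology.{u, v} ops) (P : Polarized 𝒱) (j : ℕ)
    (a b : W.H P.X) : W.K :=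
  W.tr P.X (xi W P ^ (P.X.dim - 2 * j) * (a * b)) / ((P.X.dim - 2 * j).factorial : W.K)

lemma nf_add_left (j : ℕ) (a a' b : W.H P.X) :
    nf W P j (a + a') b = nf W P j a b + nf W P j a' b := by
  rw [nf, nf, nf, add_mul, mul_add, map_add, add_div]

lemma nf_add_right (j : ℕ) (a b b' : W.H P.X) :
    nf W P j a (b + b') = nf W P j a b + nf W P j a b' := by
  rw [nf, nf, nf, mul_add, mul_add, map_add, add_div]

lemma nf_smul_left (j : ℕ) (c : W.K) (a b : W.H P.X) :
    nf W P j (c • a) b = c * nf W P j a b := by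
  rw [nf, nf, smul_mul_assoc, mul_smul_comm, map_smul, smul_eq_mul, mul_div_assoc]

lemma nf_smul_right (j : ℕ) (c : W.K) (a b : W.H P.X) :
    nf W P j a (c • b) = c * nf W P j a b := by
  rw [nf, nf, mul_smul_comm, mul_smul_comm, map_smul, smul_eq_mul, mul_div_assoc]

lemma nf_comm (j : ℕ) {i : ℕ} {a : W.H P.X} (ha : a ∈ algClasses W P.X i) (b : W.H P.X) :
    nf W P j a b = nf W P j b a := by
  rw [nf, nf, alg_comm ha]

/-- The form is multiplicative on external products. -/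
lemma nf_ex (hP : P.X.IsCyc 1 P.D) (hQ : Q.X.IsCyc 1 Q.D) {i j : ℕ}
    (hi : 2 * i ≤ P.X.dim) (hj : 2 * j ≤ Q.X.dim) {a a' : W.H P.X} {b b' : W.H Q.X}
    (ha : a ∈ algClasses W P.X i) (ha' : a' ∈ algClasses W P.X i)
    (hb : b ∈ algClasses W Q.X j) (_hb' : b' ∈ algClasses W Q.X j) :
    nf W (pr ops P Q) (i + j) (ex W P Q a b) (ex W P Q a' b') =
      nf W P i a a' * nf W Q j b b' := by
  have hdim : (pr ops P Q).X.dim = P.X.dim + Q.X.dim := rfl
  rw [nf, nf, nf, ex_mul hb, xi_pow_ex hP hQ, map_sum, hdim,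
    Finset.sum_eq_single (P.X.dim - 2 * i)]
  · rw [map_smul, ex_tr, smul_eq_mul,
      show P.X.dim + Q.X.dim - 2 * (i + j) - (P.X.dim - 2 * i) = Q.X.dim - 2 * j by omega]
    have h1 : P.X.dim + Q.X.dim - 2 * (i + j) = (P.X.dim - 2 * i) + (Q.X.dim - 2 * j) := by
      omega
    rw [h1]
    set M := P.X.dim - 2 * i
    set M' := Q.X.dim - 2 * j
    have h2 : ((M + M').choose M : W.K) * (M.factorial : W.K) * (M'.factorial : W.K) =
        ((M + M').factorial : W.K) := by
      have h3 := Nat.choose_mul_factorial_mul_factorial (n := M + M') (k := M) (by omega)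
      rw [show M + M' - M = M' by omega] at h3
      exact_mod_cast h3
    have hM : (M.factorial : W.K) ≠ 0 := by exact_mod_cast M.factorial_ne_zero
    have hM' : (M'.factorial : W.K) ≠ 0 := by exact_mod_cast M'.factorial_ne_zero
    have hMM : ((M + M').factorial : W.K) ≠ 0 := by exact_mod_cast (M + M').factorial_ne_zero
    have hC : ((M + M').choose M : W.K) ≠ 0 := by
      exact_mod_cast (Nat.choose_pos (show M ≤ M + M' by omega)).ne'
    rw [← h2] at hMM ⊢
    field_simp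
  · intro m _ hm
    rw [map_smul, ex_tr, tr_alg_zero (alg_mul (xi_pow_alg hP m) (alg_mul ha ha')) (by omega),
      zero_mul, smul_zero]
  · intro h0
    exact absurd (Finset.mem_range.2 (by omega)) h0

/-- External products of primitive classes of different bidegrees are orthogonal. -/
lemma nf_ex_orth (hP : P.X.IsCyc 1 P.D) (hQ : Q.X.IsCyc 1 Q.D) {i i' j j' J : ℕ}
    {a a' : W.H P.X} {b b' : W.H Q.X} (ha : Prim W P i a) (ha' : Prim W P i' a')
    (hb : Prim W Q j b) (hb' : Prim W Q j' b') (hJ : i + j = J) (hJ' : i' + j' = J)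
    (hne : i ≠ i') :
    nf W (pr ops P Q) J (ex W P Q a b) (ex W P Q a' b') = 0 := by
  have hdim : (pr ops P Q).X.dim = P.X.dim + Q.X.dim := rfl
  have h1 := ha.le
  have h2 := ha'.le
  have h3 := hb.le
  have h4 := hb'.le
  rw [nf, ex_mul hb.alg, xi_pow_ex hP hQ, map_sum, hdim, Finset.sum_eq_zero, zero_div]
  intro m _
  rw [map_smul, ex_tr]
  by_cases hm : m + (i + i') = P.X.dim
  · rcases lt_or_gt_of_ne hne with h | h
    · have e1 : xi W P ^ m * (a * a') = 0 := by
        rw [alg_comm ha.alg, ← mul_assoc, ha'.van (by omega), zero_mul]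
      rw [e1, map_zero, zero_mul, smul_zero]
    · have e1 : xi W P ^ m * (a * a') = 0 := by
        rw [← mul_assoc, ha.van (by omega), zero_mul]
      rw [e1, map_zero, zero_mul, smul_zero]
  · rw [tr_alg_zero (alg_mul (xi_pow_alg hP m) (alg_mul ha.alg ha'.alg)) hm, zero_mul, smul_zero]

end Pool.Agent.TH122.Aniso
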