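import Pool.Agent.TH122.PrimA

/-!
# Isotropic primitive algebraic classes from classes violating the conjecture of Hodge type
-/

open CategoryTheory AlgebraicGeometry Finset

universe u v w

namespace Pool.Agent.TH122.Aniso

open Pool.Agent.H914 Pool.Agent.H914.VarClass Pool.Agent.H914.VarClass.Obj
  Pool.Agent.H914.WeilCohomology Pool.Agent.H281R3.HT

variable {k : Type u} [Field k] {𝒱 : VarClass k} {ops : CycleOps 𝒱}
  {W : WeilCohomology.{u, v} ops} {P Q : Polarized 𝒱}

/-- Every nonnegative rational number is a sum of four squares of rational numbers. -/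
lemma four_squares (t : ℚ) (ht : 0 ≤ t) : ∃ y : Fin 4 → ℚ, ∑ i, y i ^ 2 = t := by
  obtain ⟨a, b, c, d, h⟩ := Nat.sum_four_squares (t.num.toNat * t.den)
  have hden : (t.den : ℚ) ≠ 0 := by exact_mod_cast t.den_nz
  have hnum : ((t.num.toNat : ℕ) : ℚ) = t.num := by
    have : ((t.num.toNat : ℕ) : ℤ) = t.num := Int.toNat_of_nonneg (Rat.num_nonneg.2 ht)
    exact_mod_cast this
  have h1 : (a : ℚ) ^ 2 + b ^ 2 + c ^ 2 + d ^ 2 = t.num * t.den := by
    rw [← hnum]; exact_mod_cast h
  refine ⟨![a / t.den, b / t.den, c / t.den, d / t.den], ?_⟩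
  rw [Fin.sum_univ_four]
  simp only [Matrix.cons_val_zero, Matrix.cons_val_one, Matrix.cons_val]
  have h2 : (t : ℚ) = t.num / t.den := (Rat.num_div_den t).symm
  rw [div_pow, div_pow, div_pow, div_pow, ← add_div, ← add_div, ← add_div, h1]
  conv_rhs => rw [h2]
  field_simp

lemma tr_top (hD : P.X.IsCyc 1 P.D) :
    W.tr P.X (xi W P ^ P.X.dim) =
      (P.X.V.degCycle (divPow ops P.D P.X.dim P.X.V.fundCycle) : W.K) := by
  have h1 := divPow_mem (ops := ops) hD P.X.dim P.X.V.fundCycle_mem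
  rw [zero_add] at h1
  rw [← W.tr_cl h1, cl_divPow, W.cl_fund, mulLeft_pow_apply, mul_one]
  rfl

/-- The norm of the unit class. -/
lemma nf_one (hD : P.X.IsCyc 1 P.D)
    (hdeg : 0 < P.X.V.degCycle (divPow ops P.D P.X.dim P.X.V.fundCycle)) :
    ∃ δ : ℚ, 0 < δ ∧ nf W P 0 1 1 = δ := by
  refine ⟨P.X.V.degCycle (divPow ops P.D P.X.dim P.X.V.fundCycle) / (P.X.dim.factorial : ℚ),
    div_pos hdeg (by exact_mod_cast P.X.dim.factorial_pos), ?_⟩
  rw [nf, mul_one, mul_one, mul_zero, Nat.sub_zero, tr_top hD]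
  push_cast
  rfl

/-- The difference of the two divisors on `P × P`. -/
noncomputable def dv (W : WeilCohomology.{u, v} ops) (P : Polarized 𝒱) :
    W.H (pr ops P P).X :=
  ex W P P (xi W P) 1 - ex W P P 1 (xi W P)

lemma xi_pow_zero (hD : P.X.IsCyc 1 P.D) {m : ℕ} (hm : P.X.dim < m) : xi W P ^ m = 0 := by
  have h1 := alg_gr (xi_pow_alg (W := W) hD m)
  rw [W.gr_eq_bot P.X _ (by omega)] at h1
  exact (Submodule.mem_bot _).1 h1

lemma dv_prim (hD : P.X.IsCyc 1 P.D) (h1 : 1 ≤ P.X.dim) : Prim W (pr ops P P) 1 (dv W P) := by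
  have hdim : (pr ops P P).X.dim = P.X.dim + P.X.dim := rfl
  refine ⟨?_, by omega, ?_⟩
  · have e1 : ex W P P (xi W P) 1 ∈ algClasses W (pr ops P P).X 1 := by
      have := ex_alg (W := W) (P := P) (Q := P) (xi_alg hD) (one_alg W P.X)
      simpa using this
    have e2 : ex W P P 1 (xi W P) ∈ algClasses W (pr ops P P).X 1 := by
      have := ex_alg (W := W) (P := P) (Q := P) (one_alg W P.X) (xi_alg hD)
      simpa using this
    have e3 := alg_smul (-1) e2
    rw [Rat.cast_neg, Rat.cast_one, neg_one_smul] at e3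
    rw [dv, sub_eq_add_neg]
    exact alg_add e1 e3
  · rw [dv, mul_sub, xi_pow_ex hD hD, xi_pow_ex hD hD, hdim]
    set n := P.X.dim with hn
    have hN : n + n - 2 * 1 + 1 = 2 * n - 1 := by omega
    rw [hN]
    have e1 : ∑ m ∈ range (2 * n - 1 + 1), ((2 * n - 1).choose m : W.K) •
        ex W P P (xi W P ^ m * xi W P) (xi W P ^ (2 * n - 1 - m) * 1) =
        ((2 * n - 1).choose (n - 1) : W.K) • ex W P P (xi W P ^ n) (xi W P ^ n) := by
      rw [Finset.sum_eq_single (n - 1)]
      · rw [← pow_succ, mul_one, show n - 1 + 1 = n by omega,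
          show 2 * n - 1 - (n - 1) = n by omega]
      · intro m _ hm
        rw [← pow_succ, mul_one]
        by_cases h : n < m + 1
        · rw [xi_pow_zero hD h, ex_zero_left, smul_zero]
        · rw [xi_pow_zero hD (m := 2 * n - 1 - m) (by omega), ex_zero_right, smul_zero]
      · intro h0
        exact absurd (Finset.mem_range.2 (by omega)) h0
    have e2 : ∑ m ∈ range (2 * n - 1 + 1), ((2 * n - 1).choose m : W.K) •
        ex W P P (xi W P ^ m * 1) (xi W P ^ (2 * n - 1 - m) * xi W P) =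
        ((2 * n - 1).choose n : W.K) • ex W P P (xi W P ^ n) (xi W P ^ n) := by
      rw [Finset.sum_eq_single n]
      · rw [← pow_succ, mul_one, show 2 * n - 1 - n + 1 = n by omega]
      · intro m _ hm
        rw [← pow_succ, mul_one]
        by_cases h : n < m
        · rw [xi_pow_zero hD h, ex_zero_left, smul_zero]
        · rw [xi_pow_zero hD (m := 2 * n - 1 - m + 1) (by omega), ex_zero_right, smul_zero]
      · intro h0
        exact absurd (Finset.mem_range.2 (by omega)) h0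
    have e3 : (2 * n - 1).choose (n - 1) = (2 * n - 1).choose n := by
      rw [← Nat.choose_symm (show n ≤ 2 * n - 1 by omega)]
      congr 1
      omega
    rw [e1, e2, e3, sub_self]

/-- The norm of the difference of the two divisors. -/
lemma dv_norm (hD : P.X.IsCyc 1 P.D)
    (hdeg : 0 < P.X.V.degCycle (divPow ops P.D P.X.dim P.X.V.fundCycle)) (h2 : 2 ≤ P.X.dim) :
    ∃ q : ℚ, 0 < q ∧ nf W (pr ops P P) 1 (dv W P) (dv W P) = ((-1 * q : ℚ) : W.K) := by
  have hdim : (pr ops P P).X.dim = P.X.dim + P.X.dim := rfl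
  set n := P.X.dim with hn
  set d : ℚ := P.X.V.degCycle (divPow ops P.D P.X.dim P.X.V.fundCycle) with hd
  have htop : W.tr P.X (xi W P ^ n) = (d : W.K) := tr_top hD
  -- the traces
  have key : ∀ i j, i + j = 2 → W.tr (pr ops P P).X (xi W (pr ops P P) ^ (2 * n - 2) *
      ex W P P (xi W P ^ i) (xi W P ^ j)) = ((2 * n - 2).choose (n - i) : W.K) * (d * d) := by
    intro i j hij
    rw [xi_pow_ex hD hD, map_sum, Finset.sum_eq_single (n - i)]
    · rw [map_smul, ex_tr, ← pow_add, ← pow_add, show n - i + i = n by omega,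
        show 2 * n - 2 - (n - i) + j = n by omega, htop, smul_eq_mul]
    · intro m _ hm
      rw [map_smul, ex_tr, ← pow_add, ← pow_add,
        tr_alg_zero (xi_pow_alg (W := W) hD (m + i)) (by omega), zero_mul, smul_zero]
    · intro h0
      exact absurd (Finset.mem_range.2 (by omega)) h0
  have hmul : ∀ (a a' b b' : W.H P.X) (j : ℕ), b ∈ algClasses W P.X j →
      ex W P P a b * ex W P P a' b' = ex W P P (a * a') (b * b') := fun a a' b b' j hb =>
    ex_mul hb
  have e1 : dv W P * dv W P = ex W P P (xi W P ^ 2) (xi W P ^ 0) -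
      ex W P P (xi W P ^ 1) (xi W P ^ 1) - ex W P P (xi W P ^ 1) (xi W P ^ 1) +
      ex W P P (xi W P ^ 0) (xi W P ^ 2) := by
    rw [dv, sub_mul, mul_sub, mul_sub, hmul _ _ _ _ 0 (one_alg W P.X),
      hmul _ _ _ _ 0 (one_alg W P.X), hmul _ _ _ _ 1 (xi_alg hD), hmul _ _ _ _ 1 (xi_alg hD)]
    simp only [mul_one, one_mul, pow_zero, pow_one, pow_two]
    abel
  have hA : (2 * n - 2).choose (n - 2) = (2 * n - 2).choose n := by
    rw [← Nat.choose_symm (show n ≤ 2 * n - 2 by omega)]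
    congr 1
    omega
  have hB : (2 * n - 2).choose n < (2 * n - 2).choose (n - 1) := by
    have h3 := Nat.choose_succ_right_eq (2 * n - 2) (n - 1)
    rw [show n - 1 + 1 = n by omega, show 2 * n - 2 - (n - 1) = n - 1 by omega] at h3
    have h4 : 0 < (2 * n - 2).choose (n - 1) := Nat.choose_pos (by omega)
    by_contra hc
    push Not at hc
    have h5 : (2 * n - 2).choose (n - 1) * n ≤ (2 * n - 2).choose n * n :=
      Nat.mul_le_mul_right n hc
    rw [h3] at h5
    have h6 : (2 * n - 2).choose (n - 1) * (n - 1) < (2 * n - 2).choose (n - 1) * n :=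
      Nat.mul_lt_mul_of_pos_left (by omega) h4
    omega
  refine ⟨2 * (((2 * n - 2).choose (n - 1) : ℚ) - ((2 * n - 2).choose n : ℚ)) * (d * d) /
    ((2 * n - 2).factorial : ℚ), ?_, ?_⟩
  · have h7 : ((2 * n - 2).choose n : ℚ) < ((2 * n - 2).choose (n - 1) : ℚ) := by
      exact_mod_cast hB
    have h8 : (0 : ℚ) < ((2 * n - 2).factorial : ℚ) := by
      exact_mod_cast (2 * n - 2).factorial_pos
    have h9 : 0 < ((2 * n - 2).choose (n - 1) : ℚ) - ((2 * n - 2).choose n : ℚ) := by linarith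
    positivity
  · rw [nf, hdim, show n + n - 2 * 1 = 2 * n - 2 by omega, e1, mul_add, mul_sub, mul_sub,
      map_add, map_sub, map_sub, key 2 0 rfl, key 1 1 rfl, key 0 2 rfl, Nat.sub_zero, hA]
    push_cast
    ring

section Cls

/-- A class of polarized varieties closed under products. -/
structure PCls (ops : CycleOps 𝒱) (𝒬 : Polarized 𝒱 → Prop) : Prop where
  prod : ∀ P Q, 𝒬 P → 𝒬 Q → 𝒬 (pr ops P Q)
  div : ∀ P, 𝒬 P → P.X.IsCyc 1 P.D
  deg : ∀ P, 𝒬 P → 0 < P.X.V.degCycle (divPow ops P.D P.X.dim P.X.V.fundCycle)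

variable (W) in
/-- A class of polarized varieties closed under products, with hard Lefschetz. -/
structure Cls (𝒬 : Polarized 𝒱 → Prop) : Prop where
  prod : ∀ P Q, 𝒬 P → 𝒬 Q → 𝒬 (pr ops P Q)
  div : ∀ P, 𝒬 P → P.X.IsCyc 1 P.D
  deg : ∀ P, 𝒬 P → 0 < P.X.V.degCycle (divPow ops P.D P.X.dim P.X.V.fundCycle)
  hl : ∀ P, 𝒬 P → HardLefschetz W P.X P.D

lemma Cls.toPCls {𝒬 : Polarized 𝒱 → Prop} (h : Cls W 𝒬) : PCls ops 𝒬 := ⟨h.prod, h.div, h.deg⟩

variable {𝒬 : Polarized 𝒱 → Prop} (h𝒬 : PCls ops 𝒬)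

include h𝒬

/-- Primitive classes of positive norm in all codimensions. -/
lemma exists_pos (hP : 𝒬 P) (h2 : 2 ≤ P.X.dim) (j : ℕ) :
    ∃ T, 𝒬 T ∧ ∃ u, Prim W T (j + 1) u ∧ ∃ q : ℚ, 0 < q ∧
      nf W T (j + 1) u u = (((-1) ^ (j + 1) * q : ℚ) : W.K) := by
  induction j with
  | zero =>
    obtain ⟨q, hq, hq'⟩ := dv_norm (W := W) (h𝒬.div P hP) (h𝒬.deg P hP) h2
    exact ⟨_, h𝒬.prod P P hP hP, dv W P, dv_prim (h𝒬.div P hP) (by omega), q, hq, by
      rw [zero_add, pow_one]; exact hq'⟩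
  | succ j ih =>
    obtain ⟨T, hT, u, hu, q, hq, hq'⟩ := ih
    obtain ⟨r, hr, hr'⟩ := dv_norm (W := W) (h𝒬.div P hP) (h𝒬.deg P hP) h2
    have hP2 := h𝒬.prod P P hP hP
    have hv := dv_prim (W := W) (h𝒬.div P hP) (by omega)
    refine ⟨pr ops T (pr ops P P), h𝒬.prod _ _ hT hP2, ex W T (pr ops P P) u (dv W P),
      hu.ex (h𝒬.div _ hT) (h𝒬.div _ hP2) hv, q * r, mul_pos hq hr, ?_⟩
    rw [nf_ex (h𝒬.div _ hT) (h𝒬.div _ hP2) hu.le hv.le hu.alg hu.alg hv.alg hv.alg, hq', hr']
    push_cast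
    ring

end Cls

/-- The iterated powers. -/
noncomputable def pw (ops : CycleOps 𝒱) (T : Polarized 𝒱) : ℕ → Polarized 𝒱
  | 0 => T
  | n + 1 => pr ops T (pw ops T n)

section Cls2

variable {𝒬 : Polarized 𝒱 → Prop} (h𝒬 : PCls ops 𝒬)

include h𝒬

lemma pw_mem {T : Polarized 𝒱} (hT : 𝒬 T) (n : ℕ) : 𝒬 (pw ops T n) := by
  induction n with
  | zero => exact hT
  | succ n ih => exact h𝒬.prod _ _ hT ih

lemma pw_one {T : Polarized 𝒱} (hT : 𝒬 T) {δ : W.K} (hδ : nf W T 0 1 1 = δ) (n : ℕ) :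
    nf W (pw ops T n) 0 1 1 = δ ^ (n + 1) := by
  induction n with
  | zero => rw [zero_add, pow_one]; exact hδ
  | succ n ih =>
    have h1 := nf_ex (W := W) (P := T) (Q := pw ops T n) (h𝒬.div _ hT)
      (h𝒬.div _ (pw_mem h𝒬 hT n)) (i := 0) (j := 0) (by omega) (by omega) (one_alg W _)
      (one_alg W _) (one_alg W _) (one_alg W _)
    rw [ex_one, add_zero, hδ, ih] at h1
    rw [pow_succ']
    exact h1

/-- Orthogonal families of primitive classes with equal norms. -/
lemma exists_fam {T : Polarized 𝒱} (hT : 𝒬 T) {j : ℕ} (hj : 1 ≤ j) {u : W.H T.X}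
    (hu : Prim W T j u) {c δ : W.K} (hc : nf W T j u u = c) (hδ : nf W T 0 1 1 = δ) (n : ℕ) :
    ∃ e : Fin (n + 1) → W.H (pw ops T n).X, (∀ i, Prim W (pw ops T n) j (e i)) ∧
      (∀ i, nf W (pw ops T n) j (e i) (e i) = c * δ ^ n) ∧
      ∀ i i', i ≠ i' → nf W (pw ops T n) j (e i) (e i') = 0 := by
  induction n with
  | zero =>
    refine ⟨fun _ => u, fun _ => hu, fun _ => ?_, fun i i' hii => ?_⟩
    · rw [pow_zero, mul_one]; exact hc
    · exact absurd (Fin.ext (by omega)) hii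
  | succ n ih =>
    obtain ⟨e, he, hee, hee'⟩ := ih
    have hT' := pw_mem h𝒬 hT n
    have hdT := h𝒬.div _ hT
    have hdT' := h𝒬.div _ hT'
    have h1 : Prim W T 0 (1 : W.H T.X) := prim_one hdT
    have h1' : Prim W (pw ops T n) 0 (1 : W.H (pw ops T n).X) := prim_one hdT'
    have hle := hu.le
    let f : Fin (n + 1 + 1) → W.H (pr ops T (pw ops T n)).X :=
      Fin.cons (ex W T (pw ops T n) u 1) (fun i => ex W T (pw ops T n) 1 (e i))
    have hf : ∀ i, Prim W (pr ops T (pw ops T n)) j (f i) := by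
      intro i
      refine Fin.cases ?_ ?_ i
      · have := hu.ex hdT hdT' h1'
        rw [add_zero] at this
        exact this
      · intro i
        have := h1.ex hdT hdT' (he i)
        rw [zero_add] at this
        exact this
    have hff : ∀ i, nf W (pr ops T (pw ops T n)) j (f i) (f i) = c * δ ^ (n + 1) := by
      intro i
      refine Fin.cases ?_ ?_ i
      · have := nf_ex (W := W) hdT hdT' (i := j) (j := 0) hle (by omega) hu.alg hu.alg h1'.alg
          h1'.alg
        rw [add_zero, hc, pw_one h𝒬 hT hδ] at this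
        exact this
      · intro i
        have := nf_ex (W := W) hdT hdT' (i := 0) (j := j) (by omega) (he i).le h1.alg h1.alg
          (he i).alg (he i).alg
        rw [zero_add, hee, hδ] at this
        refine this.trans ?_
        ring
    have hff' : ∀ i i', i ≠ i' → nf W (pr ops T (pw ops T n)) j (f i) (f i') = 0 := by
      intro i i'
      refine Fin.cases ?_ ?_ i
      · refine Fin.cases ?_ ?_ i'
        · intro h; exact absurd rfl h
        · intro i' _
          exact nf_ex_orth hdT hdT' hu h1 h1' (he i') (by omega) (by omega) (by omega)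
      · intro i
        refine Fin.cases ?_ ?_ i'
        · intro _
          exact nf_ex_orth hdT hdT' h1 hu (he i) h1' (by omega) (by omega) (by omega)
        · intro i' hii
          have h0 : i ≠ i' := fun h => hii (by rw [h])
          have := nf_ex (W := W) hdT hdT' (i := 0) (j := j) (by omega) (he i).le h1.alg h1.alg
            (he i).alg (he i').alg
          rw [zero_add, hee' i i' h0, mul_zero] at this
          exact this
    exact ⟨f, hf, hff, hff'⟩

/-- Four orthogonal primitive classes with equal norms. -/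
lemma exists_four {T : Polarized 𝒱} (hT : 𝒬 T) {j : ℕ} (hj : 1 ≤ j) {u : W.H T.X}
    (hu : Prim W T j u) {c δ : W.K} (hc : nf W T j u u = c) (hδ : nf W T 0 1 1 = δ) :
    ∃ R, 𝒬 R ∧ nf W R 0 1 1 = δ ^ 4 ∧ ∃ e : Fin 4 → W.H R.X, (∀ i, Prim W R j (e i)) ∧
      (∀ i, nf W R j (e i) (e i) = c * δ ^ 3) ∧ ∀ i i', i ≠ i' → nf W R j (e i) (e i') = 0 :=
  ⟨pw ops T 3, pw_mem h𝒬 hT 3, pw_one h𝒬 hT hδ 3, exists_fam h𝒬 hT hj hu hc hδ 3⟩

end Cls2

section Cls3

variable {𝒬 : Polarized 𝒱 → Prop} (h𝒬 : Cls W 𝒬)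

include h𝒬

/-- **A primitive algebraic class violating the conjecture of Hodge type gives a nonzero isotropic
primitive algebraic class of the same codimension on a product.** -/
theorem exists_isotropic' (hP : 𝒬 P) {j : ℕ} (hj : 1 ≤ j) {x : W.H P.X} (hx : Prim W P j x)
    (hx0 : x ≠ 0) {q : ℚ} (hq : q ≤ 0) (hxx : nf W P j x x = (((-1) ^ j * q : ℚ) : W.K)) :
    ∃ Z, 𝒬 Z ∧ ∃ z, Prim W Z j z ∧ z ≠ 0 ∧ nf W Z j z z = 0 ∧
      ∃ b, Prim W Z j b ∧ (q ≠ 0 → nf W Z j z b ≠ 0) := by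
  classical
  have hle := hx.le
  obtain ⟨j, rfl⟩ : ∃ j', j = j' + 1 := ⟨j - 1, by omega⟩
  obtain ⟨T, hT, u, hu, r, hr, hr'⟩ := exists_pos (W := W) h𝒬.toPCls hP (by omega) j
  obtain ⟨δ, hδ, hδ'⟩ := nf_one (W := W) (h𝒬.div _ hT) (h𝒬.deg _ hT)
  obtain ⟨ε, hε, hε'⟩ := nf_one (W := W) (h𝒬.div _ hP) (h𝒬.deg _ hP)
  obtain ⟨R, hRm, hR1, e, he, hee, hee'⟩ := exists_four h𝒬.toPCls hT hj hu hr' hδ'
  have hdP := h𝒬.div _ hP
  have hdR := h𝒬.div _ hRm
  have h1 : Prim W P 0 (1 : W.H P.X) := prim_one hdP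
  have h1' : Prim W R 0 (1 : W.H R.X) := prim_one hdR
  -- the coefficients
  obtain ⟨y, hy⟩ := four_squares (-(q * δ) / (ε * r)) (by
    apply div_nonneg
    · nlinarith
    · positivity)
  set a := ex W P R x 1 with ha
  set b : Fin 4 → W.H (pr ops P R).X := fun i => ex W P R 1 (e i) with hb
  have haP : Prim W (pr ops P R) (j + 1) a := by
    have := hx.ex hdP hdR h1'
    rwa [add_zero] at this
  have hbP : ∀ i, Prim W (pr ops P R) (j + 1) (b i) := by
    intro i
    have := h1.ex hdP hdR (he i)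
    rwa [zero_add] at this
  have haa : nf W (pr ops P R) (j + 1) a a = (((-1) ^ (j + 1) * q : ℚ) : W.K) * (δ : W.K) ^ 4 := by
    have := nf_ex (W := W) hdP hdR (i := j + 1) (j := 0) hle (by omega) hx.alg hx.alg h1'.alg
      h1'.alg
    rwa [add_zero, hxx, hR1] at this
  have hbb : ∀ i, nf W (pr ops P R) (j + 1) (b i) (b i) =
      (ε : W.K) * ((((-1) ^ (j + 1) * r : ℚ) : W.K) * (δ : W.K) ^ 3) := by
    intro i
    have := nf_ex (W := W) hdP hdR (i := 0) (j := j + 1) (by omega) (he i).le h1.alg h1.alg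
      (he i).alg (he i).alg
    rwa [zero_add, hε', hee] at this
  have hbb' : ∀ i i', i ≠ i' → nf W (pr ops P R) (j + 1) (b i) (b i') = 0 := by
    intro i i' hii
    have := nf_ex (W := W) hdP hdR (i := 0) (j := j + 1) (by omega) (he i).le h1.alg h1.alg
      (he i).alg (he i').alg
    rwa [zero_add, hee' i i' hii, mul_zero] at this
  have hab : ∀ i, nf W (pr ops P R) (j + 1) a (b i) = 0 := fun i =>
    nf_ex_orth hdP hdR hx h1 h1' (he i) (by omega) (by omega) (by omega)
  have hba : ∀ i, nf W (pr ops P R) (j + 1) (b i) a = 0 := fun i => by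
    rw [nf_comm _ (hbP i).alg, hab]
  set c : W.H (pr ops P R).X := ∑ i, ((y i : ℚ) : W.K) • b i with hc
  have hcP : Prim W (pr ops P R) (j + 1) c :=
    Prim.sum haP.le (fun i _ => (hbP i).smul (y i))
  have nf_sum : ∀ (s : Finset (Fin 4)) (z : W.H (pr ops P R).X),
      nf W (pr ops P R) (j + 1) z (∑ i ∈ s, ((y i : ℚ) : W.K) • b i) =
        ∑ i ∈ s, ((y i : ℚ) : W.K) * nf W (pr ops P R) (j + 1) z (b i) := by
    intro s z
    induction s using Finset.induction_on with
    | empty =>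
      rw [Finset.sum_empty, Finset.sum_empty, nf, mul_zero, mul_zero, map_zero, zero_div]
    | insert t s ht ih =>
      rw [Finset.sum_insert ht, Finset.sum_insert ht, nf_add_right, ih, nf_smul_right]
  have hac : nf W (pr ops P R) (j + 1) a c = 0 := by
    rw [hc, nf_sum]
    exact Finset.sum_eq_zero (fun i _ => by rw [hab, mul_zero])
  have hca : nf W (pr ops P R) (j + 1) c a = 0 := by
    rw [nf_comm _ hcP.alg, hac]
  have hcb : ∀ i, nf W (pr ops P R) (j + 1) c (b i) = ((y i : ℚ) : W.K) *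
      ((ε : W.K) * ((((-1) ^ (j + 1) * r : ℚ) : W.K) * (δ : W.K) ^ 3)) := by
    intro i
    rw [nf_comm _ hcP.alg, hc, nf_sum, Finset.sum_eq_single i]
    · rw [hbb]
    · intro i' _ hi'
      rw [hbb' i i' (Ne.symm hi'), mul_zero]
    · intro h0; exact absurd (Finset.mem_univ i) h0
  have hcc : nf W (pr ops P R) (j + 1) c c = ((∑ i, y i ^ 2 : ℚ) : W.K) *
      ((ε : W.K) * ((((-1) ^ (j + 1) * r : ℚ) : W.K) * (δ : W.K) ^ 3)) := by
    conv_lhs => rw [hc, nf_sum]
    rw [Finset.sum_congr rfl (fun i _ => by rw [hcb i]), Rat.cast_sum, Finset.sum_mul]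
    apply Finset.sum_congr rfl
    intro i _
    push_cast
    ring
  refine ⟨pr ops P R, h𝒬.prod _ _ hP hRm, a + c, haP.add hcP, ?_, ?_, a, haP, ?_⟩
  · intro h0
    apply hx0
    apply W.nondeg
    intro t
    have htop : W.tr R.X (xi W R ^ R.X.dim) ≠ 0 := by
      rw [tr_top hdR]
      exact_mod_cast (h𝒬.deg _ hRm).ne'
    have e1 : W.tr (pr ops P R).X ((a + c) * ex W P R t (xi W R ^ R.X.dim)) = 0 := by
      rw [h0, zero_mul, map_zero]
    have e2 : W.tr (pr ops P R).X (c * ex W P R t (xi W R ^ R.X.dim)) = 0 := by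
      rw [hc, Finset.sum_mul, map_sum]
      apply Finset.sum_eq_zero
      intro i _
      rw [smul_mul_assoc, map_smul, hb, ex_mul (he i).alg, ex_tr,
        tr_alg_zero (alg_mul (he i).alg (xi_pow_alg hdR R.X.dim)) (by omega), mul_zero, smul_zero]
    rw [add_mul, map_add, e2, add_zero, ha, ex_mul h1'.alg, ex_tr, one_mul] at e1
    exact (mul_eq_zero.1 e1).resolve_right htop
  · rw [nf_add_left, nf_add_right, nf_add_right, hac, hca, add_zero, zero_add, haa, hcc, hy]
    have hε0 : (ε : W.K) ≠ 0 := by exact_mod_cast hε.ne'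
    have hr0 : (r : W.K) ≠ 0 := by exact_mod_cast hr.ne'
    push_cast
    field_simp
    ring
  · intro hq0
    rw [nf_add_left, hca, add_zero, haa]
    have hδ0 : (δ : W.K) ≠ 0 := by exact_mod_cast hδ.ne'
    refine mul_ne_zero ?_ (pow_ne_zero _ hδ0)
    have h2 : (-1 : ℚ) ^ (j + 1) * q ≠ 0 := mul_ne_zero (pow_ne_zero _ (by norm_num)) hq0
    exact_mod_cast h2

/-- **A primitive algebraic class violating the conjecture of Hodge type gives a nonzero isotropic
primitive algebraic class of the same codimension on a product.** -/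
theorem exists_isotropic (hP : 𝒬 P) {j : ℕ} (hj : 1 ≤ j) {x : W.H P.X} (hx : Prim W P j x)
    (hx0 : x ≠ 0) {q : ℚ} (hq : q ≤ 0) (hxx : nf W P j x x = (((-1) ^ j * q : ℚ) : W.K)) :
    ∃ Z, 𝒬 Z ∧ ∃ z, Prim W Z j z ∧ z ≠ 0 ∧ nf W Z j z z = 0 := by
  obtain ⟨Z, hZ, z, hz, hz0, hzz, -⟩ := exists_isotropic' h𝒬 hP hj hx hx0 hq hxx
  exact ⟨Z, hZ, z, hz, hz0, hzz⟩

/-- **From an isotropic class to an isotropic class of middle codimension.** -/
theorem exists_middle (hP : 𝒬 P) {j : ℕ} {z : W.H P.X} (hz : Prim W P j z) (hz0 : z ≠ 0)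
    (hzz : nf W P j z z = 0) :
    ∃ Ω, Ω ∈ algClasses W (pr ops P P).X P.X.dim ∧ xi W (pr ops P P) * Ω = 0 ∧ Ω ≠ 0 ∧
      W.tr (pr ops P P).X (Ω * Ω) = 0 := by
  classical
  have hle := hz.le
  have hD := h𝒬.div _ hP
  set n := P.X.dim with hn
  set M := n - 2 * j with hM
  have hpow : ∀ i, xi W P ^ i * z ∈ algClasses W P.X (i + j) := fun i =>
    alg_mul (xi_pow_alg hD i) hz.alg
  have htr : W.tr P.X (xi W P ^ M * (z * z)) = 0 := by
    rw [nf, div_eq_zero_iff] at hzz
    rcases hzz with h | h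
    · exact h
    · exact absurd h (by exact_mod_cast (P.X.dim - 2 * j).factorial_ne_zero)
  have hvan : xi W P ^ (M + 1) * z = 0 := hz.prim
  set f : ℕ → W.H (pr ops P P).X := fun i => ex W P P (xi W P ^ i * z)
    (xi W P ^ (M + 1 - i) * z) with hf
  set Ω : W.H (pr ops P P).X := ∑ i ∈ range (M + 1),
    (((-1) ^ i : ℚ) : W.K) • ex W P P (xi W P ^ i * z) (xi W P ^ (M - i) * z) with hΩ
  have hstep : ∀ a b : W.H P.X, xi W (pr ops P P) * ex W P P a b =
      ex W P P (xi W P * a) b + ex W P P a (xi W P * b) := by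
    intro a b
    have h1 := xi_pow_ex (W := W) hD hD 1 a b
    rw [pow_one] at h1
    rw [h1, Finset.sum_range_succ, Finset.sum_range_one]
    simp [add_comm]
  refine ⟨Ω, ?_, ?_, ?_, ?_⟩
  · apply alg_sum
    intro i hi
    have h1 := ex_alg (W := W) (hpow i) (hpow (M - i))
    have h2 := Finset.mem_range.1 hi
    rwa [show i + j + (M - i + j) = n by omega] at h1
  · rw [hΩ, Finset.mul_sum]
    have h1 : ∀ i ∈ range (M + 1), xi W (pr ops P P) * ((((-1) ^ i : ℚ) : W.K) •
        ex W P P (xi W P ^ i * z) (xi W P ^ (M - i) * z)) =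
        (((-1) ^ i : ℚ) : W.K) • f i - (((-1) ^ (i + 1) : ℚ) : W.K) • f (i + 1) := by
      intro i hi
      have h2 := Finset.mem_range.1 hi
      rw [mul_smul_comm, hstep, ← mul_assoc, ← mul_assoc, ← pow_succ', ← pow_succ', hf]
      beta_reduce
      rw [show M - i + 1 = M + 1 - i by omega, show M + 1 - (i + 1) = M - i by omega]
      rw [smul_add, pow_succ (-1 : ℚ) i]
      push_cast
      rw [mul_neg_one, neg_smul, sub_neg_eq_add, add_comm]
    rw [Finset.sum_congr rfl h1, Finset.sum_range_sub']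
    have h3 : f 0 = 0 := by
      rw [hf]; beta_reduce
      rw [Nat.sub_zero, hvan, ex_zero_right]
    have h4 : f (M + 1) = 0 := by
      rw [hf]; beta_reduce
      rw [hvan, ex_zero_left]
    rw [h3, h4, smul_zero, smul_zero, sub_zero]
  · intro h0
    have h1 : ∀ a ∈ W.gr P.X (2 * n - 2 * j), ∀ b : W.H P.X,
        W.tr P.X (z * a) * W.tr P.X (xi W P ^ M * z * b) = 0 := by
      intro a ha b
      have h2 : W.tr (pr ops P P).X (Ω * ex W P P a b) = 0 := by
        rw [h0, zero_mul, map_zero]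
      rw [hΩ, Finset.sum_mul, map_sum, Finset.sum_eq_single 0] at h2
      · rw [pow_zero, Rat.cast_one, one_smul, ex_mul (hpow _), ex_tr, pow_zero, one_mul,
          Nat.sub_zero] at h2
        exact h2
      · intro i _ hi
        rw [smul_mul_assoc, map_smul, ex_mul (hpow _), ex_tr,
          W.tr_eq_zero (W.mul_mem (alg_gr (hpow i)) ha) (by omega), zero_mul, smul_zero]
      · intro h; exact absurd (Finset.mem_range.2 (by omega)) h
    have hMz : xi W P ^ M * z ≠ 0 := by
      intro h2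
      apply hz0
      have h3 := (h𝒬.hl P hP (2 * j) hle).1 z (alg_gr hz.alg)
      rw [mulLeft_pow_apply] at h3
      exact h3 h2
    have h3 : ∀ a ∈ W.gr P.X (2 * n - 2 * j), W.tr P.X (z * a) = 0 := by
      intro a ha
      by_contra hne
      apply hMz
      apply W.nondeg
      intro b
      exact (mul_eq_zero.1 (h1 a ha b)).resolve_left hne
    apply hz0
    apply W.nondeg
    intro a
    refine gr_induction (W.isInternal P.X) (p := fun a => W.tr P.X (z * a) = 0) ?_ ?_ a
    · intro i a ha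
      by_cases hi : i = 2 * n - 2 * j
      · subst hi; exact h3 a ha
      · exact W.tr_eq_zero (W.mul_mem (alg_gr hz.alg) ha) (by omega)
    · intro a b ha hb
      rw [mul_add, map_add, ha, hb, add_zero]
  · rw [hΩ, Finset.sum_mul, map_sum]
    apply Finset.sum_eq_zero
    intro i _
    rw [Finset.mul_sum, map_sum]
    apply Finset.sum_eq_zero
    intro l _
    rw [smul_mul_assoc, mul_smul_comm, map_smul, map_smul, ex_mul (hpow _), ex_tr]
    have h1 : xi W P ^ i * z * (xi W P ^ l * z) = xi W P ^ (i + l) * (z * z) := by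
      rw [pow_add, mul_assoc, ← mul_assoc z, alg_comm hz.alg (xi W P ^ l)]
      simp only [mul_assoc]
    have h2 : W.tr P.X (xi W P ^ i * z * (xi W P ^ l * z)) = 0 := by
      rw [h1]
      by_cases hil : i + l = M
      · rw [hil, htr]
      · exact tr_alg_zero (alg_mul (xi_pow_alg hD (i + l)) (alg_mul hz.alg hz.alg)) (by omega)
    rw [h2, zero_mul, smul_zero, smul_zero]

end Cls3

end Pool.Agent.TH122.Aniso
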