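import Pool.Agent.TH122.PrimB

/-!
# The conjecture of Hodge type and isotropic classes of the middle codimension
-/

open CategoryTheory AlgebraicGeometry Finset

universe u v w

namespace Pool.Agent.TH122.Aniso

open Pool.Agent.H914 Pool.Agent.H914.VarClass Pool.Agent.H914.VarClass.Obj
  Pool.Agent.H914.WeilCohomology Pool.Agent.H281R3.HT

variable {k : Type u} [Field k] {𝒱 : VarClass k} {ops : CycleOps 𝒱}
  {W : WeilCohomology.{u, v} ops} {P Q : Polarized 𝒱}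

lemma nf_cycle (hD : P.X.IsCyc 1 P.D) {j : ℕ} (hj : 2 * j ≤ P.X.dim) {z : P.X.Cycles}
    (hz : P.X.IsCyc j z) :
    nf W P j (W.cl P.X z) (W.cl P.X z) =
      ((P.X.V.degCycle (ops.mul z (divPow ops P.D (P.X.dim - 2 * j) z)) /
        ((P.X.dim - 2 * j).factorial : ℚ) : ℚ) : W.K) := by
  have h1 := ops.mul_mem hz (divPow_mem (ops := ops) hD (P.X.dim - 2 * j) hz)
  rw [show j + (j + (P.X.dim - 2 * j)) = P.X.dim by omega] at h1
  have h2 := W.tr_cl h1
  have halg : W.cl P.X z ∈ algClasses W P.X j := ⟨z, hz, rfl⟩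
  rw [W.cl_mul, cl_divPow, mulLeft_pow_apply] at h2
  rw [nf, Rat.cast_div, ← h2, Rat.cast_natCast, ← mul_assoc, ← mul_assoc, alg_comm halg]
  rfl

/-- The conjecture of Hodge type in codimension zero. -/
lemma codim_zero (hD : P.X.IsCyc 1 P.D)
    (hdeg : 0 < P.X.V.degCycle (divPow ops P.D P.X.dim P.X.V.fundCycle)) {x : W.H P.X}
    (hx : x ∈ algClasses W P.X 0) (hx0 : x ≠ 0) :
    ∃ q : ℚ, 0 < q ∧ nf W P 0 x x = (q : W.K) := by
  obtain ⟨δ, hδ, hδ'⟩ := nf_one (W := W) hD hdeg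
  have h1 := alg_gr hx
  rw [mul_zero, W.gr_zero, Submodule.mem_span_singleton] at h1
  obtain ⟨c, rfl⟩ := h1
  have htop : W.tr P.X (xi W P ^ P.X.dim) =
      (P.X.V.degCycle (divPow ops P.D P.X.dim P.X.V.fundCycle) : W.K) := tr_top hD
  obtain ⟨s, hs⟩ := tr_alg_rat (alg_mul (xi_pow_alg (W := W) hD P.X.dim) hx)
  rw [mul_smul_comm, mul_one, map_smul, htop, smul_eq_mul] at hs
  set d := P.X.V.degCycle (divPow ops P.D P.X.dim P.X.V.fundCycle) with hd
  have hd0 : (d : W.K) ≠ 0 := by exact_mod_cast hdeg.ne'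
  have hc : c = ((s / d : ℚ) : W.K) := by
    rw [Rat.cast_div, ← hs]
    field_simp
  have hsd : s / d ≠ 0 := by
    intro h0
    rw [h0, Rat.cast_zero] at hc
    rw [hc, zero_smul] at hx0
    exact hx0 rfl
  refine ⟨(s / d) ^ 2 * δ, mul_pos (by positivity) hδ, ?_⟩
  rw [nf_smul_left, nf_smul_right, hδ', hc]
  push_cast
  ring

variable {𝒬 : Polarized 𝒱 → Prop}

/-- A class violating the conjecture of Hodge type gives a nonzero isotropic primitive algebraic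
class on a member of the class. -/
theorem violating (h𝒬 : Cls W 𝒬) (hP : 𝒬 P) {j : ℕ} (hj : 2 * j ≤ P.X.dim) {z : P.X.Cycles}
    (hz : P.X.IsCyc j z) (hprim : W.cl P.X (divPow ops P.D (P.X.dim - 2 * j + 1) z) = 0)
    (hz0 : W.cl P.X z ≠ 0)
    (hneg : ¬ 0 < (-1 : ℚ) ^ j *
      P.X.V.degCycle (ops.mul z (divPow ops P.D (P.X.dim - 2 * j) z))) :
    1 ≤ j ∧ ∃ Z, 𝒬 Z ∧ ∃ y, Prim W Z j y ∧ y ≠ 0 ∧ nf W Z j y y = 0 := by
  push Not at hneg
  have hD := h𝒬.div P hP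
  set x := W.cl P.X z with hx
  have halg : x ∈ algClasses W P.X j := ⟨z, hz, rfl⟩
  have hxP : Prim W P j x := by
    refine ⟨halg, hj, ?_⟩
    rw [cl_divPow, mulLeft_pow_apply] at hprim
    exact hprim
  set t := P.X.V.degCycle (ops.mul z (divPow ops P.D (P.X.dim - 2 * j) z)) with ht
  have hfac : (0 : ℚ) < ((P.X.dim - 2 * j).factorial : ℚ) := by
    exact_mod_cast (P.X.dim - 2 * j).factorial_pos
  have hnf : nf W P j x x = (((-1) ^ j * ((-1) ^ j * t /
      ((P.X.dim - 2 * j).factorial : ℚ)) : ℚ) : W.K) := by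
    rw [hx, nf_cycle hD hj hz]
    congr 1
    rw [mul_div_assoc, ← mul_assoc, ← mul_pow, neg_one_mul, neg_neg, one_pow, one_mul]
  have hq : (-1) ^ j * t / ((P.X.dim - 2 * j).factorial : ℚ) ≤ 0 :=
    div_nonpos_of_nonpos_of_nonneg hneg hfac.le
  rcases Nat.eq_zero_or_pos j with rfl | hj1
  · exfalso
    obtain ⟨q, hq0, hq1⟩ := codim_zero hD (h𝒬.deg P hP) halg hz0
    rw [hnf, pow_zero, one_mul, one_mul] at hq1
    rw [pow_zero, one_mul] at hq
    have h3 : t / ((P.X.dim - 2 * 0).factorial : ℚ) = q := by exact_mod_cast hq1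
    linarith
  · exact ⟨hj1, exists_isotropic h𝒬 hP hj1 hxP hz0 hq hnf⟩

/-- **The conjecture of Hodge type is equivalent to the absence of isotropic primitive classes in
the middle codimension.** -/
theorem hodge_iff (h𝒬 : Cls W 𝒬) :
    (∀ P, 𝒬 P → HodgeType W P.X P.D) ↔
      ∀ P, 𝒬 P → ∀ m, P.X.dim = 2 * m → ∀ z, P.X.IsCyc m z → W.cl P.X (ops.mul P.D z) = 0 →
        P.X.V.degCycle (ops.mul z z) = 0 → W.cl P.X z = 0 := by
  constructor
  · intro h P hP m hm z hz hprim hsq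
    by_contra h0
    have h1 := h P hP m (by omega) z hz
    rw [show P.X.dim - 2 * m = 0 by omega] at h1
    have h2 := h1 hprim h0
    change 0 < (-1 : ℚ) ^ m * P.X.V.degCycle (ops.mul z z) at h2
    rw [hsq, mul_zero] at h2
    exact lt_irrefl _ h2
  · intro h P hP j hj z hz hprim hz0
    by_contra hneg
    obtain ⟨_, Z, hZ, y, hy, hy0, hyy⟩ := violating h𝒬 hP hj hz hprim hz0 hneg
    obtain ⟨Ω, ⟨ω, hω, hωΩ⟩, h1, h2, h3⟩ := exists_middle h𝒬 hZ hy hy0 hyy
    apply h2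
    rw [← hωΩ]
    refine h (pr ops Z Z) (h𝒬.prod Z Z hZ hZ) Z.X.dim (two_mul _).symm ω hω ?_ ?_
    · rw [W.cl_mul, hωΩ]
      exact h1
    · have h4 := ops.mul_mem hω hω
      have h5 := W.tr_cl (X := (pr ops Z Z).X) (z := ops.mul ω ω) h4
      rw [W.cl_mul, hωΩ, h3] at h5
      exact_mod_cast h5.symm

end Pool.Agent.TH122.Aniso
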