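import Pool.Agent.TH122.PrimC

/-!
# The conjecture of Hodge type and isotropic classes on squares
-/

open CategoryTheory AlgebraicGeometry Finset

universe u v w

namespace Pool.Agent.TH122.Aniso

open Pool.Agent.H914 Pool.Agent.H914.VarClass Pool.Agent.H914.VarClass.Obj
  Pool.Agent.H914.WeilCohomology Pool.Agent.H281R3.HT

variable {k : Type u} [Field k] {𝒱 : VarClass k} {ops : CycleOps 𝒱}

/-- The class of `z`, a cycle of codimension `m` on a variety of dimension `2 m`, is primitive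
with respect to the divisor `D`, and the self-intersection number of `z` vanishes. -/
structure IsIsotropic (W : WeilCohomology.{u, v} ops) (X : 𝒱.Obj) (D : X.Cycles) (m : ℕ)
    (z : X.Cycles) : Prop where
  codim : X.IsCyc m z
  dim_eq : X.dim = 2 * m
  prim : W.cl X (ops.mul D z) = 0
  sq : X.V.degCycle (ops.mul z z) = 0

variable {W : WeilCohomology.{u, v} ops} {𝒬 : Polarized 𝒱 → Prop}

theorem hodge_iff' (h𝒬 : Cls W 𝒬) :
    ((∀ P, 𝒬 P → HodgeType W P.X P.D) ↔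
      ∀ P, 𝒬 P → ∀ m z, IsIsotropic W P.X P.D m z → W.cl P.X z = 0) ∧
    ((∀ P, 𝒬 P → HodgeType W P.X P.D) ↔
      ∀ P, 𝒬 P → ∀ z, IsIsotropic W (P.X.prod P.X) (boxSum ops P.D) P.X.dim z →
        W.cl (P.X.prod P.X) z = 0) := by
  have h1 := hodge_iff h𝒬
  have hA : (∀ P, 𝒬 P → HodgeType W P.X P.D) →
      ∀ P, 𝒬 P → ∀ m z, IsIsotropic W P.X P.D m z → W.cl P.X z = 0 := by
    intro h P hP m z hz
    exact h1.1 h P hP m hz.dim_eq z hz.codim hz.prim hz.sq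
  refine ⟨⟨hA, fun h => h1.2 fun P hP m hm z hz hprim hsq => h P hP m z ⟨hz, hm, hprim, hsq⟩⟩,
    fun h P hP z hz => hA h (pr ops P P) (h𝒬.prod P P hP hP) _ z hz, ?_⟩
  intro h P hP j hj z hz hprim hz0
  by_contra hneg
  obtain ⟨_, Z, hZ, y, hy, hy0, hyy⟩ := violating h𝒬 hP hj hz hprim hz0 hneg
  obtain ⟨Ω, ⟨ω, hω, hωΩ⟩, h1, h2, h3⟩ := exists_middle h𝒬 hZ hy hy0 hyy
  apply h2
  rw [← hωΩ]
  refine h Z hZ ω ⟨hω, (two_mul _).symm, ?_, ?_⟩
  · rw [W.cl_mul, hωΩ]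
    exact h1
  · have h4 := ops.mul_mem hω hω
    have h5 := W.tr_cl (X := (pr ops Z Z).X) (z := ops.mul ω ω) h4
    rw [W.cl_mul, hωΩ, h3] at h5
    exact_mod_cast h5.symm

end Pool.Agent.TH122.Aniso
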