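import Mathlib

/-!
# Vectors killed by products of linear factors

For an endomorphism `F` of a vector space and a set `S` of numbers, `sp F S` is the space of the
vectors killed by a product of factors `F - r`, `r ∈ S`: the sum of the generalized eigenspaces for
the eigenvalues in `S`.
-/

open Polynomial Module

universe u v

namespace Pool.Agent.TH122.Wm

variable {E : Type u} [Field E] {V : Type v} [AddCommGroup V] [Module E V]

/-- The product of the factors `F - r`, `r ∈ s`. -/
noncomputable def pr (F : Module.End E V) (s : Multiset E) : Module.End E V :=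
  aeval F (s.map fun r => (X - C r : E[X])).prod

lemma pr_zero (F : Module.End E V) : pr F 0 = 1 := by simp [pr]

lemma pr_cons (F : Module.End E V) (r : E) (s : Multiset E) :
    pr F (r ::ₘ s) = (F - algebraMap E _ r) * pr F s := by simp [pr]

lemma pr_add (F : Module.End E V) (s t : Multiset E) : pr F (s + t) = pr F s * pr F t := by
  simp [pr]

lemma pr_comm (F : Module.End E V) (s t : Multiset E) : pr F s * pr F t = pr F t * pr F s := by
  rw [← pr_add, ← pr_add, add_comm]

lemma pr_comm_F (F : Module.End E V) (s : Multiset E) : pr F s * F = F * pr F s := by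
  have h1 : pr F s * aeval F (X : E[X]) = aeval F (X : E[X]) * pr F s := by
    rw [pr, ← map_mul, ← map_mul, mul_comm]
  rwa [aeval_X] at h1

/-- The vectors killed by a product of factors `F - r`, `r ∈ S`. -/
def sp (F : Module.End E V) (S : Set E) : Submodule E V where
  carrier := {x | ∃ s : Multiset E, (∀ r ∈ s, r ∈ S) ∧ pr F s x = 0}
  add_mem' := by
    rintro x y ⟨s, hs, hx⟩ ⟨t, ht, hy⟩
    refine ⟨s + t, fun r hr => ?_, ?_⟩
    · rcases Multiset.mem_add.1 hr with h | h
      · exact hs r h
      · exact ht r h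
    · rw [map_add, pr_add, Module.End.mul_apply, Module.End.mul_apply, hy, map_zero, add_zero,
        ← Module.End.mul_apply, pr_comm, Module.End.mul_apply, hx, map_zero]
  zero_mem' := ⟨0, by simp, by simp⟩
  smul_mem' := by
    rintro c x ⟨s, hs, hx⟩
    exact ⟨s, hs, by rw [map_smul, hx, smul_zero]⟩

lemma mem_sp {F : Module.End E V} {S : Set E} {x : V} :
    x ∈ sp F S ↔ ∃ s : Multiset E, (∀ r ∈ s, r ∈ S) ∧ pr F s x = 0 := Iff.rfl

lemma sp_mono {F : Module.End E V} {S T : Set E} (h : S ⊆ T) : sp F S ≤ sp F T := by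
  rintro x ⟨s, hs, hx⟩
  exact ⟨s, fun r hr => h (hs r hr), hx⟩

lemma F_mem_sp {F : Module.End E V} {S : Set E} {x : V} (hx : x ∈ sp F S) : F x ∈ sp F S := by
  obtain ⟨s, hs, hx⟩ := hx
  refine ⟨s, hs, ?_⟩
  rw [← Module.End.mul_apply, pr_comm_F, Module.End.mul_apply, hx, map_zero]

lemma pr_eigen {F : Module.End E V} {x : V} {α : E} (hx : F x = α • x) (s : Multiset E) :
    pr F s x = (s.map fun r => α - r).prod • x := by
  induction s using Multiset.induction_on with
  | empty => simp [pr_zero]
  | cons r s ih =>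
    rw [pr_cons, Module.End.mul_apply, ih, map_smul, LinearMap.sub_apply, hx,
      Module.algebraMap_end_apply, ← sub_smul, smul_smul, Multiset.map_cons, Multiset.prod_cons,
      mul_comm]

lemma eigen_mem {F : Module.End E V} {S : Set E} {x : V} {α : E} (hx : F x = α • x)
    (hα : α ∈ S) : x ∈ sp F S := by
  refine ⟨{α}, by simpa using hα, ?_⟩
  rw [pr_eigen hx]
  simp

lemma mem_of_eigen {F : Module.End E V} {S : Set E} {x : V} {α : E} (hx : F x = α • x)
    (hx0 : x ≠ 0) (h : x ∈ sp F S) : α ∈ S := by
  obtain ⟨s, hs, h⟩ := h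
  rw [pr_eigen hx, smul_eq_zero] at h
  have h1 := h.resolve_right hx0
  rw [Multiset.prod_eq_zero_iff, Multiset.mem_map] at h1
  obtain ⟨r, hr, hr0⟩ := h1
  rw [sub_eq_zero] at hr0
  rw [hr0]
  exact hs r hr

lemma isCoprime_prods {s t : Multiset E} (h : ∀ r ∈ s, r ∉ t) :
    IsCoprime (s.map fun r => (X - C r : E[X])).prod (t.map fun r => (X - C r : E[X])).prod := by
  induction s using Multiset.induction_on with
  | empty => simp only [Multiset.map_zero, Multiset.prod_zero]; exact isCoprime_one_left
  | cons r s ih =>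
    rw [Multiset.map_cons, Multiset.prod_cons]
    refine IsCoprime.mul_left ?_ (ih fun a ha => h a (Multiset.mem_cons_of_mem ha))
    have hr := h r (Multiset.mem_cons_self r s)
    clear ih h
    induction t using Multiset.induction_on with
    | empty => simp only [Multiset.map_zero, Multiset.prod_zero]; exact isCoprime_one_right
    | cons a t ih =>
      rw [Multiset.map_cons, Multiset.prod_cons]
      refine IsCoprime.mul_right ?_ (ih fun h0 => hr (Multiset.mem_cons_of_mem h0))
      apply isCoprime_X_sub_C_of_isUnit_sub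
      rw [isUnit_iff_ne_zero, sub_ne_zero]
      rintro rfl
      exact hr (Multiset.mem_cons_self _ _)

lemma bezout {s t : Multiset E} (h : ∀ r ∈ s, r ∉ t) (F : Module.End E V) :
    ∃ a b : Module.End E V, a * pr F s + b * pr F t = 1 ∧ (∀ u, a * pr F u = pr F u * a) ∧
      ∀ u, b * pr F u = pr F u * b := by
  obtain ⟨a, b, hab⟩ := isCoprime_prods h
  refine ⟨aeval F a, aeval F b, ?_, fun u => ?_, fun u => ?_⟩
  · rw [pr, pr, ← map_mul, ← map_mul, ← map_add, hab, map_one]
  · rw [pr, ← map_mul, ← map_mul, mul_comm]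
  · rw [pr, ← map_mul, ← map_mul, mul_comm]

lemma sp_disjoint {F : Module.End E V} {S T : Set E} (h : Disjoint S T) {x : V}
    (hS : x ∈ sp F S) (hT : x ∈ sp F T) : x = 0 := by
  obtain ⟨s, hs, hx⟩ := hS
  obtain ⟨t, ht, hx'⟩ := hT
  obtain ⟨a, b, hab, -, -⟩ := bezout (s := s) (t := t)
    (fun r hr hr' => Set.disjoint_left.1 h (hs r hr) (ht r hr')) F
  have h1 : (a * pr F s + b * pr F t) x = x := by rw [hab, Module.End.one_apply]
  rw [LinearMap.add_apply, Module.End.mul_apply, Module.End.mul_apply, hx, hx', map_zero,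
    map_zero, add_zero] at h1
  exact h1.symm

lemma sp_union {F : Module.End E V} {S T : Set E} {x : V} (hx : x ∈ sp F (S ∪ T)) :
    ∃ y ∈ sp F S, ∃ z ∈ sp F T, x = y + z := by
  classical
  obtain ⟨s, hs, hx⟩ := hx
  set s₁ := s.filter (· ∈ S) with hs₁
  set s₂ := s.filter (fun r => ¬ r ∈ S) with hs₂
  have hsum : s₁ + s₂ = s := Multiset.filter_add_not _ _
  obtain ⟨a, b, hab, ha, hb⟩ := bezout (s := s₁) (t := s₂) (fun r hr hr' =>
    (Multiset.mem_filter.1 hr').2 (Multiset.mem_filter.1 hr).2) F
  rw [← hsum, pr_add] at hx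
  refine ⟨b (pr F s₂ x), ⟨s₁, fun r hr => (Multiset.mem_filter.1 hr).2, ?_⟩,
    a (pr F s₁ x), ⟨s₂, fun r hr => ?_, ?_⟩, ?_⟩
  · rw [← Module.End.mul_apply (pr F s₁) b, ← hb, Module.End.mul_apply,
      ← Module.End.mul_apply (pr F s₁), hx, map_zero]
  · obtain ⟨h1, h2⟩ := Multiset.mem_filter.1 hr
    exact (hs r h1).resolve_left h2
  · rw [← Module.End.mul_apply (pr F s₂) a, ← ha, Module.End.mul_apply,
      ← Module.End.mul_apply (pr F s₂), pr_comm, hx, map_zero]
  · have h1 : (a * pr F s₁ + b * pr F s₂) x = x := by rw [hab, Module.End.one_apply]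
    rw [LinearMap.add_apply, Module.End.mul_apply, Module.End.mul_apply] at h1
    rw [add_comm]
    exact h1.symm

/-- An operator with `N F = q F N` divides the eigenvalues by `q`. -/
lemma N_mem_sp {F N : Module.End E V} {q : E} (hq : q ≠ 0) (hNF : ∀ x, N (F x) = q • F (N x))
    {S T : Set E} (hST : ∀ r ∈ S, r / q ∈ T) {x : V} (hx : x ∈ sp F S) : N x ∈ sp F T := by
  obtain ⟨s, hs, hx⟩ := hx
  have key : ∀ s : Multiset E, ∀ x, N (pr F s x) =
      q ^ (Multiset.card s) • pr F (s.map fun r => r / q) (N x) := by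
    intro s
    induction s using Multiset.induction_on with
    | empty => intro x; simp [pr_zero]
    | cons r s ih =>
      intro x
      rw [pr_cons, Module.End.mul_apply, LinearMap.sub_apply, map_sub, hNF,
        Module.algebraMap_end_apply, map_smul, ih, Multiset.map_cons, pr_cons,
        Module.End.mul_apply, LinearMap.sub_apply, Module.algebraMap_end_apply, map_smul,
        Multiset.card_cons, pow_succ, smul_sub, smul_smul, smul_smul, smul_smul]
      congr 2
      · ring
      · field_simp
  refine ⟨s.map fun r => r / q, fun r hr => ?_, ?_⟩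
  · obtain ⟨r', hr', rfl⟩ := Multiset.mem_map.1 hr
    exact hST r' (hs r' hr')
  · have h1 := key s x
    rw [hx, map_zero] at h1
    exact (smul_eq_zero.1 h1.symm).resolve_left (pow_ne_zero _ hq)

/-- Orthogonality of generalized eigenspaces. -/
lemma ortho {F : Module.End E V} {b : V →ₗ[E] V →ₗ[E] E} {c : E}
    (hb : ∀ x y, b (F x) (F y) = c * b x y) {S T : Set E} (hST : ∀ r ∈ S, ∀ r' ∈ T, r * r' ≠ c)
    {x y : V} (hx : x ∈ sp F S) (hy : y ∈ sp F T) : b x y = 0 := by
  obtain ⟨s, hs, hx⟩ := hx
  obtain ⟨t, ht, hy⟩ := hy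
  induction s using Multiset.induction_on generalizing x y t with
  | empty => rw [pr_zero, Module.End.one_apply] at hx; rw [hx, map_zero, LinearMap.zero_apply]
  | cons r s ihs =>
    induction t using Multiset.induction_on generalizing x y with
    | empty => rw [pr_zero, Module.End.one_apply] at hy; rw [hy, map_zero]
    | cons r' t iht =>
      have hr := hs r (Multiset.mem_cons_self r s)
      have hr' := ht r' (Multiset.mem_cons_self r' t)
      set x' := (F - algebraMap E _ r) x with hx'
      set y' := (F - algebraMap E _ r') y with hy'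
      have hFx : F x = r • x + x' := by
        rw [hx', LinearMap.sub_apply, Module.algebraMap_end_apply]; abel
      have hFy : F y = r' • y + y' := by
        rw [hy', LinearMap.sub_apply, Module.algebraMap_end_apply]; abel
      have h1 : pr F s x' = 0 := by
        rw [hx', ← Module.End.mul_apply]
        have h2 : pr F s * (F - algebraMap E _ r) = (F - algebraMap E _ r) * pr F s := by
          rw [mul_sub, sub_mul, pr_comm_F, Algebra.commutes]
        rw [h2, ← pr_cons, hx]
      have h2 : pr F t y' = 0 := by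
        rw [hy', ← Module.End.mul_apply]
        have h2 : pr F t * (F - algebraMap E _ r') = (F - algebraMap E _ r') * pr F t := by
          rw [mul_sub, sub_mul, pr_comm_F, Algebra.commutes]
        rw [h2, ← pr_cons, hy]
      have hss : ∀ a ∈ s, a ∈ S := fun a ha => hs a (Multiset.mem_cons_of_mem ha)
      have htt : ∀ a ∈ t, a ∈ T := fun a ha => ht a (Multiset.mem_cons_of_mem ha)
      have e1 : b x' y = 0 := ihs hss h1 (r' ::ₘ t) ht hy
      have e2 : b x' y' = 0 := ihs hss h1 t htt h2
      have e3 : b x y' = 0 := iht hx htt h2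
      have h3 := hb x y
      simp only [hFx, hFy, map_add, LinearMap.add_apply, map_smul, LinearMap.smul_apply, e1, e2,
        e3, smul_zero, add_zero, smul_eq_mul] at h3
      have h4 : (r * r' - c) * b x y = 0 := by linear_combination h3
      exact (mul_eq_zero.1 h4).resolve_left (sub_ne_zero.2 (hST r hr r' hr'))

/-- Over an algebraically closed field every vector is in the space for the set of eigenvalues. -/
lemma sp_eigenvalues [IsAlgClosed E] [Module.Finite E V] (F : Module.End E V) (x : V) :
    x ∈ sp F {α | F.HasEigenvalue α} := by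
  have h1 : (minpoly E F).Splits := IsAlgClosed.splits _
  have hmon : (minpoly E F).Monic := minpoly.monic (Algebra.IsIntegral.isIntegral F)
  refine ⟨(minpoly E F).roots, fun r hr => ?_, ?_⟩
  · exact Module.End.hasEigenvalue_of_isRoot (Polynomial.isRoot_of_mem_roots hr)
  · have h2 : ((minpoly E F).roots.map fun r => (X - C r : E[X])).prod = minpoly E F :=
      (h1.eq_prod_roots_of_monic hmon).symm
    rw [pr, h2, minpoly.aeval, LinearMap.zero_apply]

/-- A stable subspace contains an eigenvector. -/
lemma exists_eigen [IsAlgClosed E] [Module.Finite E V] (F : Module.End E V) (U : Submodule E V)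
    (hU : ∀ x ∈ U, F x ∈ U) (h : ∃ x ∈ U, x ≠ 0) : ∃ x ∈ U, x ≠ 0 ∧ ∃ α : E, F x = α • x := by
  obtain ⟨x, hx, hx0⟩ := h
  have hnt : Nontrivial U := ⟨⟨x, hx⟩, 0, fun h0 => hx0 (congrArg Subtype.val h0)⟩
  obtain ⟨α, hα⟩ := Module.End.exists_eigenvalue (F.restrict hU)
  obtain ⟨y, hy⟩ := hα.exists_hasEigenvector
  rw [Module.End.hasEigenvector_iff, Module.End.mem_eigenspace_iff] at hy
  refine ⟨y, y.2, fun h0 => hy.2 (Subtype.ext h0), α, ?_⟩
  exact congrArg Subtype.val hy.1

end Pool.Agent.TH122.Wm
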