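import Pool.Agent.TH122.WmA

/-!
# The monodromy filtration, Galois cohomology and tensor products: linear algebra
-/

open Module TensorProduct

universe u v w

namespace Pool.Agent.TH122.Wm

variable {E : Type u} [Field E]

/-- The number `α` is algebraic over the rational numbers and all its images in the complex numbers
have absolute value `q ^ (w / 2)`. -/
def IsWeilNumber [CharZero E] (q : ℕ) (w : ℤ) (α : E) : Prop :=
  IsAlgebraic ℚ α ∧ ∀ σ : E →+* ℂ, ‖σ α‖ ^ 2 = (q : ℝ) ^ w

section Filtration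

variable {V : Type v} [AddCommGroup V] [Module E V]

/-- `M` is the monodromy filtration of the operator `N`: it is increasing and finite, `N` maps `M a`
to `M (a - 2)`, and `N ^ a` induces an isomorphism from the graded piece of index `a` to the graded
piece of index `- a`. -/
structure IsMonodromyFiltration (N : Module.End E V) (M : ℤ → Submodule E V) : Prop where
  mono : Monotone M
  bot : ∃ a, M a = ⊥
  top : ∃ a, M a = ⊤
  map : ∀ a, ∀ x ∈ M a, N x ∈ M (a - 2)
  inj : ∀ a : ℕ, ∀ x ∈ M a, (N ^ a) x ∈ M (-a - 1) → x ∈ M (a - 1)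
  surj : ∀ a : ℕ, ∀ y ∈ M (-a), ∃ x ∈ M a, y - (N ^ a) x ∈ M (-a - 1)

/-- The pair of operators `F`, `N` is mw pure of weight `i`: for all `a` the eigenvalues of `F` on the
graded piece of index `a` of the monodromy filtration of `N` are Weil numbers of weight `i + a`. -/
def IsMwPure [CharZero E] (q : ℕ) (i : ℕ) (F N : Module.End E V) : Prop :=
  ∃ M : ℤ → Submodule E V, IsMonodromyFiltration N M ∧ (∀ a, ∀ x ∈ M a, F x ∈ M a) ∧
    ∀ (a : ℤ) (α : E) (x : V), x ∈ M a → x ∉ M (a - 1) → F x - α • x ∈ M (a - 1) →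
      IsWeilNumber q (i + a) α

/-- The only vector `x` with `F x = c x` and `N x = 0` is `0`: there are no Galois invariants in the
twist by the unramified character with value `1 / c` at Frobenius. -/
def NoInvariants (c : E) (F N : Module.End E V) : Prop := ∀ x, F x = c • x → N x = 0 → x = 0

/-- The first cohomology group of the complex `V → V ⊕ V → V` with differentials
`x ↦ (φ x - x, N x)` and `(a, b) ↦ N a - (q φ b - b)`, where `φ = c⁻¹ F`, is zero: it is the first
Galois cohomology group of the twist. -/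
def NoCohomology (q c : E) (F N : Module.End E V) : Prop :=
  ∀ a b, N a = q • (c⁻¹ • F b) - b → ∃ x, c⁻¹ • F x - x = a ∧ N x = b

/-- The second cohomology group of the complex `V → V ⊕ V → V` with differentials
`x ↦ (φ x - x, N x)` and `(a, b) ↦ N a - (q φ b - b)`, where `φ = c⁻¹ F`, is zero: it is the second
Galois cohomology group of the twist. -/
def NoSecondCohomology (q c : E) (F N : Module.End E V) : Prop :=
  ∀ z, ∃ a b, z = N a - (q • (c⁻¹ • F b) - b)

end Filtration

section Weil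

variable [CharZero E] {q : ℕ} {w w' : ℤ} {α β : E}

lemma IsWeilNumber.ne_zero (hE : Nonempty (E →+* ℂ)) (hq : 1 < q) (h : IsWeilNumber q w α) :
    α ≠ 0 := by
  rintro rfl
  obtain ⟨σ⟩ := hE
  have h1 := h.2 σ
  rw [map_zero, norm_zero] at h1
  have h2 : (0 : ℝ) < (q : ℝ) ^ w := zpow_pos (by exact_mod_cast (by omega : 0 < q)) _
  rw [← h1] at h2
  norm_num at h2

lemma IsWeilNumber.unique (hE : Nonempty (E →+* ℂ)) (hq : 1 < q) (h : IsWeilNumber q w α)
    (h' : IsWeilNumber q w' α) : w = w' := by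
  obtain ⟨σ⟩ := hE
  have h1 := h.2 σ
  rw [h'.2 σ] at h1
  exact (zpow_right_injective₀ (by exact_mod_cast (by omega : 0 < q))
    (by exact_mod_cast (by omega : q ≠ 1)) h1).symm

lemma IsWeilNumber.mul (hq : 1 < q) (h : IsWeilNumber q w α) (h' : IsWeilNumber q w' β) :
    IsWeilNumber q (w + w') (α * β) := by
  refine ⟨h.1.mul h'.1, fun σ => ?_⟩
  have hq0 : (q : ℝ) ≠ 0 := by exact_mod_cast (by omega : q ≠ 0)
  rw [map_mul, norm_mul, mul_pow, h.2, h'.2, zpow_add₀ hq0]

lemma IsWeilNumber.inv (h : IsWeilNumber q w α) : IsWeilNumber q (-w) α⁻¹ := by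
  refine ⟨h.1.inv, fun σ => ?_⟩
  rw [map_inv₀, norm_inv, inv_pow, h.2, zpow_neg]

lemma IsWeilNumber.pow (h : IsWeilNumber q w α) (m : ℕ) : IsWeilNumber (q ^ m) w (α ^ m) := by
  refine ⟨h.1.pow m, fun σ => ?_⟩
  rw [map_pow, norm_pow, ← pow_mul, mul_comm m 2, pow_mul, h.2]
  push_cast
  rw [← zpow_natCast, ← zpow_natCast, ← zpow_mul, ← zpow_mul, mul_comm]

lemma isWeilNumber_q (q : ℕ) (j : ℕ) : IsWeilNumber (E := E) q (2 * j) ((q : E) ^ j) := by
  refine ⟨?_, fun σ => ?_⟩
  · have h1 : IsAlgebraic ℚ ((q : ℕ) : E) := isAlgebraic_natCast q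
    exact h1.pow j
  · rw [map_pow, map_natCast, norm_pow, Complex.norm_natCast, ← pow_mul]
    rw [← zpow_natCast]
    push_cast
    rw [mul_comm]

end Weil

/-- **A vector killed by `N` in a tensor product.** -/
lemma tensor_kernel {V : Type v} [AddCommGroup V] [Module E V] {W : Type v} [AddCommGroup W]
    [Module E W] {U : Type v} [AddCommGroup U] [Module E U] {F₁ N₁ : Module.End E V}
    {F₂ N₂ : Module.End E W} {F₃ N₃ : Module.End E U} {Q : E} (hQ : Q ≠ 0)
    (h₁ : ∀ x, N₁ (F₁ x) = Q • F₁ (N₁ x)) (h₂ : ∀ x, N₂ (F₂ x) = Q • F₂ (N₂ x))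
    {φ : (V ⊗[E] W) →ₗ[E] U} (hφ : Function.Injective φ)
    (hF : ∀ x y, F₃ (φ (x ⊗ₜ y)) = φ (F₁ x ⊗ₜ F₂ y))
    (hN : ∀ x y, N₃ (φ (x ⊗ₜ y)) = φ (N₁ x ⊗ₜ y + x ⊗ₜ N₂ y)) {x : V} {y : W} {α : E}
    {s k : ℕ} (hsk : s ≤ k) (hx : F₁ x = α • x) (hxs : (N₁ ^ s) x ≠ 0)
    (hxs' : (N₁ ^ (s + 1)) x = 0) (hy : F₂ y = Q ^ k • y) (hyk : (N₂ ^ k) y ≠ 0)
    (hyk' : (N₂ ^ (k + 1)) y = 0) : ∃ ξ, ξ ≠ 0 ∧ N₃ ξ = 0 ∧ F₃ ξ = α • ξ := by
  classical
  set g : ℕ → U := fun a => φ ((N₁ ^ a) x ⊗ₜ (N₂ ^ (k + 1 - a)) y) with hg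
  set t : ℕ → V ⊗[E] W := fun a => (N₁ ^ a) x ⊗ₜ (N₂ ^ (k - a)) y with ht
  have hNt : ∀ a, a ≤ s → N₃ (φ (t a)) = g (a + 1) + g a := by
    intro a ha
    rw [ht]
    beta_reduce
    rw [hN, map_add, ← Module.End.mul_apply N₁, ← pow_succ', ← Module.End.mul_apply N₂,
      ← pow_succ', hg]
    beta_reduce
    rw [show k + 1 - (a + 1) = k - a by omega, show k + 1 - a = k - a + 1 by omega]
  have hpow₁ : ∀ a, F₁ ((N₁ ^ a) x) = (α * (Q⁻¹) ^ a) • (N₁ ^ a) x := by
    intro a
    induction a with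
    | zero => simpa using hx
    | succ a ih =>
      have h3 := h₁ ((N₁ ^ a) x)
      rw [ih, map_smul] at h3
      rw [pow_succ', Module.End.mul_apply]
      have h4 : F₁ (N₁ ((N₁ ^ a) x)) = Q⁻¹ • (Q • F₁ (N₁ ((N₁ ^ a) x))) := by
        rw [smul_smul, inv_mul_cancel₀ hQ, one_smul]
      rw [h4, ← h3, smul_smul]
      congr 1
      ring
  have hpow₂ : ∀ a, F₂ ((N₂ ^ a) y) = (Q ^ k * (Q⁻¹) ^ a) • (N₂ ^ a) y := by
    intro a
    induction a with
    | zero => simpa using hy
    | succ a ih =>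
      have h3 := h₂ ((N₂ ^ a) y)
      rw [ih, map_smul] at h3
      rw [pow_succ', Module.End.mul_apply]
      have h4 : F₂ (N₂ ((N₂ ^ a) y)) = Q⁻¹ • (Q • F₂ (N₂ ((N₂ ^ a) y))) := by
        rw [smul_smul, inv_mul_cancel₀ hQ, one_smul]
      rw [h4, ← h3, smul_smul]
      congr 1
      ring
  have hFt : ∀ a, a ≤ s → F₃ (φ (t a)) = α • φ (t a) := by
    intro a ha
    rw [ht]
    beta_reduce
    rw [hF, hpow₁, hpow₂, TensorProduct.smul_tmul_smul, map_smul]
    congr 1
    have h5 : Q ^ k = Q ^ (k - a) * Q ^ a := by rw [← pow_add]; congr 1; omega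
    rw [h5]
    have h6 : (Q⁻¹) ^ (k - a) * Q ^ (k - a) = 1 := by
      rw [← mul_pow, inv_mul_cancel₀ hQ, one_pow]
    have h7 : (Q⁻¹) ^ a * Q ^ a = 1 := by rw [← mul_pow, inv_mul_cancel₀ hQ, one_pow]
    linear_combination (α * (Q⁻¹) ^ a * Q ^ a) * h6 + α * h7
  set τ : V ⊗[E] W := ∑ a ∈ Finset.range (s + 1), (-1 : E) ^ a • t a with hτ
  refine ⟨φ τ, ?_, ?_, ?_⟩
  · rw [← map_zero φ]
    intro h0
    have h1 := hφ h0
    obtain ⟨f, hf⟩ : ∃ f : V →ₗ[E] E, f ((N₁ ^ s) x) ≠ 0 := by
      by_contra hcon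
      push Not at hcon
      exact hxs ((Module.forall_dual_apply_eq_zero_iff E _).1 hcon)
    obtain ⟨f', hf'⟩ : ∃ f : W →ₗ[E] E, f ((N₂ ^ k) y) ≠ 0 := by
      by_contra hcon
      push Not at hcon
      exact hyk ((Module.forall_dual_apply_eq_zero_iff E _).1 hcon)
    have h2 := congrArg (TensorProduct.map (f ∘ₗ (N₁ ^ s)) f') h1
    rw [map_zero, hτ, map_sum, Finset.sum_eq_single 0] at h2
    · rw [pow_zero, one_smul, ht] at h2
      beta_reduce at h2
      rw [TensorProduct.map_tmul, LinearMap.comp_apply, pow_zero, Module.End.one_apply,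
        Nat.sub_zero] at h2
      have h3 := congrArg (TensorProduct.lid E E) h2
      rw [TensorProduct.lid_tmul, map_zero, smul_eq_mul] at h3
      exact mul_ne_zero hf hf' h3
    · intro a ha ha0
      rw [map_smul, ht]
      beta_reduce
      rw [TensorProduct.map_tmul, LinearMap.comp_apply, ← Module.End.mul_apply, ← pow_add]
      have h4 : (N₁ ^ (s + a)) x = 0 := by
        rw [show s + a = (a - 1) + (s + 1) by omega, pow_add, Module.End.mul_apply, hxs',
          map_zero]
      rw [h4, map_zero, TensorProduct.zero_tmul, smul_zero]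
    · intro h; exact absurd (Finset.mem_range.2 (by omega)) h
  · have h1 : ∀ n, n ≤ s + 1 → N₃ (φ (∑ a ∈ Finset.range n, (-1 : E) ^ a • t a)) =
        g 0 - (-1 : E) ^ n • g n := by
      intro n
      induction n with
      | zero => intro _; simp
      | succ n ih =>
        intro hn
        rw [Finset.sum_range_succ, map_add, map_add, ih (by omega), map_smul, map_smul,
          hNt n (by omega), pow_succ]
        module
    rw [hτ, h1 (s + 1) le_rfl, hg]
    beta_reduce
    rw [hxs', TensorProduct.zero_tmul, map_zero, smul_zero, Nat.sub_zero, hyk',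
      TensorProduct.tmul_zero, map_zero, sub_zero]
  · rw [hτ, map_sum, map_sum, Finset.smul_sum]
    apply Finset.sum_congr rfl
    intro a ha
    rw [map_smul, map_smul, hFt a (by have := Finset.mem_range.1 ha; omega), smul_comm]

/-- **Galois invariants and the second Galois cohomology group.** -/
lemma noInvariants_iff_second {V : Type v} [AddCommGroup V] [Module E V] [Module.Finite E V]
    {F N : Module.End E V} {q c c' t : E} (hq : q ≠ 0) (hc : c ≠ 0) (ht : t ≠ 0)
    (hcc : c' * c = q * t) {b : V →ₗ[E] V →ₗ[E] E}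
    (hb₁ : ∀ x, (∀ y, b x y = 0) → x = 0) (hb₂ : ∀ y, (∀ x, b x y = 0) → y = 0)
    (hbF : ∀ x y, b (F x) (F y) = t * b x y) (hbN : ∀ x y, b (N x) y = - b x (N y)) :
    NoInvariants c' F N ↔ NoSecondCohomology q c F N := by
  set φ : Module.End E V := c⁻¹ • F with hφ
  set d₁ : V × V →ₗ[E] V := N ∘ₗ LinearMap.fst E V V -
    (q • φ - LinearMap.id) ∘ₗ LinearMap.snd E V V with hd₁
  have hd₁a : ∀ x y, d₁ (x, y) = N x - (q • (c⁻¹ • F y) - y) := fun x y => rfl
  have hsec : NoSecondCohomology q c F N ↔ LinearMap.range d₁ = ⊤ := by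
    rw [LinearMap.range_eq_top]
    constructor
    · intro h z
      obtain ⟨x, y, hxy⟩ := h z
      exact ⟨(x, y), hxy.symm⟩
    · intro h z
      obtain ⟨⟨x, y⟩, hxy⟩ := h z
      exact ⟨x, y, hxy.symm⟩
  have hFs : Function.Surjective F := by
    rw [← LinearMap.injective_iff_surjective, ← LinearMap.ker_eq_bot, LinearMap.ker_eq_bot']
    intro z hz
    apply hb₁
    intro z'
    have h1 := hbF z z'
    rw [hz, map_zero, LinearMap.zero_apply] at h1
    exact (mul_eq_zero.1 h1.symm).resolve_left ht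
  rw [hsec]
  constructor
  · intro h
    by_contra hne
    obtain ⟨f, hf0, hf⟩ := Submodule.exists_le_ker_of_lt_top _ (lt_top_iff_ne_top.2 hne)
    have hinj : Function.Injective b.flip := by
      rw [← LinearMap.ker_eq_bot, LinearMap.ker_eq_bot']
      intro y hy
      apply hb₂
      intro x
      exact congrArg (fun g => g x) hy
    obtain ⟨y, hy⟩ := (LinearMap.injective_iff_surjective_of_finrank_eq_finrank
      (Subspace.dual_finrank_eq).symm).1 hinj f
    have hy0 : y ≠ 0 := by
      rintro rfl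
      rw [map_zero] at hy
      exact hf0 hy.symm
    have hbd : ∀ x z, b (d₁ (x, z)) y = 0 := by
      intro x z
      have h1 : f (d₁ (x, z)) = 0 := hf ⟨(x, z), rfl⟩
      rw [← hy] at h1
      exact h1
    apply hy0
    apply h
    · rw [← sub_eq_zero]
      apply hb₂
      intro x
      obtain ⟨z, rfl⟩ := hFs x
      have h1 := hbd 0 z
      rw [hd₁a, map_zero, zero_sub, map_neg, LinearMap.neg_apply, neg_eq_zero, map_sub,
        LinearMap.sub_apply, sub_eq_zero, map_smul, map_smul, LinearMap.smul_apply,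
        LinearMap.smul_apply, smul_eq_mul, smul_eq_mul] at h1
      rw [map_sub, map_smul, smul_eq_mul, hbF, ← h1]
      have h2 : c' = q * t * c⁻¹ := by
        rw [← hcc, mul_assoc, mul_inv_cancel₀ hc, mul_one]
      rw [h2]
      ring
    · apply hb₂
      intro x
      have h1 := hbd x 0
      rw [hd₁a, map_zero, smul_zero, smul_zero, sub_zero, sub_zero, hbN, neg_eq_zero] at h1
      exact h1
  · intro h y hF hN
    apply hb₂
    intro x
    obtain ⟨⟨a, z⟩, rfl⟩ : x ∈ LinearMap.range d₁ := by rw [h]; trivial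
    rw [hd₁a, map_sub, map_sub, LinearMap.sub_apply, LinearMap.sub_apply, hbN, hN, map_zero,
      neg_zero, zero_sub, neg_eq_zero, map_smul, map_smul, LinearMap.smul_apply,
      LinearMap.smul_apply, smul_eq_mul, smul_eq_mul, sub_eq_zero]
    have h1 := hbF z y
    rw [hF, map_smul, smul_eq_mul] at h1
    have h2 : q * t * (c⁻¹ * b (F z) y) = t * b z y := by
      rw [← h1, ← hcc]
      field_simp
    have h3 : t * (q * (c⁻¹ * b (F z) y)) = t * b z y := by rw [← h2]; ring
    exact mul_left_cancel₀ ht h3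

/-- **Galois invariants and Galois cohomology.** -/
lemma noInvariants_iff {V : Type v} [AddCommGroup V] [Module E V] [Module.Finite E V]
    {F N : Module.End E V} {q c : E} (hq : q ≠ 0) (hc : c ≠ 0)
    (hNF : ∀ x, N (F x) = q • F (N x)) {b : V →ₗ[E] V →ₗ[E] E}
    (hb₁ : ∀ x, (∀ y, b x y = 0) → x = 0) (hb₂ : ∀ y, (∀ x, b x y = 0) → y = 0)
    (hbF : ∀ x y, q * b (F x) (F y) = c ^ 2 * b x y) (hbN : ∀ x y, b (N x) y = - b x (N y)) :
    NoInvariants c F N ↔ NoCohomology q c F N := by
  set φ : Module.End E V := c⁻¹ • F with hφ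
  have hφa : ∀ x, φ x = c⁻¹ • F x := fun x => rfl
  set d₀ : V →ₗ[E] V × V := (φ - LinearMap.id).prod N with hd₀
  set d₁ : V × V →ₗ[E] V := N ∘ₗ LinearMap.fst E V V -
    (q • φ - LinearMap.id) ∘ₗ LinearMap.snd E V V with hd₁
  have hd₀a : ∀ x, d₀ x = (c⁻¹ • F x - x, N x) := fun x => rfl
  have hd₁a : ∀ x y, d₁ (x, y) = N x - (q • (c⁻¹ • F y) - y) := fun x y => rfl
  have hker₀ : NoInvariants c F N ↔ LinearMap.ker d₀ = ⊥ := by
    rw [LinearMap.ker_eq_bot']
    constructor
    · intro h x hx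
      rw [hd₀a, Prod.mk_eq_zero, sub_eq_zero] at hx
      refine h x ?_ hx.2
      have h1 : c⁻¹ • F x = x := hx.1
      calc F x = c • (c⁻¹ • F x) := by rw [smul_smul, mul_inv_cancel₀ hc, one_smul]
        _ = c • x := by rw [h1]
    · intro h x hx hNx
      apply h
      rw [hd₀a, hx, smul_smul, inv_mul_cancel₀ hc, one_smul, sub_self, hNx]
      rfl
  have hle : LinearMap.range d₀ ≤ LinearMap.ker d₁ := by
    rintro _ ⟨x, rfl⟩
    rw [LinearMap.mem_ker, hd₀a, hd₁a, map_sub, map_smul, hNF, smul_comm q c⁻¹, sub_self]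
  have hcoh : NoCohomology q c F N ↔ LinearMap.ker d₁ ≤ LinearMap.range d₀ := by
    constructor
    · rintro h ⟨x, y⟩ hxy
      rw [LinearMap.mem_ker, hd₁a, sub_eq_zero] at hxy
      obtain ⟨z, hz1, hz2⟩ := h x y hxy
      exact ⟨z, by rw [hd₀a, hz1, hz2]⟩
    · intro h x y hxy
      obtain ⟨z, hz⟩ := h (show (x, y) ∈ LinearMap.ker d₁ by
        rw [LinearMap.mem_ker, hd₁a, hxy, sub_self])
      rw [hd₀a, Prod.mk.injEq] at hz
      exact ⟨z, hz.1, hz.2⟩
  have e₀ := LinearMap.finrank_range_add_finrank_ker d₀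
  have e₁ := LinearMap.finrank_range_add_finrank_ker d₁
  rw [Module.finrank_prod] at e₁
  rw [hker₀, hcoh]
  constructor
  · intro h
    have htop : LinearMap.range d₁ = ⊤ := by
      by_contra hne
      obtain ⟨f, hf0, hf⟩ := Submodule.exists_le_ker_of_lt_top _ (lt_top_iff_ne_top.2 hne)
      have hinj : Function.Injective b.flip := by
        rw [← LinearMap.ker_eq_bot, LinearMap.ker_eq_bot']
        intro y hy
        apply hb₂
        intro x
        exact congrArg (fun g => g x) hy
      obtain ⟨y, hy⟩ := (LinearMap.injective_iff_surjective_of_finrank_eq_finrank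
        (Subspace.dual_finrank_eq).symm).1 hinj f
      have hy0 : y ≠ 0 := by
        rintro rfl
        rw [map_zero] at hy
        exact hf0 hy.symm
      have hbd : ∀ x z, b (d₁ (x, z)) y = 0 := by
        intro x z
        have h1 : f (d₁ (x, z)) = 0 := hf ⟨(x, z), rfl⟩
        rw [← hy] at h1
        exact h1
      apply hy0
      rw [LinearMap.ker_eq_bot'] at h
      apply h
      have hNy : N y = 0 := by
        apply hb₂
        intro x
        have h1 := hbd x 0
        rw [hd₁a, map_zero, smul_zero, smul_zero, sub_zero, sub_zero, hbN, neg_eq_zero] at h1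
        exact h1
      have hFy : c⁻¹ • F y - y = 0 := by
        apply hb₂
        intro x
        -- `F` is surjective
        have hFs : Function.Surjective F := by
          rw [← LinearMap.injective_iff_surjective, ← LinearMap.ker_eq_bot,
            LinearMap.ker_eq_bot']
          intro z hz
          apply hb₁
          intro z'
          have h1 := hbF z z'
          rw [hz, map_zero, LinearMap.zero_apply, mul_zero] at h1
          exact (mul_eq_zero.1 h1.symm).resolve_left (pow_ne_zero _ hc)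
        obtain ⟨z, rfl⟩ := hFs x
        have h1 := hbd 0 z
        rw [hd₁a, map_zero, zero_sub, map_neg, LinearMap.neg_apply, neg_eq_zero, map_sub,
          LinearMap.sub_apply, sub_eq_zero, map_smul, map_smul, LinearMap.smul_apply,
          LinearMap.smul_apply, smul_eq_mul, smul_eq_mul] at h1
        have h2 := hbF z y
        rw [map_sub, map_smul, smul_eq_mul]
        have h3 : q * (b (F z) (F y)) = c ^ 2 * (q * (c⁻¹ * b (F z) y)) := by rw [h1, h2]
        have h4 : q * (b (F z) (F y)) = q * (c * b (F z) y) := by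
          rw [h3]; field_simp
        have h5 := mul_left_cancel₀ hq h4
        rw [h5, ← mul_assoc, inv_mul_cancel₀ hc, one_mul, sub_self]
      rw [hd₀a, hFy, hNy]
      rfl
    have h1 : Module.finrank E (LinearMap.range d₁) = Module.finrank E V := by
      rw [htop, finrank_top]
    have h0 : Module.finrank E (LinearMap.ker d₀) = 0 := by rw [h, finrank_bot]
    exact (Submodule.eq_of_le_of_finrank_eq hle (by omega)).ge
  · intro h
    have heq := le_antisymm hle h
    have h1 : Module.finrank E (LinearMap.range d₁) ≤ Module.finrank E V :=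
      Submodule.finrank_le _
    have h2 : Module.finrank E (LinearMap.ker d₀) = 0 := by
      rw [heq] at e₀
      omega
    exact Submodule.finrank_eq_zero.1 h2

end Pool.Agent.TH122.Wm
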