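import Pool.Agent.TH122.WmB

/-!
# The cohomology of projective semistable schemes
-/

open Module TensorProduct

universe u v

namespace Pool.Agent.TH122.Wm

section Maps

variable {E : Type u} [Field E] {V : Type v} [AddCommGroup V] [Module E V] {V' : Type v}
  [AddCommGroup V'] [Module E V'] {V'' : Type v} [AddCommGroup V''] [Module E V'']

/-- The map `ψ` is injective and compatible with the operators, for an extension of the base field of
residue degree `m` and ramification index `e`. -/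
structure IsExtensionMap (F N : Module.End E V) (F' N' : Module.End E V') (m e : ℕ)
    (ψ : V →ₗ[E] V') : Prop where
  inj : Function.Injective ψ
  F : ∀ x, ψ ((F ^ m) x) = F' (ψ x)
  N : ∀ x, ψ ((e : E) • N x) = N' (ψ x)

/-- The map `φ` from the tensor product is injective and compatible with the operators, for two
extensions of the base fields of residue degrees `m`, `m'` and ramification indices `e`, `e'`. -/
structure IsKunnethMap (F N : Module.End E V) (F' N' : Module.End E V')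
    (F'' N'' : Module.End E V'') (m e m' e' : ℕ) (φ : (V ⊗[E] V') →ₗ[E] V'') : Prop where
  inj : Function.Injective φ
  F : ∀ x y, F'' (φ (x ⊗ₜ y)) = φ ((F ^ m) x ⊗ₜ (F' ^ m') y)
  N : ∀ x y, N'' (φ (x ⊗ₜ y)) = φ (((e : E) • N x) ⊗ₜ y + x ⊗ₜ ((e' : E) • N' y))

/-- The bilinear form `b` is perfect, `F` multiplies it by `c`, and `N` is antisymmetric. -/
structure IsDuality (c : E) (F N : Module.End E V) (b : V →ₗ[E] V →ₗ[E] E) : Prop where
  left : ∀ x, (∀ y, b x y = 0) → x = 0
  right : ∀ y, (∀ x, b x y = 0) → y = 0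
  F : ∀ x y, b (F x) (F y) = c * b x y
  N : ∀ x y, b (N x) y = - b x (N y)

/-- The map `L` is bijective, commutes with `N`, and `F L = c L F`. -/
structure IsTwistMap (c : E) (F N : Module.End E V) (F' N' : Module.End E V')
    (L : V →ₗ[E] V') : Prop where
  bij : Function.Bijective L
  F : ∀ x, F' (L x) = c • L (F x)
  N : ∀ x, N' (L x) = L (N x)

end Maps

/-- The `ℓ`-adic cohomology of the projective semistable schemes over the valuation rings of the finite
extensions of a local field `K` with residue field of characteristic `p`, with coefficients in an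
algebraic closure `E` of `ℚ_ℓ`: a list of known facts. -/
structure Theory (E : Type u) [Field E] [CharZero E] where
  /-- the pairs of a finite extension `K'` of `K` and a projective semistable scheme `X` over its
  valuation ring -/
  Obj : Type v
  /-- the dimension of the generic fibre of `X` -/
  dim : Obj → ℕ
  p : ℕ
  one_lt : 1 < p
  /-- the residue field of `K'` has `p ^ deg X` elements -/
  deg : Obj → ℕ
  deg_pos : ∀ X, 0 < deg X
  /-- the cohomology of the geometric generic fibre of `X` -/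
  H : Obj → ℕ → ModuleCat.{v} E
  finite : ∀ X i, Module.Finite E (H X i)
  /-- a geometric Frobenius element of the Galois group of `K'` -/
  F : ∀ X i, Module.End E (H X i)
  /-- the logarithm of the action of inertia -/
  N : ∀ X i, Module.End E (H X i)
  N_F : ∀ X i x, N X i (F X i x) = ((p : E) ^ deg X) • F X i (N X i x)
  /-- the eigenvalues of Frobenius are Weil numbers -/
  weights : ∀ X i α, (F X i).HasEigenvalue α → ∃ w : ℤ, IsWeilNumber (p ^ deg X) w α
  vanishing : ∀ X i, 2 * dim X < i → ∀ x : H X i, x = 0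
  /-- Poincare duality and hard Lefschetz: `H ^ i` is dual to `H ^ i (i)` -/
  duality : ∀ X i, ∃ b, IsDuality (((p : E) ^ deg X) ^ i) (F X i) (N X i) b
  /-- hard Lefschetz -/
  lefschetz : ∀ X d, d ≤ dim X → ∃ L, IsTwistMap (((p : E) ^ deg X) ^ d)
    (F X (dim X - d)) (N X (dim X - d)) (F X (dim X + d)) (N X (dim X + d)) L
  /-- extension of the base field -/
  extension : ∀ X m, 0 < m → ∃ Z e, 0 < e ∧ deg Z = m * deg X ∧
    ∀ i, ∃ ψ, IsExtensionMap (F X i) (N X i) (F Z i) (N Z i) m e ψ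
  /-- the weak Lefschetz theorem for a linear section `Z` of dimension `i` -/
  linearSection : ∀ X i, i ≤ dim X → ∃ Z m e, 0 < m ∧ 0 < e ∧ dim Z = i ∧ deg Z = m * deg X ∧
    ∃ ψ, IsExtensionMap (F X i) (N X i) (F Z i) (N Z i) m e ψ
  /-- products (over a common extension of the base fields) and the Kunneth formula -/
  product : ∀ X Y, ∃ Z m e m' e', 0 < m ∧ 0 < e ∧ 0 < m' ∧ 0 < e' ∧ deg Z = m * deg X ∧
    deg Z = m' * deg Y ∧ ∀ i j, ∃ φ, IsKunnethMap (F X i) (N X i) (F Y j) (N Y j) (F Z (i + j))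
      (N Z (i + j)) m e m' e' φ
  /-- an elliptic curve with split multiplicative reduction -/
  tate : ∃ (T : Obj) (u : H T 1), F T 1 u = ((p : E) ^ deg T) • u ∧ N T 1 u ≠ 0 ∧
    N T 1 (N T 1 u) = 0
  /-- Honda-Tate theory: up to a root of unity, the complex conjugates of the eigenvalues of Frobenius
  are eigenvalues of Frobenius on the cohomology of abelian varieties with good reduction -/
  honda : ∀ X i (w : ℕ) α, (F X i).HasEigenvalue α → IsWeilNumber (p ^ deg X) w α →
    ∃ (B : Obj) (β : E) (y : H B w) (m : ℕ), 0 < m ∧ y ≠ 0 ∧ N B w y = 0 ∧ F B w y = β • y ∧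
      (α ^ deg B * β ^ deg X) ^ m = (p : E) ^ (w * (deg X * deg B) * m)

attribute [instance] Theory.finite

variable {E : Type u} [Field E] [CharZero E]

namespace Theory

variable (𝒯 : Theory.{u, v} E)

/-- The number of elements of the residue field. -/
def q (X : 𝒯.Obj) : ℕ := 𝒯.p ^ 𝒯.deg X

/-- **The monodromy-weight conjecture** for all projective semistable schemes and all degrees. -/
def MonodromyWeight : Prop := ∀ X i, IsMwPure (𝒯.q X) i (𝒯.F X i) (𝒯.N X i)

/-- The weights of the invariants of inertia in `H ^ i` are at most `i`. -/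
def WeightsAtMost : Prop := ∀ X i (α : E) (w : ℤ) (x : 𝒯.H X i), x ≠ 0 → 𝒯.N X i x = 0 →
  𝒯.F X i x = α • x → IsWeilNumber (𝒯.q X) w α → w ≤ i

/-- The number `i + 1` is not a weight of the invariants of inertia in `H ^ i`. -/
def NextWeightMissing : Prop := ∀ X i (α : E) (x : 𝒯.H X i), x ≠ 0 → 𝒯.N X i x = 0 →
  𝒯.F X i x = α • x → ¬ IsWeilNumber (𝒯.q X) (i + 1) α

/-- If the dimension of `X` is `2 j - 1`, then `H ^ 0 (K', H ^ (2 j - 1) (X) (j)) = 0`. -/
def NoGaloisInvariants : Prop := ∀ X j, 𝒯.dim X + 1 = 2 * j →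
  NoInvariants ((𝒯.q X : E) ^ j) (𝒯.F X (2 * j - 1)) (𝒯.N X (2 * j - 1))

/-- If the dimension of `X` is `2 j - 1`, then `H ^ 1 (K', H ^ (2 j - 1) (X) (j)) = 0`. -/
def NoGaloisCohomology : Prop := ∀ X j, 𝒯.dim X + 1 = 2 * j →
  NoCohomology (𝒯.q X : E) ((𝒯.q X : E) ^ j) (𝒯.F X (2 * j - 1)) (𝒯.N X (2 * j - 1))

variable {𝒯}

lemma one_lt_q (X : 𝒯.Obj) : 1 < 𝒯.q X := Nat.one_lt_pow (𝒯.deg_pos X).ne' 𝒯.one_lt

lemma q_cast (X : 𝒯.Obj) : (𝒯.q X : E) = (𝒯.p : E) ^ 𝒯.deg X := by
  rw [q, Nat.cast_pow]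

lemma q_ne (X : 𝒯.Obj) : (𝒯.q X : E) ≠ 0 := by
  exact_mod_cast (by have := one_lt_q X; omega : 𝒯.q X ≠ 0)

lemma NF (X : 𝒯.Obj) (i : ℕ) (x : 𝒯.H X i) :
    𝒯.N X i (𝒯.F X i x) = (𝒯.q X : E) • 𝒯.F X i (𝒯.N X i x) := by
  rw [q_cast]; exact 𝒯.N_F X i x

lemma q_mul {X Z : 𝒯.Obj} {m : ℕ} (h : 𝒯.deg Z = m * 𝒯.deg X) : 𝒯.q Z = 𝒯.q X ^ m := by
  rw [q, q, h, ← pow_mul, mul_comm]

/-- (1) implies (2). -/
theorem weights_of_mw (hE : Nonempty (E →+* ℂ)) (h : 𝒯.MonodromyWeight) : 𝒯.WeightsAtMost := by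
  intro X i α w x hx0 hN hF hα
  obtain ⟨M, hM, hMF, hpure⟩ := h X i
  have hq := one_lt_q X
  obtain ⟨c, hc⟩ := hM.top
  obtain ⟨d, hd⟩ := hM.bot
  have hbdd : ∀ a : ℤ, x ∈ M a → d ≤ a := by
    intro a ha
    by_contra hlt
    have h1 : x ∈ M d := hM.mono (by omega) ha
    rw [hd, Submodule.mem_bot] at h1
    exact hx0 h1
  obtain ⟨a, ha, hmin⟩ := Int.exists_least_of_bdd (P := fun a => x ∈ M a) ⟨d, hbdd⟩
    ⟨c, by rw [hc]; trivial⟩
  have hna : x ∉ M (a - 1) := fun h1 => by
    have := hmin _ h1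
    omega
  have h1 : IsWeilNumber (𝒯.q X) (i + a) α := hpure a α x ha hna (by
    rw [hF, sub_self]; exact Submodule.zero_mem _)
  have h2 := hα.unique hE hq h1
  by_contra hlt
  obtain ⟨b, rfl⟩ := Int.eq_ofNat_of_zero_le (show 0 ≤ a by omega)
  apply hna
  apply hM.inj b x ha
  obtain ⟨b', rfl⟩ : ∃ b', b = b' + 1 := ⟨b - 1, by omega⟩
  rw [pow_succ, Module.End.mul_apply, hN, map_zero]
  exact Submodule.zero_mem _

/-- (2) implies (3). -/
theorem next_of_weights (h : 𝒯.WeightsAtMost) : 𝒯.NextWeightMissing := by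
  intro X i α x hx hN hF hα
  have := h X i α (i + 1) x hx hN hF hα
  omega

/-- (3) implies (4). -/
theorem invariants_of_next (h : 𝒯.NextWeightMissing) : 𝒯.NoGaloisInvariants := by
  intro X j hj x hF hN
  by_contra hx
  refine h X (2 * j - 1) _ x hx hN hF ?_
  have h1 := isWeilNumber_q (E := E) (𝒯.q X) j
  have h2 : (((2 * j - 1 : ℕ) : ℤ) + 1) = 2 * j := by omega
  rw [h2]
  exact h1

/-- (4) is equivalent to (5). -/
theorem invariants_iff : 𝒯.NoGaloisInvariants ↔ 𝒯.NoGaloisCohomology := by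
  have key : ∀ X j, 𝒯.dim X + 1 = 2 * j →
      (NoInvariants ((𝒯.q X : E) ^ j) (𝒯.F X (2 * j - 1)) (𝒯.N X (2 * j - 1)) ↔
        NoCohomology (𝒯.q X : E) ((𝒯.q X : E) ^ j) (𝒯.F X (2 * j - 1))
          (𝒯.N X (2 * j - 1))) := by
    intro X j hj
    obtain ⟨b, hb⟩ := 𝒯.duality X (2 * j - 1)
    refine noInvariants_iff (q_ne X) (pow_ne_zero _ (q_ne X)) (NF X _) hb.left hb.right ?_ hb.N
    intro x y
    rw [hb.F, ← q_cast, ← mul_assoc, ← pow_succ', ← pow_mul, mul_comm j 2,
      show 2 * j - 1 + 1 = 2 * j by omega]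
  exact ⟨fun h X j hj => (key X j hj).1 (h X j hj), fun h X j hj => (key X j hj).2 (h X j hj)⟩

end Theory

end Pool.Agent.TH122.Wm
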