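import Pool.Agent.TH122.WmC

/-!
# The monodromy-weight conjecture and Galois cohomology
-/

open Module TensorProduct

universe u v

namespace Pool.Agent.TH122.Wm

section Linear

variable {E : Type u} [Field E] {V : Type v} [AddCommGroup V] [Module E V]

lemma exists_functional {x : V} (hx : x ≠ 0) : ∃ f : V →ₗ[E] E, f x ≠ 0 := by
  by_contra hcon
  push Not at hcon
  exact hx ((Module.forall_dual_apply_eq_zero_iff E _).1 hcon)

lemma tmul_ne {W : Type v} [AddCommGroup W] [Module E W] {x : V} {y : W} (hx : x ≠ 0)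
    (hy : y ≠ 0) : x ⊗ₜ[E] y ≠ 0 := by
  obtain ⟨f, hf⟩ := exists_functional (E := E) hx
  obtain ⟨g, hg⟩ := exists_functional (E := E) hy
  intro h
  have h1 := congrArg (fun t => TensorProduct.lid E E (TensorProduct.map f g t)) h
  beta_reduce at h1
  rw [TensorProduct.map_tmul, TensorProduct.lid_tmul, map_zero, map_zero, smul_eq_mul] at h1
  exact mul_ne_zero hf hg h1

lemma pow_eigen {F : Module.End E V} {x : V} {α : E} (h : F x = α • x) (m : ℕ) :
    (F ^ m) x = α ^ m • x := by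
  induction m with
  | zero => simp
  | succ m ih => rw [pow_succ', Module.End.mul_apply, ih, map_smul, h, smul_smul, pow_succ]

lemma NF_pow {F N : Module.End E V} {q : E} (h : ∀ x, N (F x) = q • F (N x)) (m : ℕ) (x : V) :
    N ((F ^ m) x) = q ^ m • (F ^ m) (N x) := by
  induction m with
  | zero => simp
  | succ m ih =>
    rw [pow_succ', Module.End.mul_apply, h, ih, map_smul, smul_smul, pow_succ',
      Module.End.mul_apply]

lemma N_pow_F {F N : Module.End E V} {q : E} (h : ∀ x, N (F x) = q • F (N x)) (m : ℕ) (x : V) :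
    (N ^ m) (F x) = q ^ m • F ((N ^ m) x) := by
  induction m with
  | zero => simp
  | succ m ih =>
    rw [pow_succ', Module.End.mul_apply, ih, map_smul, h, smul_smul, pow_succ',
      Module.End.mul_apply, mul_comm (q ^ m) q]

lemma smul_pow_apply {N : Module.End E V} (e : E) (m : ℕ) (x : V) :
    ((e • N) ^ m) x = e ^ m • (N ^ m) x := by
  rw [smul_pow, LinearMap.smul_apply]

end Linear

namespace Theory

variable {E : Type u} [Field E] [CharZero E] {𝒯 : Theory.{u, v} E}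

/-- (4) for all degrees and all dimensions. -/
lemma noInvariants_all (h : 𝒯.NoGaloisInvariants) (X : 𝒯.Obj) (j i : ℕ) (hi : i + 1 = 2 * j) :
    NoInvariants ((𝒯.q X : E) ^ j) (𝒯.F X i) (𝒯.N X i) := by
  have key : ∀ X j i, i + 1 = 2 * j → i ≤ 𝒯.dim X →
      NoInvariants ((𝒯.q X : E) ^ j) (𝒯.F X i) (𝒯.N X i) := by
    intro X j i hi hle x hF hN
    obtain ⟨Z, m, e, hm, he, hdim, hdeg, ψ, hψ⟩ := 𝒯.linearSection X i hle
    obtain rfl : i = 2 * j - 1 := by omega
    have h1 := h Z j (by omega) (ψ x)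
    have h2 : ψ x = 0 := by
      apply h1
      · rw [← hψ.F, pow_eigen hF, map_smul, q_mul hdeg]
        push_cast
        rw [← pow_mul, ← pow_mul, mul_comm j m]
      · rw [← hψ.N, hN, smul_zero, map_zero]
    exact hψ.inj (by rw [h2, map_zero])
  by_cases h1 : i ≤ 𝒯.dim X
  · exact key X j i hi h1
  by_cases h2 : i ≤ 2 * 𝒯.dim X
  · obtain ⟨d, rfl⟩ : ∃ d, i = 𝒯.dim X + d := ⟨i - 𝒯.dim X, by omega⟩
    obtain ⟨L, hL⟩ := 𝒯.lefschetz X d (by omega)
    intro x hF hN
    obtain ⟨y, rfl⟩ := hL.bij.2 x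
    have hy : y = 0 := by
      refine key X (j - d) (𝒯.dim X - d) (by omega) (by omega) y ?_ ?_
      · apply hL.bij.1
        have h3 := hL.F y
        rw [hF, ← q_cast] at h3
        have h4 : (𝒯.q X : E) ^ j = (𝒯.q X : E) ^ d * (𝒯.q X : E) ^ (j - d) := by
          rw [← pow_add]; congr 1; omega
        rw [h4, mul_smul] at h3
        have h5 := smul_right_injective _ (pow_ne_zero d (q_ne X)) h3
        rw [← h5, map_smul]
      · apply hL.bij.1
        rw [← hL.N, hN, map_zero]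
    rw [hy, map_zero]
  · intro x _ _
    exact 𝒯.vanishing X i (by omega) x

/-- (4) implies (3). -/
theorem next_of_invariants (h : 𝒯.NoGaloisInvariants) : 𝒯.NextWeightMissing := by
  intro X i α x hx hN hF hα
  have hev : (𝒯.F X i).HasEigenvalue α :=
    Module.End.hasEigenvalue_of_hasEigenvector
      ((Module.End.hasEigenvector_iff).2 ⟨Module.End.mem_eigenspace_iff.2 hF, hx⟩)
  obtain ⟨B, β, y, m, hm, hy, hNy, hFy, hαβ⟩ := 𝒯.honda X i (i + 1) α hev (by
    push_cast; exact hα)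
  obtain ⟨Z, m₁, e₁, m₂, e₂, hm₁, he₁, hm₂, he₂, hd₁, hd₂, hφ⟩ := 𝒯.product X B
  obtain ⟨φ, hφ⟩ := hφ i (i + 1)
  set z := φ (x ⊗ₜ y) with hz
  have hz0 : z ≠ 0 := by
    rw [hz, ← map_zero φ]
    intro h0
    exact tmul_ne hx hy (hφ.inj h0)
  have hNz : 𝒯.N Z (i + (i + 1)) z = 0 := by
    rw [hz, hφ.N, hN, hNy, smul_zero, smul_zero, TensorProduct.zero_tmul,
      TensorProduct.tmul_zero, add_zero, map_zero]
  have hFz : 𝒯.F Z (i + (i + 1)) z = (α ^ m₁ * β ^ m₂) • z := by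
    rw [hz, hφ.F, pow_eigen hF, pow_eigen hFy, TensorProduct.smul_tmul_smul, map_smul]
  obtain ⟨Z', e, he, hd, hψ⟩ := 𝒯.extension Z (𝒯.deg B * m)
    (Nat.mul_pos (𝒯.deg_pos B) hm)
  obtain ⟨ψ, hψ⟩ := hψ (i + (i + 1))
  have h1 : ψ z = 0 := by
    refine noInvariants_all h Z' (i + 1) (i + (i + 1)) (by omega) (ψ z) ?_ ?_
    · rw [← hψ.F, pow_eigen hFz, map_smul]
      congr 1
      have e1 : (α ^ m₁ * β ^ m₂) ^ (𝒯.deg B * m) =
          ((α ^ 𝒯.deg B * β ^ 𝒯.deg X) ^ m) ^ m₁ := by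
        rw [mul_pow, mul_pow, mul_pow, ← pow_mul, ← pow_mul, ← pow_mul, ← pow_mul, ← pow_mul,
          ← pow_mul]
        have e2 : m₂ * (𝒯.deg B * m) = 𝒯.deg X * m * m₁ := by
          rw [← mul_assoc, ← hd₂, hd₁]; ring
        rw [e2]
        ring
      rw [e1, hαβ, q_cast, hd, hd₁, ← pow_mul, ← pow_mul]
      congr 1
      ring
    · rw [← hψ.N, hNz, smul_zero, map_zero]
  exact hz0 (hψ.inj (by rw [h1, map_zero]))

/-- Powers of an elliptic curve with split multiplicative reduction. -/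
lemma tate_pow (k : ℕ) (hk : 1 ≤ k) : ∃ (T : 𝒯.Obj) (y : 𝒯.H T k),
    𝒯.F T k y = ((𝒯.q T : E) ^ k) • y ∧ (𝒯.N T k ^ k) y ≠ 0 ∧ (𝒯.N T k ^ (k + 1)) y = 0 := by
  obtain ⟨T₀, u, hu, hu1, hu2⟩ := 𝒯.tate
  induction k, hk using Nat.le_induction with
  | base =>
    refine ⟨T₀, u, ?_, ?_, ?_⟩
    · rw [pow_one, q_cast]; exact hu
    · rw [pow_one]; exact hu1
    · rw [pow_succ, pow_one, Module.End.mul_apply]; exact hu2
  | succ k hk ih =>
    obtain ⟨T, y, hy, hy1, hy2⟩ := ih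
    obtain ⟨Z, m, e, m', e', hm, he, hm', he', hd, hd', hφ⟩ := 𝒯.product T T₀
    obtain ⟨φ, hφ⟩ := hφ k 1
    have he0 : (e : E) ≠ 0 := by exact_mod_cast he.ne'
    have he0' : (e' : E) ≠ 0 := by exact_mod_cast he'.ne'
    set v := 𝒯.N T₀ 1 u with hv
    have hA : ∀ a : 𝒯.H T k, 𝒯.N Z (k + 1) (φ (a ⊗ₜ u)) =
        (e : E) • φ (𝒯.N T k a ⊗ₜ u) + (e' : E) • φ (a ⊗ₜ v) := by
      intro a
      rw [hφ.N, map_add, TensorProduct.tmul_smul, map_smul, ← TensorProduct.smul_tmul', map_smul]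
    have hB : ∀ a : 𝒯.H T k, 𝒯.N Z (k + 1) (φ (a ⊗ₜ v)) =
        (e : E) • φ (𝒯.N T k a ⊗ₜ v) := by
      intro a
      rw [hφ.N, map_add, hu2, smul_zero, TensorProduct.tmul_zero, map_zero, add_zero,
        ← TensorProduct.smul_tmul', map_smul]
    have hpow : ∀ (n : ℕ) (a : 𝒯.H T k), (𝒯.N Z (k + 1) ^ (n + 1)) (φ (a ⊗ₜ u)) =
        ((e : E) ^ (n + 1)) • φ ((𝒯.N T k ^ (n + 1)) a ⊗ₜ u) +
          (((n + 1 : ℕ) : E) * ((e : E) ^ n * e')) • φ ((𝒯.N T k ^ n) a ⊗ₜ v) := by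
      intro n
      induction n with
      | zero =>
        intro a
        rw [zero_add, pow_one, pow_one, pow_one, hA, pow_zero, pow_zero, Module.End.one_apply,
          Nat.cast_one, one_mul, one_mul]
      | succ n ih =>
        intro a
        rw [pow_succ', Module.End.mul_apply, ih, map_add, map_smul, map_smul, hA, hB,
          ← Module.End.mul_apply (𝒯.N T k), ← pow_succ', ← Module.End.mul_apply (𝒯.N T k),
          ← pow_succ']
        push_cast
        module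
    refine ⟨Z, φ (y ⊗ₜ u), ?_, ?_, ?_⟩
    · rw [hφ.F, pow_eigen hy, pow_eigen hu, TensorProduct.smul_tmul_smul, map_smul]
      congr 1
      rw [← q_cast, pow_succ, q_mul hd]
      push_cast
      have h1 : ((𝒯.q T : E) ^ m) = (𝒯.q T₀ : E) ^ m' := by
        have := q_mul hd'
        rw [q_mul hd] at this
        exact_mod_cast congrArg (Nat.cast (R := E)) this
      rw [← h1, ← pow_mul, ← pow_mul, mul_comm k m]
    · rw [hpow k y, hy2, TensorProduct.zero_tmul, map_zero, smul_zero, zero_add]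
      refine smul_ne_zero (mul_ne_zero (by exact_mod_cast Nat.succ_ne_zero k)
        (mul_ne_zero (pow_ne_zero _ he0) he0')) ?_
      rw [← map_zero φ]
      intro h0
      exact tmul_ne hy1 hu1 (hφ.inj h0)
    · rw [hpow (k + 1) y, pow_succ' (𝒯.N T k), Module.End.mul_apply, hy2, map_zero,
        TensorProduct.zero_tmul, TensorProduct.zero_tmul, map_zero, smul_zero, smul_zero, add_zero]

end Theory

end Pool.Agent.TH122.Wm
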